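import Pool.Agent.Helper22.Stek.Hps2

/-! # The upper bounds by the lengths of the boundary circles -/

set_option autoImplicit false
open Real MeasureTheory Set ComplexConjugate

namespace Pool.Agent.Helper22.Stek

lemma int_pol_re (c : ℕ → ℂ) (N : ℕ) :
    ∫ θ in (0:ℝ)..(2 * π), (ee θ * pol c N (ee θ)).re = 0 := by
  have hd : Differentiable ℂ fun z => z * pol c N z := differentiable_id.mul (pol_diff _ _)
  have hc : Continuous fun θ => ee θ * pol c N (ee θ) := hd.continuous.comp ee_cont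
  rw [int_re' hc, mvp' (g := fun z => z * pol c N z) hd]
  simp

lemma int_pol_re_sq (c : ℕ → ℂ) (N : ℕ) : ∫ θ in (0:ℝ)..(2 * π), (ee θ * pol c N (ee θ)).re ^ 2 =
    π * ∑ n ∈ Finset.range N, Complex.normSq (c n) := by
  have hd : Differentiable ℂ fun z => z * pol c N z := differentiable_id.mul (pol_diff _ _)
  have hc : Continuous fun θ => ee θ * pol c N (ee θ) := hd.continuous.comp ee_cont
  have c1 : Continuous fun θ => Complex.normSq (ee θ * pol c N (ee θ)) :=
    Complex.continuous_normSq.comp hc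
  have c2 : Continuous fun θ => (ee θ * pol c N (ee θ)) ^ 2 := hc.pow 2
  have c3 : Continuous fun θ => ((ee θ * pol c N (ee θ)) ^ 2).re := Complex.continuous_re.comp c2
  simp_rw [re_sq_half]
  rw [intervalIntegral.integral_add ((c1.const_mul _).intervalIntegrable _ _)
    ((c3.const_mul _).intervalIntegrable _ _), intervalIntegral.integral_const_mul,
    intervalIntegral.integral_const_mul, int_re' c2,
    mvp' (g := fun z => (z * pol c N z) ^ 2) (hd.pow 2)]
  have e1 : ∀ θ, Complex.normSq (ee θ * pol c N (ee θ)) =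
      Complex.normSq (pol c N (ee θ)) := by
    intro θ
    rw [Complex.normSq_mul, ee_normSq, one_mul]
  simp_rw [e1]
  rw [int_normSq_pol]
  simp
  ring

lemma int_trig2 (c0 : ℝ) (u v : ℂ) :
    ∫ θ in (0:ℝ)..(2 * π), (c0 + (u * ee θ + v * ee θ ^ 2).re) ^ 2 =
      2 * π * c0 ^ 2 + π * (Complex.normSq u + Complex.normSq v) := by
  set c : ℕ → ℂ := fun n => if n = 0 then u else v with hc
  have e : ∀ θ, u * ee θ + v * ee θ ^ 2 = ee θ * pol c 2 (ee θ) := by
    intro θ
    simp [pol, Finset.sum_range_succ, hc]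
    ring
  have h1 := int_pol_re c 2
  have h2 := int_pol_re_sq c 2
  simp_rw [e]
  set g : ℝ → ℝ := fun θ => (ee θ * pol c 2 (ee θ)).re with hg
  have hgc : Continuous g := by
    have hd : Differentiable ℂ fun z => z * pol c 2 z := differentiable_id.mul (pol_diff _ _)
    exact Complex.continuous_re.comp (hd.continuous.comp ee_cont)
  change ∫ θ in (0:ℝ)..(2 * π), (c0 + g θ) ^ 2 = _
  have e2 : ∀ θ, (c0 + g θ) ^ 2 = c0 ^ 2 + 2 * c0 * g θ + g θ ^ 2 := fun θ => by ring
  simp_rw [e2]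
  rw [intervalIntegral.integral_add (Continuous.intervalIntegrable (by fun_prop) _ _)
    (Continuous.intervalIntegrable (by fun_prop) _ _), intervalIntegral.integral_add
    (Continuous.intervalIntegrable (by fun_prop) _ _)
    (Continuous.intervalIntegrable (by fun_prop) _ _), intervalIntegral.integral_const_mul,
    intervalIntegral.integral_const]
  have h1' : ∫ θ in (0:ℝ)..(2 * π), g θ = 0 := h1
  have h2' : ∫ θ in (0:ℝ)..(2 * π), g θ ^ 2 = π * ∑ n ∈ Finset.range 2, Complex.normSq (c n) := h2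
  rw [h1', h2']
  simp [Finset.sum_range_succ, hc]

lemma ee_re (θ : ℝ) : (ee θ).re = cos θ := by
  rw [ee_exp, Complex.exp_ofReal_mul_I_re]

lemma ee_im (θ : ℝ) : (ee θ).im = sin θ := by
  rw [ee_exp, Complex.exp_ofReal_mul_I_im]

lemma ee2_re (θ : ℝ) : (ee θ ^ 2).re = cos (2 * θ) := by
  rw [ee_pow, Complex.exp_ofReal_mul_I_re]
  norm_num

lemma ee2_im (θ : ℝ) : (ee θ ^ 2).im = sin (2 * θ) := by
  rw [ee_pow, Complex.exp_ofReal_mul_I_im]
  norm_num

/-- the arc length, normalised to `2 π` -/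
noncomputable def arc (ρ : ℝ → ℝ) (θ : ℝ) : ℝ :=
  2 * π / (∫ t in (0:ℝ)..(2 * π), ρ t) * ∫ t in (0:ℝ)..θ, ρ t

section

variable {ρ : ℝ → ℝ}

lemma arc_deriv (hρ : Continuous ρ) (θ : ℝ) :
    HasDerivAt (arc ρ) (2 * π / (∫ t in (0:ℝ)..(2 * π), ρ t) * ρ θ) θ :=
  (intervalIntegral.integral_hasDerivAt_right (hρ.intervalIntegrable _ _)
    hρ.aestronglyMeasurable.stronglyMeasurableAtFilter hρ.continuousAt).const_mul _

lemma arc_zero : arc ρ 0 = 0 := by simp [arc]

lemma arc_two (hl : 0 < ∫ t in (0:ℝ)..(2 * π), ρ t) : arc ρ (2 * π) = 2 * π := by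
  unfold arc
  exact div_mul_cancel₀ _ hl.ne'

lemma arc_per (hρ : Continuous ρ) (hp : ∀ θ, ρ (θ + 2 * π) = ρ θ)
    (hl : 0 < ∫ t in (0:ℝ)..(2 * π), ρ t) (θ : ℝ) : arc ρ (θ + 2 * π) = arc ρ θ + 2 * π := by
  have h1 : (∫ t in (0:ℝ)..(θ + 2 * π), ρ t) = (∫ t in (0:ℝ)..θ, ρ t) +
      ∫ t in (0:ℝ)..(2 * π), ρ t := by
    rw [← intervalIntegral.integral_add_adjacent_intervals (hρ.intervalIntegrable 0 θ)
      (hρ.intervalIntegrable θ (θ + 2 * π))]
    congr 1
    have := (show Function.Periodic ρ (2 * π) from hp).intervalIntegral_add_eq θ 0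
    rwa [zero_add] at this
  unfold arc
  rw [h1, mul_add, div_mul_cancel₀ _ hl.ne']

lemma arc_cont (hρ : Continuous ρ) : Continuous (arc ρ) :=
  continuous_iff_continuousAt.2 fun x => (arc_deriv hρ x).continuousAt

/-- integrals with respect to the arc length -/
lemma int_arc (hρ : Continuous ρ) (hl : 0 < ∫ t in (0:ℝ)..(2 * π), ρ t) {F : ℝ → ℝ}
    (hF : Continuous F) : ∫ θ in (0:ℝ)..(2 * π), F (arc ρ θ) * ρ θ =
      (∫ t in (0:ℝ)..(2 * π), ρ t) / (2 * π) * ∫ x in (0:ℝ)..(2 * π), F x := by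
  have h := intervalIntegral.integral_comp_mul_deriv (a := 0) (b := 2 * π) (f := arc ρ)
    (f' := fun θ => 2 * π / (∫ t in (0:ℝ)..(2 * π), ρ t) * ρ θ) (g := F)
    (fun θ _ => arc_deriv hρ θ) (Continuous.continuousOn (by fun_prop)) hF
  rw [arc_zero, arc_two hl] at h
  rw [← h, ← intervalIntegral.integral_const_mul]
  refine intervalIntegral.integral_congr fun θ _ => ?_
  simp only [Function.comp]
  field_simp

/-- the boundary data in terms of the arc length: value -/
lemma arc_val (hρ : Continuous ρ) (hl : 0 < ∫ t in (0:ℝ)..(2 * π), ρ t) (c0 : ℝ) (u v : ℂ) :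
    ∫ θ in (0:ℝ)..(2 * π), (c0 + (u * ee (arc ρ θ) + v * ee (arc ρ θ) ^ 2).re) ^ 2 * ρ θ =
      (∫ t in (0:ℝ)..(2 * π), ρ t) *
        (c0 ^ 2 + 1 / 2 * (Complex.normSq u + Complex.normSq v)) := by
  have hee := ee_cont
  have hF : Continuous fun x => (c0 + (u * ee x + v * ee x ^ 2).re) ^ 2 :=
    (continuous_const.add (Complex.continuous_re.comp (by fun_prop))).pow 2
  rw [int_arc hρ hl hF, int_trig2]
  field_simp

end

end Pool.Agent.Helper22.Stek
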