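import Pool.Agent.Helper22.Stek.Lower2

/-! # Flat cylinders are better -/

set_option autoImplicit false
open Real MeasureTheory Set

namespace Pool.Agent.Helper22.Stek

/-- some smooth metric on the annulus has a strictly larger normalised second Steklov eigenvalue,
so that `(E, F, G)` is not a maximiser -/
def NotMaximal (E F G : ℝ × ℝ → ℝ) : Prop :=
  ∃ E' F' G' : ℝ × ℝ → ℝ, IsMetric E' F' G' ∧ sigma2 E F G * len G < sigma2 E' F' G' * len G'

/-- the metric is isothermal, `G (H² dr² + dθ²)`: the annulus is conformal to the cylinder of height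
`H` and circumference `2π` -/
structure IsIsothermal (H : ℝ) (E F G : ℝ × ℝ → ℝ) : Prop where
  metric : IsMetric E F G
  pos : 0 < H
  cross : ∀ x : ℝ × ℝ, x.1 ∈ Icc (0:ℝ) 1 → F x = 0
  conf : ∀ x : ℝ × ℝ, x.1 ∈ Icc (0:ℝ) 1 → E x = H ^ 2 * G x

lemma flat_metric {H : ℝ} (hH : 0 < H) : IsMetric (fun _ => H ^ 2) (fun _ => 0) (fun _ => 1) where
  smoothE := contDiff_const
  smoothF := contDiff_const
  smoothG := contDiff_const
  per _ _ := ⟨rfl, rfl, rfl⟩
  pos _ _ := ⟨by positivity, by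
    show (0:ℝ) < H ^ 2 * 1 - 0 ^ 2
    have : 0 < H ^ 2 := by positivity
    linarith⟩

lemma flat_len : len (fun _ => 1) = 4 * π := by
  unfold len dens
  rw [integral_Icc_eq_integral_Ioc, ← intervalIntegral.integral_of_le (by positivity)]
  simp
  ring

lemma tanh_lt_one' (x : ℝ) : tanh x < 1 := by
  rw [tanh_eq_sinh_div_cosh, div_lt_one (cosh_pos _)]
  exact sinh_lt_cosh x

/-- for every `t < 1` there is a flat cylinder with `σ₂ L > 4 π t` -/
lemma exists_flat {t : ℝ} (ht : t < 1) : ∃ E' F' G' : ℝ × ℝ → ℝ, IsMetric E' F' G' ∧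
    4 * π * t < sigma2 E' F' G' * len G' := by
  -- a height with `t < tanh (H / 2)`
  obtain ⟨y, hy0, hy⟩ : ∃ y : ℝ, 0 < y ∧ t < tanh y := by
    have h1 : max t 0 ∈ Ico (0:ℝ) 1 := ⟨le_max_right _ _, max_lt ht one_pos⟩
    obtain ⟨s, hs1, hs2⟩ := exists_between h1.2
    refine ⟨artanh s, artanh_pos ⟨lt_of_le_of_lt h1.1 hs1, hs2⟩, ?_⟩
    rw [tanh_artanh ⟨by linarith [h1.1], hs2⟩]
    exact lt_of_le_of_lt (le_max_left _ _) hs1
  have hH : 0 < 2 * y := by positivity
  refine ⟨_, _, _, flat_metric hH, ?_⟩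
  have h2 := sigma2_flat_ge hH
  rw [show 2 * y / 2 = y by ring] at h2
  rw [flat_len]
  have hp := pi_pos
  nlinarith

lemma notMaximal_of_lt {E F G : ℝ × ℝ → ℝ} (h : sigma2 E F G * len G < 4 * π) :
    NotMaximal E F G := by
  have hp := pi_pos
  obtain ⟨E', F', G', hm, h'⟩ := exists_flat (t := sigma2 E F G * len G / (4 * π))
    ((div_lt_one (by positivity)).2 h)
  refine ⟨E', F', G', hm, ?_⟩
  rwa [mul_div_cancel₀ _ (by positivity)] at h'

end Pool.Agent.Helper22.Stek
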