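import Pool.Agent.Helper22.Stek.Upper3
import Pool.Agent.Helper16.Buoy.A1

/-! # The energy inequality on the flat cylinder -/

set_option autoImplicit false
open Real MeasureTheory Set

namespace Pool.Agent.Helper22.Stek

/-- the mean minimises the quadratic deviation -/
lemma mean_min {f : ℝ → ℝ} (hf : Continuous f) (b : ℝ) :
    ∫ θ in (0:ℝ)..(2 * π), (f θ - (∫ θ in (0:ℝ)..(2 * π), f θ) / (2 * π)) ^ 2 ≤
      ∫ θ in (0:ℝ)..(2 * π), (f θ - b) ^ 2 := by
  set a := (∫ θ in (0:ℝ)..(2 * π), f θ) / (2 * π) with ha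
  have hI : ∫ θ in (0:ℝ)..(2 * π), f θ = 2 * π * a := by
    rw [ha]; field_simp
  have e : ∀ t : ℝ, ∫ θ in (0:ℝ)..(2 * π), (f θ - t) ^ 2 =
      (∫ θ in (0:ℝ)..(2 * π), f θ ^ 2) - 2 * t * (2 * π * a) + 2 * π * t ^ 2 := by
    intro t
    have h1 : (fun θ => (f θ - t) ^ 2) = fun θ => f θ ^ 2 - 2 * t * f θ + t ^ 2 := by
      funext θ; ring
    rw [h1, intervalIntegral.integral_add, intervalIntegral.integral_sub,
      intervalIntegral.integral_const_mul, intervalIntegral.integral_const, hI]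
    · simp
    · exact (hf.pow 2).intervalIntegrable _ _
    · exact (continuous_const.mul hf).intervalIntegrable _ _
    · exact ((hf.pow 2).sub (continuous_const.mul hf)).intervalIntegrable _ _
    · exact continuous_const.intervalIntegrable _ _
  rw [e a, e b]
  nlinarith [mul_nonneg pi_pos.le (sq_nonneg (a - b))]

/-- **Wirtinger's inequality** on the circle -/
lemma wirt_mean {f f' : ℝ → ℝ} (hf : ∀ θ, HasDerivAt f (f' θ) θ) (hf' : Continuous f')
    (hp : Function.Periodic f (2 * π)) :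
    ∫ θ in (0:ℝ)..(2 * π), (f θ - (∫ θ in (0:ℝ)..(2 * π), f θ) / (2 * π)) ^ 2 ≤
      ∫ θ in (0:ℝ)..(2 * π), f' θ ^ 2 := by
  have hfc : Continuous f := continuous_iff_continuousAt.2 fun x => (hf x).continuousAt
  -- the derivative is periodic
  have hp' : Function.Periodic f' (2 * π) := by
    intro x
    have h1 : HasDerivAt (fun y => f (y + 2 * π)) (f' (x + 2 * π)) x :=
      (hf (x + 2 * π)).comp_add_const x (2 * π)
    have h2 : (fun y => f (y + 2 * π)) = f := funext hp
    rw [h2] at h1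
    exact h1.unique (hf x)
  -- a point with `f t = f (t + π)`
  obtain ⟨t, ht⟩ : ∃ t, f (t + π) - f t = 0 := by
    have hc : Continuous fun t => f (t + π) - f t := by fun_prop
    have h0 : f (π + π) - f π = -(f (0 + π) - f 0) := by
      have : f (π + π) = f 0 := by
        have := hp 0
        rw [zero_add] at this
        rw [← two_mul]; exact this
      rw [this, zero_add]; ring
    rcases le_total (f (0 + π) - f 0) 0 with h | h
    · have := intermediate_value_Icc pi_pos.le hc.continuousOn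
      obtain ⟨t, _, ht⟩ := this (show (0:ℝ) ∈ Icc (f (0 + π) - f 0) (f (π + π) - f π) from
        ⟨h, by rw [h0]; linarith⟩)
      exact ⟨t, ht⟩
    · have := intermediate_value_Icc' pi_pos.le hc.continuousOn
      obtain ⟨t, _, ht⟩ := this (show (0:ℝ) ∈ Icc (f (π + π) - f π) (f (0 + π) - f 0) from
        ⟨by rw [h0]; linarith, h⟩)
      exact ⟨t, ht⟩
  have hg : ∀ θ, HasDerivAt (fun θ => f (θ + t) - f t) (f' (θ + t)) θ := fun θ =>
    ((hf (θ + t)).comp_add_const θ t).sub_const (f t)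
  have hg' : Continuous fun θ => f' (θ + t) := by fun_prop
  have h1 := (Pool.Agent.Helper16.Buoy.wirtinger_full hg hg' (by simp)
    (by show f (π + t) - f t = 0; rw [add_comm]; exact ht)
    (by
      intro θ
      show f (θ + 2 * π + t) - f t = f (θ + t) - f t
      rw [show θ + 2 * π + t = θ + t + 2 * π by ring, hp])).1
  have h2 := mean_min hfc (f t)
  refine h2.trans ?_
  rw [intervalIntegral.integral_sub
    (Continuous.intervalIntegrable (by fun_prop) _ _)
    (Continuous.intervalIntegrable (by fun_prop) _ _)] at h1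
  have e1 : ∫ θ in (0:ℝ)..(2 * π), (f (θ + t) - f t) ^ 2 = ∫ θ in (0:ℝ)..(2 * π), (f θ - f t) ^ 2 := by
    rw [intervalIntegral.integral_comp_add_right (fun θ => (f θ - f t) ^ 2) t]
    have hper : Function.Periodic (fun θ => (f θ - f t) ^ 2) (2 * π) := fun θ => by
      show (f (θ + 2 * π) - f t) ^ 2 = _
      rw [hp]
    have := hper.intervalIntegral_add_eq (0 + t) 0
    rw [zero_add (2 * π)] at this
    rw [← this]
    congr 1
    ring
  have e2 : ∫ θ in (0:ℝ)..(2 * π), f' (θ + t) ^ 2 = ∫ θ in (0:ℝ)..(2 * π), f' θ ^ 2 := by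
    rw [intervalIntegral.integral_comp_add_right (fun θ => f' θ ^ 2) t]
    have hper : Function.Periodic (fun θ => f' θ ^ 2) (2 * π) := fun θ => by
      show f' (θ + 2 * π) ^ 2 = _
      rw [hp']
    have := hper.intervalIntegral_add_eq (0 + t) 0
    rw [zero_add (2 * π)] at this
    rw [← this]
    congr 1
    ring
  rw [e1, e2] at h1
  linarith

/-- the calibration in the radial direction -/
lemma calib {H : ℝ} (hH : 0 < H) {v v' : ℝ → ℝ} (hv : ∀ r, HasDerivAt v (v' r) r)
    (hv' : Continuous v') :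
    H * tanh (H / 2) * (v 0 ^ 2 + v 1 ^ 2) ≤ ∫ r in (0:ℝ)..1, (v' r ^ 2 + H ^ 2 * v r ^ 2) := by
  have hvc : Continuous v := continuous_iff_continuousAt.2 fun x => (hv x).continuousAt
  have hch : Continuous fun r : ℝ => cosh (H * (r - 1 / 2)) :=
    Real.continuous_cosh.comp (by fun_prop)
  have hsh : Continuous fun r : ℝ => sinh (H * (r - 1 / 2)) :=
    Real.continuous_sinh.comp (by fun_prop)
  have hd : ∀ r : ℝ, HasDerivAt
      (fun r => v r ^ 2 * (sinh (H * (r - 1 / 2)) / cosh (H * (r - 1 / 2))))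
      (2 * v r * v' r * (sinh (H * (r - 1 / 2)) / cosh (H * (r - 1 / 2))) +
        v r ^ 2 * (H / cosh (H * (r - 1 / 2)) ^ 2)) r := by
    intro r
    have h2 : HasDerivAt (fun r : ℝ => H * (r - 1 / 2)) H r := by
      have := ((hasDerivAt_id r).sub_const (1 / 2)).const_mul H
      rw [mul_one] at this
      exact this
    have h3 := h2.sinh.div h2.cosh (cosh_pos _).ne'
    have h4 := ((hv r).pow 2).mul h3
    refine h4.congr_deriv ?_
    have hc : cosh (H * (r - 1 / 2)) ≠ 0 := (cosh_pos _).ne'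
    have h5 := cosh_sq_sub_sinh_sq (H * (r - 1 / 2))
    simp only [Nat.cast_ofNat, Nat.add_one_sub_one, pow_one, Pi.div_apply, Pi.pow_apply]
    generalize cosh (H * (r - 1 / 2)) = C at hc h5 ⊢
    generalize sinh (H * (r - 1 / 2)) = S at h5 ⊢
    field_simp
    linear_combination (v r ^ 2 * H) * h5
  have hdc : Continuous fun r : ℝ => 2 * v r * v' r * (sinh (H * (r - 1 / 2)) /
      cosh (H * (r - 1 / 2))) + v r ^ 2 * (H / cosh (H * (r - 1 / 2)) ^ 2) := by
    have h1 : Continuous fun r : ℝ => sinh (H * (r - 1 / 2)) / cosh (H * (r - 1 / 2)) :=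
      hsh.div hch fun r => (cosh_pos _).ne'
    have h2 : Continuous fun r : ℝ => H / cosh (H * (r - 1 / 2)) ^ 2 :=
      continuous_const.div (hch.pow 2) fun r => (pow_pos (cosh_pos _) 2).ne'
    fun_prop
  have hI := intervalIntegral.integral_eq_sub_of_hasDerivAt (a := (0:ℝ)) (b := 1)
    (fun r _ => hd r) (hdc.intervalIntegrable _ _)
  have e0 : H * ((0:ℝ) - 1 / 2) = -(H / 2) := by ring
  have e1 : H * ((1:ℝ) - 1 / 2) = H / 2 := by ring
  rw [e0, e1, sinh_neg, cosh_neg] at hI
  have e2 : H * tanh (H / 2) * (v 0 ^ 2 + v 1 ^ 2) = ∫ r in (0:ℝ)..1,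
      H * (2 * v r * v' r * (sinh (H * (r - 1 / 2)) / cosh (H * (r - 1 / 2))) +
        v r ^ 2 * (H / cosh (H * (r - 1 / 2)) ^ 2)) := by
    rw [intervalIntegral.integral_const_mul, hI, tanh_eq_sinh_div_cosh]
    ring
  rw [e2]
  refine intervalIntegral.integral_mono_on (by norm_num)
    ((continuous_const.mul hdc).intervalIntegrable _ _)
    (Continuous.intervalIntegrable (by fun_prop) _ _) fun r _ => ?_
  have hc : cosh (H * (r - 1 / 2)) ≠ 0 := (cosh_pos _).ne'
  have h5 := cosh_sq_sub_sinh_sq (H * (r - 1 / 2))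
  generalize cosh (H * (r - 1 / 2)) = C at hc h5 ⊢
  generalize sinh (H * (r - 1 / 2)) = S at h5 ⊢
  have h6 : (1:ℝ) / C ^ 2 = 1 - (S / C) ^ 2 := by
    field_simp
    linarith
  have h7 : H / C ^ 2 = H * (1 - (S / C) ^ 2) := by
    rw [← h6]; ring
  rw [h7]
  nlinarith [sq_nonneg (v' r - H * v r * (S / C))]

section Flat

variable {w : ℝ × ℝ → ℝ}

/-- the partial derivatives -/
noncomputable def dr (w : ℝ × ℝ → ℝ) (x : ℝ × ℝ) : ℝ := fderiv ℝ w x ((1:ℝ), (0:ℝ))
noncomputable def dt (w : ℝ × ℝ → ℝ) (x : ℝ × ℝ) : ℝ := fderiv ℝ w x ((0:ℝ), (1:ℝ))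

lemma dr_cont (hw : ContDiff ℝ (⊤ : ℕ∞) w) : Continuous (dr w) :=
  (hw.continuous_fderiv (by simp)).clm_apply continuous_const

lemma dt_cont (hw : ContDiff ℝ (⊤ : ℕ∞) w) : Continuous (dt w) :=
  (hw.continuous_fderiv (by simp)).clm_apply continuous_const

lemma hasDerivAt_dr (hw : ContDiff ℝ (⊤ : ℕ∞) w) (r θ : ℝ) :
    HasDerivAt (fun r => w (r, θ)) (dr w (r, θ)) r := by
  have h1 : HasFDerivAt w (fderiv ℝ w (r, θ)) (r, θ) :=
    (hw.differentiable (by simp) _).hasFDerivAt
  exact h1.comp_hasDerivAt r ((hasDerivAt_id r).prodMk (hasDerivAt_const r θ))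

lemma hasDerivAt_dt (hw : ContDiff ℝ (⊤ : ℕ∞) w) (r θ : ℝ) :
    HasDerivAt (fun θ => w (r, θ)) (dt w (r, θ)) θ := by
  have h1 : HasFDerivAt w (fderiv ℝ w (r, θ)) (r, θ) :=
    (hw.differentiable (by simp) _).hasFDerivAt
  exact h1.comp_hasDerivAt θ ((hasDerivAt_const θ r).prodMk (hasDerivAt_id θ))

/-- the mean over the circles -/
noncomputable def cmean (w : ℝ × ℝ → ℝ) (r : ℝ) : ℝ :=
  (∫ θ in (0:ℝ)..(2 * π), w (r, θ)) / (2 * π)

lemma cmean_cont (hw : Continuous w) : Continuous (cmean w) := by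
  unfold cmean
  have : Continuous fun r : ℝ => ∫ θ in (0:ℝ)..(2 * π), w (r, θ) :=
    intervalIntegral.continuous_parametric_intervalIntegral_of_continuous'
      (f := fun r θ => w (r, θ)) (by exact hw) _ _
  exact this.div_const _

lemma hasDerivAt_cmean (hw : ContDiff ℝ (⊤ : ℕ∞) w) (r : ℝ) :
    HasDerivAt (cmean w) (cmean (dr w) r) r := by
  have hwc := hw.continuous
  have hdc := dr_cont hw
  obtain ⟨C, hC⟩ := ((isCompact_closedBall r 1).prod
    (isCompact_Icc (a := (0:ℝ)) (b := 2 * π))).exists_bound_of_continuousOn hdc.continuousOn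
  have h := intervalIntegral.hasDerivAt_integral_of_dominated_loc_of_deriv_le
    (μ := volume) (a := 0) (b := 2 * π) (F := fun r θ => w (r, θ)) (F' := fun r θ => dr w (r, θ))
    (x₀ := r) (s := Metric.closedBall r 1) (bound := fun _ => C)
    (Metric.closedBall_mem_nhds r one_pos)
    (Filter.Eventually.of_forall fun x => (Continuous.aestronglyMeasurable (by fun_prop)))
    (Continuous.intervalIntegrable (by fun_prop) _ _)
    (Continuous.aestronglyMeasurable (by fun_prop))
    (Filter.Eventually.of_forall fun t ht x hx => hC (x, t) ⟨hx, by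
      rw [uIoc_of_le (by positivity)] at ht
      exact ⟨ht.1.le, ht.2⟩⟩)
    (continuous_const.intervalIntegrable _ _)
    (Filter.Eventually.of_forall fun t _ x _ => hasDerivAt_dr hw x t)
  exact h.2.div_const _

/-- the energy for the flat metric -/
lemma energy_flat {H : ℝ} (hH : 0 < H) (hw : ContDiff ℝ (⊤ : ℕ∞) w) :
    energy (fun _ => H ^ 2) (fun _ => 0) (fun _ => 1) w =
      (∫ r in (0:ℝ)..1, ∫ θ in (0:ℝ)..(2 * π), (dr w (r, θ) ^ 2 + H ^ 2 * dt w (r, θ) ^ 2)) / H := by
  have h1 := dr_cont hw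
  have h2 := dt_cont hw
  have e1 : energy (fun _ => H ^ 2) (fun _ => 0) (fun _ => 1) w =
      ∫ x in Icc (0:ℝ) 1 ×ˢ Icc (0:ℝ) (2 * π), (dr w x ^ 2 + H ^ 2 * dt w x ^ 2) / H := by
    unfold energy
    refine setIntegral_congr_fun (measurableSet_Icc.prod measurableSet_Icc) fun x _ => ?_
    have : √(H ^ 2 * 1 - 0 ^ 2) = H := by
      rw [show H ^ 2 * 1 - 0 ^ 2 = H ^ 2 by ring, sqrt_sq hH.le]
    simp only [this, dr, dt]
    ring
  rw [e1, integral_div]
  congr 1
  have hint : IntegrableOn (fun x : ℝ × ℝ => dr w x ^ 2 + H ^ 2 * dt w x ^ 2)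
      (Icc (0:ℝ) 1 ×ˢ Icc (0:ℝ) (2 * π)) :=
    (Continuous.continuousOn (by fun_prop)).integrableOn_compact (isCompact_Icc.prod isCompact_Icc)
  rw [Measure.volume_eq_prod] at hint ⊢
  rw [setIntegral_prod _ hint, integral_Icc_eq_integral_Ioc,
    intervalIntegral.integral_of_le (by norm_num)]
  refine setIntegral_congr_fun measurableSet_Ioc fun r _ => ?_
  show ∫ θ in Icc (0:ℝ) (2 * π), (dr w (r, θ) ^ 2 + H ^ 2 * dt w (r, θ) ^ 2) =
    ∫ θ in (0:ℝ)..(2 * π), (dr w (r, θ) ^ 2 + H ^ 2 * dt w (r, θ) ^ 2)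
  rw [integral_Icc_eq_integral_Ioc, intervalIntegral.integral_of_le (by positivity)]

lemma bdry_flat : bdry (fun _ => 1) w = ∫ θ in (0:ℝ)..(2 * π), (w (0, θ) ^ 2 + w (1, θ) ^ 2) := by
  unfold bdry
  rw [integral_Icc_eq_integral_Ioc, ← intervalIntegral.integral_of_le (by positivity)]
  simp

/-- **The energy inequality** on the flat cylinder of height `H` and circumference `2π` for
functions whose mean vanishes on both boundary circles -/
theorem flat_ineq {H : ℝ} (hH : 0 < H) (hw : ContDiff ℝ (⊤ : ℕ∞) w)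
    (hp : ∀ r θ, w (r, θ + 2 * π) = w (r, θ))
    (h0 : ∫ θ in (0:ℝ)..(2 * π), w (0, θ) = 0) (h1 : ∫ θ in (0:ℝ)..(2 * π), w (1, θ) = 0) :
    tanh (H / 2) * bdry (fun _ => 1) w ≤ energy (fun _ => H ^ 2) (fun _ => 0) (fun _ => 1) w := by
  have cw := hw.continuous
  have c1 := dr_cont hw
  have c2 := dt_cont hw
  have c3 := cmean_cont cw
  have c4 := cmean_cont c1
  have p0 : cmean w 0 = 0 := by unfold cmean; rw [h0, zero_div]
  have p1 : cmean w 1 = 0 := by unfold cmean; rw [h1, zero_div]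
  rw [energy_flat hH hw, bdry_flat, le_div_iff₀ hH]
  -- integrate the calibration over the circle
  have s1 : H * tanh (H / 2) * ∫ θ in (0:ℝ)..(2 * π), (w (0, θ) ^ 2 + w (1, θ) ^ 2) ≤
      ∫ θ in (0:ℝ)..(2 * π), ∫ r in (0:ℝ)..1,
        ((dr w (r, θ) - cmean (dr w) r) ^ 2 + H ^ 2 * (w (r, θ) - cmean w r) ^ 2) := by
    rw [← intervalIntegral.integral_const_mul]
    refine intervalIntegral.integral_mono_on (by positivity)
      (Continuous.intervalIntegrable (by fun_prop) _ _)
      (Continuous.intervalIntegrable ?_ _ _) fun θ _ => ?_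
    · exact intervalIntegral.continuous_parametric_intervalIntegral_of_continuous'
        (f := fun θ r => (dr w (r, θ) - cmean (dr w) r) ^ 2 + H ^ 2 * (w (r, θ) - cmean w r) ^ 2)
        (by
          show Continuous fun x : ℝ × ℝ => (dr w (x.2, x.1) - cmean (dr w) x.2) ^ 2 +
            H ^ 2 * (w (x.2, x.1) - cmean w x.2) ^ 2
          fun_prop) _ _
    · have := calib hH (v := fun r => w (r, θ) - cmean w r)
        (v' := fun r => dr w (r, θ) - cmean (dr w) r)
        (fun r => (hasDerivAt_dr hw r θ).sub (hasDerivAt_cmean hw r)) (by fun_prop)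
      simp only [p0, p1, sub_zero] at this
      exact this
  have s2 : ∫ θ in (0:ℝ)..(2 * π), ∫ r in (0:ℝ)..1,
        ((dr w (r, θ) - cmean (dr w) r) ^ 2 + H ^ 2 * (w (r, θ) - cmean w r) ^ 2) =
      ∫ r in (0:ℝ)..1, ∫ θ in (0:ℝ)..(2 * π),
        ((dr w (r, θ) - cmean (dr w) r) ^ 2 + H ^ 2 * (w (r, θ) - cmean w r) ^ 2) := by
    refine MeasureTheory.intervalIntegral_intervalIntegral_swap
      (F := fun θ r => (dr w (r, θ) - cmean (dr w) r) ^ 2 + H ^ 2 * (w (r, θ) - cmean w r) ^ 2) ?_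
    have hc : Continuous (Function.uncurry fun θ r => (dr w (r, θ) - cmean (dr w) r) ^ 2 +
        H ^ 2 * (w (r, θ) - cmean w r) ^ 2) := by
      show Continuous fun x : ℝ × ℝ => (dr w (x.2, x.1) - cmean (dr w) x.2) ^ 2 +
        H ^ 2 * (w (x.2, x.1) - cmean w x.2) ^ 2
      fun_prop
    refine (hc.continuousOn.integrableOn_compact (K := uIcc (0:ℝ) (2 * π) ×ˢ uIcc (0:ℝ) 1)
      (isCompact_uIcc.prod isCompact_uIcc)).mono_set ?_
    exact prod_mono uIoc_subset_uIcc uIoc_subset_uIcc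
  have s3 : ∫ r in (0:ℝ)..1, ∫ θ in (0:ℝ)..(2 * π),
        ((dr w (r, θ) - cmean (dr w) r) ^ 2 + H ^ 2 * (w (r, θ) - cmean w r) ^ 2) ≤
      ∫ r in (0:ℝ)..1, ∫ θ in (0:ℝ)..(2 * π), (dr w (r, θ) ^ 2 + H ^ 2 * dt w (r, θ) ^ 2) := by
    refine intervalIntegral.integral_mono_on (by norm_num)
      (Continuous.intervalIntegrable ?_ _ _)
      (Continuous.intervalIntegrable ?_ _ _) fun r _ => ?_
    · exact intervalIntegral.continuous_parametric_intervalIntegral_of_continuous'
        (f := fun r θ => (dr w (r, θ) - cmean (dr w) r) ^ 2 + H ^ 2 * (w (r, θ) - cmean w r) ^ 2)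
        (by
          show Continuous fun x : ℝ × ℝ => (dr w (x.1, x.2) - cmean (dr w) x.1) ^ 2 +
            H ^ 2 * (w (x.1, x.2) - cmean w x.1) ^ 2
          fun_prop) _ _
    · exact intervalIntegral.continuous_parametric_intervalIntegral_of_continuous'
        (f := fun r θ => dr w (r, θ) ^ 2 + H ^ 2 * dt w (r, θ) ^ 2)
        (by
          show Continuous fun x : ℝ × ℝ => dr w (x.1, x.2) ^ 2 + H ^ 2 * dt w (x.1, x.2) ^ 2
          fun_prop) _ _
    · have ca : Continuous fun θ => dr w (r, θ) := by fun_prop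
      have cb : Continuous fun θ => w (r, θ) := by fun_prop
      have cc : Continuous fun θ => dt w (r, θ) := by fun_prop
      have a1 := mean_min ca 0
      have a2 := wirt_mean (f := fun θ => w (r, θ)) (f' := fun θ => dt w (r, θ))
        (fun θ => hasDerivAt_dt hw r θ) cc (fun θ => hp r θ)
      simp only [sub_zero] at a1
      rw [intervalIntegral.integral_add, intervalIntegral.integral_const_mul,
        intervalIntegral.integral_add, intervalIntegral.integral_const_mul]
      · have a3 : H ^ 2 * ∫ θ in (0:ℝ)..(2 * π), (w (r, θ) - cmean w r) ^ 2 ≤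
            H ^ 2 * ∫ θ in (0:ℝ)..(2 * π), dt w (r, θ) ^ 2 :=
          mul_le_mul_of_nonneg_left a2 (by positivity)
        exact add_le_add a1 a3
      all_goals exact Continuous.intervalIntegrable (by fun_prop) _ _
  calc tanh (H / 2) * (∫ θ in (0:ℝ)..(2 * π), (w (0, θ) ^ 2 + w (1, θ) ^ 2)) * H
      = H * tanh (H / 2) * ∫ θ in (0:ℝ)..(2 * π), (w (0, θ) ^ 2 + w (1, θ) ^ 2) := by ring
    _ ≤ _ := s1
    _ = _ := s2
    _ ≤ _ := s3

end Flat

end Pool.Agent.Helper22.Stek
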