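import Pool.Agent.Helper22.Stek.Poisson
import Pool.Agent.Helper22.Stek.Lower

/-! # Conformal test functions -/

set_option autoImplicit false
open Real MeasureTheory Set ComplexConjugate

namespace Pool.Agent.Helper22.Stek

/-- a smooth function which is the identity up to `1 + δ` and bounded by `1 + 2 δ` -/
noncomputable def psi (δ r : ℝ) : ℝ := r + (1 - r) * smoothTransition ((r - 1 - δ) / δ)

lemma psi_smooth (δ : ℝ) : ContDiff ℝ (⊤ : ℕ∞) (psi δ) := by
  unfold psi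
  have h : ContDiff ℝ (⊤ : ℕ∞) fun r : ℝ => smoothTransition ((r - 1 - δ) / δ) :=
    smoothTransition.contDiff.comp (by fun_prop)
  exact contDiff_id.add ((contDiff_const.sub contDiff_id).mul h)

lemma psi_eq {δ : ℝ} (hδ : 0 < δ) {r : ℝ} (hr : r ≤ 1 + δ) : psi δ r = r := by
  unfold psi
  rw [smoothTransition.zero_of_nonpos (div_nonpos_of_nonpos_of_nonneg (by linarith) hδ.le)]
  ring

lemma psi_le {δ : ℝ} (hδ : 0 < δ) (r : ℝ) : psi δ r ≤ 1 + 2 * δ := by
  rcases le_total r (1 + δ) with h | h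
  · rw [psi_eq hδ h]; linarith
  rcases le_total r (1 + 2 * δ) with h2 | h2
  · unfold psi
    have h3 := smoothTransition.nonneg ((r - 1 - δ) / δ)
    nlinarith
  · unfold psi
    rw [smoothTransition.one_of_one_le ((one_le_div hδ).2 (by linarith))]
    linarith

/-- the point `e ^ (H (r - 1) + i θ)` -/
noncomputable def pt (H δ : ℝ) (x : ℝ × ℝ) : ℂ :=
  Complex.exp ((H * (psi δ x.1 - 1) : ℝ) + x.2 * Complex.I)

lemma pt_norm (H δ : ℝ) (x : ℝ × ℝ) : ‖pt H δ x‖ = exp (H * (psi δ x.1 - 1)) := by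
  rw [pt, Complex.norm_exp]
  congr 1
  simp

lemma pt_eq {H δ : ℝ} (hδ : 0 < δ) {x : ℝ × ℝ} (hx : x.1 ≤ 1 + δ) :
    pt H δ x = Complex.exp ((H * (x.1 - 1) : ℝ) + x.2 * Complex.I) := by
  rw [pt, psi_eq hδ hx]

lemma exp_ee (t θ : ℝ) : Complex.exp ((t : ℝ) + θ * Complex.I) = (exp t : ℝ) * ee θ := by
  rw [Complex.exp_add, ee, circleMap]
  simp

lemma exists_delta {H : ℝ} (hH : 0 < H) {a : ℂ} (ha : ‖a‖ < 1) :
    ∃ δ : ℝ, 0 < δ ∧ ‖a‖ * exp (H * (2 * δ)) < 1 := by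
  have h1 : 1 < 2 / (1 + ‖a‖) := by
    rw [lt_div_iff₀ (by positivity)]
    linarith
  refine ⟨log (2 / (1 + ‖a‖)) / (2 * H), div_pos (log_pos h1) (by positivity), ?_⟩
  have h2 : H * (2 * (log (2 / (1 + ‖a‖)) / (2 * H))) = log (2 / (1 + ‖a‖)) := by
    field_simp
  rw [h2, exp_log (by positivity), mul_div_assoc', div_lt_one (by positivity)]
  linarith

section

variable {H δ : ℝ} {a γ : ℂ}

lemma den_ne (hH : 0 < H) (hδ : 0 < δ) (hd : ‖a‖ * exp (H * (2 * δ)) < 1) (x : ℝ × ℝ) :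
    1 - conj a * pt H δ x ≠ 0 := by
  intro h
  have h1 : ‖conj a * pt H δ x‖ = 1 := by
    have : conj a * pt H δ x = 1 := (sub_eq_zero.1 h).symm
    rw [this, norm_one]
  rw [norm_mul, Complex.norm_conj, pt_norm] at h1
  have h2 : exp (H * (psi δ x.1 - 1)) ≤ exp (H * (2 * δ)) := by
    apply exp_le_exp.2
    have := psi_le hδ x.1
    exact mul_le_mul_of_nonneg_left (by linarith) hH.le
  have h3 : ‖a‖ * exp (H * (psi δ x.1 - 1)) ≤ ‖a‖ * exp (H * (2 * δ)) :=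
    mul_le_mul_of_nonneg_left h2 (norm_nonneg _)
  linarith

lemma pt_smooth : ContDiff ℝ (⊤ : ℕ∞) (pt H δ) := by
  unfold pt
  refine ContDiff.cexp (ContDiff.add ?_ ?_)
  · exact Complex.ofRealCLM.contDiff.comp
      (contDiff_const.mul (((psi_smooth δ).comp contDiff_fst).sub contDiff_const))
  · exact (Complex.ofRealCLM.contDiff.comp contDiff_snd).mul contDiff_const

lemma pt_per (r θ : ℝ) : pt H δ (r, θ + 2 * π) = pt H δ (r, θ) := by
  unfold pt
  have : (((H * (psi δ r - 1) : ℝ) : ℂ) + ((θ + 2 * π : ℝ) : ℂ) * Complex.I) =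
      ((H * (psi δ r - 1) : ℝ) : ℂ) + (θ : ℂ) * Complex.I + 2 * π * Complex.I := by
    push_cast; ring
  simp only
  rw [this, Complex.exp_periodic]

/-- the conformal test function -/
noncomputable def cf (H δ : ℝ) (a γ : ℂ) (x : ℝ × ℝ) : ℝ := (γ * mob a (pt H δ x)).re

lemma cf_smooth (hH : 0 < H) (hδ : 0 < δ) (hd : ‖a‖ * exp (H * (2 * δ)) < 1) :
    ContDiff ℝ (⊤ : ℕ∞) (cf H δ a γ) := by
  unfold cf mob
  simp only [div_eq_mul_inv]
  exact Complex.reCLM.contDiff.comp (contDiff_const.mul ((pt_smooth.sub contDiff_const).mul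
    ((contDiff_const.sub (contDiff_const.mul pt_smooth)).inv (den_ne hH hδ hd))))

lemma cf_per (r θ : ℝ) : cf H δ a γ (r, θ + 2 * π) = cf H δ a γ (r, θ) := by
  unfold cf
  rw [pt_per]

/-- the derivative of `ζ ↦ mob a (e ^ ζ)` at the point `z = e ^ ζ` -/
noncomputable def dmob (a z : ℂ) : ℂ := (1 - conj a * a) * z / (1 - conj a * z) ^ 2

lemma mob_exp_deriv {ζ : ℂ} (hne : 1 - conj a * Complex.exp ζ ≠ 0) :
    HasDerivAt (fun ζ => mob a (Complex.exp ζ)) (dmob a (Complex.exp ζ)) ζ := by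
  have h1 := Complex.hasDerivAt_exp ζ
  have h2 := (h1.sub_const a).div ((h1.const_mul (conj a)).const_sub 1) hne
  refine h2.congr_deriv ?_
  unfold dmob
  field_simp
  ring

lemma cf_hasFDerivAt (hδ : 0 < δ) {x : ℝ × ℝ} (hx : x.1 < 1 + δ)
    (hne : 1 - conj a * pt H δ x ≠ 0) :
    ∃ L : ℝ × ℝ →L[ℝ] ℝ, HasFDerivAt (cf H δ a γ) L x ∧
      L ((1:ℝ), (0:ℝ)) = H * (γ * dmob a (pt H δ x)).re ∧
      L ((0:ℝ), (1:ℝ)) = -(γ * dmob a (pt H δ x)).im := by
  set Z : ℝ × ℝ →L[ℝ] ℂ := (H : ℂ) • Complex.ofRealCLM.comp (ContinuousLinearMap.fst ℝ ℝ ℝ) +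
    Complex.I • Complex.ofRealCLM.comp (ContinuousLinearMap.snd ℝ ℝ ℝ) with hZ
  set ζ : ℝ × ℝ → ℂ := fun x => ((H * (x.1 - 1) : ℝ) : ℂ) + x.2 * Complex.I with hζdef
  have hζ : HasFDerivAt ζ Z x := by
    have e : ζ = fun x => Z x + (-(H : ℂ)) := by
      funext y
      simp only [hζdef, hZ, add_apply, smul_apply,
        ContinuousLinearMap.comp_apply, ContinuousLinearMap.coe_fst', ContinuousLinearMap.coe_snd',
        Complex.ofRealCLM_apply, smul_eq_mul]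
      push_cast
      ring
    rw [e]
    exact Z.hasFDerivAt.add_const _
  have hpt : pt H δ x = Complex.exp (ζ x) := pt_eq hδ hx.le
  rw [hpt] at hne ⊢
  have h1 := ((mob_exp_deriv hne).hasFDerivAt.restrictScalars ℝ).comp x hζ
  have h2 := Complex.reCLM.hasFDerivAt.comp x (h1.const_mul γ)
  refine ⟨_, h2.congr_of_eventuallyEq ?_, ?_, ?_⟩
  · have hopen : IsOpen {y : ℝ × ℝ | y.1 < 1 + δ} := isOpen_lt continuous_fst continuous_const
    filter_upwards [hopen.mem_nhds hx] with y hy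
    have hy' : y.1 ≤ 1 + δ := le_of_lt hy
    simp only [cf, pt_eq hδ hy', Function.comp_apply, hζdef, Complex.reCLM_apply]
  · simp [hZ]
    ring
  · simp [hZ]
    ring

end

end Pool.Agent.Helper22.Stek
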