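import Pool.Agent.Helper22.Stek.Conf

/-! # The energy of the conformal test functions -/

set_option autoImplicit false
open Real MeasureTheory Set ComplexConjugate

namespace Pool.Agent.Helper22.Stek

/-- integrals over the annulus as iterated integrals -/
lemma int_annulus {g : ℝ × ℝ → ℝ} (hg : Continuous g) :
    ∫ x in Icc (0:ℝ) 1 ×ˢ Icc (0:ℝ) (2 * π), g x =
      ∫ r in (0:ℝ)..1, ∫ θ in (0:ℝ)..(2 * π), g (r, θ) := by
  have hint : IntegrableOn g (Icc (0:ℝ) 1 ×ˢ Icc (0:ℝ) (2 * π)) :=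
    hg.continuousOn.integrableOn_compact (isCompact_Icc.prod isCompact_Icc)
  rw [Measure.volume_eq_prod] at hint ⊢
  rw [setIntegral_prod _ hint, integral_Icc_eq_integral_Ioc,
    intervalIntegral.integral_of_le (by norm_num)]
  refine setIntegral_congr_fun measurableSet_Ioc fun r _ => ?_
  show ∫ θ in Icc (0:ℝ) (2 * π), g (r, θ) = ∫ θ in (0:ℝ)..(2 * π), g (r, θ)
  rw [integral_Icc_eq_integral_Ioc, intervalIntegral.integral_of_le (by positivity)]

section

variable {H δ : ℝ} {a γ : ℂ}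

lemma normSq_dmob (a z : ℂ) : Complex.normSq (dmob a z) =
    (1 - Complex.normSq a) ^ 2 * Complex.normSq z * (1 / Complex.normSq (1 - conj a * z)) ^ 2 := by
  unfold dmob
  have h1 : (1 - conj a * a : ℂ) = ((1 - Complex.normSq a : ℝ) : ℂ) := by
    rw [mul_comm, Complex.mul_conj]
    push_cast
    ring
  rw [Complex.normSq_div, Complex.normSq_mul, h1, Complex.normSq_ofReal, map_pow]
  ring

/-- the complex derivative along the annulus -/
noncomputable def cder (H δ : ℝ) (a γ : ℂ) (x : ℝ × ℝ) : ℂ := γ * dmob a (pt H δ x)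

lemma cder_cont (hH : 0 < H) (hδ : 0 < δ) (hd : ‖a‖ * exp (H * (2 * δ)) < 1) :
    Continuous (cder H δ a γ) := by
  have h := (pt_smooth (H := H) (δ := δ)).continuous
  unfold cder dmob
  exact continuous_const.mul (Continuous.div (by fun_prop) (by fun_prop)
    fun x => pow_ne_zero 2 (den_ne hH hδ hd x))

/-- the integral of the derivative over the circles vanishes -/
lemma int_cder (hH : 0 < H) (hδ : 0 < δ) (hd : ‖a‖ * exp (H * (2 * δ)) < 1) (r : ℝ) :
    ∫ θ in (0:ℝ)..(2 * π), (cder H δ a γ (r, θ)).re = 0 := by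
  have hder : ∀ θ : ℝ, HasDerivAt (fun θ : ℝ => (-Complex.I * γ * mob a (pt H δ (r, θ))).re)
      ((cder H δ a γ (r, θ)).re) θ := by
    intro θ
    have hne := den_ne hH hδ hd (r, θ)
    have h1 : HasDerivAt (fun θ : ℝ => ((H * (psi δ r - 1) : ℝ) : ℂ) + θ * Complex.I)
        Complex.I θ := by
      have := ((Complex.ofRealCLM.hasDerivAt (x := θ)).mul_const Complex.I).const_add
        ((H * (psi δ r - 1) : ℝ) : ℂ)
      simpa using this
    have h2 := (mob_exp_deriv (a := a) (ζ := ((H * (psi δ r - 1) : ℝ) : ℂ) + θ * Complex.I)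
      hne).comp θ h1
    have h3 := h2.const_mul (-Complex.I * γ)
    have h4 := Complex.reCLM.hasFDerivAt.comp_hasDerivAt θ h3
    refine HasDerivAt.congr_deriv h4 ?_
    show ((-Complex.I * γ) * (dmob a (pt H δ (r, θ)) * Complex.I)).re = _
    unfold cder
    have : (-Complex.I * γ) * (dmob a (pt H δ (r, θ)) * Complex.I) =
        γ * dmob a (pt H δ (r, θ)) := by
      linear_combination (-(γ * dmob a (pt H δ (r, θ)))) * Complex.I_mul_I
    rw [this]
  have hc := cder_cont (γ := γ) hH hδ hd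
  rw [intervalIntegral.integral_eq_sub_of_hasDerivAt (fun θ _ => hder θ)
    (Continuous.intervalIntegrable (Complex.continuous_re.comp (by fun_prop)) _ _)]
  have := pt_per (H := H) (δ := δ) r 0
  rw [zero_add] at this
  rw [this, sub_self]

/-- the integral of the squared derivative over the circles -/
lemma int_cder_sq (hδ : 0 < δ) (ha : ‖a‖ < 1) (hγ : Complex.normSq γ = 1) (hH : 0 < H)
    {r : ℝ} (hr : r ≤ 1) : ∫ θ in (0:ℝ)..(2 * π), Complex.normSq (cder H δ a γ (r, θ)) =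
      (1 - Complex.normSq a) ^ 2 * exp (H * (r - 1)) ^ 2 *
        (2 * π * (1 + Complex.normSq a * exp (H * (r - 1)) ^ 2) /
          (1 - Complex.normSq a * exp (H * (r - 1)) ^ 2) ^ 3) := by
  have he : exp (H * (r - 1)) ≤ 1 :=
    Real.exp_le_one_iff.2 (mul_nonpos_of_nonneg_of_nonpos hH.le (by linarith))
  have he0 := exp_pos (H * (r - 1))
  set ρ := exp (H * (r - 1)) with hρ
  set b : ℂ := conj a * (ρ : ℂ) with hb
  have hbn : ‖b‖ < 1 := by
    rw [hb, norm_mul, Complex.norm_conj, Complex.norm_real, Real.norm_of_nonneg he0.le]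
    nlinarith [norm_nonneg a]
  have hbs : Complex.normSq b = Complex.normSq a * ρ ^ 2 := by
    rw [hb, Complex.normSq_mul, Complex.normSq_conj, Complex.normSq_ofReal]
    ring
  have e : ∀ θ : ℝ, Complex.normSq (cder H δ a γ (r, θ)) =
      (1 - Complex.normSq a) ^ 2 * ρ ^ 2 * (1 / Complex.normSq (1 - b * ee θ)) ^ 2 := by
    intro θ
    have h1 : pt H δ (r, θ) = (ρ : ℂ) * ee θ := by
      rw [pt_eq hδ (by show r ≤ 1 + δ; linarith)]
      exact exp_ee _ _
    have h2 : conj a * ((ρ : ℂ) * ee θ) = b * ee θ := by rw [hb]; ring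
    unfold cder
    rw [Complex.normSq_mul, hγ, one_mul, normSq_dmob, h1, h2, Complex.normSq_mul, ee_normSq,
      Complex.normSq_ofReal]
    ring
  simp_rw [e]
  rw [intervalIntegral.integral_const_mul, poisson2 hbn, hbs]

/-- **the area of the image of the annulus** is at most `π` -/
lemma area_le (hH : 0 < H) (hδ : 0 < δ) (hd : ‖a‖ * exp (H * (2 * δ)) < 1) (ha : ‖a‖ < 1)
    (hγ : Complex.normSq γ = 1) :
    ∫ x in Icc (0:ℝ) 1 ×ˢ Icc (0:ℝ) (2 * π), H * Complex.normSq (cder H δ a γ x) ≤ π := by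
  have hc := cder_cont (γ := γ) hH hδ hd
  have hns : Continuous fun x => H * Complex.normSq (cder H δ a γ x) :=
    continuous_const.mul (Complex.continuous_normSq.comp hc)
  rw [int_annulus hns]
  have hs0 := Complex.normSq_nonneg a
  have hs1 := normSq_lt_one ha
  set s := Complex.normSq a with hs
  have e1 : ∀ r ∈ uIcc (0:ℝ) 1, ∫ θ in (0:ℝ)..(2 * π), H * Complex.normSq (cder H δ a γ (r, θ)) =
      H * ((1 - s) ^ 2 * exp (H * (r - 1)) ^ 2 *
        (2 * π * (1 + s * exp (H * (r - 1)) ^ 2) / (1 - s * exp (H * (r - 1)) ^ 2) ^ 3)) := by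
    intro r hr
    rw [uIcc_of_le (by norm_num)] at hr
    rw [intervalIntegral.integral_const_mul, int_cder_sq hδ ha hγ hH hr.2]
  rw [intervalIntegral.integral_congr e1]
  have hden : ∀ r ∈ uIcc (0:ℝ) 1, 0 < 1 - s * exp (H * (r - 1)) ^ 2 := by
    intro r hr
    rw [uIcc_of_le (by norm_num)] at hr
    have he : exp (H * (r - 1)) ≤ 1 :=
      Real.exp_le_one_iff.2 (mul_nonpos_of_nonneg_of_nonpos hH.le (by linarith [hr.2]))
    have he0 := exp_pos (H * (r - 1))
    have : exp (H * (r - 1)) ^ 2 ≤ 1 := pow_le_one₀ he0.le he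
    nlinarith
  have hder : ∀ r ∈ uIcc (0:ℝ) 1, HasDerivAt
      (fun r => π * (1 - s) ^ 2 * exp (H * (r - 1)) ^ 2 / (1 - s * exp (H * (r - 1)) ^ 2) ^ 2)
      (H * ((1 - s) ^ 2 * exp (H * (r - 1)) ^ 2 *
        (2 * π * (1 + s * exp (H * (r - 1)) ^ 2) / (1 - s * exp (H * (r - 1)) ^ 2) ^ 3))) r := by
    intro r hr
    have h0 : HasDerivAt (fun r : ℝ => H * (r - 1)) H r := by
      have := ((hasDerivAt_id r).sub_const (1:ℝ)).const_mul H
      rw [mul_one] at this
      exact this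
    have h1 := h0.exp
    have h2 := h1.fun_pow 2
    have h3 := (h2.const_mul (π * (1 - s) ^ 2)).div (((h2.const_mul s).const_sub 1).fun_pow 2)
      (pow_ne_zero 2 (hden r hr).ne')
    refine h3.congr_deriv ?_
    have h4 := (hden r hr).ne'
    push_cast
    simp only [pow_one]
    generalize exp (H * (r - 1)) = ρ at h4 ⊢
    field_simp
    ring
  have hcont : ContinuousOn (fun r => H * ((1 - s) ^ 2 * exp (H * (r - 1)) ^ 2 *
        (2 * π * (1 + s * exp (H * (r - 1)) ^ 2) / (1 - s * exp (H * (r - 1)) ^ 2) ^ 3)))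
        (uIcc (0:ℝ) 1) := by
    refine continuousOn_const.mul (ContinuousOn.mul (Continuous.continuousOn (by fun_prop))
      (ContinuousOn.div (Continuous.continuousOn (by fun_prop))
        (Continuous.continuousOn (by fun_prop)) fun r hr => pow_ne_zero 3 (hden r hr).ne'))
  rw [intervalIntegral.integral_eq_sub_of_hasDerivAt hder hcont.intervalIntegrable]
  have h5 : exp (H * (1 - 1)) = 1 := by simp
  rw [h5]
  have h6 : π * (1 - s) ^ 2 * 1 ^ 2 / (1 - s * 1 ^ 2) ^ 2 = π := by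
    have : 1 - s ≠ 0 := by linarith
    field_simp
  rw [h6]
  have h7 : 0 ≤ π * (1 - s) ^ 2 * exp (H * (0 - 1)) ^ 2 / (1 - s * exp (H * (0 - 1)) ^ 2) ^ 2 := by
    positivity
  linarith

/-- the test functions -/
noncomputable def wv (H δ : ℝ) (a γ : ℂ) (α β c : ℝ) (x : ℝ × ℝ) : ℝ :=
  α + β * (1 - x.1) + c * cf H δ a γ x

lemma wv_fderiv (hH : 0 < H) (hδ : 0 < δ) (hd : ‖a‖ * exp (H * (2 * δ)) < 1) (α β c : ℝ)
    {x : ℝ × ℝ} (hx : x.1 ∈ Icc (0:ℝ) 1) :
    fderiv ℝ (wv H δ a γ α β c) x ((1:ℝ), (0:ℝ)) = -β + c * (H * (cder H δ a γ x).re) ∧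
    fderiv ℝ (wv H δ a γ α β c) x ((0:ℝ), (1:ℝ)) = c * (-(cder H δ a γ x).im) := by
  obtain ⟨L, hL, h1, h2⟩ := cf_hasFDerivAt (γ := γ) hδ (by linarith [hx.2] : x.1 < 1 + δ)
    (den_ne hH hδ hd x)
  have h3 : HasFDerivAt (fun x : ℝ × ℝ => α + β * (1 - x.1))
      ((-β) • ContinuousLinearMap.fst ℝ ℝ ℝ) x := by
    have e : (fun x : ℝ × ℝ => α + β * (1 - x.1)) =
        fun x => ((-β) • ContinuousLinearMap.fst ℝ ℝ ℝ) x + (α + β) := by
      funext y
      simp
      ring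
    rw [e]
    exact ((-β) • ContinuousLinearMap.fst ℝ ℝ ℝ).hasFDerivAt.add_const _
  have h4 : HasFDerivAt (wv H δ a γ α β c) ((-β) • ContinuousLinearMap.fst ℝ ℝ ℝ + c • L) x :=
    h3.add (hL.const_mul c)
  rw [h4.fderiv]
  constructor
  · simp [h1, cder]
  · simp [h2, cder]

/-- the energy of the test functions -/
lemma energy_wv {E F G : ℝ × ℝ → ℝ} (h : IsMetric E F G) (hH : 0 < H)
    (hF : ∀ x : ℝ × ℝ, x.1 ∈ Icc (0:ℝ) 1 → F x = 0)
    (hE : ∀ x : ℝ × ℝ, x.1 ∈ Icc (0:ℝ) 1 → E x = H ^ 2 * G x)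
    (hδ : 0 < δ) (hd : ‖a‖ * exp (H * (2 * δ)) < 1) (ha : ‖a‖ < 1)
    (hγ : Complex.normSq γ = 1) (α β c : ℝ) :
    energy E F G (wv H δ a γ α β c) ≤ 2 * π / H * β ^ 2 + π * c ^ 2 := by
  have hc := cder_cont (γ := γ) hH hδ hd
  have hre : Continuous fun x => (cder H δ a γ x).re := Complex.continuous_re.comp hc
  have hns : Continuous fun x => H * Complex.normSq (cder H δ a γ x) :=
    continuous_const.mul (Complex.continuous_normSq.comp hc)
  have e1 : energy E F G (wv H δ a γ α β c) =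
      ∫ x in Icc (0:ℝ) 1 ×ˢ Icc (0:ℝ) (2 * π),
        (β ^ 2 / H + (-(2 * β * c)) * (cder H δ a γ x).re +
          c ^ 2 * (H * Complex.normSq (cder H δ a γ x))) := by
    unfold energy
    refine setIntegral_congr_fun (measurableSet_Icc.prod measurableSet_Icc) fun x hx => ?_
    have hx1 : x.1 ∈ Icc (0:ℝ) 1 := hx.1
    have hG := h.posG hx1
    obtain ⟨h1, h2⟩ := wv_fderiv (γ := γ) hH hδ hd α β c hx1
    simp only [hF x hx1, hE x hx1, h1, h2]
    have h3 : H ^ 2 * G x * G x - 0 ^ 2 = (H * G x) ^ 2 := by ring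
    rw [h3, sqrt_sq (by positivity), Complex.normSq_apply]
    field_simp
    ring
  have k1 : IntegrableOn (fun _ : ℝ × ℝ => β ^ 2 / H) (Icc (0:ℝ) 1 ×ˢ Icc (0:ℝ) (2 * π)) :=
    continuousOn_const.integrableOn_compact (isCompact_Icc.prod isCompact_Icc)
  have k2 : IntegrableOn (fun x => (-(2 * β * c)) * (cder H δ a γ x).re)
      (Icc (0:ℝ) 1 ×ˢ Icc (0:ℝ) (2 * π)) :=
    (continuous_const.mul hre).continuousOn.integrableOn_compact (isCompact_Icc.prod isCompact_Icc)
  have k3 : IntegrableOn (fun x => c ^ 2 * (H * Complex.normSq (cder H δ a γ x)))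
      (Icc (0:ℝ) 1 ×ˢ Icc (0:ℝ) (2 * π)) :=
    (continuous_const.mul hns).continuousOn.integrableOn_compact (isCompact_Icc.prod isCompact_Icc)
  have i1 : ∫ _ in Icc (0:ℝ) 1 ×ˢ Icc (0:ℝ) (2 * π), β ^ 2 / H = 2 * π / H * β ^ 2 := by
    rw [int_annulus continuous_const]
    simp
    ring
  have i2 : ∫ x in Icc (0:ℝ) 1 ×ˢ Icc (0:ℝ) (2 * π), (cder H δ a γ x).re = 0 := by
    rw [int_annulus hre]
    simp_rw [int_cder hH hδ hd]
    simp
  have i3 := area_le (γ := γ) hH hδ hd ha hγ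
  have k12 : IntegrableOn (fun x => β ^ 2 / H + (-(2 * β * c)) * (cder H δ a γ x).re)
      (Icc (0:ℝ) 1 ×ˢ Icc (0:ℝ) (2 * π)) := k1.add k2
  rw [e1, integral_add k12 k3, integral_add k1 k2, integral_const_mul,
    integral_const_mul (c ^ 2), i1, i2]
  have := mul_le_mul_of_nonneg_left i3 (sq_nonneg c)
  linarith

end

end Pool.Agent.Helper22.Stek
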