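import Mathlib

/-! # Steklov eigenvalues on the annulus: definitions (those of the frozen statement) -/

set_option autoImplicit false
open Real MeasureTheory Set

namespace Pool.Agent.Helper22.Stek

/-- `E dr² + 2 F dr dθ + G dθ²` is a smooth Riemannian metric on the annulus `[0,1] × ℝ/2πℤ` -/
structure IsMetric (E F G : ℝ × ℝ → ℝ) : Prop where
  smoothE : ContDiff ℝ (⊤ : ℕ∞) E
  smoothF : ContDiff ℝ (⊤ : ℕ∞) F
  smoothG : ContDiff ℝ (⊤ : ℕ∞) G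
  per : ∀ r θ : ℝ, E (r, θ + 2 * π) = E (r, θ) ∧ F (r, θ + 2 * π) = F (r, θ) ∧
    G (r, θ + 2 * π) = G (r, θ)
  pos : ∀ x : ℝ × ℝ, x.1 ∈ Icc (0:ℝ) 1 → 0 < E x ∧ 0 < E x * G x - F x ^ 2

/-- the Dirichlet energy of `w` -/
noncomputable def energy (E F G w : ℝ × ℝ → ℝ) : ℝ :=
  ∫ x in Icc (0:ℝ) 1 ×ˢ Icc (0:ℝ) (2 * π),
    (G x * (fderiv ℝ w x ((1:ℝ), (0:ℝ))) ^ 2
      - 2 * F x * fderiv ℝ w x ((1:ℝ), (0:ℝ)) * fderiv ℝ w x ((0:ℝ), (1:ℝ))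
      + E x * (fderiv ℝ w x ((0:ℝ), (1:ℝ))) ^ 2) / Real.sqrt (E x * G x - F x ^ 2)

/-- the integral of `w²` over the boundary -/
noncomputable def bdry (G w : ℝ × ℝ → ℝ) : ℝ :=
  ∫ θ in Icc (0:ℝ) (2 * π),
    (w ((0:ℝ), θ) ^ 2 * Real.sqrt (G ((0:ℝ), θ)) + w ((1:ℝ), θ) ^ 2 * Real.sqrt (G ((1:ℝ), θ)))

/-- the density `√G(0,θ) + √G(1,θ)` of the lengths of both boundary circles at the angle `θ` -/
noncomputable def dens (G : ℝ × ℝ → ℝ) (θ : ℝ) : ℝ :=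
  Real.sqrt (G ((0:ℝ), θ)) + Real.sqrt (G ((1:ℝ), θ))

/-- the length of the boundary -/
noncomputable def len (G : ℝ × ℝ → ℝ) : ℝ := ∫ θ in Icc (0:ℝ) (2 * π), dens G θ

/-- an admissible triple of test functions: smooth functions on the annulus whose boundary values
are linearly independent -/
structure Adm (u : Fin 3 → ℝ × ℝ → ℝ) : Prop where
  smooth : ∀ i, ContDiff ℝ (⊤ : ℕ∞) (u i) ∧ ∀ r θ : ℝ, u i (r, θ + 2 * π) = u i (r, θ)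
  indep : ∀ c : Fin 3 → ℝ,
    (∀ θ : ℝ, ∑ i, c i * u i ((0:ℝ), θ) = 0 ∧ ∑ i, c i * u i ((1:ℝ), θ) = 0) → c = 0

/-- the largest Rayleigh quotient on the span of the triple `u` -/
noncomputable def maxQuot (E F G : ℝ × ℝ → ℝ) (u : Fin 3 → ℝ × ℝ → ℝ) : ℝ :=
  ⨆ c : {c : Fin 3 → ℝ // c ≠ 0},
    energy E F G (∑ i, c.1 i • u i) / bdry G (∑ i, c.1 i • u i)

/-- the second Steklov eigenvalue `σ₂` (with `σ₀ = 0`), by the minimax principle -/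
noncomputable def sigma2 (E F G : ℝ × ℝ → ℝ) : ℝ := sInf {s : ℝ | ∃ u, Adm u ∧ s = maxQuot E F G u}

/-- the normalised moment `(1/L) ∫ e^{ikθ} ds` of the boundary -/
noncomputable def moment (G : ℝ × ℝ → ℝ) (k : ℕ) : ℂ :=
  ⟨(∫ θ in Icc (0:ℝ) (2 * π), cos (k * θ) * dens G θ) / len G,
    (∫ θ in Icc (0:ℝ) (2 * π), sin (k * θ) * dens G θ) / len G⟩

end Pool.Agent.Helper22.Stek
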