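import Pool.Agent.Helper22.Stek.Conf2
import Pool.Agent.Helper22.Stek.Lower

/-! # Conjugate harmonic functions on the annulus -/

set_option autoImplicit false
open Real MeasureTheory Set ComplexConjugate

namespace Pool.Agent.Helper22.Stek

/-- conformal invariance of the energy -/
lemma energy_iso {E F G : ℝ × ℝ → ℝ} (h : IsMetric E F G) {H : ℝ} (hH : 0 < H)
    (hF : ∀ x : ℝ × ℝ, x.1 ∈ Icc (0:ℝ) 1 → F x = 0)
    (hE : ∀ x : ℝ × ℝ, x.1 ∈ Icc (0:ℝ) 1 → E x = H ^ 2 * G x) (w : ℝ × ℝ → ℝ) :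
    energy E F G w = energy (fun _ => H ^ 2) (fun _ => 0) (fun _ => 1) w := by
  unfold energy
  refine setIntegral_congr_fun (measurableSet_Icc.prod measurableSet_Icc) fun x hx => ?_
  have hx1 : x.1 ∈ Icc (0:ℝ) 1 := hx.1
  have hG := h.posG hx1
  have e1 : √(H ^ 2 * G x * G x - 0 ^ 2) = H * G x := by
    rw [show H ^ 2 * G x * G x - 0 ^ 2 = (H * G x) ^ 2 by ring, sqrt_sq (by positivity)]
  have e2 : √(H ^ 2 * 1 - 0 ^ 2) = H := by
    rw [show H ^ 2 * 1 - 0 ^ 2 = H ^ 2 by ring, sqrt_sq hH.le]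
  simp only [hF x hx1, hE x hx1, e1, e2]
  field_simp
  ring

/-- the complex coordinate -/
noncomputable def zt (H : ℝ) (x : ℝ × ℝ) : ℂ := (H : ℂ) * x.1 + Complex.I * x.2

section

variable {H : ℝ} {h h' : ℂ → ℂ}

lemma zt_hasFDerivAt (x : ℝ × ℝ) : ∃ Z : ℝ × ℝ →L[ℝ] ℂ, HasFDerivAt (zt H) Z x ∧
    Z ((1:ℝ), (0:ℝ)) = H ∧ Z ((0:ℝ), (1:ℝ)) = Complex.I := by
  set Z : ℝ × ℝ →L[ℝ] ℂ := (H : ℂ) • Complex.ofRealCLM.comp (ContinuousLinearMap.fst ℝ ℝ ℝ) +
    Complex.I • Complex.ofRealCLM.comp (ContinuousLinearMap.snd ℝ ℝ ℝ) with hZ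
  have e : zt H = fun x => Z x := by
    funext y
    simp only [zt, hZ, add_apply, smul_apply,
        ContinuousLinearMap.comp_apply, ContinuousLinearMap.coe_fst', ContinuousLinearMap.coe_snd',
        Complex.ofRealCLM_apply, smul_eq_mul]
  refine ⟨Z, ?_, ?_, ?_⟩
  · rw [e]
    exact Z.hasFDerivAt
  · simp [hZ]
  · simp [hZ]

lemma zt_smooth : ContDiff ℝ (⊤ : ℕ∞) (zt H) := by
  unfold zt
  exact (contDiff_const.mul (Complex.ofRealCLM.contDiff.comp contDiff_fst)).add
    (contDiff_const.mul (Complex.ofRealCLM.contDiff.comp contDiff_snd))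

lemma zt_per (r θ : ℝ) : zt H (r, θ + 2 * π) = zt H (r, θ) + 2 * π * Complex.I := by
  unfold zt
  push_cast
  ring

/-- the real and the imaginary part of a holomorphic function on the annulus -/
noncomputable def vre (H : ℝ) (h : ℂ → ℂ) (x : ℝ × ℝ) : ℝ := (h (zt H x)).re
noncomputable def uim (H : ℝ) (h : ℂ → ℂ) (x : ℝ × ℝ) : ℝ := (h (zt H x)).im

lemma comp_smooth (hd : Differentiable ℂ h) : ContDiff ℝ (⊤ : ℕ∞) fun x => h (zt H x) := by
  have h1 : ContDiff ℂ (⊤ : ℕ∞) h := hd.contDiff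
  exact (h1.restrict_scalars ℝ).comp zt_smooth

lemma vre_smooth (hd : Differentiable ℂ h) : ContDiff ℝ (⊤ : ℕ∞) (vre H h) :=
  Complex.reCLM.contDiff.comp (comp_smooth hd)

lemma uim_smooth (hd : Differentiable ℂ h) : ContDiff ℝ (⊤ : ℕ∞) (uim H h) :=
  Complex.imCLM.contDiff.comp (comp_smooth hd)

lemma vre_per (hp : ∀ z, h (z + 2 * π * Complex.I) = h z) (r θ : ℝ) :
    vre H h (r, θ + 2 * π) = vre H h (r, θ) := by
  unfold vre
  rw [zt_per, hp]

lemma uim_per (hp : ∀ z, h (z + 2 * π * Complex.I) = h z) (r θ : ℝ) :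
    uim H h (r, θ + 2 * π) = uim H h (r, θ) := by
  unfold uim
  rw [zt_per, hp]

lemma comp_fderiv (hd : ∀ z, HasDerivAt h (h' z) z) (x : ℝ × ℝ) :
    ∃ L : ℝ × ℝ →L[ℝ] ℂ, HasFDerivAt (fun x => h (zt H x)) L x ∧
      L ((1:ℝ), (0:ℝ)) = H * h' (zt H x) ∧ L ((0:ℝ), (1:ℝ)) = Complex.I * h' (zt H x) := by
  obtain ⟨Z, hZ, h1, h2⟩ := zt_hasFDerivAt (H := H) x
  have h3 := ((hd (zt H x)).hasFDerivAt.restrictScalars ℝ).comp x hZ
  refine ⟨_, h3, ?_, ?_⟩
  · simp [h1]
  · simp [h2]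

lemma vre_fderiv (hd : ∀ z, HasDerivAt h (h' z) z) (x : ℝ × ℝ) :
    fderiv ℝ (vre H h) x ((1:ℝ), (0:ℝ)) = H * (h' (zt H x)).re ∧
      fderiv ℝ (vre H h) x ((0:ℝ), (1:ℝ)) = -(h' (zt H x)).im := by
  obtain ⟨L, hL, h1, h2⟩ := comp_fderiv (H := H) hd x
  have h3 : HasFDerivAt (vre H h) (Complex.reCLM.comp L) x := Complex.reCLM.hasFDerivAt.comp x hL
  rw [h3.fderiv]
  constructor
  · simp [h1]
  · simp [h2]

lemma uim_fderiv (hd : ∀ z, HasDerivAt h (h' z) z) (x : ℝ × ℝ) :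
    fderiv ℝ (uim H h) x ((1:ℝ), (0:ℝ)) = H * (h' (zt H x)).im ∧
      fderiv ℝ (uim H h) x ((0:ℝ), (1:ℝ)) = (h' (zt H x)).re := by
  obtain ⟨L, hL, h1, h2⟩ := comp_fderiv (H := H) hd x
  have h3 : HasFDerivAt (uim H h) (Complex.imCLM.comp L) x := Complex.imCLM.hasFDerivAt.comp x hL
  rw [h3.fderiv]
  constructor
  · simp [h1]
  · simp [h2]

/-- the energy of the real part -/
lemma energy_vre (hH : 0 < H) (hd : ∀ z, HasDerivAt h (h' z) z) :
    energy (fun _ => H ^ 2) (fun _ => 0) (fun _ => 1) (vre H h) =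
      H * ∫ r in (0:ℝ)..1, ∫ θ in (0:ℝ)..(2 * π), Complex.normSq (h' (zt H (r, θ))) := by
  have hsm : ContDiff ℝ (⊤ : ℕ∞) (vre H h) := vre_smooth fun z => (hd z).differentiableAt
  rw [energy_flat hH hsm]
  have e : ∀ r θ, dr (vre H h) (r, θ) ^ 2 + H ^ 2 * dt (vre H h) (r, θ) ^ 2 =
      H ^ 2 * Complex.normSq (h' (zt H (r, θ))) := by
    intro r θ
    obtain ⟨h1, h2⟩ := vre_fderiv (H := H) hd (r, θ)
    unfold dr dt
    rw [h1, h2, Complex.normSq_apply]
    ring
  simp_rw [e, intervalIntegral.integral_const_mul]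
  field_simp

/-- the energy of the imaginary part -/
lemma energy_uim (hH : 0 < H) (hd : ∀ z, HasDerivAt h (h' z) z) :
    energy (fun _ => H ^ 2) (fun _ => 0) (fun _ => 1) (uim H h) =
      H * ∫ r in (0:ℝ)..1, ∫ θ in (0:ℝ)..(2 * π), Complex.normSq (h' (zt H (r, θ))) := by
  have hsm : ContDiff ℝ (⊤ : ℕ∞) (uim H h) := uim_smooth fun z => (hd z).differentiableAt
  rw [energy_flat hH hsm]
  have e : ∀ r θ, dr (uim H h) (r, θ) ^ 2 + H ^ 2 * dt (uim H h) (r, θ) ^ 2 =
      H ^ 2 * Complex.normSq (h' (zt H (r, θ))) := by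
    intro r θ
    obtain ⟨h1, h2⟩ := uim_fderiv (H := H) hd (r, θ)
    unfold dr dt
    rw [h1, h2, Complex.normSq_apply]
    ring
  simp_rw [e, intervalIntegral.integral_const_mul]
  field_simp

lemma uim_zero (hd : ∀ z, HasDerivAt h (h' z) z) (hp : ∀ z, h (z + 2 * π * Complex.I) = h z)
    (r : ℝ) : ∫ θ in (0:ℝ)..(2 * π), uim H h' (r, θ) = 0 := by
  have hsm : ContDiff ℝ (⊤ : ℕ∞) (vre H h) := vre_smooth fun z => (hd z).differentiableAt
  have h1 := intervalIntegral.integral_eq_sub_of_hasDerivAt (a := (0:ℝ)) (b := 2 * π)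
    (f := fun θ => vre H h (r, θ)) (f' := fun θ => dt (vre H h) (r, θ))
    (fun θ _ => hasDerivAt_dt hsm r θ)
    (Continuous.intervalIntegrable (by have := dt_cont hsm; fun_prop) _ _)
  have h2 : vre H h (r, 2 * π) = vre H h (r, 0) := by
    have := vre_per (H := H) hp r 0
    rwa [zero_add] at this
  rw [h2, sub_self] at h1
  have e : ∀ θ, dt (vre H h) (r, θ) = -uim H h' (r, θ) := fun θ =>
    (vre_fderiv (H := H) hd (r, θ)).2
  simp_rw [e, intervalIntegral.integral_neg] at h1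
  linarith

/-- **Green's formula** -/
lemma green (hH : 0 < H) (hd : ∀ z, HasDerivAt h (h' z) z)
    (hp : ∀ z, h (z + 2 * π * Complex.I) = h z) :
    energy (fun _ => H ^ 2) (fun _ => 0) (fun _ => 1) (vre H h) =
      (∫ θ in (0:ℝ)..(2 * π), uim H h (1, θ) * uim H h' (1, θ)) -
        ∫ θ in (0:ℝ)..(2 * π), uim H h (0, θ) * uim H h' (0, θ) := by
  have hdiff : Differentiable ℂ h := fun z => (hd z).differentiableAt
  have hder : deriv h = h' := funext fun z => (hd z).deriv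
  have hd'diff : Differentiable ℂ h' := by
    rw [← hder]
    exact (hdiff.contDiff (n := 2)).differentiable_deriv_two
  obtain ⟨h'', hh''⟩ : ∃ h'' : ℂ → ℂ, h'' = deriv h' := ⟨_, rfl⟩
  have hd' : ∀ z, HasDerivAt h' (h'' z) z := fun z => by
    rw [hh'']
    exact (hd'diff z).hasDerivAt
  have hp' : ∀ z, h' (z + 2 * π * Complex.I) = h' z := by
    intro z
    have h1 : HasDerivAt (fun z => h (z + 2 * π * Complex.I)) (h' (z + 2 * π * Complex.I)) z :=
      (hd (z + 2 * π * Complex.I)).comp_add_const z (2 * π * Complex.I)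
    have h2 : (fun z => h (z + 2 * π * Complex.I)) = h := funext hp
    rw [h2] at h1
    exact h1.unique (hd z)
  have hd''diff : Differentiable ℂ h'' := by
    rw [hh'']
    exact (hd'diff.contDiff (n := 2)).differentiable_deriv_two
  have cu : Continuous (uim H h) := (uim_smooth hdiff).continuous
  have cu' : Continuous (uim H h') := (uim_smooth hd'diff).continuous
  have cv' : Continuous (vre H h') := (vre_smooth hd'diff).continuous
  have cu'' : Continuous (uim H h'') := (uim_smooth hd''diff).continuous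
  -- derivative in the radial direction
  have hr : ∀ θ r : ℝ, HasDerivAt (fun r => uim H h (r, θ) * uim H h' (r, θ))
      (H * (uim H h' (r, θ) ^ 2 + uim H h (r, θ) * uim H h'' (r, θ))) r := by
    intro θ r
    have h1 : HasDerivAt (fun r => uim H h (r, θ)) (H * uim H h' (r, θ)) r := by
      have := hasDerivAt_dr (uim_smooth (H := H) hdiff) r θ
      unfold dr at this
      rw [(uim_fderiv (H := H) hd (r, θ)).1] at this
      exact this
    have h2 : HasDerivAt (fun r => uim H h' (r, θ)) (H * uim H h'' (r, θ)) r := by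
      have := hasDerivAt_dr (uim_smooth (H := H) hd'diff) r θ
      unfold dr at this
      rw [(uim_fderiv (H := H) hd' (r, θ)).1] at this
      exact this
    refine (h1.mul h2).congr_deriv ?_
    ring
  -- derivative in the angular direction
  have ht : ∀ r θ : ℝ, HasDerivAt (fun θ => uim H h (r, θ) * vre H h' (r, θ))
      (vre H h' (r, θ) ^ 2 - uim H h (r, θ) * uim H h'' (r, θ)) θ := by
    intro r θ
    have h1 : HasDerivAt (fun θ => uim H h (r, θ)) (vre H h' (r, θ)) θ := by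
      have := hasDerivAt_dt (uim_smooth (H := H) hdiff) r θ
      unfold dt at this
      rw [(uim_fderiv (H := H) hd (r, θ)).2] at this
      exact this
    have h2 : HasDerivAt (fun θ => vre H h' (r, θ)) (-uim H h'' (r, θ)) θ := by
      have := hasDerivAt_dt (vre_smooth (H := H) hd'diff) r θ
      unfold dt at this
      rw [(vre_fderiv (H := H) hd' (r, θ)).2] at this
      exact this
    refine (h1.mul h2).congr_deriv ?_
    ring
  have hz : ∀ r : ℝ, ∫ θ in (0:ℝ)..(2 * π), (vre H h' (r, θ) ^ 2 -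
      uim H h (r, θ) * uim H h'' (r, θ)) = 0 := by
    intro r
    rw [intervalIntegral.integral_eq_sub_of_hasDerivAt (fun θ _ => ht r θ)
      (Continuous.intervalIntegrable (by fun_prop) _ _)]
    have h1 := uim_per (H := H) hp r 0
    have h2 := vre_per (H := H) hp' r 0
    rw [zero_add] at h1 h2
    rw [h1, h2, sub_self]
  rw [energy_vre hH hd]
  have s1 : ∀ θ : ℝ, uim H h (1, θ) * uim H h' (1, θ) -
      uim H h (0, θ) * uim H h' (0, θ) = ∫ r in (0:ℝ)..1,
        H * (uim H h' (r, θ) ^ 2 + uim H h (r, θ) * uim H h'' (r, θ)) := by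
    intro θ
    rw [intervalIntegral.integral_eq_sub_of_hasDerivAt (fun r _ => hr θ r)
      (Continuous.intervalIntegrable (by fun_prop) _ _)]
  rw [← intervalIntegral.integral_sub (Continuous.intervalIntegrable (by fun_prop) _ _)
    (Continuous.intervalIntegrable (by fun_prop) _ _)]
  simp_rw [s1]
  have s2 : ∫ θ in (0:ℝ)..(2 * π), ∫ r in (0:ℝ)..1,
        H * (uim H h' (r, θ) ^ 2 + uim H h (r, θ) * uim H h'' (r, θ)) =
      ∫ r in (0:ℝ)..1, ∫ θ in (0:ℝ)..(2 * π),
        H * (uim H h' (r, θ) ^ 2 + uim H h (r, θ) * uim H h'' (r, θ)) := by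
    refine MeasureTheory.intervalIntegral_intervalIntegral_swap
      (F := fun θ r => H * (uim H h' (r, θ) ^ 2 + uim H h (r, θ) * uim H h'' (r, θ))) ?_
    have hc : Continuous (Function.uncurry fun θ r => H * (uim H h' (r, θ) ^ 2 +
        uim H h (r, θ) * uim H h'' (r, θ))) := by
      show Continuous fun x : ℝ × ℝ => H * (uim H h' (x.2, x.1) ^ 2 +
        uim H h (x.2, x.1) * uim H h'' (x.2, x.1))
      fun_prop
    refine (hc.continuousOn.integrableOn_compact (K := uIcc (0:ℝ) (2 * π) ×ˢ uIcc (0:ℝ) 1)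
      (isCompact_uIcc.prod isCompact_uIcc)).mono_set ?_
    exact prod_mono uIoc_subset_uIcc uIoc_subset_uIcc
  rw [s2, ← intervalIntegral.integral_const_mul]
  refine intervalIntegral.integral_congr fun r _ => ?_
  show H * ∫ θ in (0:ℝ)..(2 * π), Complex.normSq (h' (zt H (r, θ))) = ∫ θ in (0:ℝ)..(2 * π),
        H * (uim H h' (r, θ) ^ 2 + uim H h (r, θ) * uim H h'' (r, θ))
  rw [intervalIntegral.integral_const_mul]
  congr 1
  have h3 : ∀ θ : ℝ, Complex.normSq (h' (zt H (r, θ))) = (uim H h' (r, θ) ^ 2 +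
        uim H h (r, θ) * uim H h'' (r, θ)) + (vre H h' (r, θ) ^ 2 -
      uim H h (r, θ) * uim H h'' (r, θ)) := by
    intro θ
    rw [Complex.normSq_apply]
    unfold vre uim
    ring
  simp_rw [h3]
  rw [intervalIntegral.integral_add (Continuous.intervalIntegrable (by fun_prop) _ _)
    (Continuous.intervalIntegrable (by fun_prop) _ _), hz, add_zero]

end

end Pool.Agent.Helper22.Stek
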