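import Pool.Agent.Helper22.Stek.Poisson

/-! # Fourier coefficients on the circle -/

set_option autoImplicit false
open Real MeasureTheory Set ComplexConjugate

namespace Pool.Agent.Helper22.Stek

lemma int_re' {g : ℝ → ℂ} (hg : Continuous g) :
    ∫ θ in (0:ℝ)..(2 * π), (g θ).re = (∫ θ in (0:ℝ)..(2 * π), g θ).re :=
  Complex.reCLM.intervalIntegral_comp_comm (hg.intervalIntegrable (μ := volume) 0 (2 * π))

lemma re_sq_half (w : ℂ) : w.re ^ 2 = 1 / 2 * Complex.normSq w + 1 / 2 * (w ^ 2).re := by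
  rw [re_sq]
  ring

/-- the polynomial `Σ_{n < N} c n z ^ n` -/
noncomputable def pol (c : ℕ → ℂ) (N : ℕ) (z : ℂ) : ℂ := ∑ n ∈ Finset.range N, c n * z ^ n

lemma pol_diff (c : ℕ → ℂ) (N : ℕ) : Differentiable ℂ (pol c N) := by
  unfold pol
  fun_prop

lemma pol_cont (c : ℕ → ℂ) (N : ℕ) : Continuous (pol c N) := (pol_diff c N).continuous

lemma pol_ee_cont (c : ℕ → ℂ) (N : ℕ) : Continuous fun θ => pol c N (ee θ) :=
  (pol_cont c N).comp ee_cont

lemma mvp' {g : ℂ → ℂ} (hd : Differentiable ℂ g) :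
    ∫ θ in (0:ℝ)..(2 * π), g (ee θ) = 2 * π * g 0 :=
  mvp hd.continuous.continuousOn fun z _ => hd z

lemma int_normSq_pol (c : ℕ → ℂ) (N : ℕ) :
    ∫ θ in (0:ℝ)..(2 * π), Complex.normSq (pol c N (ee θ)) =
      2 * π * ∑ n ∈ Finset.range N, Complex.normSq (c n) := by
  induction N generalizing c with
  | zero => simp [pol]
  | succ N ih =>
    have e : ∀ z, pol c (N + 1) z = c 0 + z * pol (fun n => c (n + 1)) N z := by
      intro z
      unfold pol
      rw [Finset.sum_range_succ', Finset.mul_sum, add_comm]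
      congr 1
      · simp
      · exact Finset.sum_congr rfl fun n _ => by ring
    set q := pol (fun n => c (n + 1)) N with hq
    have hqc : Continuous fun θ => q (ee θ) := pol_ee_cont _ _
    have hee := ee_cont
    have e2 : ∀ θ, Complex.normSq (pol c (N + 1) (ee θ)) = Complex.normSq (c 0) +
        Complex.normSq (q (ee θ)) + 2 * (conj (c 0) * (ee θ * q (ee θ))).re := by
      intro θ
      rw [e, Complex.normSq_add, Complex.normSq_mul, ee_normSq, one_mul]
      congr 2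
      rw [← Complex.conj_re]
      simp
    rw [intervalIntegral.integral_congr (fun θ _ => e2 θ)]
    have c1 : Continuous fun θ => Complex.normSq (q (ee θ)) := Complex.continuous_normSq.comp hqc
    have c2 : Continuous fun θ => conj (c 0) * (ee θ * q (ee θ)) :=
      continuous_const.mul (hee.mul hqc)
    have c3 : Continuous fun θ => (conj (c 0) * (ee θ * q (ee θ))).re :=
      Complex.continuous_re.comp c2
    have j1 : IntervalIntegrable (fun θ => Complex.normSq (c 0) + Complex.normSq (q (ee θ)))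
      volume 0 (2 * π) := Continuous.intervalIntegrable (by fun_prop) _ _
    have j2 : IntervalIntegrable (fun θ => 2 * (conj (c 0) * (ee θ * q (ee θ))).re)
      volume 0 (2 * π) := Continuous.intervalIntegrable (by fun_prop) _ _
    rw [intervalIntegral.integral_add j1 j2, intervalIntegral.integral_add
      (continuous_const.intervalIntegrable _ _) (c1.intervalIntegrable _ _),
      intervalIntegral.integral_const_mul, int_re' c2, intervalIntegral.integral_const_mul,
      hq, ih, Finset.sum_range_succ']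
    have h0 := mvp' (g := fun z => z * pol (fun n => c (n + 1)) N z)
      (differentiable_id.mul (pol_diff _ _))
    simp only [zero_mul, mul_zero] at h0
    rw [h0]
    simp
    ring

/-- the Fourier coefficients of a real function -/
noncomputable def fc (f : ℝ → ℝ) (n : ℕ) : ℂ :=
  ∫ θ in (0:ℝ)..(2 * π), (f θ : ℂ) * conj (ee θ) ^ n

lemma ee_exp (θ : ℝ) : ee θ = Complex.exp (θ * Complex.I) := by
  simp [ee, circleMap]

lemma ee_pow (θ : ℝ) (n : ℕ) : ee θ ^ n = Complex.exp ((n * θ : ℝ) * Complex.I) := by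
  rw [ee_exp, ← Complex.exp_nat_mul]
  congr 1
  push_cast
  ring

lemma conj_ee_pow (θ : ℝ) (n : ℕ) :
    conj (ee θ) ^ n = Complex.exp ((-(n * θ) : ℝ) * Complex.I) := by
  rw [← map_pow, ee_pow, ← Complex.exp_conj]
  congr 1
  simp

lemma fc_zero (f : ℝ → ℝ) : fc f 0 = ((∫ θ in (0:ℝ)..(2 * π), f θ : ℝ) : ℂ) := by
  unfold fc
  rw [← intervalIntegral.integral_ofReal]
  simp

lemma conj_fc {f : ℝ → ℝ} (n : ℕ) :
    conj (fc f n) = ∫ θ in (0:ℝ)..(2 * π), (f θ : ℂ) * ee θ ^ n := by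
  unfold fc
  rw [intervalIntegral.integral_of_le (by positivity), intervalIntegral.integral_of_le
    (by positivity), ← integral_conj]
  refine integral_congr_ae (Filter.Eventually.of_forall fun θ => ?_)
  simp

lemma pi2 : (0:ℝ) < 2 * π := by positivity

lemma coeffOn_nat (f : ℝ → ℝ) (n : ℕ) :
    fourierCoeffOn pi2 (fun θ => (f θ : ℂ)) (n : ℤ) = (1 / (2 * π) : ℝ) • fc f n := by
  rw [fourierCoeffOn_eq_integral, sub_zero]
  congr 1
  unfold fc
  refine intervalIntegral.integral_congr fun θ _ => ?_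
  rw [fourier_coe_apply, smul_eq_mul, mul_comm, conj_ee_pow]
  congr 2
  have hp : (π : ℂ) ≠ 0 := by exact_mod_cast pi_ne_zero
  push_cast
  field_simp

lemma coeffOn_neg (f : ℝ → ℝ) (n : ℕ) :
    fourierCoeffOn pi2 (fun θ => (f θ : ℂ)) (-(n : ℤ)) = (1 / (2 * π) : ℝ) • conj (fc f n) := by
  rw [fourierCoeffOn_eq_integral, sub_zero, conj_fc]
  congr 1
  refine intervalIntegral.integral_congr fun θ _ => ?_
  rw [fourier_coe_apply, smul_eq_mul, mul_comm, ee_pow]
  congr 2
  have hp : (π : ℂ) ≠ 0 := by exact_mod_cast pi_ne_zero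
  push_cast
  field_simp

/-- **Parseval's identity** for real functions -/
lemma parseval {f : ℝ → ℝ} (hf : Continuous f) :
    HasSum (fun n : ℕ => Complex.normSq (fc f (n + 1)))
      (π * (∫ θ in (0:ℝ)..(2 * π), f θ ^ 2) - (∫ θ in (0:ℝ)..(2 * π), f θ) ^ 2 / 2) := by
  have hcf : Continuous fun t => (f t : ℂ) := by fun_prop
  have hmem : MemLp (fun t => (f t : ℂ)) 2 (volume.restrict (Set.Ioc 0 (2 * π))) := by
    obtain ⟨M, hM⟩ := isCompact_Icc.exists_bound_of_continuousOn (s := Set.Icc 0 (2 * π))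
      hcf.continuousOn
    apply MemLp.of_bound hcf.aestronglyMeasurable M
    rw [ae_restrict_iff' measurableSet_Ioc]
    exact Filter.Eventually.of_forall fun t ht => hM t (Set.Ioc_subset_Icc_self ht)
  have h := hasSum_sq_fourierCoeffOn pi2 hmem
  have h2 := h.nat_add_neg
  have e1 : ∀ z : ℂ, ‖(1 / (2 * π) : ℝ) • z‖ ^ 2 = Complex.normSq z / (4 * π ^ 2) := by
    intro z
    rw [norm_smul, mul_pow, ← Complex.normSq_eq_norm_sq, Real.norm_eq_abs, sq_abs]
    field_simp
    ring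
  have e2 : (fun n : ℕ => ‖fourierCoeffOn pi2 (fun θ => (f θ : ℂ)) (n : ℤ)‖ ^ 2 +
      ‖fourierCoeffOn pi2 (fun θ => (f θ : ℂ)) (-(n : ℤ))‖ ^ 2) =
      fun n : ℕ => (1 / (2 * π ^ 2)) * Complex.normSq (fc f n) := by
    funext n
    rw [coeffOn_nat, coeffOn_neg, e1, e1, Complex.normSq_conj]
    field_simp
    ring
  rw [e2] at h2
  have h3 := h2.mul_left (2 * π ^ 2)
  have hp : 2 * π ^ 2 ≠ 0 := by positivity
  have e3 : (fun n : ℕ => 2 * π ^ 2 * ((1 / (2 * π ^ 2)) * Complex.normSq (fc f n))) =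
      fun n : ℕ => Complex.normSq (fc f n) := by
    funext n
    field_simp
  rw [e3] at h3
  have h4 := (hasSum_nat_add_iff' 1).2 h3
  have e4 : ∫ θ in (0:ℝ)..(2 * π), ‖(f θ : ℂ)‖ ^ 2 = ∫ θ in (0:ℝ)..(2 * π), f θ ^ 2 := by
    refine intervalIntegral.integral_congr fun θ _ => ?_
    simp
  have e5 : ‖fourierCoeffOn pi2 (fun θ => (f θ : ℂ)) 0‖ ^ 2 =
      Complex.normSq (fc f 0) / (4 * π ^ 2) := by
    have := coeffOn_nat f 0
    rw [Nat.cast_zero] at this
    rw [this, e1]
  rw [Finset.sum_range_one, e4, e5, fc_zero, Complex.normSq_ofReal, smul_eq_mul] at h4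
  have e6 : π * (∫ θ in (0:ℝ)..(2 * π), f θ ^ 2) - (∫ θ in (0:ℝ)..(2 * π), f θ) ^ 2 / 2 =
      2 * π ^ 2 * ((2 * π - 0)⁻¹ * (∫ θ in (0:ℝ)..(2 * π), f θ ^ 2) +
        (∫ θ in (0:ℝ)..(2 * π), f θ) * (∫ θ in (0:ℝ)..(2 * π), f θ) / (4 * π ^ 2)) -
          (∫ θ in (0:ℝ)..(2 * π), f θ) * (∫ θ in (0:ℝ)..(2 * π), f θ) := by
    rw [sub_zero]
    field_simp
    ring
  rw [e6]
  exact h4

/-- the Bessel inequality -/
lemma bessel {f : ℝ → ℝ} (hf : Continuous f) (N : ℕ) :
    (∫ θ in (0:ℝ)..(2 * π), f θ) ^ 2 / (2 * π) +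
      (∑ n ∈ Finset.range N, Complex.normSq (fc f (n + 1))) / π ≤
        ∫ θ in (0:ℝ)..(2 * π), f θ ^ 2 := by
  have h := sum_le_hasSum (Finset.range N) (fun n _ => Complex.normSq_nonneg _) (parseval hf)
  have hp := pi_pos
  rw [div_add_div _ _ (by positivity) (by positivity), div_le_iff₀ (by positivity)]
  nlinarith

/-- the error of the Fourier sum of order `N` in the square mean -/
noncomputable def err (f : ℝ → ℝ) (N : ℕ) : ℝ :=
  (∫ θ in (0:ℝ)..(2 * π), f θ ^ 2) - (∫ θ in (0:ℝ)..(2 * π), f θ) ^ 2 / (2 * π) -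
      (∑ n ∈ Finset.range N, Complex.normSq (fc f (n + 1))) / π

lemma err_tendsto {f : ℝ → ℝ} (hf : Continuous f) :
    Filter.Tendsto (err f) Filter.atTop (nhds 0) := by
  have h := ((parseval hf).tendsto_sum_nat.div_const π).const_sub
    ((∫ θ in (0:ℝ)..(2 * π), f θ ^ 2) - (∫ θ in (0:ℝ)..(2 * π), f θ) ^ 2 / (2 * π))
  have e : (∫ θ in (0:ℝ)..(2 * π), f θ ^ 2) - (∫ θ in (0:ℝ)..(2 * π), f θ) ^ 2 / (2 * π) -
      (π * (∫ θ in (0:ℝ)..(2 * π), f θ ^ 2) - (∫ θ in (0:ℝ)..(2 * π), f θ) ^ 2 / 2) / π = 0 := by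
    field_simp
    ring
  rw [e] at h
  exact h

/-- the nonconstant part of the Fourier sum, as a polynomial without constant term -/
noncomputable def fpol (f : ℝ → ℝ) (N : ℕ) (z : ℂ) : ℂ :=
  z * pol (fun n => fc f (n + 1) / π) N z

lemma fpol_diff (f : ℝ → ℝ) (N : ℕ) : Differentiable ℂ (fpol f N) :=
  differentiable_id.mul (pol_diff _ _)

lemma fpol_ee_cont (f : ℝ → ℝ) (N : ℕ) : Continuous fun θ => fpol f N (ee θ) :=
  (fpol_diff f N).continuous.comp ee_cont

lemma int_fpol_re (f : ℝ → ℝ) (N : ℕ) : ∫ θ in (0:ℝ)..(2 * π), (fpol f N (ee θ)).re = 0 := by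
  rw [int_re' (fpol_ee_cont f N), mvp' (fpol_diff f N)]
  simp [fpol]

lemma int_fpol_re_sq (f : ℝ → ℝ) (N : ℕ) : ∫ θ in (0:ℝ)..(2 * π), (fpol f N (ee θ)).re ^ 2 =
    (∑ n ∈ Finset.range N, Complex.normSq (fc f (n + 1))) / π := by
  have hc := fpol_ee_cont f N
  have c1 : Continuous fun θ => Complex.normSq (fpol f N (ee θ)) :=
    Complex.continuous_normSq.comp hc
  have c2 : Continuous fun θ => fpol f N (ee θ) ^ 2 := hc.pow 2
  have c3 : Continuous fun θ => (fpol f N (ee θ) ^ 2).re := Complex.continuous_re.comp c2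
  simp_rw [re_sq_half]
  rw [intervalIntegral.integral_add ((c1.const_mul _).intervalIntegrable _ _)
    ((c3.const_mul _).intervalIntegrable _ _), intervalIntegral.integral_const_mul,
    intervalIntegral.integral_const_mul, int_re' c2,
    mvp' (g := fun z => fpol f N z ^ 2) ((fpol_diff f N).pow 2)]
  have e1 : ∀ θ, Complex.normSq (fpol f N (ee θ)) =
      Complex.normSq (pol (fun n => fc f (n + 1) / π) N (ee θ)) := by
    intro θ
    unfold fpol
    rw [Complex.normSq_mul, ee_normSq, one_mul]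
  simp_rw [e1]
  rw [int_normSq_pol, Finset.sum_div, Finset.mul_sum, Finset.mul_sum]
  simp only [fpol, zero_mul, ne_eq, OfNat.ofNat_ne_zero, not_false_eq_true, zero_pow, mul_zero,
    Complex.zero_re, add_zero]
  refine Finset.sum_congr rfl fun n _ => ?_
  rw [Complex.normSq_div, Complex.normSq_ofReal]
  field_simp

lemma int_mul_fpol_re {f : ℝ → ℝ} (hf : Continuous f) (N : ℕ) :
    ∫ θ in (0:ℝ)..(2 * π), f θ * (fpol f N (ee θ)).re =
      (∑ n ∈ Finset.range N, Complex.normSq (fc f (n + 1))) / π := by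
  have hc := fpol_ee_cont f N
  have hee := ee_cont
  have c2 : Continuous fun θ => (f θ : ℂ) * fpol f N (ee θ) := by fun_prop
  have e1 : ∀ θ, f θ * (fpol f N (ee θ)).re = ((f θ : ℂ) * fpol f N (ee θ)).re := by
    intro θ
    rw [Complex.re_ofReal_mul]
  simp_rw [e1]
  rw [int_re' c2]
  have e2 : ∀ θ, (f θ : ℂ) * fpol f N (ee θ) = ∑ n ∈ Finset.range N,
      fc f (n + 1) / π * ((f θ : ℂ) * ee θ ^ (n + 1)) := by
    intro θ
    unfold fpol pol
    rw [Finset.mul_sum, Finset.mul_sum]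
    exact Finset.sum_congr rfl fun n _ => by ring
  simp_rw [e2]
  rw [intervalIntegral.integral_finsetSum fun n _ =>
    Continuous.intervalIntegrable (by fun_prop) _ _]
  rw [Complex.re_sum, Finset.sum_div]
  refine Finset.sum_congr rfl fun n _ => ?_
  rw [intervalIntegral.integral_const_mul, ← conj_fc, div_mul_eq_mul_div, Complex.mul_conj,
    ← Complex.ofReal_div, Complex.ofReal_re]

/-- the mean square error of the Fourier sum -/
lemma int_err {f : ℝ → ℝ} (hf : Continuous f) (N : ℕ) :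
    ∫ θ in (0:ℝ)..(2 * π), (f θ - (∫ θ in (0:ℝ)..(2 * π), f θ) / (2 * π) -
      (fpol f N (ee θ)).re) ^ 2 = err f N := by
  set m := (∫ θ in (0:ℝ)..(2 * π), f θ) / (2 * π) with hm
  have hI : ∫ θ in (0:ℝ)..(2 * π), f θ = 2 * π * m := by
    rw [hm]; field_simp
  have hc : Continuous fun θ => (fpol f N (ee θ)).re :=
    Complex.continuous_re.comp (fpol_ee_cont f N)
  set g : ℝ → ℝ := fun θ => (fpol f N (ee θ)).re with hg
  have e1 : ∀ θ, (f θ - m - g θ) ^ 2 = f θ ^ 2 - 2 * m * f θ + m ^ 2 - 2 * (f θ * g θ) +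
      2 * m * g θ + g θ ^ 2 := fun θ => by ring
  have h1 : ∫ θ in (0:ℝ)..(2 * π), g θ = 0 := int_fpol_re f N
  have h2 : ∫ θ in (0:ℝ)..(2 * π), g θ ^ 2 = _ := int_fpol_re_sq f N
  have h3 : ∫ θ in (0:ℝ)..(2 * π), f θ * g θ = _ := int_mul_fpol_re hf N
  change ∫ θ in (0:ℝ)..(2 * π), (f θ - m - g θ) ^ 2 = _
  simp_rw [e1]
  rw [intervalIntegral.integral_add, intervalIntegral.integral_add, intervalIntegral.integral_sub,
    intervalIntegral.integral_add, intervalIntegral.integral_sub,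
    intervalIntegral.integral_const_mul, intervalIntegral.integral_const_mul,
    intervalIntegral.integral_const_mul, intervalIntegral.integral_const, h1, h2, h3, err, hI]
  · simp only [sub_zero, smul_eq_mul]
    field_simp
    ring
  all_goals exact Continuous.intervalIntegrable (by fun_prop) _ _

end Pool.Agent.Helper22.Stek
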