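import Pool.Agent.Helper22.Stek.Four
import Pool.Agent.Helper22.Stek.Lower

/-! # The energy is at least the sum of the energies of the first modes -/

set_option autoImplicit false
open Real MeasureTheory Set ComplexConjugate

namespace Pool.Agent.Helper22.Stek

lemma hasDerivAt_conj_ee_pow (n : ℕ) (θ : ℝ) : HasDerivAt (fun θ : ℝ => conj (ee θ) ^ n)
    (-(Complex.I * n) * conj (ee θ) ^ n) θ := by
  have e : (fun θ : ℝ => conj (ee θ) ^ n) = fun θ : ℝ => Complex.exp (-(Complex.I * n) * θ) := by
    funext θ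
    rw [conj_ee_pow]
    congr 1
    push_cast
    ring
  rw [e]
  have h1 : HasDerivAt (fun θ : ℝ => -(Complex.I * n) * (θ : ℂ)) (-(Complex.I * n)) θ := by
    have := (Complex.ofRealCLM.hasDerivAt (x := θ)).const_mul (-(Complex.I * n))
    simpa using this
  have h2 := h1.cexp
  refine h2.congr_deriv ?_
  rw [conj_ee_pow]
  have : Complex.exp (-(Complex.I * n) * θ) = Complex.exp ((-(n * θ) : ℝ) * Complex.I) := by
    congr 1
    push_cast
    ring
  rw [this]
  ring

lemma conj_ee_cont (n : ℕ) : Continuous fun θ : ℝ => conj (ee θ) ^ n := by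
  have := ee_cont
  fun_prop

lemma ee_per (θ : ℝ) : ee (θ + 2 * π) = ee θ := by
  unfold ee
  exact periodic_circleMap 0 1 θ

section

variable {w : ℝ × ℝ → ℝ}

lemma fc_dt (hw : ContDiff ℝ (⊤ : ℕ∞) w) (hp : ∀ r θ, w (r, θ + 2 * π) = w (r, θ)) (r : ℝ)
    (n : ℕ) : fc (fun θ => dt w (r, θ)) n = Complex.I * n * fc (fun θ => w (r, θ)) n := by
  have c2 := dt_cont hw
  have cw := hw.continuous
  have ce := conj_ee_cont n
  have h := intervalIntegral.integral_mul_deriv_eq_deriv_mul (a := 0) (b := 2 * π)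
    (u := fun θ : ℝ => conj (ee θ) ^ n) (v := fun θ => (w (r, θ) : ℂ))
    (u' := fun θ : ℝ => -(Complex.I * n) * conj (ee θ) ^ n) (v' := fun θ => (dt w (r, θ) : ℂ))
    (fun θ _ => hasDerivAt_conj_ee_pow n θ) (fun θ _ => (hasDerivAt_dt hw r θ).ofReal_comp)
    (Continuous.intervalIntegrable (by fun_prop) _ _)
    (Continuous.intervalIntegrable (by fun_prop) _ _)
  have e1 : (w (r, 2 * π) : ℂ) = (w (r, 0) : ℂ) := by
    have := hp r 0
    rw [zero_add] at this
    rw [this]
  have e2 : ee (2 * π) = ee 0 := by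
    have := ee_per 0
    rwa [zero_add] at this
  rw [e1, e2, sub_self, zero_sub] at h
  have e3 : fc (fun θ => dt w (r, θ)) n =
      ∫ θ in (0:ℝ)..(2 * π), conj (ee θ) ^ n * (dt w (r, θ) : ℂ) := by
    unfold fc
    exact intervalIntegral.integral_congr fun θ _ => mul_comm _ _
  rw [e3, h, fc, ← intervalIntegral.integral_neg, ← intervalIntegral.integral_const_mul]
  refine intervalIntegral.integral_congr fun θ _ => ?_
  ring

lemma hasDerivAt_fc (hw : ContDiff ℝ (⊤ : ℕ∞) w) (n : ℕ) (r : ℝ) :
    HasDerivAt (fun r => fc (fun θ => w (r, θ)) n) (fc (fun θ => dr w (r, θ)) n) r := by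
  have hwc := hw.continuous
  have hdc := dr_cont hw
  have ce := conj_ee_cont n
  obtain ⟨C, hC⟩ := ((isCompact_closedBall r 1).prod
    (isCompact_Icc (a := (0:ℝ)) (b := 2 * π))).exists_bound_of_continuousOn hdc.continuousOn
  have h := intervalIntegral.hasDerivAt_integral_of_dominated_loc_of_deriv_le
    (μ := volume) (a := 0) (b := 2 * π) (F := fun r θ => (w (r, θ) : ℂ) * conj (ee θ) ^ n)
    (F' := fun r θ => (dr w (r, θ) : ℂ) * conj (ee θ) ^ n)
    (x₀ := r) (s := Metric.closedBall r 1) (bound := fun _ => C)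
    (Metric.closedBall_mem_nhds r one_pos)
    (Filter.Eventually.of_forall fun x => (Continuous.aestronglyMeasurable (by fun_prop)))
    (Continuous.intervalIntegrable (by fun_prop) _ _)
    (Continuous.aestronglyMeasurable (by fun_prop))
    (Filter.Eventually.of_forall fun t ht x hx => by
      have h1 := hC (x, t) ⟨hx, by
        rw [uIoc_of_le (by positivity)] at ht
        exact ⟨ht.1.le, ht.2⟩⟩
      rw [norm_mul, norm_pow, Complex.norm_conj, ee_norm, one_pow, mul_one, Complex.norm_real]
      exact h1)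
    (continuous_const.intervalIntegrable _ _)
    (Filter.Eventually.of_forall fun t _ x _ => (hasDerivAt_dr hw x t).ofReal_comp.mul_const _)
  exact h.2

lemma fc_cont {g : ℝ × ℝ → ℝ} (hg : Continuous g) (n : ℕ) :
    Continuous fun r => fc (fun θ => g (r, θ)) n := by
  have hee := ee_cont
  unfold fc
  exact intervalIntegral.continuous_parametric_intervalIntegral_of_continuous'
    (f := fun r θ => (g (r, θ) : ℂ) * conj (ee θ) ^ n)
    (by
      show Continuous fun x : ℝ × ℝ => (g (x.1, x.2) : ℂ) * conj (ee x.2) ^ n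
      fun_prop) _ _

lemma calibC {K : ℝ} (hK : 0 < K) {V V' : ℝ → ℂ} (hV : ∀ r, HasDerivAt V (V' r) r)
    (hV' : Continuous V') :
    K * tanh (K / 2) * (Complex.normSq (V 0) + Complex.normSq (V 1)) ≤
      ∫ r in (0:ℝ)..1, (Complex.normSq (V' r) + K ^ 2 * Complex.normSq (V r)) := by
  have hVc : Continuous V := continuous_iff_continuousAt.2 fun x => (hV x).continuousAt
  have h1 := calib hK (v := fun r => (V r).re) (v' := fun r => (V' r).re)
    (fun r => by
      have := (Complex.reCLM.hasFDerivAt (x := V r)).comp_hasDerivAt r (hV r)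
      exact this) (Complex.continuous_re.comp hV')
  have h2 := calib hK (v := fun r => (V r).im) (v' := fun r => (V' r).im)
    (fun r => by
      have := (Complex.imCLM.hasFDerivAt (x := V r)).comp_hasDerivAt r (hV r)
      exact this) (Complex.continuous_im.comp hV')
  have c1 : Continuous fun r => (V r).re := Complex.continuous_re.comp hVc
  have c2 : Continuous fun r => (V r).im := Complex.continuous_im.comp hVc
  have c3 : Continuous fun r => (V' r).re := Complex.continuous_re.comp hV'
  have c4 : Continuous fun r => (V' r).im := Complex.continuous_im.comp hV'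
  have e : ∫ r in (0:ℝ)..1, (Complex.normSq (V' r) + K ^ 2 * Complex.normSq (V r)) =
      (∫ r in (0:ℝ)..1, ((V' r).re ^ 2 + K ^ 2 * (V r).re ^ 2)) +
        ∫ r in (0:ℝ)..1, ((V' r).im ^ 2 + K ^ 2 * (V r).im ^ 2) := by
    rw [← intervalIntegral.integral_add (Continuous.intervalIntegrable (by fun_prop) _ _)
      (Continuous.intervalIntegrable (by fun_prop) _ _)]
    refine intervalIntegral.integral_congr fun r _ => ?_
    simp only [Complex.normSq_apply]
    ring
  rw [e]
  have e2 : K * tanh (K / 2) * (Complex.normSq (V 0) + Complex.normSq (V 1)) =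
      K * tanh (K / 2) * ((V 0).re ^ 2 + (V 1).re ^ 2) +
        K * tanh (K / 2) * ((V 0).im ^ 2 + (V 1).im ^ 2) := by
    simp only [Complex.normSq_apply]
    ring
  rw [e2]
  exact add_le_add h1 h2

lemma sq_diff_le {v v' : ℝ → ℝ} (hv : ∀ r, HasDerivAt v (v' r) r) (hv' : Continuous v') :
    (v 1 - v 0) ^ 2 ≤ ∫ r in (0:ℝ)..1, v' r ^ 2 := by
  have h1 := intervalIntegral.integral_eq_sub_of_hasDerivAt (a := (0:ℝ)) (b := 1)
    (fun r _ => hv r) (hv'.intervalIntegrable _ _)
  have h2 : 0 ≤ ∫ r in (0:ℝ)..1, (v' r - (v 1 - v 0)) ^ 2 :=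
    intervalIntegral.integral_nonneg (by norm_num) fun r _ => sq_nonneg _
  have e : ∀ r, (v' r - (v 1 - v 0)) ^ 2 = v' r ^ 2 - 2 * (v 1 - v 0) * v' r +
      (v 1 - v 0) ^ 2 := fun r => by ring
  simp_rw [e] at h2
  rw [intervalIntegral.integral_add (Continuous.intervalIntegrable (by fun_prop) _ _)
    (Continuous.intervalIntegrable (by fun_prop) _ _), intervalIntegral.integral_sub
    (Continuous.intervalIntegrable (by fun_prop) _ _)
    (Continuous.intervalIntegrable (by fun_prop) _ _), intervalIntegral.integral_const_mul, h1,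
    intervalIntegral.integral_const] at h2
  simp only [sub_zero, one_smul] at h2
  nlinarith

/-- **The energy is at least the energy of the first modes** -/
theorem energy_modes {H : ℝ} (hH : 0 < H) (hw : ContDiff ℝ (⊤ : ℕ∞) w)
    (hp : ∀ r θ, w (r, θ + 2 * π) = w (r, θ)) (N : ℕ) :
    ((∫ θ in (0:ℝ)..(2 * π), w (1, θ)) - ∫ θ in (0:ℝ)..(2 * π), w (0, θ)) ^ 2 / (2 * π * H) +
      (∑ n ∈ Finset.range N, (n + 1 : ℕ) * tanh ((n + 1 : ℕ) * H / 2) *
        (Complex.normSq (fc (fun θ => w (0, θ)) (n + 1)) +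
          Complex.normSq (fc (fun θ => w (1, θ)) (n + 1)))) / π ≤
      energy (fun _ => H ^ 2) (fun _ => 0) (fun _ => 1) w := by
  have c1 := dr_cont hw
  have c2 := dt_cont hw
  have hpi := pi_pos
  have hpp : ∀ r θ, dt w (r, θ + 2 * π) = dt w (r, θ) := by
    intro r θ
    have h1 : HasDerivAt (fun θ => w (r, θ + 2 * π)) (dt w (r, θ + 2 * π)) θ :=
      (hasDerivAt_dt hw r (θ + 2 * π)).comp_add_const θ (2 * π)
    have h2 : (fun θ => w (r, θ + 2 * π)) = fun θ => w (r, θ) := funext (hp r)
    rw [h2] at h1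
    exact h1.unique (hasDerivAt_dt hw r θ)
  rw [energy_flat hH hw, le_div_iff₀ hH]
  -- the zero mode
  have z1 : ((∫ θ in (0:ℝ)..(2 * π), w (1, θ)) - ∫ θ in (0:ℝ)..(2 * π), w (0, θ)) ^ 2 ≤
      ∫ r in (0:ℝ)..1, (∫ θ in (0:ℝ)..(2 * π), dr w (r, θ)) ^ 2 := by
    refine sq_diff_le (v := fun r => ∫ θ in (0:ℝ)..(2 * π), w (r, θ))
      (v' := fun r => ∫ θ in (0:ℝ)..(2 * π), dr w (r, θ)) (fun r => ?_) ?_
    · have h1 := (hasDerivAt_cmean hw r).mul_const (2 * π)
      unfold cmean at h1
      have e : ∀ x : ℝ, x / (2 * π) * (2 * π) = x := fun x => by field_simp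
      simp only [e] at h1
      exact h1
    · exact intervalIntegral.continuous_parametric_intervalIntegral_of_continuous'
        (f := fun r θ => dr w (r, θ)) (by exact c1) _ _
  -- the other modes
  have z2 : ∀ n : ℕ, (n + 1 : ℕ) * H * tanh ((n + 1 : ℕ) * H / 2) *
        (Complex.normSq (fc (fun θ => w (0, θ)) (n + 1)) +
          Complex.normSq (fc (fun θ => w (1, θ)) (n + 1))) ≤
      ∫ r in (0:ℝ)..1, (Complex.normSq (fc (fun θ => dr w (r, θ)) (n + 1)) +
        H ^ 2 * Complex.normSq (fc (fun θ => dt w (r, θ)) (n + 1))) := by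
    intro n
    have h1 := calibC (K := (n + 1 : ℕ) * H) (by positivity) (hasDerivAt_fc hw (n + 1))
      (fc_cont c1 (n + 1))
    refine h1.trans (le_of_eq (intervalIntegral.integral_congr fun r _ => ?_))
    rw [fc_dt hw hp, Complex.normSq_mul, Complex.normSq_mul, Complex.normSq_I,
      Complex.normSq_natCast]
    ring
  have cfr : ∀ n, Continuous fun r => Complex.normSq (fc (fun θ => dr w (r, θ)) n) := fun n =>
    Complex.continuous_normSq.comp (fc_cont c1 n)
  have cft : ∀ n, Continuous fun r => Complex.normSq (fc (fun θ => dt w (r, θ)) n) := fun n =>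
    Complex.continuous_normSq.comp (fc_cont c2 n)
  have cm : Continuous fun r => ∫ θ in (0:ℝ)..(2 * π), dr w (r, θ) :=
    intervalIntegral.continuous_parametric_intervalIntegral_of_continuous'
        (f := fun r θ => dr w (r, θ)) (by exact c1) _ _
  have s1 : (∫ r in (0:ℝ)..1, ((∫ θ in (0:ℝ)..(2 * π), dr w (r, θ)) ^ 2 / (2 * π) +
      (∑ n ∈ Finset.range N, (Complex.normSq (fc (fun θ => dr w (r, θ)) (n + 1)) +
        H ^ 2 * Complex.normSq (fc (fun θ => dt w (r, θ)) (n + 1)))) / π)) ≤
      ∫ r in (0:ℝ)..1, ∫ θ in (0:ℝ)..(2 * π), (dr w (r, θ) ^ 2 + H ^ 2 * dt w (r, θ) ^ 2) := by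
    refine intervalIntegral.integral_mono_on (by norm_num)
      (Continuous.intervalIntegrable (by fun_prop) _ _)
      (Continuous.intervalIntegrable ?_ _ _) fun r _ => ?_
    · exact intervalIntegral.continuous_parametric_intervalIntegral_of_continuous'
        (f := fun r θ => dr w (r, θ) ^ 2 + H ^ 2 * dt w (r, θ) ^ 2)
        (by
          show Continuous fun x : ℝ × ℝ => dr w (x.1, x.2) ^ 2 + H ^ 2 * dt w (x.1, x.2) ^ 2
          fun_prop) _ _
    · have b1 := bessel (f := fun θ => dr w (r, θ)) (by fun_prop) N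
      have b2 := bessel (f := fun θ => dt w (r, θ)) (by fun_prop) N
      rw [intervalIntegral.integral_add (Continuous.intervalIntegrable (by fun_prop) _ _)
        (Continuous.intervalIntegrable (by fun_prop) _ _), intervalIntegral.integral_const_mul]
      have b3 : 0 ≤ (∫ θ in (0:ℝ)..(2 * π), dt w (r, θ)) ^ 2 / (2 * π) := by positivity
      have b4 := mul_le_mul_of_nonneg_left b2 (sq_nonneg H)
      rw [Finset.sum_add_distrib, ← Finset.mul_sum, add_div]
      have b5 : 0 ≤ H ^ 2 * ((∫ θ in (0:ℝ)..(2 * π), dt w (r, θ)) ^ 2 / (2 * π)) := by positivity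
      have b6 : H ^ 2 * (∑ n ∈ Finset.range N,
          Complex.normSq (fc (fun θ => dt w (r, θ)) (n + 1))) / π =
          H ^ 2 * ((∑ n ∈ Finset.range N,
            Complex.normSq (fc (fun θ => dt w (r, θ)) (n + 1))) / π) := by ring
      rw [b6]
      linarith
  refine le_trans ?_ s1
  rw [intervalIntegral.integral_add (Continuous.intervalIntegrable (by fun_prop) _ _)
    (Continuous.intervalIntegrable (by fun_prop) _ _), intervalIntegral.integral_div,
    intervalIntegral.integral_div, intervalIntegral.integral_finsetSum fun n _ =>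
      Continuous.intervalIntegrable (by fun_prop) _ _, add_mul]
  refine add_le_add ?_ ?_
  · rw [div_mul_eq_mul_div, div_le_div_iff₀ (by positivity) (by positivity)]
    have := mul_le_mul_of_nonneg_right z1 (show 0 ≤ H * (2 * π) by positivity)
    linarith
  · rw [div_mul_eq_mul_div, Finset.sum_mul]
    refine div_le_div_of_nonneg_right (Finset.sum_le_sum fun n _ => ?_) hpi.le
    refine le_trans (le_of_eq ?_) (z2 n)
    ring

end

end Pool.Agent.Helper22.Stek
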