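import Pool.Agent.Helper22.Stek.Var
import Pool.Agent.Helper22.Stek.Modes

/-! # The energy inequality for the critical catenoid with a small disc attached -/

set_option autoImplicit false
open Real MeasureTheory Set ComplexConjugate

namespace Pool.Agent.Helper22.Stek

section

variable {w : ℝ × ℝ → ℝ} {a : ℝ}

lemma sq_add_le' {s : ℝ} (hs : 0 < s) (x y : ℝ) :
    (x + y) ^ 2 ≤ (1 + 1 / s) * x ^ 2 + (1 + s) * y ^ 2 := by
  have h : (1 + 1 / s) * x ^ 2 + (1 + s) * y ^ 2 - (x + y) ^ 2 = 1 / s * (x - s * y) ^ 2 := by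
    field_simp
    ring
  have h2 : 0 ≤ 1 / s * (x - s * y) ^ 2 := by positivity
  linarith

/-- the bound for the part of the boundary integral on the attached disc -/
lemma disc_part (ha0 : 0 ≤ a) (ha : a < 1) {f : ℝ → ℝ} (hf : Continuous f)
    (h0 : ∫ θ in (0:ℝ)..(2 * π), f θ * pk a θ = 0) {s : ℝ} (hs : 0 < s) {C : ℝ}
    (hC : ∀ θ, pk a θ ≤ C) (N M : ℕ) :
    ∫ θ in (0:ℝ)..(2 * π), f θ ^ 2 * pk a θ ≤ (1 + 1 / s) * C * err f N + (1 + s) *
      ((∑ n ∈ Finset.range N, (if n < M then (1 + 1 / s) * ((1 - a ^ 2) * (M : ℝ) ^ 2) else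
        (1 + s) * (n + 1 : ℕ)) * Complex.normSq (fc f (n + 1))) / π) := by
  have hpi := pi_pos
  have hpc := pk_cont ha0 ha
  set m := (∫ θ in (0:ℝ)..(2 * π), f θ) / (2 * π) with hm
  set g : ℝ → ℝ := fun θ => (fpol f N (ee θ)).re with hg
  have hgc : Continuous g := Complex.continuous_re.comp (fpol_ee_cont f N)
  set k := (fpol f N a).re with hk
  have h1 : ∫ θ in (0:ℝ)..(2 * π), f θ ^ 2 * pk a θ ≤
      ∫ θ in (0:ℝ)..(2 * π), (f θ - m - k) ^ 2 * pk a θ := by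
    have e : ∀ θ, (f θ - m - k) ^ 2 * pk a θ = f θ ^ 2 * pk a θ - 2 * (m + k) * (f θ * pk a θ) +
        (m + k) ^ 2 * pk a θ := fun θ => by ring
    simp_rw [e]
    rw [intervalIntegral.integral_add (Continuous.intervalIntegrable (by fun_prop) _ _)
      (Continuous.intervalIntegrable (by fun_prop) _ _), intervalIntegral.integral_sub
      (Continuous.intervalIntegrable (by fun_prop) _ _)
      (Continuous.intervalIntegrable (by fun_prop) _ _), intervalIntegral.integral_const_mul,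
      intervalIntegral.integral_const_mul, h0, int_pk ha0 ha]
    nlinarith [mul_nonneg (sq_nonneg (m + k)) hpi.le]
  refine h1.trans ?_
  have h2 : ∫ θ in (0:ℝ)..(2 * π), (f θ - m - k) ^ 2 * pk a θ ≤
      ∫ θ in (0:ℝ)..(2 * π), ((1 + 1 / s) * C * (f θ - m - g θ) ^ 2 +
        (1 + s) * ((g θ - k) ^ 2 * pk a θ)) := by
    refine intervalIntegral.integral_mono_on (by positivity)
      (Continuous.intervalIntegrable (by fun_prop) _ _)
      (Continuous.intervalIntegrable (by fun_prop) _ _) fun θ _ => ?_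
    have h3 := sq_add_le' hs (f θ - m - g θ) (g θ - k)
    have e : f θ - m - g θ + (g θ - k) = f θ - m - k := by ring
    rw [e] at h3
    have h4 := mul_le_mul_of_nonneg_right h3 (pk_pos ha0 ha θ).le
    have h5 : (1 + 1 / s) * (f θ - m - g θ) ^ 2 * pk a θ ≤
        (1 + 1 / s) * (f θ - m - g θ) ^ 2 * C :=
      mul_le_mul_of_nonneg_left (hC θ) (by positivity)
    nlinarith
  refine h2.trans ?_
  rw [intervalIntegral.integral_add (Continuous.intervalIntegrable (by fun_prop) _ _)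
      (Continuous.intervalIntegrable (by fun_prop) _ _), intervalIntegral.integral_const_mul,
      intervalIntegral.integral_const_mul]
  have e1 : ∫ θ in (0:ℝ)..(2 * π), (f θ - m - g θ) ^ 2 = err f N := int_err hf N
  rw [e1]
  refine add_le_add (le_refl _) (mul_le_mul_of_nonneg_left ?_ (by positivity))
  have e2 := int_var ha0 ha (fun n => fc f (n + 1) / π) N
  have e3 : ∫ θ in (0:ℝ)..(2 * π), (g θ - k) ^ 2 * pk a θ =
      π * ((1 - a ^ 2) * ∑ m ∈ Finset.range N,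
        Complex.normSq (kc a (fun n => fc f (n + 1) / π) N m)) := by
    rw [← e2]
    refine intervalIntegral.integral_congr fun θ _ => ?_
    simp only [hg, hk, fpol, Complex.sub_re]
  rw [e3]
  have h4 := mul_le_mul_of_nonneg_left (kc_bound ha0 ha (fun n => fc f (n + 1) / π) N M hs) hpi.le
  refine h4.trans (le_of_eq ?_)
  rw [Finset.mul_sum, Finset.sum_div]
  refine Finset.sum_congr rfl fun n _ => ?_
  rw [Complex.normSq_div, Complex.normSq_ofReal]
  field_simp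

/-- **The energy inequality** for the density `1` on both boundary circles plus `6/5` times the
Poisson kernel on the circle `r = 1` -/
theorem glue_ineq (ha0 : 0 ≤ a) (ha : a < 1) {s η : ℝ} (hs : 0 < s) (hη : 0 < η) {M : ℕ}
    (hlow : ∀ n : ℕ, n < M → 1 + 6 / 5 * ((1 + s) * ((1 + 1 / s) * ((1 - a ^ 2) * (M : ℝ) ^ 2))) ≤
      (6 / 5 + η) * ((n + 1 : ℕ) * tanh ((n + 1 : ℕ) * (12 / 5) / 2)))
    (hhigh : ∀ n : ℕ, M ≤ n → 1 + 6 / 5 * ((1 + s) * ((1 + s) * (n + 1 : ℕ))) ≤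
      (6 / 5 + η) * ((n + 1 : ℕ) * tanh ((n + 1 : ℕ) * (12 / 5) / 2)))
    (hw : ContDiff ℝ (⊤ : ℕ∞) w) (hp : ∀ r θ, w (r, θ + 2 * π) = w (r, θ))
    (h0 : (∫ θ in (0:ℝ)..(2 * π), w (0, θ)) + ∫ θ in (0:ℝ)..(2 * π), w (1, θ) = 0)
    (h1 : ∫ θ in (0:ℝ)..(2 * π), w (1, θ) * pk a θ = 0) :
    (∫ θ in (0:ℝ)..(2 * π), w (0, θ) ^ 2) + (∫ θ in (0:ℝ)..(2 * π), w (1, θ) ^ 2) +
      6 / 5 * (∫ θ in (0:ℝ)..(2 * π), w (1, θ) ^ 2 * pk a θ) ≤
      (6 / 5 + η) * energy (fun _ => (12 / 5) ^ 2) (fun _ => 0) (fun _ => 1) w := by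
  have hpi := pi_pos
  have hwc := hw.continuous
  have hpc := pk_cont ha0 ha
  have hpp : ∀ θ, pk a (θ + 2 * π) = pk a θ := fun θ => by
    unfold pk
    rw [ee_per]
  obtain ⟨C, hC⟩ : ∃ C, ∀ θ, pk a θ ≤ C := by
    obtain ⟨C, hC⟩ := isCompact_Icc.exists_bound_of_continuousOn (s := Set.Icc 0 (2 * π))
      hpc.continuousOn
    refine ⟨C, fun θ => ?_⟩
    obtain ⟨y, hy, hxy⟩ := (show Function.Periodic (pk a) (2 * π) from hpp).exists_mem_Ico₀
      (by positivity) θ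
    rw [hxy]
    exact (le_abs_self _).trans (hC y ⟨hy.1, hy.2.le⟩)
  set f : ℝ → ℝ := fun θ => w (1, θ) with hf
  set g : ℝ → ℝ := fun θ => w (0, θ) with hg
  have hfc : Continuous f := by fun_prop
  have hgc : Continuous g := by fun_prop
  set D := energy (fun _ => (12 / 5) ^ 2) (fun _ => 0) (fun _ => 1) w with hD
  -- the estimate for every `N`
  have key : ∀ N, (∫ θ in (0:ℝ)..(2 * π), g θ ^ 2) + (∫ θ in (0:ℝ)..(2 * π), f θ ^ 2) +
      6 / 5 * (∫ θ in (0:ℝ)..(2 * π), f θ ^ 2 * pk a θ) ≤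
        (6 / 5 + η) * D + (err g N + (1 + 6 / 5 * ((1 + 1 / s) * C)) * err f N) := by
    intro N
    have k1 := disc_part ha0 ha hfc h1 hs hC N M
    have k2 := energy_modes (H := 12 / 5) (by norm_num) hw hp N
    rw [← hD] at k2
    have k3 : (∫ θ in (0:ℝ)..(2 * π), g θ ^ 2) = err g N + (∫ θ in (0:ℝ)..(2 * π), g θ) ^ 2 /
        (2 * π) + (∑ n ∈ Finset.range N, Complex.normSq (fc g (n + 1))) / π := by
      unfold err
      ring
    have k4 : (∫ θ in (0:ℝ)..(2 * π), f θ ^ 2) = err f N + (∫ θ in (0:ℝ)..(2 * π), f θ) ^ 2 /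
        (2 * π) + (∑ n ∈ Finset.range N, Complex.normSq (fc f (n + 1))) / π := by
      unfold err
      ring
    -- the modes
    have k5 : (∑ n ∈ Finset.range N, Complex.normSq (fc g (n + 1))) / π +
        (∑ n ∈ Finset.range N, Complex.normSq (fc f (n + 1))) / π + 6 / 5 * ((1 + s) *
      ((∑ n ∈ Finset.range N, (if n < M then (1 + 1 / s) * ((1 - a ^ 2) * (M : ℝ) ^ 2) else
        (1 + s) * (n + 1 : ℕ)) * Complex.normSq (fc f (n + 1))) / π)) ≤
        (6 / 5 + η) * ((∑ n ∈ Finset.range N, (n + 1 : ℕ) * tanh ((n + 1 : ℕ) * (12 / 5) / 2) *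
        (Complex.normSq (fc g (n + 1)) + Complex.normSq (fc f (n + 1)))) / π) := by
      rw [← mul_div_assoc, ← mul_div_assoc, ← mul_div_assoc, ← add_div, ← add_div]
      refine div_le_div_of_nonneg_right ?_ hpi.le
      rw [Finset.mul_sum, Finset.mul_sum, Finset.mul_sum, ← Finset.sum_add_distrib,
        ← Finset.sum_add_distrib]
      refine Finset.sum_le_sum fun n _ => ?_
      have hh : 0 ≤ 1 - a ^ 2 := by nlinarith
      have n1 := Complex.normSq_nonneg (fc f (n + 1))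
      have n2 := Complex.normSq_nonneg (fc g (n + 1))
      by_cases hn : n < M
      · have h3 := hlow n hn
        rw [if_pos hn]
        have h4 : 0 ≤ 6 / 5 * ((1 + s) * ((1 + 1 / s) * ((1 - a ^ 2) * (M : ℝ) ^ 2))) := by
          positivity
        have h5 := mul_le_mul_of_nonneg_right h3 n1
        have h6 : 1 ≤ (6 / 5 + η) * ((n + 1 : ℕ) * tanh ((n + 1 : ℕ) * (12 / 5) / 2)) := by
          linarith
        have h7 := mul_le_mul_of_nonneg_right h6 n2
        linarith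
      · have h3 := hhigh n (not_lt.1 hn)
        rw [if_neg hn]
        have h4 : 0 ≤ 6 / 5 * ((1 + s) * ((1 + s) * ((n + 1 : ℕ) : ℝ))) := by positivity
        have h5 := mul_le_mul_of_nonneg_right h3 n1
        have h6 : 1 ≤ (6 / 5 + η) * ((n + 1 : ℕ) * tanh ((n + 1 : ℕ) * (12 / 5) / 2)) := by
          linarith
        have h7 := mul_le_mul_of_nonneg_right h6 n2
        linarith
    -- the mean
    have k6 : (∫ θ in (0:ℝ)..(2 * π), g θ) ^ 2 / (2 * π) + (∫ θ in (0:ℝ)..(2 * π), f θ) ^ 2 /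
        (2 * π) ≤ (6 / 5 + η) * (((∫ θ in (0:ℝ)..(2 * π), f θ) -
          ∫ θ in (0:ℝ)..(2 * π), g θ) ^ 2 / (2 * π * (12 / 5))) := by
      have e1 : ∫ θ in (0:ℝ)..(2 * π), g θ = -∫ θ in (0:ℝ)..(2 * π), f θ := by
        have : (∫ θ in (0:ℝ)..(2 * π), g θ) + ∫ θ in (0:ℝ)..(2 * π), f θ = 0 := h0
        linarith
      rw [e1]
      set J := ∫ θ in (0:ℝ)..(2 * π), f θ
      have e2 : (6 / 5 + η) * ((J - -J) ^ 2 / (2 * π * (12 / 5))) =
          (-J) ^ 2 / (2 * π) + J ^ 2 / (2 * π) + η * (5 / 6 * J ^ 2 / π) := by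
        field_simp
        ring
      rw [e2]
      have : 0 ≤ η * (5 / 6 * J ^ 2 / π) := by positivity
      linarith
    have k7 := mul_le_mul_of_nonneg_left k2 (show 0 ≤ 6 / 5 + η by positivity)
    rw [mul_add] at k7
    rw [k3, k4]
    change _ ≤ (6 / 5 + η) * D + (err g N + (1 + 6 / 5 * ((1 + 1 / s) * C)) * err f N)
    have k8 := mul_le_mul_of_nonneg_left k1 (show (0:ℝ) ≤ 6 / 5 by norm_num)
    linarith
  -- the limit
  have hlim : Filter.Tendsto (fun N => (6 / 5 + η) * D +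
      (err g N + (1 + 6 / 5 * ((1 + 1 / s) * C)) * err f N)) Filter.atTop
      (nhds ((6 / 5 + η) * D)) := by
    have := ((err_tendsto hgc).add ((err_tendsto hfc).const_mul
      (1 + 6 / 5 * ((1 + 1 / s) * C)))).const_add ((6 / 5 + η) * D)
    rw [mul_zero, add_zero, add_zero] at this
    exact this
  exact ge_of_tendsto' hlim key

end

/-- `tanh (6/5) ≥ 5/6` -/
lemma tanh_ge : (5:ℝ) / 6 ≤ tanh (6 / 5) := by
  have h1 : (11:ℝ) ≤ exp (12 / 5) := by
    have h2 : (2.7182818283:ℝ) < exp 1 := exp_one_gt_d9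
    have h3 : exp (12 / 5) ^ 5 = exp 1 ^ 12 := by
      rw [← exp_nat_mul, ← exp_nat_mul]
      norm_num
    have h4 : (2.7182818283:ℝ) ^ 12 ≤ exp 1 ^ 12 := pow_le_pow_left₀ (by norm_num) h2.le 12
    have h5 : (11:ℝ) ^ 5 ≤ exp (12 / 5) ^ 5 := by
      rw [h3]
      refine le_trans ?_ h4
      norm_num
    exact (pow_le_pow_iff_left₀ (by norm_num) (exp_pos _).le (by norm_num)).1 h5
  have h2 : exp (12 / 5) = exp (6 / 5) * exp (6 / 5) := by
    rw [← exp_add]
    norm_num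
  have h3 : exp (6 / 5) * exp (-(6 / 5)) = 1 := by
    rw [← exp_add]
    simp
  have h4 := exp_pos (6 / 5)
  have h5 := exp_pos (-(6 / 5))
  rw [tanh_eq_sinh_div_cosh, sinh_eq, cosh_eq, div_div_div_cancel_right₀ two_ne_zero,
    div_le_div_iff₀ (by norm_num) (by positivity)]
  have h6 : 11 * exp (-(6 / 5)) ≤ exp (6 / 5) := by
    have := mul_le_mul_of_nonneg_right h1 h5.le
    rw [h2, mul_assoc, h3, mul_one] at this
    exact this
  linarith

lemma tanh_formula (x : ℝ) : tanh x = 1 - 2 / (exp (2 * x) + 1) := by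
  have h2 : exp (2 * x) = exp x * exp x := by
    rw [← exp_add]
    congr 1
    ring
  have h3 : exp x * exp (-x) = 1 := by
    rw [← exp_add]
    simp
  have h4 := exp_pos x
  have h5 := exp_pos (-x)
  rw [tanh_eq_sinh_div_cosh, sinh_eq, cosh_eq, div_div_div_cancel_right₀ two_ne_zero, h2]
  rw [div_eq_iff (by positivity)]
  field_simp
  linear_combination (-2 * exp x) * h3

lemma tanh_mono {x y : ℝ} (h : x ≤ y) : tanh x ≤ tanh y := by
  rw [tanh_formula, tanh_formula]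
  have h1 : exp (2 * x) ≤ exp (2 * y) := exp_le_exp.2 (by linarith)
  have h2 := exp_pos (2 * x)
  have h3 : 2 / (exp (2 * y) + 1) ≤ 2 / (exp (2 * x) + 1) :=
    div_le_div_of_nonneg_left (by norm_num) (by positivity) (by linarith)
  linarith

lemma tanh_lower {x : ℝ} (hx : 0 ≤ x) : 1 - 1 / (1 + x) ≤ tanh x := by
  rw [tanh_formula]
  have h1 := add_one_le_exp (2 * x)
  have h3 : 2 / (exp (2 * x) + 1) ≤ 2 / (2 * (1 + x)) :=
    div_le_div_of_nonneg_left (by norm_num) (by positivity) (by linarith)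
  have h4 : 2 / (2 * (1 + x)) = 1 / (1 + x) := by
    field_simp
  rw [h4] at h3
  linarith

/-- the choice of the parameters -/
lemma exists_param {η : ℝ} (hη : 0 < η) : ∃ (a s : ℝ) (M : ℕ), 0 ≤ a ∧ a < 1 ∧ 0 < s ∧
    (∀ n : ℕ, n < M → 1 + 6 / 5 * ((1 + s) * ((1 + 1 / s) * ((1 - a ^ 2) * (M : ℝ) ^ 2))) ≤
      (6 / 5 + η) * ((n + 1 : ℕ) * tanh ((n + 1 : ℕ) * (12 / 5) / 2))) ∧
    (∀ n : ℕ, M ≤ n → 1 + 6 / 5 * ((1 + s) * ((1 + s) * (n + 1 : ℕ))) ≤
      (6 / 5 + η) * ((n + 1 : ℕ) * tanh ((n + 1 : ℕ) * (12 / 5) / 2))) := by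
  set s := min 1 (η / 10) with hs
  have hs0 : 0 < s := lt_min one_pos (by positivity)
  have hs1 : s ≤ 1 := min_le_left _ _
  have hs2 : s ≤ η / 10 := min_le_right _ _
  obtain ⟨M, hM⟩ := exists_nat_ge (2 * (1 + 6 / 5 + η) / η)
  set Q := 6 / 5 * ((1 + s) * (1 + 1 / s)) * (M : ℝ) ^ 2 with hQ
  have hQ0 : 0 ≤ Q := by positivity
  set δ := min 1 (5 / 6 * η / (Q + 1)) with hδ
  have hδ0 : 0 < δ := lt_min one_pos (by positivity)
  have hδ1 : δ ≤ 1 := min_le_left _ _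
  have hδ2 : δ ≤ 5 / 6 * η / (Q + 1) := min_le_right _ _
  refine ⟨1 - δ / 2, s, M, by linarith, by linarith, hs0, fun n _ => ?_, fun n hn => ?_⟩
  · have h1 : 1 - (1 - δ / 2) ^ 2 ≤ δ := by nlinarith
    have h2 : Q * δ ≤ 5 / 6 * η := by
      rw [le_div_iff₀ (by positivity)] at hδ2
      nlinarith
    have h3 : 6 / 5 * ((1 + s) * ((1 + 1 / s) * ((1 - (1 - δ / 2) ^ 2) * (M : ℝ) ^ 2))) =
        Q * (1 - (1 - δ / 2) ^ 2) := by
      rw [hQ]
      ring
    have h4 : Q * (1 - (1 - δ / 2) ^ 2) ≤ Q * δ := mul_le_mul_of_nonneg_left h1 hQ0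
    have h5 : tanh (6 / 5) ≤ tanh ((n + 1 : ℕ) * (12 / 5) / 2) := by
      refine tanh_mono ?_
      push_cast
      have : (0:ℝ) ≤ n := Nat.cast_nonneg n
      linarith
    have h6 := tanh_ge
    have h7 : (1:ℝ) ≤ ((n + 1 : ℕ) : ℝ) := by
      push_cast
      have : (0:ℝ) ≤ n := Nat.cast_nonneg n
      linarith
    have h8 : 5 / 6 ≤ ((n + 1 : ℕ) : ℝ) * tanh ((n + 1 : ℕ) * (12 / 5) / 2) := by nlinarith
    have h9 := mul_le_mul_of_nonneg_left h8 (show 0 ≤ 6 / 5 + η by positivity)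
    rw [h3]
    linarith
  · have h1 : (M : ℝ) ≤ n := by exact_mod_cast hn
    have h2 : 2 * (1 + 6 / 5 + η) ≤ (n + 1) * η := by
      have h3 : 2 * (1 + 6 / 5 + η) / η ≤ n + 1 := by linarith
      rw [div_le_iff₀ hη] at h3
      exact h3
    have hn0 : (0:ℝ) ≤ n := Nat.cast_nonneg n
    have h3 := tanh_lower (x := (n + 1 : ℕ) * (12 / 5) / 2) (by positivity)
    push_cast at h3 ⊢
    have h4 : 1 / (1 + ((n:ℝ) + 1) * (12 / 5) / 2) ≤ 1 / (n + 1) :=
      div_le_div_of_nonneg_left (by norm_num) (by positivity) (by linarith)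
    have h5 : ((n:ℝ) + 1) * (1 / (n + 1)) = 1 := by field_simp
    have h6 : (n:ℝ) ≤ (n + 1) * tanh (((n:ℝ) + 1) * (12 / 5) / 2) := by
      have h7 : 1 - 1 / ((n:ℝ) + 1) ≤ tanh (((n:ℝ) + 1) * (12 / 5) / 2) := by linarith
      have h8 := mul_le_mul_of_nonneg_left h7 (show (0:ℝ) ≤ n + 1 by positivity)
      rw [mul_sub, h5] at h8
      linarith
    have h7 := mul_le_mul_of_nonneg_left h6 (show 0 ≤ 6 / 5 + η by positivity)
    have h8 : 6 / 5 * ((1 + s) * (1 + s)) ≤ 6 / 5 + η / 2 := by nlinarith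
    have h9 := mul_le_mul_of_nonneg_right h8 (show (0:ℝ) ≤ n + 1 by positivity)
    nlinarith

end Pool.Agent.Helper22.Stek
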