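import Pool.Agent.Helper22.Stek.Glue
import Pool.Agent.Helper22.Stek.Better

/-! # The supremum of `σ₂ L` over the annuli is at least `16 π / 3` -/

set_option autoImplicit false
open Real MeasureTheory Set ComplexConjugate

namespace Pool.Agent.Helper22.Stek

section

variable {a : ℝ}

lemma pk_eq (a θ : ℝ) : pk a θ = (1 - a ^ 2) * (1 / (1 - 2 * a * cos θ + a ^ 2)) := by
  unfold pk
  congr 2
  rw [ee_exp, Complex.normSq_apply, Complex.exp_mul_I]
  simp [Complex.cos_ofReal_re, Complex.sin_ofReal_re]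
  linear_combination a ^ 2 * (sin_sq_add_cos_sq θ)

lemma pk_den_pos (ha0 : 0 ≤ a) (ha : a < 1) (θ : ℝ) : 0 < 1 - 2 * a * cos θ + a ^ 2 := by
  nlinarith [cos_le_one θ, mul_nonneg ha0 (sub_nonneg.2 (cos_le_one θ)),
    mul_pos (sub_pos.2 ha) (sub_pos.2 ha)]

lemma pk_smooth (ha0 : 0 ≤ a) (ha : a < 1) : ContDiff ℝ (⊤ : ℕ∞) (pk a) := by
  have e : pk a = fun θ => (1 - a ^ 2) * (1 / (1 - 2 * a * cos θ + a ^ 2)) := funext (pk_eq a)
  rw [e]
  refine contDiff_const.mul (contDiff_const.div ?_ fun θ => (pk_den_pos ha0 ha θ).ne')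
  exact (contDiff_const.sub (contDiff_const.mul Real.contDiff_cos)).add contDiff_const

lemma pk_per (a θ : ℝ) : pk a (θ + 2 * π) = pk a θ := by
  unfold pk
  rw [ee_per]

/-- the metric: the length densities are `1` on the circle `r = 0` and `1 + 6/5 P` on the circle
`r = 1`, with `P` the Poisson kernel at `a` -/
noncomputable def gG (a : ℝ) (x : ℝ × ℝ) : ℝ := (1 + 6 / 5 * x.1 ^ 2 * pk a x.2) ^ 2

lemma gG_base_pos (ha0 : 0 ≤ a) (ha : a < 1) (x : ℝ × ℝ) : 0 < 1 + 6 / 5 * x.1 ^ 2 * pk a x.2 := by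
  have := pk_pos ha0 ha x.2
  positivity

lemma gG_smooth (ha0 : 0 ≤ a) (ha : a < 1) : ContDiff ℝ (⊤ : ℕ∞) (gG a) := by
  have h1 : ContDiff ℝ (⊤ : ℕ∞) fun x : ℝ × ℝ => pk a x.2 := (pk_smooth ha0 ha).comp contDiff_snd
  unfold gG
  exact (contDiff_const.add ((contDiff_const.mul (contDiff_fst.pow 2)).mul h1)).pow 2

lemma gG_metric (ha0 : 0 ≤ a) (ha : a < 1) :
    IsMetric (fun x => (12 / 5) ^ 2 * gG a x) (fun _ => 0) (gG a) where
  smoothE := contDiff_const.mul (gG_smooth ha0 ha)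
  smoothF := contDiff_const
  smoothG := gG_smooth ha0 ha
  per r θ := by
    have : gG a (r, θ + 2 * π) = gG a (r, θ) := by
      unfold gG
      simp only [pk_per]
    simp only [this]
    exact ⟨trivial, trivial, trivial⟩
  pos x _ := by
    have h1 : 0 < gG a x := pow_pos (gG_base_pos ha0 ha x) 2
    refine ⟨by positivity, ?_⟩
    have : 0 < (12 / 5) ^ 2 * gG a x * gG a x := by positivity
    simpa using this

/-- conformal invariance of the energy -/
lemma gG_energy (ha0 : 0 ≤ a) (ha : a < 1) (w : ℝ × ℝ → ℝ) :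
    energy (fun x => (12 / 5) ^ 2 * gG a x) (fun _ => 0) (gG a) w =
      energy (fun _ => (12 / 5) ^ 2) (fun _ => 0) (fun _ => 1) w := by
  unfold energy
  refine setIntegral_congr_fun (measurableSet_Icc.prod measurableSet_Icc) fun x _ => ?_
  have h1 : 0 < gG a x := pow_pos (gG_base_pos ha0 ha x) 2
  have e1 : √((12 / 5) ^ 2 * gG a x * gG a x - 0 ^ 2) = 12 / 5 * gG a x := by
    rw [show (12 / 5) ^ 2 * gG a x * gG a x - 0 ^ 2 = (12 / 5 * gG a x) ^ 2 by ring,
      sqrt_sq (by positivity)]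
  have e2 : √((12 / 5 : ℝ) ^ 2 * 1 - 0 ^ 2) = 12 / 5 := by
    rw [show (12 / 5 : ℝ) ^ 2 * 1 - 0 ^ 2 = (12 / 5) ^ 2 by ring, sqrt_sq (by norm_num)]
  simp only [e1, e2]
  field_simp
  ring

lemma gG_sqrt0 (a θ : ℝ) : √(gG a (0, θ)) = 1 := by
  unfold gG
  simp

lemma gG_sqrt1 (ha0 : 0 ≤ a) (ha : a < 1) (θ : ℝ) : √(gG a (1, θ)) = 1 + 6 / 5 * pk a θ := by
  have h := (gG_base_pos ha0 ha (1, θ)).le
  unfold gG
  rw [sqrt_sq h]
  simp

lemma gG_bdry (ha0 : 0 ≤ a) (ha : a < 1) {w : ℝ × ℝ → ℝ} (hw : Continuous w) :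
    bdry (gG a) w = (∫ θ in (0:ℝ)..(2 * π), w (0, θ) ^ 2) + (∫ θ in (0:ℝ)..(2 * π), w (1, θ) ^ 2) +
      6 / 5 * (∫ θ in (0:ℝ)..(2 * π), w (1, θ) ^ 2 * pk a θ) := by
  have hpc := pk_cont ha0 ha
  unfold bdry
  rw [integral_Icc_eq_integral_Ioc, ← intervalIntegral.integral_of_le (by positivity),
    ← intervalIntegral.integral_const_mul, ← intervalIntegral.integral_add
      (Continuous.intervalIntegrable (by fun_prop) _ _)
      (Continuous.intervalIntegrable (by fun_prop) _ _),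
    ← intervalIntegral.integral_add (Continuous.intervalIntegrable (by fun_prop) _ _)
      (Continuous.intervalIntegrable (by fun_prop) _ _)]
  refine intervalIntegral.integral_congr fun θ _ => ?_
  simp only [gG_sqrt0, gG_sqrt1 ha0 ha]
  ring

lemma gG_bdry_ge (ha0 : 0 ≤ a) (ha : a < 1) {w : ℝ × ℝ → ℝ} (hw : Continuous w) :
    bdry (fun _ => 1) w ≤ bdry (gG a) w := by
  have hpc := pk_cont ha0 ha
  rw [gG_bdry ha0 ha hw, bdry_flat, intervalIntegral.integral_add
    (Continuous.intervalIntegrable (by fun_prop) _ _)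
    (Continuous.intervalIntegrable (by fun_prop) _ _)]
  have : 0 ≤ ∫ θ in (0:ℝ)..(2 * π), w (1, θ) ^ 2 * pk a θ :=
    intervalIntegral.integral_nonneg (by positivity) fun θ _ =>
      mul_nonneg (sq_nonneg _) (pk_pos ha0 ha θ).le
  linarith

lemma gG_len (ha0 : 0 ≤ a) (ha : a < 1) : len (gG a) = 32 * π / 5 := by
  have hpc := pk_cont ha0 ha
  unfold len dens
  rw [integral_Icc_eq_integral_Ioc, ← intervalIntegral.integral_of_le (by positivity)]
  simp_rw [gG_sqrt0, gG_sqrt1 ha0 ha]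
  rw [intervalIntegral.integral_add (Continuous.intervalIntegrable (by fun_prop) _ _)
      (Continuous.intervalIntegrable (by fun_prop) _ _), intervalIntegral.integral_add
      (Continuous.intervalIntegrable (by fun_prop) _ _)
      (Continuous.intervalIntegrable (by fun_prop) _ _), intervalIntegral.integral_const_mul,
      int_pk ha0 ha]
  simp
  ring

/-- the lower bound for `σ₂` -/
lemma gG_sigma2 {η s : ℝ} {M : ℕ} (hη : 0 < η) (ha0 : 0 ≤ a) (ha : a < 1) (hs : 0 < s)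
    (hlow : ∀ n : ℕ, n < M → 1 + 6 / 5 * ((1 + s) * ((1 + 1 / s) * ((1 - a ^ 2) * (M : ℝ) ^ 2))) ≤
      (6 / 5 + η) * ((n + 1 : ℕ) * tanh ((n + 1 : ℕ) * (12 / 5) / 2)))
    (hhigh : ∀ n : ℕ, M ≤ n → 1 + 6 / 5 * ((1 + s) * ((1 + s) * (n + 1 : ℕ))) ≤
      (6 / 5 + η) * ((n + 1 : ℕ) * tanh ((n + 1 : ℕ) * (12 / 5) / 2))) :
    1 / (6 / 5 + η) ≤ sigma2 (fun x => (12 / 5) ^ 2 * gG a x) (fun _ => 0) (gG a) := by
  have hpc := pk_cont ha0 ha
  have hH : (0:ℝ) < 12 / 5 := by norm_num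
  refine le_csInf ⟨_, test (12 / 5), adm_test _, rfl⟩ ?_
  rintro t ⟨u, hu, rfl⟩
  have hcu : ∀ i, Continuous (u i) := fun i => (hu.smooth i).1.continuous
  -- a combination with both constraints
  obtain ⟨c, hc, hc0, hc1⟩ : ∃ c : Fin 3 → ℝ, c ≠ 0 ∧
      ∑ i, c i * ((∫ θ in (0:ℝ)..(2 * π), u i (0, θ)) + ∫ θ in (0:ℝ)..(2 * π), u i (1, θ)) = 0 ∧
      ∑ i, c i * (∫ θ in (0:ℝ)..(2 * π), u i (1, θ) * pk a θ) = 0 := by
    let A : Matrix (Fin 2) (Fin 3) ℝ := Matrix.of ![fun i =>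
      (∫ θ in (0:ℝ)..(2 * π), u i (0, θ)) + ∫ θ in (0:ℝ)..(2 * π), u i (1, θ),
      fun i => ∫ θ in (0:ℝ)..(2 * π), u i (1, θ) * pk a θ]
    have hk : LinearMap.ker A.mulVecLin ≠ ⊥ :=
      LinearMap.ker_ne_bot_of_finrank_lt (by simp)
    obtain ⟨c, hcA, hc⟩ := Submodule.exists_mem_ne_zero_of_ne_bot hk
    rw [LinearMap.mem_ker, Matrix.mulVecLin_apply] at hcA
    refine ⟨c, hc, ?_, ?_⟩
    · have := congrFun hcA 0
      simp only [Matrix.mulVec, dotProduct, A, Matrix.of_apply, Matrix.cons_val_zero,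
        Pi.zero_apply] at this
      refine Eq.trans (Finset.sum_congr rfl fun i _ => ?_) this
      exact mul_comm _ _
    · have := congrFun hcA 1
      simp only [Matrix.mulVec, dotProduct, A, Matrix.of_apply, Matrix.cons_val_one,
        Matrix.cons_val_zero, Pi.zero_apply] at this
      refine Eq.trans (Finset.sum_congr rfl fun i _ => ?_) this
      exact mul_comm _ _
  have hmean : ∀ r : ℝ, ∫ θ in (0:ℝ)..(2 * π), (∑ i, c i • u i) (r, θ) =
      ∑ i, c i * ∫ θ in (0:ℝ)..(2 * π), u i (r, θ) := by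
    intro r
    simp_rw [comb_apply]
    rw [intervalIntegral.integral_finsetSum fun i _ =>
      Continuous.intervalIntegrable (by have := hcu i; fun_prop) _ _]
    exact Finset.sum_congr rfl fun i _ => intervalIntegral.integral_const_mul _ _
  have hmean2 : ∫ θ in (0:ℝ)..(2 * π), (∑ i, c i • u i) (1, θ) * pk a θ =
      ∑ i, c i * ∫ θ in (0:ℝ)..(2 * π), u i (1, θ) * pk a θ := by
    simp_rw [comb_apply, Finset.sum_mul, mul_assoc]
    rw [intervalIntegral.integral_finsetSum fun i _ =>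
      Continuous.intervalIntegrable (by have := hcu i; fun_prop) _ _]
    exact Finset.sum_congr rfl fun i _ => intervalIntegral.integral_const_mul _ _
  have hws := comb_smooth hu c
  have h0 : (∫ θ in (0:ℝ)..(2 * π), (∑ i, c i • u i) (0, θ)) +
      ∫ θ in (0:ℝ)..(2 * π), (∑ i, c i • u i) (1, θ) = 0 := by
    rw [hmean 0, hmean 1, ← Finset.sum_add_distrib]
    refine Eq.trans (Finset.sum_congr rfl fun i _ => ?_) hc0
    ring
  have h1 := glue_ineq ha0 ha hs hη hlow hhigh hws (comb_per hu c) h0 (hmean2.trans hc1)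
  rw [← gG_bdry ha0 ha hws.continuous, ← gG_energy ha0 ha] at h1
  have h2 := bdry_comb_pos hu hc
  have h3 := gG_bdry_ge ha0 ha hws.continuous
  have h4 : 0 < bdry (gG a) (∑ i, c i • u i) := h2.trans_le h3
  have h5 : 1 / (6 / 5 + η) ≤ energy (fun x => (12 / 5) ^ 2 * gG a x) (fun _ => 0) (gG a)
      (∑ i, c i • u i) / bdry (gG a) (∑ i, c i • u i) := by
    rw [div_le_div_iff₀ (by positivity) h4]
    linarith
  refine h5.trans ?_
  -- the quotients are bounded
  have hbdd : BddAbove (range fun c : {c : Fin 3 → ℝ // c ≠ 0} =>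
      energy (fun x => (12 / 5) ^ 2 * gG a x) (fun _ => 0) (gG a) (∑ i, c.1 i • u i) /
        bdry (gG a) (∑ i, c.1 i • u i)) := by
    obtain ⟨B, hB⟩ := bddAbove_quot (H := 12 / 5) hH hu
    refine ⟨B, ?_⟩
    rintro _ ⟨d, rfl⟩
    have h6 := hB (mem_range_self d)
    refine le_trans ?_ h6
    simp only
    rw [gG_energy ha0 ha]
    exact div_le_div_of_nonneg_left (energy_nonneg (flat_metric hH) _) (bdry_comb_pos hu d.2)
      (gG_bdry_ge ha0 ha (comb_smooth hu d.1).continuous)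
  exact le_ciSup hbdd ⟨c, hc⟩

end

/-- **The supremum of `σ₂ L` over the annuli is at least `16 π / 3`** -/
theorem exists_glue {t : ℝ} (ht : t < 16 * π / 3) : ∃ E' F' G' : ℝ × ℝ → ℝ, IsMetric E' F' G' ∧
    t < sigma2 E' F' G' * len G' := by
  have hp := pi_pos
  -- the choice of `η`
  obtain ⟨η, hη, h1⟩ : ∃ η : ℝ, 0 < η ∧ t < 1 / (6 / 5 + η) * (32 * π / 5) := by
    by_cases ht0 : t ≤ 0
    · exact ⟨1, one_pos, lt_of_le_of_lt ht0 (by positivity)⟩
    · push Not at ht0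
      refine ⟨(32 * π / 5 / t - 6 / 5) / 2, ?_, ?_⟩
      · have : 6 / 5 < 32 * π / 5 / t := by
          rw [lt_div_iff₀ ht0]
          linarith
        linarith
      · have h2 : 6 / 5 < 32 * π / 5 / t := by
          rw [lt_div_iff₀ ht0]
          linarith
        have h3 : (6 / 5 + (32 * π / 5 / t - 6 / 5) / 2) < 32 * π / 5 / t := by linarith
        have h4 : 0 < 6 / 5 + (32 * π / 5 / t - 6 / 5) / 2 := by linarith
        rw [one_div, inv_mul_eq_div, lt_div_iff₀ h4]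
        have h5 := mul_lt_mul_of_pos_left h3 ht0
        rwa [mul_div_cancel₀ _ ht0.ne'] at h5
  obtain ⟨a, s, M, ha0, ha, hs, hlow, hhigh⟩ := exists_param hη
  refine ⟨_, _, _, gG_metric ha0 ha, ?_⟩
  rw [gG_len ha0 ha]
  refine h1.trans_le (mul_le_mul_of_nonneg_right ?_ (by positivity))
  exact gG_sigma2 hη ha0 ha hs hlow hhigh

/-- metrics with `σ₂ L < 16 π / 3` are not maximal -/
lemma notMaximal_of_lt' {E F G : ℝ × ℝ → ℝ} (h : sigma2 E F G * len G < 16 * π / 3) :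
    NotMaximal E F G := exists_glue h

end Pool.Agent.Helper22.Stek
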