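import Pool.Agent.Helper22.Stek.Refl

/-! # Metrics which are invariant under the half turn -/

set_option autoImplicit false
open Real MeasureTheory Set ComplexConjugate

namespace Pool.Agent.Helper22.Stek

/-- a product with a function of period `π` and the mode of order one has integral zero -/
lemma int_half {ρ : ℝ → ℝ} (hρ : Continuous ρ) (hp : ∀ θ, ρ (θ + π) = ρ θ) (p q : ℝ) :
    ∫ θ in (0:ℝ)..(2 * π), ρ θ * (p * cos θ + q * sin θ) = 0 := by
  set f : ℝ → ℝ := fun θ => ρ θ * (p * cos θ + q * sin θ) with hf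
  have hfc : Continuous f := by fun_prop
  have h1 : ∀ θ, f (θ + π) = -f θ := by
    intro θ
    simp only [hf, hp, cos_add_pi, sin_add_pi]
    ring
  have h2 := intervalIntegral.integral_comp_add_right (a := 0) (b := π) f π
  simp_rw [h1] at h2
  rw [intervalIntegral.integral_neg, zero_add, ← two_mul] at h2
  rw [← intervalIntegral.integral_add_adjacent_intervals (hfc.intervalIntegrable 0 π)
    (hfc.intervalIntegrable π (2 * π)), ← h2]
  ring

/-- the test functions -/
noncomputable def hv (H p q α β c : ℝ) (x : ℝ × ℝ) : ℝ :=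
  α + β * (1 - x.1) + c * wfun H ![0, p, q] x

lemma wfun_smooth (H : ℝ) (c : Fin 3 → ℝ) : ContDiff ℝ (⊤ : ℕ∞) (wfun H c) := by
  unfold wfun
  have h1 : ContDiff ℝ (⊤ : ℕ∞) (fun x : ℝ × ℝ => cosh (H * (x.1 - 1 / 2))) :=
      Real.contDiff_cosh.comp (by fun_prop)
  have h2 : ContDiff ℝ (⊤ : ℕ∞) (fun x : ℝ × ℝ => c 1 * cos x.2 + c 2 * sin x.2) :=
    (contDiff_const.mul (Real.contDiff_cos.comp contDiff_snd)).add
      (contDiff_const.mul (Real.contDiff_sin.comp contDiff_snd))
  exact contDiff_const.add ((h1.div_const _).mul h2)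

lemma hv_smooth (H p q α β c : ℝ) : ContDiff ℝ (⊤ : ℕ∞) (hv H p q α β c) := by
  unfold hv
  exact (contDiff_const.add (contDiff_const.mul (contDiff_const.sub contDiff_fst))).add
    (contDiff_const.mul (wfun_smooth H _))

lemma hv_dr (H p q α β c : ℝ) (r θ : ℝ) : dr (hv H p q α β c) (r, θ) =
    -β + c * (H * sinh (H * (r - 1 / 2)) / cosh (H / 2) * (p * cos θ + q * sin θ)) := by
  have h1 := hasDerivAt_dr (hv_smooth H p q α β c) r θ
  have h2 : HasDerivAt (fun r => hv H p q α β c (r, θ))
      (β * (0 - 1) + c * dr (wfun H ![0, p, q]) (r, θ)) r := by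
    have h3 := hasDerivAt_dr (wfun_smooth H ![0, p, q]) r θ
    exact ((((hasDerivAt_const r (1:ℝ)).sub (hasDerivAt_id r)).const_mul β).const_add α).add
      (h3.const_mul c)
  rw [h1.unique h2]
  unfold dr
  rw [wfun_fst]
  simp

lemma hv_dt (H p q α β c : ℝ) (r θ : ℝ) : dt (hv H p q α β c) (r, θ) =
    c * (cosh (H * (r - 1 / 2)) / cosh (H / 2) * (-p * sin θ + q * cos θ)) := by
  have h1 := hasDerivAt_dt (hv_smooth H p q α β c) r θ
  have h2 : HasDerivAt (fun θ => hv H p q α β c (r, θ))
      (c * dt (wfun H ![0, p, q]) (r, θ)) θ := by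
    have h3 := hasDerivAt_dt (wfun_smooth H ![0, p, q]) r θ
    exact (h3.const_mul c).const_add (α + β * (1 - r))
  rw [h1.unique h2]
  unfold dt
  rw [wfun_snd]
  simp

lemma int_sq_trig (p q : ℝ) : ∫ θ in (0:ℝ)..(2 * π), (p * cos θ + q * sin θ) ^ 2 =
    π * (p ^ 2 + q ^ 2) := by
  have := int_trig p q
  rwa [integral_Icc_eq_integral_Ioc, ← intervalIntegral.integral_of_le (by positivity)] at this

lemma hv_energy {H : ℝ} (hH : 0 < H) {p q : ℝ} (hpq : p ^ 2 + q ^ 2 = 1) (α β c : ℝ) :
    energy (fun _ => H ^ 2) (fun _ => 0) (fun _ => 1) (hv H p q α β c) =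
      2 * π / H * β ^ 2 + 2 * π * tanh (H / 2) * c ^ 2 := by
  have hc := cosh_pos (H / 2)
  have s1 : Continuous fun r : ℝ => sinh (H * (r - 1 / 2)) := Real.continuous_sinh.comp (by fun_prop)
  have s2 : Continuous fun r : ℝ => cosh (H * (r - 1 / 2)) := Real.continuous_cosh.comp (by fun_prop)
  rw [energy_flat hH (hv_smooth _ _ _ _ _ _)]
  have e : ∀ r : ℝ, ∫ θ in (0:ℝ)..(2 * π), (dr (hv H p q α β c) (r, θ) ^ 2 +
      H ^ 2 * dt (hv H p q α β c) (r, θ) ^ 2) = 2 * π * β ^ 2 +
        c ^ 2 * H ^ 2 * π / cosh (H / 2) ^ 2 *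
          (sinh (H * (r - 1 / 2)) ^ 2 + cosh (H * (r - 1 / 2)) ^ 2) := by
    intro r
    have e1 : ∀ θ, dr (hv H p q α β c) (r, θ) ^ 2 + H ^ 2 * dt (hv H p q α β c) (r, θ) ^ 2 =
        β ^ 2 + (-2 * β * c * (H * sinh (H * (r - 1 / 2)) / cosh (H / 2))) *
          (p * cos θ + q * sin θ) +
        (c * (H * sinh (H * (r - 1 / 2)) / cosh (H / 2))) ^ 2 * (p * cos θ + q * sin θ) ^ 2 +
        (c * H * (cosh (H * (r - 1 / 2)) / cosh (H / 2))) ^ 2 *
          (q * cos θ + (-p) * sin θ) ^ 2 := by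
      intro θ
      rw [hv_dr, hv_dt]
      ring
    simp_rw [e1]
    have z : ∫ θ in (0:ℝ)..(2 * π), (p * cos θ + q * sin θ) = 0 := by
      have := int_half (ρ := fun _ => 1) continuous_const (fun _ => rfl) p q
      simpa using this
    rw [intervalIntegral.integral_add (Continuous.intervalIntegrable (by fun_prop) _ _)
      (Continuous.intervalIntegrable (by fun_prop) _ _), intervalIntegral.integral_add
      (Continuous.intervalIntegrable (by fun_prop) _ _)
      (Continuous.intervalIntegrable (by fun_prop) _ _), intervalIntegral.integral_add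
      (Continuous.intervalIntegrable (by fun_prop) _ _)
      (Continuous.intervalIntegrable (by fun_prop) _ _), intervalIntegral.integral_const_mul,
      intervalIntegral.integral_const_mul, intervalIntegral.integral_const_mul,
      intervalIntegral.integral_const, int_sq_trig, int_sq_trig, z]
    have e2 : q ^ 2 + (-p) ^ 2 = 1 := by linarith [hpq, neg_sq p]
    rw [hpq, e2]
    simp only [sub_zero, smul_eq_mul]
    field_simp
    ring
  simp_rw [e]
  rw [intervalIntegral.integral_add (Continuous.intervalIntegrable (by fun_prop) _ _)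
      (Continuous.intervalIntegrable (by fun_prop) _ _), intervalIntegral.integral_const,
      intervalIntegral.integral_const_mul,
      intervalIntegral.integral_add (Continuous.intervalIntegrable (by fun_prop) _ _)
      (Continuous.intervalIntegrable (by fun_prop) _ _)]
  have h2 := int_cosh hH
  rw [integral_Icc_eq_integral_Ioc, integral_Icc_eq_integral_Ioc,
    ← intervalIntegral.integral_of_le (by norm_num),
    ← intervalIntegral.integral_of_le (by norm_num)] at h2
  rw [h2]
  have h3 : sinh H = 2 * sinh (H / 2) * cosh (H / 2) := by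
    rw [← sinh_two_mul]; congr 1; ring
  rw [h3, tanh_eq_sinh_div_cosh]
  simp only [sub_zero, smul_eq_mul]
  field_simp

/-- **The upper bound for metrics whose boundary is invariant under the half turn** -/
theorem half_bound {E F G : ℝ × ℝ → ℝ} (h : IsMetric E F G) {H : ℝ} (hH : 0 < H)
    (hF : ∀ x : ℝ × ℝ, x.1 ∈ Icc (0:ℝ) 1 → F x = 0)
    (hE : ∀ x : ℝ × ℝ, x.1 ∈ Icc (0:ℝ) 1 → E x = H ^ 2 * G x)
    (h0 : ∀ θ, G (0, θ + π) = G (0, θ)) (h1 : ∀ θ, G (1, θ + π) = G (1, θ)) {Λ : ℝ}
    (hΛ0 : 0 < Λ) (hΛ1 : 4 * π * tanh (H / 2) ≤ Λ * len G)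
    (hΛ2 : 2 * π / H * (1 / side G 0 + 1 / side G 1) ≤ Λ) : sigma2 E F G ≤ Λ := by
  have hl0 := side_pos h (s := 0) (by simp)
  have hl1 := side_pos h (s := 1) (by simp)
  have hL := len_eq h
  have hpi := pi_pos
  have r0 := side_cont h 0
  have r1 := side_cont h 1
  have z0 := int_half r0 (fun θ => by rw [h0])
  have z1 := int_half r1 (fun θ => by rw [h1])
  -- the choice of the mode
  obtain ⟨p, q, hpq, hhalf⟩ : ∃ p q : ℝ, p ^ 2 + q ^ 2 = 1 ∧ len G / 2 ≤
      ∫ θ in (0:ℝ)..(2 * π), (√(G (0, θ)) + √(G (1, θ))) * (p * cos θ + q * sin θ) ^ 2 := by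
    have hsum : (∫ θ in (0:ℝ)..(2 * π), (√(G (0, θ)) + √(G (1, θ))) * (1 * cos θ + 0 * sin θ) ^ 2) +
        (∫ θ in (0:ℝ)..(2 * π), (√(G (0, θ)) + √(G (1, θ))) * (0 * cos θ + 1 * sin θ) ^ 2) =
        len G := by
      rw [hL, side, side, ← intervalIntegral.integral_add
        (Continuous.intervalIntegrable (by fun_prop) _ _)
        (Continuous.intervalIntegrable (by fun_prop) _ _), ← intervalIntegral.integral_add
        (Continuous.intervalIntegrable (by fun_prop) _ _)
        (Continuous.intervalIntegrable (by fun_prop) _ _)]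
      refine intervalIntegral.integral_congr fun θ _ => ?_
      have := sin_sq_add_cos_sq θ
      show (√(G (0, θ)) + √(G (1, θ))) * (1 * cos θ + 0 * sin θ) ^ 2 +
        (√(G (0, θ)) + √(G (1, θ))) * (0 * cos θ + 1 * sin θ) ^ 2 = √(G (0, θ)) + √(G (1, θ))
      linear_combination (√(G (0, θ)) + √(G (1, θ))) * this
    rcases le_total (len G / 2) (∫ θ in (0:ℝ)..(2 * π),
      (√(G (0, θ)) + √(G (1, θ))) * (1 * cos θ + 0 * sin θ) ^ 2) with hc | hc
    · exact ⟨1, 0, by norm_num, hc⟩
    · exact ⟨0, 1, by norm_num, by linarith⟩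
  -- the boundary integral
  have hw0 : ∀ θ, wfun H ![0, p, q] (0, θ) = p * cos θ + q * sin θ := by
    intro θ
    have : H * (((0:ℝ), θ).1 - 1 / 2) = -(H / 2) := by simp; ring
    unfold wfun
    rw [this, cosh_neg, div_self (cosh_pos _).ne']
    simp
  have hw1 : ∀ θ, wfun H ![0, p, q] (1, θ) = p * cos θ + q * sin θ := by
    intro θ
    have : H * (((1:ℝ), θ).1 - 1 / 2) = H / 2 := by simp; ring
    unfold wfun
    rw [this, div_self (cosh_pos _).ne']
    simp
  have hB : ∀ α β c : ℝ, bdry G (hv H p q α β c) = side G 0 * (α + β) ^ 2 + side G 1 * α ^ 2 +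
      c ^ 2 * ∫ θ in (0:ℝ)..(2 * π), (√(G (0, θ)) + √(G (1, θ))) *
        (p * cos θ + q * sin θ) ^ 2 := by
    intro α β c
    rw [bdry_eq h (hv_smooth _ _ _ _ _ _).continuous, ← intervalIntegral.integral_add
        (Continuous.intervalIntegrable (by
          have := (hv_smooth H p q α β c).continuous
          fun_prop) _ _)
        (Continuous.intervalIntegrable (by
          have := (hv_smooth H p q α β c).continuous
          fun_prop) _ _)]
    have e1 : ∀ θ, hv H p q α β c (0, θ) ^ 2 * √(G (0, θ)) + hv H p q α β c (1, θ) ^ 2 *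
        √(G (1, θ)) = (α + β) ^ 2 * √(G (0, θ)) + α ^ 2 * √(G (1, θ)) +
          2 * (α + β) * c * (√(G (0, θ)) * (p * cos θ + q * sin θ)) +
          2 * α * c * (√(G (1, θ)) * (p * cos θ + q * sin θ)) +
          c ^ 2 * ((√(G (0, θ)) + √(G (1, θ))) * (p * cos θ + q * sin θ) ^ 2) := by
      intro θ
      simp only [hv, hw0, hw1]
      ring
    simp_rw [e1]
    rw [intervalIntegral.integral_add (Continuous.intervalIntegrable (by fun_prop) _ _)
      (Continuous.intervalIntegrable (by fun_prop) _ _), intervalIntegral.integral_add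
      (Continuous.intervalIntegrable (by fun_prop) _ _)
      (Continuous.intervalIntegrable (by fun_prop) _ _), intervalIntegral.integral_add
      (Continuous.intervalIntegrable (by fun_prop) _ _)
      (Continuous.intervalIntegrable (by fun_prop) _ _), intervalIntegral.integral_add
      (Continuous.intervalIntegrable (by fun_prop) _ _)
      (Continuous.intervalIntegrable (by fun_prop) _ _), intervalIntegral.integral_const_mul,
      intervalIntegral.integral_const_mul, intervalIntegral.integral_const_mul,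
      intervalIntegral.integral_const_mul, intervalIntegral.integral_const_mul, z0, z1]
    unfold side
    ring
  -- the triple
  set u : Fin 3 → ℝ × ℝ → ℝ := ![fun _ => 1, fun x => 1 - x.1, wfun H ![0, p, q]] with hu
  have hcomb : ∀ c : Fin 3 → ℝ, ∑ i, c i • u i = hv H p q (c 0) (c 1) (c 2) := by
    intro c
    funext x
    rw [Fin.sum_univ_three]
    simp only [hu, Pi.add_apply, Pi.smul_apply, smul_eq_mul, Matrix.cons_val_zero,
      Matrix.cons_val_one, Matrix.cons_val_two, Matrix.head_cons, Matrix.tail_cons, hv]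
    simp
  have hpos : ∀ c : Fin 3 → ℝ, c ≠ 0 → 0 < bdry G (hv H p q (c 0) (c 1) (c 2)) := by
    intro c hc
    rw [hB]
    by_contra hcon
    push Not at hcon
    have hLp := len_pos h
    have t1 : 0 ≤ side G 0 * (c 0 + c 1) ^ 2 := by positivity
    have t2 : 0 ≤ side G 1 * c 0 ^ 2 := by positivity
    have t3 : c 2 ^ 2 * (len G / 2) ≤ c 2 ^ 2 * ∫ θ in (0:ℝ)..(2 * π),
      (√(G (0, θ)) + √(G (1, θ))) * (p * cos θ + q * sin θ) ^ 2 :=
      mul_le_mul_of_nonneg_left hhalf (sq_nonneg _)
    have t4 : 0 ≤ c 2 ^ 2 * (len G / 2) := by positivity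
    have a0 : c 0 = 0 := by
      by_contra hne
      have : 0 < side G 1 * c 0 ^ 2 := by positivity
      linarith
    have a2 : c 2 = 0 := by
      by_contra hne
      have : 0 < c 2 ^ 2 * (len G / 2) := by positivity
      linarith
    have a1 : c 1 = 0 := by
      by_contra hne
      rw [a0, zero_add] at t1 hcon
      have : 0 < side G 0 * c 1 ^ 2 := by positivity
      nlinarith
    apply hc
    funext i
    fin_cases i
    · exact a0
    · exact a1
    · exact a2
  have hadm : Adm u := by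
    constructor
    · intro i
      fin_cases i
      · exact ⟨by simp only [hu]; exact contDiff_const, fun r θ => by simp [hu]⟩
      · refine ⟨?_, fun r θ => by simp [hu]⟩
        show ContDiff ℝ (⊤ : ℕ∞) (fun x : ℝ × ℝ => 1 - x.1)
        exact contDiff_const.sub contDiff_fst
      · refine ⟨wfun_smooth _ _, fun r θ => ?_⟩
        show wfun H ![0, p, q] (r, θ + 2 * π) = wfun H ![0, p, q] (r, θ)
        unfold wfun
        simp
    · intro c hc
      by_contra hne
      have h2 := hpos c hne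
      rw [← hcomb] at h2
      have h3 : bdry G (∑ i, c i • u i) = 0 := by
        unfold bdry
        have : ∀ θ : ℝ, (∑ i, c i • u i) (0, θ) ^ 2 * √(G (0, θ)) +
            (∑ i, c i • u i) (1, θ) ^ 2 * √(G (1, θ)) = 0 := by
          intro θ
          obtain ⟨h3, h4⟩ := hc θ
          rw [combI_apply, combI_apply, h3, h4]
          ring
        simp_rw [this]
        simp
      linarith
  refine (sigma2_le h hadm).trans ?_
  have : Nonempty {c : Fin 3 → ℝ // c ≠ 0} := ⟨⟨fun _ => 1, fun h => by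
      have := congrFun h 0
      norm_num at this⟩⟩
  refine ciSup_le fun c => ?_
  rw [hcomb, energy_iso h hH hF hE, hv_energy hH hpq, div_le_iff₀ (hpos c.1 c.2), hB]
  -- the two parts
  have t1 : 2 * π * tanh (H / 2) * c.1 2 ^ 2 ≤ Λ * (c.1 2 ^ 2 * ∫ θ in (0:ℝ)..(2 * π),
      (√(G (0, θ)) + √(G (1, θ))) * (p * cos θ + q * sin θ) ^ 2) := by
    have a1 : c.1 2 ^ 2 * (len G / 2) ≤ c.1 2 ^ 2 * ∫ θ in (0:ℝ)..(2 * π),
      (√(G (0, θ)) + √(G (1, θ))) * (p * cos θ + q * sin θ) ^ 2 :=
      mul_le_mul_of_nonneg_left hhalf (sq_nonneg _)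
    have a2 := mul_le_mul_of_nonneg_left a1 hΛ0.le
    have a3 := mul_le_mul_of_nonneg_right hΛ1 (sq_nonneg (c.1 2))
    linarith
  have t2 : 2 * π / H * c.1 1 ^ 2 ≤ Λ * (side G 0 * (c.1 0 + c.1 1) ^ 2 + side G 1 * c.1 0 ^ 2) := by
    have a1 : c.1 1 ^ 2 ≤ (1 / side G 0 + 1 / side G 1) *
        (side G 0 * (c.1 0 + c.1 1) ^ 2 + side G 1 * c.1 0 ^ 2) := by
      have e : (1 / side G 0 + 1 / side G 1) *
        (side G 0 * (c.1 0 + c.1 1) ^ 2 + side G 1 * c.1 0 ^ 2) - c.1 1 ^ 2 =
          (side G 0 * (c.1 0 + c.1 1) + side G 1 * c.1 0) ^ 2 / (side G 0 * side G 1) := by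
        field_simp
        ring
      have : 0 ≤ (side G 0 * (c.1 0 + c.1 1) + side G 1 * c.1 0) ^ 2 /
        (side G 0 * side G 1) := by positivity
      linarith
    have a2 := mul_le_mul_of_nonneg_left a1 (show 0 ≤ 2 * π / H by positivity)
    have a3 : 0 ≤ side G 0 * (c.1 0 + c.1 1) ^ 2 + side G 1 * c.1 0 ^ 2 := by positivity
    have a4 := mul_le_mul_of_nonneg_right hΛ2 a3
    linarith
  linarith

end Pool.Agent.Helper22.Stek
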