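import Mathlib

/-! # Hersch's lemma on the circle: a Möbius transformation of the disc which balances a measure -/

set_option autoImplicit false
open Real MeasureTheory Set ComplexConjugate

namespace Pool.Agent.Helper22.Stek

/-- the Möbius transformation of the disc with the zero `a` -/
noncomputable def mob (a z : ℂ) : ℂ := (z - a) / (1 - conj a * z)

/-- the point of the unit circle -/
noncomputable def ee (θ : ℝ) : ℂ := circleMap 0 1 θ

lemma ee_norm (θ : ℝ) : ‖ee θ‖ = 1 := by simp [ee, circleMap]

lemma ee_normSq (θ : ℝ) : Complex.normSq (ee θ) = 1 := by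
  rw [Complex.normSq_eq_norm_sq, ee_norm, one_pow]

lemma ee_cont : Continuous ee := continuous_circleMap 0 1

lemma ee_conj (θ : ℝ) : conj (ee θ) * ee θ = 1 := by
  rw [mul_comm, Complex.mul_conj, ee_normSq]; simp

/-- lower bound for the distance to the circle -/
lemma normSq_ge {R : ℝ} (hR1 : R < 1) {a : ℂ} (ha : ‖a‖ ≤ R) (θ : ℝ) :
    (1 - R) ^ 2 ≤ Complex.normSq (ee θ - a) := by
  rw [Complex.normSq_eq_norm_sq]
  have h1 : 1 - R ≤ ‖ee θ - a‖ := by
    have := norm_sub_norm_le (ee θ) a
    rw [ee_norm] at this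
    linarith
  exact pow_le_pow_left₀ (by linarith) h1 2

lemma normSq_le {R : ℝ} (hR1 : R < 1) {a : ℂ} (ha : ‖a‖ ≤ R) (θ : ℝ) :
    Complex.normSq (ee θ - a) ≤ 4 := by
  rw [Complex.normSq_eq_norm_sq]
  have h1 : ‖ee θ - a‖ ≤ 2 := by
    have := norm_sub_le (ee θ) a
    rw [ee_norm] at this
    linarith
  nlinarith [norm_nonneg (ee θ - a)]

lemma int_log_normSq {a : ℂ} (ha : ‖a‖ < 1) :
    ∫ θ in (0:ℝ)..(2 * π), log (Complex.normSq (ee θ - a)) = 0 := by
  have h := circleAverage_log_norm_sub_const₀ ha
  rw [circleAverage_def, smul_eq_mul] at h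
  have h2 : ∫ θ in (0:ℝ)..(2 * π), log ‖circleMap 0 1 θ - a‖ = 0 := by
    rcases mul_eq_zero.1 h with h | h
    · exact absurd h (by positivity)
    · exact h
  have h3 : (fun θ => log (Complex.normSq (ee θ - a))) = fun θ => 2 * log ‖circleMap 0 1 θ - a‖ := by
    funext θ
    rw [Complex.normSq_eq_norm_sq, log_pow]
    rfl
  rw [h3, intervalIntegral.integral_const_mul, h2, mul_zero]

section

variable {ρ : ℝ → ℝ}

/-- the truncated functional -/
noncomputable def pot (ρ : ℝ → ℝ) (R : ℝ) (a : ℂ) : ℝ :=
  (∫ θ in (0:ℝ)..(2 * π), ρ θ * log (max (Complex.normSq (ee θ - a)) ((1 - R) ^ 2))) -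
    (∫ θ in (0:ℝ)..(2 * π), ρ θ) * log (max (1 - Complex.normSq a) (1 - R ^ 2))

lemma pot_cont (hρ : Continuous ρ) {R : ℝ} (hR0 : 0 ≤ R) (hR1 : R < 1) : Continuous (pot ρ R) := by
  have h1 : Continuous fun p : ℂ × ℝ => ρ p.2 * log (max (Complex.normSq (ee p.2 - p.1))
      ((1 - R) ^ 2)) := by
    refine (hρ.comp continuous_snd).mul (Continuous.log ?_ ?_)
    · exact (Complex.continuous_normSq.comp ((ee_cont.comp continuous_snd).sub
        continuous_fst)).max continuous_const
    · intro p
      have : 0 < (1 - R) ^ 2 := pow_pos (by linarith) 2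
      exact (lt_max_of_lt_right this).ne'
  have h2 : Continuous fun a : ℂ => ∫ θ in (0:ℝ)..(2 * π),
      ρ θ * log (max (Complex.normSq (ee θ - a)) ((1 - R) ^ 2)) :=
    intervalIntegral.continuous_parametric_intervalIntegral_of_continuous' (f := fun a θ =>
      ρ θ * log (max (Complex.normSq (ee θ - a)) ((1 - R) ^ 2))) h1 _ _
  have h3 : Continuous fun a : ℂ => log (max (1 - Complex.normSq a) (1 - R ^ 2)) := by
    refine Continuous.log ((continuous_const.sub Complex.continuous_normSq).max
      continuous_const) fun a => ?_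
    have : 0 < 1 - R ^ 2 := by nlinarith
    exact (lt_max_of_lt_right this).ne'
  exact h2.sub (continuous_const.mul h3)

lemma pot_eq {R : ℝ} (hR1 : R < 1) {a : ℂ} (ha : ‖a‖ ≤ R) : pot ρ R a =
    (∫ θ in (0:ℝ)..(2 * π), ρ θ * log (Complex.normSq (ee θ - a))) -
      (∫ θ in (0:ℝ)..(2 * π), ρ θ) * log (1 - Complex.normSq a) := by
  unfold pot
  have h1 : ∀ θ, max (Complex.normSq (ee θ - a)) ((1 - R) ^ 2) = Complex.normSq (ee θ - a) :=
    fun θ => max_eq_left (normSq_ge hR1 ha θ)
  have h2 : max (1 - Complex.normSq a) (1 - R ^ 2) = 1 - Complex.normSq a := by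
    refine max_eq_left ?_
    rw [Complex.normSq_eq_norm_sq]
    nlinarith [norm_nonneg a]
  simp_rw [h1, h2]

lemma logcont {R : ℝ} (hR1 : R < 1) {a : ℂ} (ha : ‖a‖ ≤ R) :
    Continuous fun θ => log (Complex.normSq (ee θ - a)) := by
  refine Continuous.log (Complex.continuous_normSq.comp (ee_cont.sub continuous_const)) fun θ => ?_
  have h1 := normSq_ge hR1 ha θ
  have h2 : 0 < (1 - R) ^ 2 := pow_pos (by linarith) 2
  exact (lt_of_lt_of_le h2 h1).ne'

/-- **Hersch's lemma** on the circle -/
theorem hersch (hρ : Continuous ρ) (hpos : ∀ θ, 0 < ρ θ) :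
    ∃ a : ℂ, ‖a‖ < 1 ∧ ∫ θ in (0:ℝ)..(2 * π), (ρ θ : ℂ) * mob a (ee θ) = 0 := by
  obtain ⟨B, hB⟩ := isCompact_Icc.exists_bound_of_continuousOn (s := Icc (0:ℝ) (2 * π))
    (f := ρ) hρ.continuousOn
  set L := ∫ θ in (0:ℝ)..(2 * π), ρ θ with hLdef
  have hL : 0 < L := intervalIntegral.intervalIntegral_pos_of_pos (hρ.intervalIntegrable _ _)
    hpos (by positivity)
  have hB0 : 0 < B := lt_of_lt_of_le (hpos 0) (by
    have := hB 0 ⟨le_rfl, by positivity⟩
    rw [Real.norm_eq_abs] at this
    exact (le_abs_self _).trans this)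
  have hlog4 : 0 < log 4 := log_pos (by norm_num)
  -- the radius
  set K := 2 * π * B * log 4 / L + 1 with hK
  have hK0 : 0 < K := by positivity
  set R := √(1 - exp (-K)) with hRdef
  have he1 : exp (-K) < 1 := by
    rw [← Real.exp_zero]
    exact Real.exp_lt_exp.2 (by linarith)
  have he0 := exp_pos (-K)
  have hR2 : R ^ 2 = 1 - exp (-K) := sq_sqrt (by linarith)
  have hR0 : 0 < R := sqrt_pos.2 (by linarith)
  have hR1 : R < 1 := by nlinarith
  -- positivity of the functional on the sphere
  have hsph : ∀ a : ℂ, ‖a‖ = R → 0 < pot ρ R a := by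
    intro a ha
    rw [pot_eq hR1 ha.le, Complex.normSq_eq_norm_sq a, ha, hR2]
    have h1 : log (1 - (1 - exp (-K))) = -K := by
      rw [show 1 - (1 - exp (-K)) = exp (-K) by ring, log_exp]
    rw [h1]
    have h2 : -(2 * π * B * log 4) ≤ ∫ θ in (0:ℝ)..(2 * π),
        ρ θ * log (Complex.normSq (ee θ - a)) := by
      have h3 : ∫ θ in (0:ℝ)..(2 * π), B * (log (Complex.normSq (ee θ - a)) - log 4) =
          -(2 * π * B * log 4) := by
        rw [intervalIntegral.integral_const_mul, intervalIntegral.integral_sub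
          ((logcont hR1 ha.le).intervalIntegrable _ _) (continuous_const.intervalIntegrable _ _),
          int_log_normSq (by rw [ha]; exact hR1)]
        simp
        ring
      rw [← h3]
      refine intervalIntegral.integral_mono_on (by positivity)
        ((continuous_const.mul ((logcont hR1 ha.le).sub continuous_const)).intervalIntegrable _ _)
        ((hρ.mul (logcont hR1 ha.le)).intervalIntegrable _ _) fun θ hθ => ?_
      have h4 : log (Complex.normSq (ee θ - a)) ≤ log 4 := by
        refine log_le_log ?_ (normSq_le hR1 ha.le θ)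
        exact lt_of_lt_of_le (pow_pos (by linarith) 2) (normSq_ge hR1 ha.le θ)
      have h5 : ρ θ ≤ B := (le_abs_self _).trans (by
        have := hB θ hθ
        rwa [Real.norm_eq_abs] at this)
      have h6 := hpos θ
      nlinarith [mul_nonneg (sub_nonneg.2 h5) (sub_nonneg.2 h4), mul_pos h6 hlog4]
    have h7 : L * K = 2 * π * B * log 4 + L := by
      rw [hK]; field_simp
    rw [← hLdef]
    nlinarith
  have h0 : pot ρ R 0 = 0 := by
    rw [pot_eq hR1 (by rw [norm_zero]; exact hR0.le)]
    simp [ee_normSq]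
  -- the minimiser
  obtain ⟨a, haR, hmin⟩ := (isCompact_closedBall (0:ℂ) R).exists_isMinOn
    ⟨0, by simp [hR0.le]⟩ (pot_cont hρ hR0.le hR1).continuousOn
  have haR' : ‖a‖ ≤ R := by simpa using haR
  have haR2 : ‖a‖ < R := by
    refine lt_of_le_of_ne haR' fun h => ?_
    have h1 := hsph a h
    have h2 := hmin (show (0:ℂ) ∈ Metric.closedBall (0:ℂ) R by simp [hR0.le])
    change pot ρ R a ≤ _ at h2
    rw [h0] at h2
    linarith
  have ha1 : ‖a‖ < 1 := haR2.trans hR1
  refine ⟨a, ha1, ?_⟩
  have hns : 0 < 1 - Complex.normSq a := by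
    rw [Complex.normSq_eq_norm_sq]
    nlinarith [norm_nonneg a]
  -- the derivative in the direction `h`
  have key : ∀ h : ℂ, (∫ θ in (0:ℝ)..(2 * π),
      ρ θ * (-2 * (conj h * (ee θ - a)).re / Complex.normSq (ee θ - a))) -
        L * (-2 * (conj h * a).re / (1 - Complex.normSq a)) = 0 := by
    intro h
    -- a neighbourhood on which we stay in the ball
    have hopen : {s : ℝ | ‖a + s * h‖ < R} ∈ nhds (0:ℝ) := by
      refine IsOpen.mem_nhds (isOpen_lt (by fun_prop) continuous_const) ?_
      simpa using haR2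
    obtain ⟨ε, hε, hball⟩ := Metric.mem_nhds_iff.1 hopen
    have hd1 : ∀ (s θ : ℝ), HasDerivAt (fun s : ℝ => Complex.normSq (ee θ - (a + s * h)))
        (-2 * (conj h * (ee θ - (a + s * h))).re) s := by
      intro s θ
      have e : (fun s : ℝ => Complex.normSq (ee θ - (a + s * h))) = fun s : ℝ =>
          ((ee θ - a).re - s * h.re) ^ 2 + ((ee θ - a).im - s * h.im) ^ 2 := by
        funext s
        rw [Complex.normSq_apply]
        simp
        ring
      rw [e]
      have a1 : HasDerivAt (fun s : ℝ => (ee θ - a).re - s * h.re) (-h.re) s := by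
        have := ((hasDerivAt_id s).mul_const h.re).const_sub (ee θ - a).re
        rw [one_mul] at this
        exact this
      have a2 : HasDerivAt (fun s : ℝ => (ee θ - a).im - s * h.im) (-h.im) s := by
        have := ((hasDerivAt_id s).mul_const h.im).const_sub (ee θ - a).im
        rw [one_mul] at this
        exact this
      refine ((a1.pow 2).add (a2.pow 2)).congr_deriv ?_
      simp
      ring
    have hd2 : ∀ (s θ : ℝ), s ∈ Metric.ball (0:ℝ) ε →
        HasDerivAt (fun s : ℝ => ρ θ * log (Complex.normSq (ee θ - (a + s * h))))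
        (ρ θ * (-2 * (conj h * (ee θ - (a + s * h))).re / Complex.normSq (ee θ - (a + s * h)))) s := by
      intro s θ hs
      have h1 : ‖a + s * h‖ < R := hball hs
      have h2 : 0 < Complex.normSq (ee θ - (a + s * h)) :=
        lt_of_lt_of_le (pow_pos (by linarith) 2) (normSq_ge hR1 h1.le θ)
      exact ((hd1 s θ).log h2.ne').const_mul (ρ θ)
    have hee := ee_cont
    have hcont : ∀ s ∈ Metric.ball (0:ℝ) ε, Continuous fun θ =>
        ρ θ * log (Complex.normSq (ee θ - (a + s * h))) := fun s hs =>
      hρ.mul (logcont hR1 (hball hs).le)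
    have hder := intervalIntegral.hasDerivAt_integral_of_dominated_loc_of_deriv_le
      (𝕜 := ℝ) (μ := volume) (a := 0) (b := 2 * π)
      (F := fun (s θ : ℝ) => ρ θ * log (Complex.normSq (ee θ - (a + s * h))))
      (F' := fun (s θ : ℝ) => ρ θ * (-2 * (conj h * (ee θ - (a + s * h))).re /
        Complex.normSq (ee θ - (a + s * h))))
      (x₀ := (0:ℝ)) (s := Metric.ball (0:ℝ) ε) (bound := fun _ => B * (4 * ‖h‖ / (1 - R) ^ 2))
      (Metric.ball_mem_nhds 0 hε)
      (by
        filter_upwards [Metric.ball_mem_nhds (0:ℝ) hε] with s hs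
        exact (hcont s hs).aestronglyMeasurable)
      ((hcont 0 (Metric.mem_ball_self hε)).intervalIntegrable _ _)
      (by
        refine (Continuous.aestronglyMeasurable ?_)
        refine hρ.mul (Continuous.div (by fun_prop) (Complex.continuous_normSq.comp (by fun_prop))
          fun θ => ?_)
        have h1 : ‖a + (0:ℝ) * h‖ < R := hball (Metric.mem_ball_self hε)
        exact (lt_of_lt_of_le (pow_pos (by linarith) 2) (normSq_ge hR1 h1.le θ)).ne')
      (Filter.Eventually.of_forall fun θ hθ s hs => by
        rw [uIoc_of_le (by positivity)] at hθ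
        have h1 : ‖a + s * h‖ < R := hball hs
        have h2 := normSq_ge hR1 h1.le θ
        have h3 : 0 < (1 - R) ^ 2 := pow_pos (by linarith) 2
        have h4 : ‖ee θ - (a + s * h)‖ ≤ 2 := by
          have := norm_sub_le (ee θ) (a + s * h)
          rw [ee_norm] at this
          linarith
        rw [norm_mul, norm_div, norm_mul]
        refine mul_le_mul (hB θ ⟨hθ.1.le, hθ.2⟩) ?_ (by positivity) hB0.le
        have h5 : ‖(conj h * (ee θ - (a + s * h))).re‖ ≤ ‖h‖ * 2 := by
          refine (Complex.abs_re_le_norm _).trans ?_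
          rw [norm_mul, Complex.norm_conj]
          exact mul_le_mul_of_nonneg_left h4 (norm_nonneg _)
        rw [Real.norm_of_nonneg (Complex.normSq_nonneg _)]
        have h6 : ‖(-2:ℝ)‖ = 2 := by norm_num
        rw [h6]
        refine div_le_div₀ (by positivity) (by linarith) h3 h2)
      (continuous_const.intervalIntegrable _ _)
      (Filter.Eventually.of_forall fun θ _ s hs => hd2 s θ hs)
    have hd3 : HasDerivAt (fun s : ℝ => log (1 - Complex.normSq (a + s * h)))
        (-2 * (conj h * a).re / (1 - Complex.normSq a)) 0 := by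
      have e : (fun s : ℝ => 1 - Complex.normSq (a + s * h)) = fun s : ℝ =>
          1 - ((a.re + s * h.re) ^ 2 + (a.im + s * h.im) ^ 2) := by
        funext s
        rw [Complex.normSq_apply]
        simp
        ring
      have h1 : HasDerivAt (fun s : ℝ => 1 - Complex.normSq (a + s * h))
          (-2 * (conj h * a).re) 0 := by
        rw [e]
        have a1 : HasDerivAt (fun s : ℝ => a.re + s * h.re) (h.re) 0 := by
          have := ((hasDerivAt_id (0:ℝ)).mul_const h.re).const_add a.re
          rw [one_mul] at this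
          exact this
        have a2 : HasDerivAt (fun s : ℝ => a.im + s * h.im) (h.im) 0 := by
          have := ((hasDerivAt_id (0:ℝ)).mul_const h.im).const_add a.im
          rw [one_mul] at this
          exact this
        refine (((a1.pow 2).add (a2.pow 2)).const_sub 1).congr_deriv ?_
        simp
        ring
      have h2 := h1.log (by simpa using hns.ne')
      simpa using h2
    have hd4 := hder.2.sub (hd3.const_mul L)
    have hloc : IsLocalMin (fun s : ℝ => (∫ θ in (0:ℝ)..(2 * π),
        ρ θ * log (Complex.normSq (ee θ - (a + s * h)))) -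
          L * log (1 - Complex.normSq (a + s * h))) 0 := by
      filter_upwards [Metric.ball_mem_nhds (0:ℝ) hε] with s hs
      have h1 : ‖a + s * h‖ < R := hball hs
      have h2 := hmin (show a + s * h ∈ Metric.closedBall (0:ℂ) R by simpa using h1.le)
      change pot ρ R a ≤ _ at h2
      rw [pot_eq hR1 haR2.le, pot_eq hR1 h1.le] at h2
      simpa using h2
    have h5 := hloc.hasDerivAt_eq_zero hd4
    simpa using h5
  -- conclusion
  have hne : ∀ θ, conj (ee θ - a) ≠ 0 := by
    intro θ h
    have h1 : ee θ - a = 0 := (map_eq_zero (starRingEnd ℂ)).1 h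
    have h2 := normSq_ge hR1 haR2.le θ
    rw [h1, Complex.normSq_zero] at h2
    exact absurd h2 (not_le.2 (pow_pos (by linarith) 2))
  have hform : ∀ θ, mob a (ee θ) = (1 - Complex.normSq a) *
      ((ee θ - a) / Complex.normSq (ee θ - a)) - a := by
    intro θ
    have h1 : 1 - conj a * ee θ = conj (ee θ - a) * ee θ := by
      rw [map_sub, sub_mul, ee_conj]
    have h2 : ((Complex.normSq (ee θ - a) : ℝ) : ℂ) = (ee θ - a) * conj (ee θ - a) :=
      (Complex.mul_conj _).symm
    have h3 : ee θ - a ≠ 0 := by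
      intro h; exact hne θ (by rw [h, map_zero])
    have h4 : ee θ ≠ 0 := by
      intro h
      have := ee_norm θ
      rw [h, norm_zero] at this
      norm_num at this
    have h5 : ((Complex.normSq a : ℝ) : ℂ) = a * conj a := (Complex.mul_conj _).symm
    unfold mob
    rw [h1, h2, h5]
    have h6 := hne θ
    field_simp
    rw [map_sub]
    linear_combination a * ee_conj θ
  have hee := ee_cont
  have hnq : ∀ θ, Complex.normSq (ee θ - a) ≠ 0 := fun θ =>
    (lt_of_lt_of_le (pow_pos (by linarith) 2) (normSq_ge hR1 haR2.le θ)).ne'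
  have hmc : Continuous fun θ => mob a (ee θ) := by
    have h1 : Continuous fun θ => (ee θ - a) / (Complex.normSq (ee θ - a) : ℂ) :=
      Continuous.div (by fun_prop)
        (Complex.continuous_ofReal.comp (Complex.continuous_normSq.comp (by fun_prop)))
        fun θ => by exact_mod_cast hnq θ
    simp_rw [hform]
    exact (continuous_const.mul h1).sub continuous_const
  have hGre : ∀ h : ℂ, (conj h * ∫ θ in (0:ℝ)..(2 * π), (ρ θ : ℂ) * mob a (ee θ)).re = 0 := by
    intro h
    have hc1 : Continuous fun θ => ρ θ * ((conj h * (ee θ - a)).re / Complex.normSq (ee θ - a)) :=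
      hρ.mul (Continuous.div (by fun_prop) (Complex.continuous_normSq.comp (by fun_prop)) hnq)
    have e1 : (conj h * ∫ θ in (0:ℝ)..(2 * π), (ρ θ : ℂ) * mob a (ee θ)).re =
        ∫ θ in (0:ℝ)..(2 * π), (conj h * ((ρ θ : ℂ) * mob a (ee θ))).re := by
      rw [← intervalIntegral.integral_const_mul]
      exact (Complex.reCLM.intervalIntegral_comp_comm
        (Continuous.intervalIntegrable (by fun_prop) _ _)).symm
    have e2 : ∀ θ, (conj h * ((ρ θ : ℂ) * mob a (ee θ))).re =
        (1 - Complex.normSq a) * (ρ θ * ((conj h * (ee θ - a)).re / Complex.normSq (ee θ - a))) -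
          (conj h * a).re * ρ θ := by
      intro θ
      rw [hform θ]
      have : conj h * ((ρ θ : ℂ) * ((1 - Complex.normSq a) *
          ((ee θ - a) / Complex.normSq (ee θ - a)) - a)) =
          ((((1 - Complex.normSq a) * ρ θ / Complex.normSq (ee θ - a) : ℝ)) : ℂ) *
            (conj h * (ee θ - a)) - ((ρ θ : ℝ) : ℂ) * (conj h * a) := by
        push_cast
        have := hnq θ
        have h' : (Complex.normSq (ee θ - a) : ℂ) ≠ 0 := by exact_mod_cast this
        field_simp
      rw [this, Complex.sub_re, Complex.re_ofReal_mul, Complex.re_ofReal_mul]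
      ring
    have e3 : ∫ θ in (0:ℝ)..(2 * π), ρ θ * (-2 * (conj h * (ee θ - a)).re /
        Complex.normSq (ee θ - a)) = -2 * ∫ θ in (0:ℝ)..(2 * π),
          ρ θ * ((conj h * (ee θ - a)).re / Complex.normSq (ee θ - a)) := by
      rw [← intervalIntegral.integral_const_mul]
      congr 1
      funext θ
      ring
    have h1 := key h
    rw [e3] at h1
    rw [e1]
    simp_rw [e2]
    rw [intervalIntegral.integral_sub ((hc1.intervalIntegrable _ _).const_mul _)
      ((hρ.intervalIntegrable _ _).const_mul _), intervalIntegral.integral_const_mul,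
      intervalIntegral.integral_const_mul, ← hLdef]
    have h2 : (1 - Complex.normSq a) * (-2 * (∫ θ in (0:ℝ)..(2 * π),
          ρ θ * ((conj h * (ee θ - a)).re / Complex.normSq (ee θ - a))) -
        L * (-2 * (conj h * a).re / (1 - Complex.normSq a))) = 0 := by rw [h1, mul_zero]
    have h3 : (1 - Complex.normSq a) * (L * (-2 * (conj h * a).re / (1 - Complex.normSq a))) =
        L * (-2 * (conj h * a).re) := by
      field_simp
    linear_combination (-1 / 2) * h2 - (1 / 2) * h3
  have h1 := hGre (∫ θ in (0:ℝ)..(2 * π), (ρ θ : ℂ) * mob a (ee θ))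
  rw [mul_comm, Complex.mul_conj, Complex.ofReal_re] at h1
  exact Complex.normSq_eq_zero.1 h1

end

end Pool.Agent.Helper22.Stek
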