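import Pool.Agent.Helper22.Stek.Hps
import Pool.Agent.Helper22.Stek.Modes

/-! # Holomorphic functions on the annulus with given boundary data -/

set_option autoImplicit false
open Real MeasureTheory Set ComplexConjugate

namespace Pool.Agent.Helper22.Stek

lemma fc_deriv {f f' : ℝ → ℝ} (hf : ∀ θ, HasDerivAt f (f' θ) θ) (hf' : Continuous f')
    (hp : ∀ θ, f (θ + 2 * π) = f θ) (n : ℕ) : fc f' n = Complex.I * n * fc f n := by
  have hc : Continuous f := continuous_iff_continuousAt.2 fun x => (hf x).continuousAt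
  have ce := conj_ee_cont n
  have h := intervalIntegral.integral_mul_deriv_eq_deriv_mul (a := 0) (b := 2 * π)
    (u := fun θ : ℝ => conj (ee θ) ^ n) (v := fun θ => (f θ : ℂ))
    (u' := fun θ : ℝ => -(Complex.I * n) * conj (ee θ) ^ n) (v' := fun θ => (f' θ : ℂ))
    (fun θ _ => hasDerivAt_conj_ee_pow n θ) (fun θ _ => (hf θ).ofReal_comp)
    (Continuous.intervalIntegrable (by fun_prop) _ _)
    (Continuous.intervalIntegrable (by fun_prop) _ _)
  have e1 : (f (2 * π) : ℂ) = (f 0 : ℂ) := by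
    have := hp 0
    rw [zero_add] at this
    rw [this]
  have e2 : ee (2 * π) = ee 0 := by
    have := ee_per 0
    rwa [zero_add] at this
  rw [e1, e2, sub_self, zero_sub] at h
  have e3 : fc f' n = ∫ θ in (0:ℝ)..(2 * π), conj (ee θ) ^ n * (f' θ : ℂ) := by
    unfold fc
    exact intervalIntegral.integral_congr fun θ _ => mul_comm _ _
  rw [e3, h, fc, ← intervalIntegral.integral_neg, ← intervalIntegral.integral_const_mul]
  refine intervalIntegral.integral_congr fun θ _ => ?_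
  ring

lemma int_deriv_zero {f f' : ℝ → ℝ} (hf : ∀ θ, HasDerivAt f (f' θ) θ) (hf' : Continuous f')
    (hp : ∀ θ, f (θ + 2 * π) = f θ) : ∫ θ in (0:ℝ)..(2 * π), f' θ = 0 := by
  rw [intervalIntegral.integral_eq_sub_of_hasDerivAt (fun θ _ => hf θ)
    (hf'.intervalIntegrable _ _)]
  have := hp 0
  rw [zero_add] at this
  rw [this, sub_self]

lemma hasDerivAt_ee_pow (n : ℕ) (θ : ℝ) : HasDerivAt (fun θ : ℝ => ee θ ^ n)
    (Complex.I * n * ee θ ^ n) θ := by
  have e : (fun θ : ℝ => ee θ ^ n) = fun θ : ℝ => Complex.exp ((Complex.I * n) * θ) := by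
    funext θ
    rw [ee_pow]
    congr 1
    push_cast
    ring
  rw [e]
  have h1 : HasDerivAt (fun θ : ℝ => (Complex.I * n) * (θ : ℂ)) (Complex.I * n) θ := by
    have := (Complex.ofRealCLM.hasDerivAt (x := θ)).const_mul (Complex.I * n)
    simpa using this
  have h2 := h1.cexp
  refine h2.congr_deriv ?_
  rw [ee_pow]
  have : Complex.exp ((Complex.I * n) * θ) = Complex.exp (((n * θ) : ℝ) * Complex.I) := by
    congr 1
    push_cast
    ring
  rw [this]
  ring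

lemma fpol_sum (f : ℝ → ℝ) (N : ℕ) (z : ℂ) :
    fpol f N z = ∑ n ∈ Finset.range N, fc f (n + 1) / π * z ^ (n + 1) := by
  unfold fpol pol
  rw [Finset.mul_sum]
  exact Finset.sum_congr rfl fun n _ => by ring

lemma hasDerivAt_fpol {f f' : ℝ → ℝ} (hf : ∀ θ, HasDerivAt f (f' θ) θ) (hf' : Continuous f')
    (hp : ∀ θ, f (θ + 2 * π) = f θ) (N : ℕ) (θ : ℝ) :
    HasDerivAt (fun θ => fpol f N (ee θ)) (fpol f' N (ee θ)) θ := by
  have e : (fun θ => fpol f N (ee θ)) = fun θ => ∑ n ∈ Finset.range N,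
      fc f (n + 1) / π * ee θ ^ (n + 1) := funext fun θ => fpol_sum f N (ee θ)
  rw [e, fpol_sum]
  have h : HasDerivAt (fun θ => ∑ n ∈ Finset.range N, fc f (n + 1) / π * ee θ ^ (n + 1))
      (∑ n ∈ Finset.range N, fc f (n + 1) / π * (Complex.I * (n + 1 : ℕ) * ee θ ^ (n + 1))) θ :=
    HasDerivAt.fun_sum fun n _ => (hasDerivAt_ee_pow (n + 1) θ).const_mul _
  refine h.congr_deriv (Finset.sum_congr rfl fun n _ => ?_)
  rw [fc_deriv hf hf' hp (n + 1)]
  ring

section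

variable (H : ℝ) (f1 f0 : ℝ → ℝ) (m : ℝ) (N : ℕ)

/-- the coefficients -/
noncomputable def cA (n : ℕ) : ℂ :=
  (fc f1 (n + 1) / π - fc f0 (n + 1) / π / (exp ((n + 1 : ℕ) * H) : ℝ)) /
    ((exp ((n + 1 : ℕ) * H) : ℝ) - 1 / (exp ((n + 1 : ℕ) * H) : ℝ))

noncomputable def cB (n : ℕ) : ℂ := conj (fc f0 (n + 1) / π - cA H f1 f0 n)

/-- the holomorphic function whose real part has the boundary values `f1` on the circle `r = 1` and
`f0` on the circle `r = 0`, up to the modes of order larger than `N` -/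
noncomputable def hol (z : ℂ) : ℂ := m + ∑ n ∈ Finset.range N,
  (cA H f1 f0 n * Complex.exp ((n + 1 : ℕ) * z) + cB H f1 f0 n * Complex.exp (-((n + 1 : ℕ) * z)))

noncomputable def hol' (z : ℂ) : ℂ := ∑ n ∈ Finset.range N,
  (cA H f1 f0 n * (Complex.exp ((n + 1 : ℕ) * z) * (n + 1 : ℕ)) +
    cB H f1 f0 n * (Complex.exp (-((n + 1 : ℕ) * z)) * -(n + 1 : ℕ)))

lemma hol_deriv (z : ℂ) : HasDerivAt (hol H f1 f0 m N) (hol' H f1 f0 N z) z := by
  unfold hol hol'
  refine (HasDerivAt.fun_sum fun n _ => ?_).const_add _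
  have h1 : HasDerivAt (fun z : ℂ => ((n + 1 : ℕ) : ℂ) * z) ((n + 1 : ℕ) : ℂ) z := by
    simpa using (hasDerivAt_id z).const_mul ((n + 1 : ℕ) : ℂ)
  exact (h1.cexp.const_mul _).add (h1.neg.cexp.const_mul _)

lemma hol_per (z : ℂ) : hol H f1 f0 m N (z + 2 * π * Complex.I) = hol H f1 f0 m N z := by
  unfold hol
  congr 1
  refine Finset.sum_congr rfl fun n _ => ?_
  have e1 : ((n + 1 : ℕ) : ℂ) * (z + 2 * π * Complex.I) = (n + 1 : ℕ) * z +
      ((n + 1 : ℕ) : ℂ) * (2 * π * Complex.I) := by ring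
  have e2 : -(((n + 1 : ℕ) : ℂ) * (z + 2 * π * Complex.I)) = -((n + 1 : ℕ) * z) -
      ((n + 1 : ℕ) : ℂ) * (2 * π * Complex.I) := by ring
  rw [e2, e1, Complex.exp_add, Complex.exp_sub, Complex.exp_nat_mul_two_pi_mul_I]
  simp

variable {H}

lemma hol_re1 (hH : 0 < H) (θ : ℝ) :
    vre H (hol H f1 f0 m N) (1, θ) = m + (fpol f1 N (ee θ)).re := by
  unfold vre hol zt
  rw [Complex.add_re, Complex.ofReal_re, fpol_sum, Complex.re_sum, Complex.re_sum]
  congr 1
  refine Finset.sum_congr rfl fun n _ => ?_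
  set E := exp ((n + 1 : ℕ) * H) with hE
  have hE1 : 1 < E := by
    rw [hE]
    exact Real.one_lt_exp_iff.2 (by positivity)
  have hE0 : (E : ℂ) ≠ 0 := by exact_mod_cast (by linarith : E ≠ 0)
  have hE2 : (E : ℂ) - 1 / E ≠ 0 := by
    have h1 : E - 1 / E ≠ 0 := by
      have : 1 / E < 1 := (div_lt_one (by linarith)).2 hE1
      have : 0 < E - 1 / E := by linarith
      exact this.ne'
    exact_mod_cast h1
  have e1 : Complex.exp ((n + 1 : ℕ) * ((H : ℂ) * ((1:ℝ), θ).1 + Complex.I * ((1:ℝ), θ).2)) =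
      E * ee θ ^ (n + 1) := by
    rw [hE, ee_pow, Complex.ofReal_exp, ← Complex.exp_add]
    congr 1
    push_cast
    ring
  have e2 : Complex.exp (-((n + 1 : ℕ) * ((H : ℂ) * ((1:ℝ), θ).1 + Complex.I * ((1:ℝ), θ).2))) =
      1 / E * conj (ee θ) ^ (n + 1) := by
    rw [Complex.exp_neg, e1, mul_inv, one_div, ← map_pow]
    congr 1
    have h3 : ‖ee θ ^ (n + 1)‖ = 1 := by rw [norm_pow, ee_norm, one_pow]
    rw [Complex.inv_def, Complex.normSq_eq_norm_sq, h3]
    simp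
  rw [e1, e2, Complex.add_re]
  have e3 : (cB H f1 f0 n * (1 / E * conj (ee θ) ^ (n + 1))).re =
      (conj (cB H f1 f0 n) * (1 / E) * ee θ ^ (n + 1)).re := by
    rw [← Complex.conj_re]
    congr 1
    simp [map_mul, mul_assoc]
  rw [e3, ← Complex.add_re]
  congr 1
  rw [cB, Complex.conj_conj]
  have e4 : cA H f1 f0 n * ((E : ℂ) - 1 / E) = fc f1 (n + 1) / π - fc f0 (n + 1) / π / E := by
    unfold cA
    rw [← hE]
    exact div_mul_cancel₀ _ hE2
  linear_combination (ee θ ^ (n + 1)) * e4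

lemma hol_re0 (θ : ℝ) :
    vre H (hol H f1 f0 m N) (0, θ) = m + (fpol f0 N (ee θ)).re := by
  unfold vre hol zt
  rw [Complex.add_re, Complex.ofReal_re, fpol_sum, Complex.re_sum, Complex.re_sum]
  congr 1
  refine Finset.sum_congr rfl fun n _ => ?_
  have e1 : Complex.exp ((n + 1 : ℕ) * ((H : ℂ) * ((0:ℝ), θ).1 + Complex.I * ((0:ℝ), θ).2)) =
      ee θ ^ (n + 1) := by
    rw [ee_pow]
    congr 1
    push_cast
    ring
  have e2 : Complex.exp (-((n + 1 : ℕ) * ((H : ℂ) * ((0:ℝ), θ).1 + Complex.I * ((0:ℝ), θ).2))) =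
      conj (ee θ) ^ (n + 1) := by
    rw [Complex.exp_neg, e1, ← map_pow]
    have h3 : ‖ee θ ^ (n + 1)‖ = 1 := by rw [norm_pow, ee_norm, one_pow]
    rw [Complex.inv_def, Complex.normSq_eq_norm_sq, h3]
    simp
  rw [e1, e2, Complex.add_re]
  have e3 : (cB H f1 f0 n * conj (ee θ) ^ (n + 1)).re =
      (conj (cB H f1 f0 n) * ee θ ^ (n + 1)).re := by
    rw [← Complex.conj_re]
    congr 1
    simp [map_mul]
  rw [e3, ← Complex.add_re]
  congr 1
  rw [cB, Complex.conj_conj]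
  ring

variable {f1 f0}

lemma hol_im1 (hH : 0 < H) {f1' : ℝ → ℝ} (hf : ∀ θ, HasDerivAt f1 (f1' θ) θ)
    (hf' : Continuous f1') (hp : ∀ θ, f1 (θ + 2 * π) = f1 θ) (θ : ℝ) :
    uim H (hol' H f1 f0 N) (1, θ) = -(fpol f1' N (ee θ)).re := by
  have hdiff : Differentiable ℂ (hol H f1 f0 0 N) := fun z =>
    (hol_deriv H f1 f0 0 N z).differentiableAt
  have h1 := hasDerivAt_dt (vre_smooth (H := H) hdiff) 1 θ
  unfold dt at h1
  rw [(vre_fderiv (H := H) (hol_deriv H f1 f0 0 N) (1, θ)).2] at h1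
  have e : (fun θ => vre H (hol H f1 f0 0 N) (1, θ)) = fun θ => 0 + (fpol f1 N (ee θ)).re :=
    funext fun θ => hol_re1 f1 f0 0 N hH θ
  rw [e] at h1
  have h2 : HasDerivAt (fun θ => 0 + (fpol f1 N (ee θ)).re) ((fpol f1' N (ee θ)).re) θ :=
    ((Complex.reCLM.hasFDerivAt (x := fpol f1 N (ee θ))).comp_hasDerivAt θ
      (hasDerivAt_fpol hf hf' hp N θ)).const_add 0
  have h3 := h1.unique h2
  unfold uim
  linarith

lemma hol_im0 {f0' : ℝ → ℝ} (hf : ∀ θ, HasDerivAt f0 (f0' θ) θ)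
    (hf' : Continuous f0') (hp : ∀ θ, f0 (θ + 2 * π) = f0 θ) (θ : ℝ) :
    uim H (hol' H f1 f0 N) (0, θ) = -(fpol f0' N (ee θ)).re := by
  have hdiff : Differentiable ℂ (hol H f1 f0 0 N) := fun z =>
    (hol_deriv H f1 f0 0 N z).differentiableAt
  have h1 := hasDerivAt_dt (vre_smooth (H := H) hdiff) 0 θ
  unfold dt at h1
  rw [(vre_fderiv (H := H) (hol_deriv H f1 f0 0 N) (0, θ)).2] at h1
  have e : (fun θ => vre H (hol H f1 f0 0 N) (0, θ)) = fun θ => 0 + (fpol f0 N (ee θ)).re :=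
    funext fun θ => hol_re0 f1 f0 0 N θ
  rw [e] at h1
  have h2 : HasDerivAt (fun θ => 0 + (fpol f0 N (ee θ)).re) ((fpol f0' N (ee θ)).re) θ :=
    ((Complex.reCLM.hasFDerivAt (x := fpol f0 N (ee θ))).comp_hasDerivAt θ
      (hasDerivAt_fpol hf hf' hp N θ)).const_add 0
  have h3 := h1.unique h2
  unfold uim
  linarith

end

end Pool.Agent.Helper22.Stek
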