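import Pool.Agent.Helper22.Stek.Conf2
import Pool.Agent.Helper22.Stek.Better

/-! # The upper bound for long cylinders -/

set_option autoImplicit false
open Real MeasureTheory Set ComplexConjugate

namespace Pool.Agent.Helper22.Stek

/-- the length of the boundary circle `r = s` -/
noncomputable def side (G : ℝ × ℝ → ℝ) (s : ℝ) : ℝ :=
  ∫ θ in (0:ℝ)..(2 * π), Real.sqrt (G (s, θ))

lemma titu {p q r : ℝ} (hp : 0 < p) (hq : 0 < q) (hr : 0 < r) (x y z : ℝ) :
    (x + y + z) ^ 2 ≤ (1 / p + 1 / q + 1 / r) * (p * x ^ 2 + q * y ^ 2 + r * z ^ 2) := by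
  have h : (1 / p + 1 / q + 1 / r) * (p * x ^ 2 + q * y ^ 2 + r * z ^ 2) - (x + y + z) ^ 2 =
      (p * x - q * y) ^ 2 / (p * q) + (p * x - r * z) ^ 2 / (p * r) +
        (q * y - r * z) ^ 2 / (q * r) := by
    field_simp
    ring
  have h2 : 0 ≤ (p * x - q * y) ^ 2 / (p * q) + (p * x - r * z) ^ 2 / (p * r) +
        (q * y - r * z) ^ 2 / (q * r) := by positivity
  linarith

section

variable {E F G : ℝ × ℝ → ℝ}

lemma side_cont (h : IsMetric E F G) (s : ℝ) : Continuous fun θ => Real.sqrt (G (s, θ)) := by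
  have hc := h.smoothG.continuous
  fun_prop

lemma side_pos (h : IsMetric E F G) {s : ℝ} (hs : s ∈ Icc (0:ℝ) 1) : 0 < side G s :=
  intervalIntegral.intervalIntegral_pos_of_pos ((side_cont h s).intervalIntegrable _ _)
    (fun θ => sqrt_pos.2 (h.posG (x := (s, θ)) hs)) (by positivity)

lemma len_eq (h : IsMetric E F G) : len G = side G 0 + side G 1 := by
  unfold len dens side
  rw [integral_Icc_eq_integral_Ioc, ← intervalIntegral.integral_of_le (by positivity)]
  exact intervalIntegral.integral_add ((side_cont h 0).intervalIntegrable _ _)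
    ((side_cont h 1).intervalIntegrable _ _)

/-- the boundary integral of the test functions -/
lemma bdry_wv (h : IsMetric E F G) {H δ : ℝ} {a γ : ℂ} (hH : 0 < H) (hδ : 0 < δ)
    (hd : ‖a‖ * exp (H * (2 * δ)) < 1) (α β c : ℝ) :
    bdry G (wv H δ a γ α β c) =
      (∫ θ in (0:ℝ)..(2 * π), Real.sqrt (G (0, θ)) * (α + β + c * cf H δ a γ (0, θ)) ^ 2) +
      ∫ θ in (0:ℝ)..(2 * π), Real.sqrt (G (1, θ)) * (α + c * cf H δ a γ (1, θ)) ^ 2 := by
  have hc := (cf_smooth (γ := γ) hH hδ hd).continuous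
  have h0 := side_cont h 0
  have h1 := side_cont h 1
  unfold bdry
  rw [integral_Icc_eq_integral_Ioc, ← intervalIntegral.integral_of_le (by positivity),
    ← intervalIntegral.integral_add (Continuous.intervalIntegrable (by fun_prop) _ _)
      (Continuous.intervalIntegrable (by fun_prop) _ _)]
  refine intervalIntegral.integral_congr fun θ _ => ?_
  simp only [wv]
  ring

/-- **The upper bound for long cylinders**: the second Steklov eigenvalue is at most `Λ` if `Λ` times
the length of the boundary circle `r = 1` is larger than `2 π` and `H` is large enough -/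
theorem long_bound (h : IsMetric E F G) {H : ℝ} (hH : 0 < H)
    (hF : ∀ x : ℝ × ℝ, x.1 ∈ Icc (0:ℝ) 1 → F x = 0)
    (hE : ∀ x : ℝ × ℝ, x.1 ∈ Icc (0:ℝ) 1 → E x = H ^ 2 * G x) {Λ : ℝ}
    (hΛ : 2 * π < Λ * side G 1)
    (hlong : 1 / (Λ * side G 0) + 1 / (Λ * side G 1) + 2 / (Λ * side G 1 - 2 * π) ≤
      H / (2 * π)) : sigma2 E F G ≤ Λ := by
  have hl0 := side_pos h (s := 0) (by simp)
  have hl1 := side_pos h (s := 1) (by simp)
  have hp := pi_pos
  have hΛ0 : 0 < Λ := by
    by_contra hcon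
    push Not at hcon
    have := mul_nonpos_of_nonpos_of_nonneg hcon hl1.le
    linarith
  have hρ1 := side_cont h 1
  have hρ0 := side_cont h 0
  obtain ⟨a, ha, hbal⟩ := hersch hρ1 (fun θ => sqrt_pos.2 (h.posG (x := (1, θ)) (by simp)))
  obtain ⟨δ, hδ, hd⟩ := exists_delta hH ha
  have hee := ee_cont
  have hmc : Continuous fun θ => mob a (ee θ) := by
    unfold mob
    exact Continuous.div (by fun_prop) (by fun_prop)
      fun θ => one_sub_ne (conj_norm_lt ha) (ee_norm θ).le
  -- boundary values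
  have hpt1 : ∀ θ, pt H δ (1, θ) = ee θ := by
    intro θ
    rw [pt_eq hδ (by show (1:ℝ) ≤ 1 + δ; linarith), exp_ee]
    simp
  have hv1 : ∀ γ θ, cf H δ a γ (1, θ) = (γ * mob a (ee θ)).re := by
    intro γ θ
    unfold cf
    rw [hpt1]
  have hv0 : ∀ γ : ℂ, Complex.normSq γ = 1 → ∀ θ, cf H δ a γ (0, θ) ^ 2 ≤ 1 := by
    intro γ hγ θ
    have h1 : ‖pt H δ (0, θ)‖ ≤ 1 := by
      rw [pt_norm, psi_eq hδ (by show (0:ℝ) ≤ 1 + δ; linarith)]
      exact Real.exp_le_one_iff.2 (by linarith)
    have h2 := mob_norm_le ha h1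
    have h3 : ‖γ‖ = 1 := by
      have h4 : ‖γ‖ ^ 2 = 1 := by rw [← Complex.normSq_eq_norm_sq, hγ]
      nlinarith [norm_nonneg γ]
    have h5 : |cf H δ a γ (0, θ)| ≤ 1 := by
      unfold cf
      refine (Complex.abs_re_le_norm _).trans ?_
      rw [norm_mul, h3, one_mul]
      exact h2
    exact (sq_le_one_iff_abs_le_one _).2 h5
  -- the choice of the component
  obtain ⟨γ, hγ, hhalf⟩ : ∃ γ : ℂ, Complex.normSq γ = 1 ∧
      side G 1 / 2 ≤ ∫ θ in (0:ℝ)..(2 * π), Real.sqrt (G (1, θ)) * (γ * mob a (ee θ)).re ^ 2 := by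
    have hre : Continuous fun θ => (mob a (ee θ)).re := Complex.continuous_re.comp hmc
    have him : Continuous fun θ => (mob a (ee θ)).im := Complex.continuous_im.comp hmc
    have hsum : (∫ θ in (0:ℝ)..(2 * π), Real.sqrt (G (1, θ)) * (mob a (ee θ)).re ^ 2) +
        (∫ θ in (0:ℝ)..(2 * π), Real.sqrt (G (1, θ)) * (mob a (ee θ)).im ^ 2) = side G 1 := by
      rw [← intervalIntegral.integral_add (Continuous.intervalIntegrable (by fun_prop) _ _)
        (Continuous.intervalIntegrable (by fun_prop) _ _)]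
      unfold side
      refine intervalIntegral.integral_congr fun θ _ => ?_
      have h1 := mob_norm_ee ha θ
      rw [Complex.normSq_apply] at h1
      show √(G (1, θ)) * (mob a (ee θ)).re ^ 2 + √(G (1, θ)) * (mob a (ee θ)).im ^ 2 = √(G (1, θ))
      linear_combination (√(G (1, θ))) * h1
    rcases le_total (side G 1 / 2)
      (∫ θ in (0:ℝ)..(2 * π), Real.sqrt (G (1, θ)) * (mob a (ee θ)).re ^ 2) with h1 | h1
    · exact ⟨1, by simp, by simpa using h1⟩
    · refine ⟨-Complex.I, by simp, ?_⟩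
      have h2 : ∀ θ, (-Complex.I * mob a (ee θ)).re = (mob a (ee θ)).im := by
        intro θ
        simp
      simp_rw [h2]
      linarith
  have hcf := (cf_smooth (γ := γ) hH hδ hd).continuous
  set φ : ℝ → ℝ := fun θ => (γ * mob a (ee θ)).re with hφ
  have hφc : Continuous φ := Complex.continuous_re.comp (continuous_const.mul hmc)
  have hφ0 : ∫ θ in (0:ℝ)..(2 * π), Real.sqrt (G (1, θ)) * φ θ = 0 := by
    have h1 : ∫ θ in (0:ℝ)..(2 * π), Real.sqrt (G (1, θ)) * φ θ =
        (γ * ∫ θ in (0:ℝ)..(2 * π), (Real.sqrt (G (1, θ)) : ℂ) * mob a (ee θ)).re := by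
      rw [← intervalIntegral.integral_const_mul]
      have h2 := Complex.reCLM.intervalIntegral_comp_comm (μ := volume) (a := 0) (b := 2 * π)
        (f := fun θ => γ * ((Real.sqrt (G (1, θ)) : ℂ) * mob a (ee θ)))
        (Continuous.intervalIntegrable (by fun_prop) _ _)
      refine Eq.trans ?_ h2
      refine intervalIntegral.integral_congr fun θ _ => ?_
      show √(G (1, θ)) * (γ * mob a (ee θ)).re = (γ * ((√(G (1, θ)) : ℂ) * mob a (ee θ))).re
      rw [← Complex.re_ofReal_mul]
      congr 1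
      ring
    rw [h1, hbal, mul_zero, Complex.zero_re]
  -- the boundary integral on the circle `r = 1`
  have hB1 : ∀ α c : ℝ, side G 1 * α ^ 2 + side G 1 / 2 * c ^ 2 ≤
      ∫ θ in (0:ℝ)..(2 * π), Real.sqrt (G (1, θ)) * (α + c * cf H δ a γ (1, θ)) ^ 2 := by
    intro α c
    have e : ∀ θ, Real.sqrt (G (1, θ)) * (α + c * cf H δ a γ (1, θ)) ^ 2 =
        α ^ 2 * Real.sqrt (G (1, θ)) + 2 * α * c * (Real.sqrt (G (1, θ)) * φ θ) +
          c ^ 2 * (Real.sqrt (G (1, θ)) * φ θ ^ 2) := by
      intro θ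
      rw [hv1, hφ]
      ring
    rw [intervalIntegral.integral_congr (fun θ _ => e θ)]
    have j1 : IntervalIntegrable (fun θ => α ^ 2 * Real.sqrt (G (1, θ))) volume 0 (2 * π) :=
      Continuous.intervalIntegrable (by fun_prop) _ _
    have j2 : IntervalIntegrable (fun θ => 2 * α * c * (Real.sqrt (G (1, θ)) * φ θ))
      volume 0 (2 * π) := Continuous.intervalIntegrable (by fun_prop) _ _
    have j3 : IntervalIntegrable (fun θ => c ^ 2 * (Real.sqrt (G (1, θ)) * φ θ ^ 2))
      volume 0 (2 * π) := Continuous.intervalIntegrable (by fun_prop) _ _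
    have j12 : IntervalIntegrable (fun θ => α ^ 2 * Real.sqrt (G (1, θ)) +
      2 * α * c * (Real.sqrt (G (1, θ)) * φ θ)) volume 0 (2 * π) := j1.add j2
    rw [intervalIntegral.integral_add j12 j3, intervalIntegral.integral_add j1 j2,
      intervalIntegral.integral_const_mul, intervalIntegral.integral_const_mul,
      intervalIntegral.integral_const_mul, hφ0]
    have h3 := mul_le_mul_of_nonneg_left hhalf (sq_nonneg c)
    have h4 : side G 1 = ∫ θ in (0:ℝ)..(2 * π), Real.sqrt (G (1, θ)) := rfl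
    rw [← h4]
    linarith
  -- the estimate for `β`
  set p := Λ * side G 0 with hpdef
  set q := Λ * side G 1 with hqdef
  set r := Λ * side G 1 / 2 - π with hrdef
  have hp0 : 0 < p := by positivity
  have hq0 : 0 < q := by positivity
  have hr0 : 0 < r := by rw [hrdef]; linarith
  set S := 1 / p + 1 / q + 1 / r with hS
  have hS0 : 0 < S := by positivity
  have hSH : 2 * π / H * S ≤ 1 := by
    have h1 : 1 / r = 2 / (Λ * side G 1 - 2 * π) := by
      rw [hrdef]
      have : Λ * side G 1 - 2 * π ≠ 0 := by linarith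
      have h' : Λ * side G 1 / 2 - π ≠ 0 := by linarith
      rw [div_eq_div_iff h' this]
      ring
    rw [hS, h1, div_mul_eq_mul_div, div_le_one hH]
    rw [le_div_iff₀ (by positivity)] at hlong
    linarith
  have hβ : ∀ α β c : ℝ, 2 * π / H * β ^ 2 ≤
      Λ * (∫ θ in (0:ℝ)..(2 * π), Real.sqrt (G (0, θ)) * (α + β + c * cf H δ a γ (0, θ)) ^ 2) +
        q * α ^ 2 + r * c ^ 2 := by
    intro α β c
    set J := ∫ θ in (0:ℝ)..(2 * π), Real.sqrt (G (0, θ)) * (α + β + c * cf H δ a γ (0, θ)) ^ 2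
      with hJ
    have hpt : ∀ θ ∈ Icc (0:ℝ) (2 * π), β ^ 2 * Real.sqrt (G (0, θ)) ≤
        S * p * (Real.sqrt (G (0, θ)) * (α + β + c * cf H δ a γ (0, θ)) ^ 2) +
          S * (q * α ^ 2 + r * c ^ 2) * Real.sqrt (G (0, θ)) := by
      intro θ _
      have h1 := titu hp0 hq0 hr0 (α + β + c * cf H δ a γ (0, θ)) (-α) (-(c * cf H δ a γ (0, θ)))
      have h2 : (α + β + c * cf H δ a γ (0, θ)) + -α + -(c * cf H δ a γ (0, θ)) = β := by ring
      rw [h2, ← hS] at h1
      have h3 := hv0 γ hγ θ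
      have h4 : r * (-(c * cf H δ a γ (0, θ))) ^ 2 ≤ r * c ^ 2 := by
        have : (-(c * cf H δ a γ (0, θ))) ^ 2 = c ^ 2 * cf H δ a γ (0, θ) ^ 2 := by ring
        rw [this]
        exact mul_le_mul_of_nonneg_left (mul_le_of_le_one_right (sq_nonneg c) h3) hr0.le
      have h5 : β ^ 2 ≤ S * (p * (α + β + c * cf H δ a γ (0, θ)) ^ 2 + q * α ^ 2 + r * c ^ 2) := by
        refine h1.trans (mul_le_mul_of_nonneg_left ?_ hS0.le)
        have : q * (-α) ^ 2 = q * α ^ 2 := by ring
        linarith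
      have h6 := mul_le_mul_of_nonneg_right h5 (sqrt_nonneg (G (0, θ)))
      linarith
    have h7 := intervalIntegral.integral_mono_on (μ := volume) (a := 0) (b := 2 * π)
      (by positivity) (Continuous.intervalIntegrable (by fun_prop) _ _)
      (Continuous.intervalIntegrable (by fun_prop) _ _) hpt
    have k1 : IntervalIntegrable (fun θ => S * p * (Real.sqrt (G (0, θ)) *
      (α + β + c * cf H δ a γ (0, θ)) ^ 2)) volume 0 (2 * π) :=
      Continuous.intervalIntegrable (by fun_prop) _ _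
    have k2 : IntervalIntegrable (fun θ => S * (q * α ^ 2 + r * c ^ 2) * Real.sqrt (G (0, θ)))
      volume 0 (2 * π) := Continuous.intervalIntegrable (by fun_prop) _ _
    rw [intervalIntegral.integral_add k1 k2, intervalIntegral.integral_const_mul,
      intervalIntegral.integral_const_mul, intervalIntegral.integral_const_mul, ← hJ] at h7
    have h8 : side G 0 = ∫ θ in (0:ℝ)..(2 * π), Real.sqrt (G (0, θ)) := rfl
    rw [← h8] at h7
    have h9 : β ^ 2 ≤ S * (Λ * J + q * α ^ 2 + r * c ^ 2) := by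
      have h10 : β ^ 2 * side G 0 ≤ S * (Λ * J + q * α ^ 2 + r * c ^ 2) * side G 0 := by
        refine h7.trans (le_of_eq ?_)
        rw [hpdef]
        ring
      exact le_of_mul_le_mul_right h10 hl0
    have hJ0 : 0 ≤ J := intervalIntegral.integral_nonneg (by positivity) fun θ _ => by positivity
    calc 2 * π / H * β ^ 2 ≤ 2 * π / H * (S * (Λ * J + q * α ^ 2 + r * c ^ 2)) :=
          mul_le_mul_of_nonneg_left h9 (by positivity)
      _ = 2 * π / H * S * (Λ * J + q * α ^ 2 + r * c ^ 2) := by ring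
      _ ≤ 1 * (Λ * J + q * α ^ 2 + r * c ^ 2) :=
          mul_le_mul_of_nonneg_right hSH (by positivity)
      _ = _ := one_mul _
  -- the triple
  set u : Fin 3 → ℝ × ℝ → ℝ := ![fun _ => 1, fun x => 1 - x.1, cf H δ a γ] with hu
  have hcomb : ∀ c : Fin 3 → ℝ, ∑ i, c i • u i = wv H δ a γ (c 0) (c 1) (c 2) := by
    intro c
    funext x
    rw [Fin.sum_univ_three]
    simp only [hu, Pi.add_apply, Pi.smul_apply, smul_eq_mul, Matrix.cons_val_zero,
      Matrix.cons_val_one, Matrix.cons_val_two, Matrix.head_cons, Matrix.tail_cons, wv]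
    simp
  have hcomb' : ∀ (c : Fin 3 → ℝ) (x : ℝ × ℝ), ∑ i, c i * u i x =
      wv H δ a γ (c 0) (c 1) (c 2) x := by
    intro c x
    rw [← hcomb c]
    simp [Finset.sum_apply]
  have hadm : Adm u := by
    constructor
    · intro i
      fin_cases i
      · exact ⟨by simp only [hu]; exact contDiff_const, fun r θ => by simp [hu]⟩
      · refine ⟨?_, fun r θ => by simp [hu]⟩
        show ContDiff ℝ (⊤ : ℕ∞) (fun x : ℝ × ℝ => 1 - x.1)
        exact contDiff_const.sub contDiff_fst
      · refine ⟨?_, fun r θ => ?_⟩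
        · show ContDiff ℝ (⊤ : ℕ∞) (cf H δ a γ)
          exact cf_smooth hH hδ hd
        · show cf H δ a γ (r, θ + 2 * π) = cf H δ a γ (r, θ)
          exact cf_per r θ
    · intro c hc
      have h1 : ∀ θ, c 0 + c 2 * cf H δ a γ (1, θ) = 0 := by
        intro θ
        have := (hc θ).2
        rw [hcomb'] at this
        simpa [wv] using this
      have h2 := hB1 (c 0) (c 2)
      simp_rw [h1] at h2
      simp only [ne_eq, OfNat.ofNat_ne_zero, not_false_eq_true, zero_pow, mul_zero,
        intervalIntegral.integral_zero] at h2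
      have h3 : c 0 = 0 := by
        by_contra hne
        have h4 : 0 < side G 1 * c 0 ^ 2 := by positivity
        have h5 : 0 ≤ side G 1 / 2 * c 2 ^ 2 := by positivity
        linarith
      have h6 : c 2 = 0 := by
        by_contra hne
        have h4 : 0 < side G 1 / 2 * c 2 ^ 2 := by positivity
        have h5 : 0 ≤ side G 1 * c 0 ^ 2 := by positivity
        linarith
      have h7 : c 1 = 0 := by
        have := (hc 0).1
        rw [hcomb'] at this
        simpa [wv, h3, h6] using this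
      funext i
      fin_cases i
      · exact h3
      · exact h7
      · exact h6
  refine (sigma2_le h hadm).trans ?_
  have : Nonempty {c : Fin 3 → ℝ // c ≠ 0} := ⟨⟨fun _ => 1, fun h => by
      have := congrFun h 0
      norm_num at this⟩⟩
  refine ciSup_le fun c => ?_
  rw [hcomb]
  have hen := energy_wv (γ := γ) h hH hF hE hδ hd ha hγ (c.1 0) (c.1 1) (c.1 2)
  have hbd := bdry_wv (γ := γ) h hH hδ hd (c.1 0) (c.1 1) (c.1 2)
  have h1 := hβ (c.1 0) (c.1 1) (c.1 2)
  have h2 := hB1 (c.1 0) (c.1 2)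
  have h3 : energy E F G (wv H δ a γ (c.1 0) (c.1 1) (c.1 2)) ≤
      Λ * bdry G (wv H δ a γ (c.1 0) (c.1 1) (c.1 2)) := by
    rw [hbd]
    have h4 := mul_le_mul_of_nonneg_left h2 hΛ0.le
    rw [hqdef, hrdef] at h1
    nlinarith
  rcases (bdry_nonneg (G := G) (wv H δ a γ (c.1 0) (c.1 1) (c.1 2))).eq_or_lt with h4 | h4
  · rw [← h4, div_zero]
    exact hΛ0.le
  · rw [div_le_iff₀ h4]
    exact h3

end

end Pool.Agent.Helper22.Stek
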