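import Pool.Agent.Helper22.Stek.Inert
import Pool.Agent.Helper22.Stek.Long

/-! # The inequality of Hersch, Payne and Schiffer for holomorphic data -/

set_option autoImplicit false
open Real MeasureTheory Set ComplexConjugate

namespace Pool.Agent.Helper22.Stek

section

variable {E F G : ℝ × ℝ → ℝ}

/-- the integral of the square of the derivative of the boundary data with respect to the length -/
noncomputable def dsq (G t : ℝ × ℝ → ℝ) : ℝ :=
  (∫ θ in (0:ℝ)..(2 * π), t (0, θ) ^ 2 / √(G (0, θ))) +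
    ∫ θ in (0:ℝ)..(2 * π), t (1, θ) ^ 2 / √(G (1, θ))

lemma bdry_eq (h : IsMetric E F G) {w : ℝ × ℝ → ℝ} (hw : Continuous w) :
    bdry G w = (∫ θ in (0:ℝ)..(2 * π), w (0, θ) ^ 2 * √(G (0, θ))) +
      ∫ θ in (0:ℝ)..(2 * π), w (1, θ) ^ 2 * √(G (1, θ)) := by
  have h0 := side_cont h 0
  have h1 := side_cont h 1
  unfold bdry
  rw [integral_Icc_eq_integral_Ioc, ← intervalIntegral.integral_of_le (by positivity),
    ← intervalIntegral.integral_add (Continuous.intervalIntegrable (by fun_prop) _ _)
      (Continuous.intervalIntegrable (by fun_prop) _ _)]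

lemma amgm {K ρ : ℝ} (hK : 0 < K) (hρ : 0 < ρ) (u t : ℝ) :
    u * t ≤ K / 2 * (u ^ 2 * ρ) + 1 / (2 * K) * (t ^ 2 / ρ) := by
  have h : K / 2 * (u ^ 2 * ρ) + 1 / (2 * K) * (t ^ 2 / ρ) - u * t =
      (K * ρ * u - t) ^ 2 / (2 * K * ρ) := by
    field_simp
    ring
  have h2 : 0 ≤ (K * ρ * u - t) ^ 2 / (2 * K * ρ) := by positivity
  linarith

lemma green_le (h : IsMetric E F G) {H K : ℝ} (hH : 0 < H) (hK : 0 < K) {f f' : ℂ → ℂ}
    (hd : ∀ z, HasDerivAt f (f' z) z) (hp : ∀ z, f (z + 2 * π * Complex.I) = f z) :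
    energy (fun _ => H ^ 2) (fun _ => 0) (fun _ => 1) (vre H f) ≤
      K / 2 * bdry G (uim H f) + 1 / (2 * K) * dsq G (uim H f') := by
  have hdiff : Differentiable ℂ f := fun z => (hd z).differentiableAt
  have hder : deriv f = f' := funext fun z => (hd z).deriv
  have hd'diff : Differentiable ℂ f' := by
    rw [← hder]
    exact (hdiff.contDiff (n := 2)).differentiable_deriv_two
  have cu : Continuous (uim H f) := (uim_smooth hdiff).continuous
  have ct : Continuous (uim H f') := (uim_smooth hd'diff).continuous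
  have h0 := side_cont h 0
  have h1 := side_cont h 1
  have p0 : ∀ θ, 0 < √(G (0, θ)) := fun θ => sqrt_pos.2 (h.posG (x := (0, θ)) (by simp))
  have p1 : ∀ θ, 0 < √(G (1, θ)) := fun θ => sqrt_pos.2 (h.posG (x := (1, θ)) (by simp))
  have q0 : Continuous fun θ => uim H f' (0, θ) ^ 2 / √(G (0, θ)) :=
    Continuous.div (by fun_prop) h0 fun θ => (p0 θ).ne'
  have q1 : Continuous fun θ => uim H f' (1, θ) ^ 2 / √(G (1, θ)) :=
    Continuous.div (by fun_prop) h1 fun θ => (p1 θ).ne'
  rw [green hH hd hp, bdry_eq h cu, dsq, mul_add, mul_add]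
  have e1 : ∫ θ in (0:ℝ)..(2 * π), uim H f (1, θ) * uim H f' (1, θ) ≤
      K / 2 * (∫ θ in (0:ℝ)..(2 * π), uim H f (1, θ) ^ 2 * √(G (1, θ))) +
        1 / (2 * K) * ∫ θ in (0:ℝ)..(2 * π), uim H f' (1, θ) ^ 2 / √(G (1, θ)) := by
    rw [← intervalIntegral.integral_const_mul, ← intervalIntegral.integral_const_mul,
      ← intervalIntegral.integral_add (Continuous.intervalIntegrable (by fun_prop) _ _)
        ((q1.const_mul _).intervalIntegrable _ _)]
    exact intervalIntegral.integral_mono_on (by positivity)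
      (Continuous.intervalIntegrable (by fun_prop) _ _)
      (Continuous.intervalIntegrable (by fun_prop) _ _) fun θ _ => amgm hK (p1 θ) _ _
  have e0 : -(∫ θ in (0:ℝ)..(2 * π), uim H f (0, θ) * uim H f' (0, θ)) ≤
      K / 2 * (∫ θ in (0:ℝ)..(2 * π), uim H f (0, θ) ^ 2 * √(G (0, θ))) +
        1 / (2 * K) * ∫ θ in (0:ℝ)..(2 * π), uim H f' (0, θ) ^ 2 / √(G (0, θ)) := by
    rw [← intervalIntegral.integral_const_mul, ← intervalIntegral.integral_const_mul,
      ← intervalIntegral.integral_neg,
      ← intervalIntegral.integral_add (Continuous.intervalIntegrable (by fun_prop) _ _)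
        ((q0.const_mul _).intervalIntegrable _ _)]
    refine intervalIntegral.integral_mono_on (by positivity)
      (Continuous.intervalIntegrable (by fun_prop) _ _)
      (Continuous.intervalIntegrable (by fun_prop) _ _) fun θ _ => ?_
    have := amgm hK (p0 θ) (-uim H f (0, θ)) (uim H f' (0, θ))
    rw [neg_sq] at this
    linarith
  linarith

/-- the boundary integral of a nonzero constant is positive -/
lemma bdry_const (h : IsMetric E F G) {k : ℝ} (hk : k ≠ 0) : 0 < bdry G (fun _ => k) := by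
  have h0 := side_pos h (s := 0) (by simp)
  have h1 := side_pos h (s := 1) (by simp)
  rw [bdry_eq h continuous_const, intervalIntegral.integral_const_mul,
    intervalIntegral.integral_const_mul]
  unfold side at h0 h1
  positivity

/-- **The inequality of Hersch, Payne and Schiffer** for holomorphic data -/
theorem hps_core (h : IsMetric E F G) {H K : ℝ} (hH : 0 < H) (hK : 0 < K)
    (hF : ∀ x : ℝ × ℝ, x.1 ∈ Icc (0:ℝ) 1 → F x = 0)
    (hE : ∀ x : ℝ × ℝ, x.1 ∈ Icc (0:ℝ) 1 → E x = H ^ 2 * G x)
    (f f' : Fin 4 → ℂ → ℂ) (hd : ∀ i z, HasDerivAt (f i) (f' i z) z)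
    (hp : ∀ i z, f i (z + 2 * π * Complex.I) = f i z)
    (hS : ∀ c : Fin 4 → ℝ, c ≠ 0 → dsq G (∑ i, c i • uim H (f' i)) <
      K ^ 2 * bdry G (∑ i, c i • vre H (f i))) : sigma2 E F G ≤ K := by
  by_contra hcon
  push Not at hcon
  have hdiff : ∀ i, Differentiable ℂ (f i) := fun i z => (hd i z).differentiableAt
  -- the space of test functions
  set φ : Fin 4 ⊕ (Fin 4 ⊕ Unit) → ℝ × ℝ → ℝ :=
    Sum.elim (fun i => vre H (f i)) (Sum.elim (fun i => uim H (f i)) fun _ _ => 1) with hφ
  obtain ⟨l, hl⟩ := two_constraints (φ := φ) (K := K) h hH hF hE (by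
    rintro (i | i | i)
    · exact vre_smooth (hdiff i)
    · exact uim_smooth (hdiff i)
    · exact contDiff_const) (by
    rintro (i | i | i) r θ
    · exact vre_per (hp i) r θ
    · exact uim_per (hp i) r θ
    · rfl) hK.le hcon
  set xv : (Fin 4 → ℝ) → (Fin 4 ⊕ (Fin 4 ⊕ Unit) → ℝ) := fun c =>
    Sum.elim c (Sum.elim (fun _ => 0) fun _ => 0) with hxv
  set xu : (Fin 4 → ℝ) → ℝ → (Fin 4 ⊕ (Fin 4 ⊕ Unit) → ℝ) := fun c k =>
    Sum.elim (fun _ => 0) (Sum.elim c fun _ => k) with hxu
  -- the linear system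
  let Φ : (Fin 4 → ℝ) × ℝ →ₗ[ℝ] (Fin 2 → ℝ) × (Fin 2 → ℝ) :=
    { toFun := fun y => (fun k => l k (xv y.1), fun k => l k (xu y.1 y.2))
      map_add' := by
        intro y y'
        have e1 : xv (y + y').1 = xv y.1 + xv y'.1 := by
          funext i
          rcases i with i | i | i <;> simp [hxv]
        have e2 : xu (y + y').1 (y + y').2 = xu y.1 y.2 + xu y'.1 y'.2 := by
          funext i
          rcases i with i | i | i <;> simp [hxu]
        simp only [e1, e2, map_add]
        rfl
      map_smul' := by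
        intro t y
        have e1 : xv (t • y).1 = t • xv y.1 := by
          funext i
          rcases i with i | i | i <;> simp [hxv]
        have e2 : xu (t • y).1 (t • y).2 = t • xu y.1 y.2 := by
          funext i
          rcases i with i | i | i <;> simp [hxu]
        simp only [e1, e2, map_smul]
        rfl }
  have hk : LinearMap.ker Φ ≠ ⊥ := LinearMap.ker_ne_bot_of_finrank_lt (by simp)
  obtain ⟨⟨c, k⟩, hck, hne⟩ := Submodule.exists_mem_ne_zero_of_ne_bot hk
  rw [LinearMap.mem_ker] at hck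
  have hc1 : ∀ j, l j (xv c) = 0 := fun j => congrFun (congrArg Prod.fst hck) j
  have hc2 : ∀ j, l j (xu c k) = 0 := fun j => congrFun (congrArg Prod.snd hck) j
  have h1 := hl _ hc1
  have h2 := hl _ hc2
  -- the holomorphic function
  set g : ℂ → ℂ := fun z => (∑ i, (c i : ℂ) * f i z) + k * Complex.I with hg
  set g' : ℂ → ℂ := fun z => ∑ i, (c i : ℂ) * f' i z with hg'
  have hgd : ∀ z, HasDerivAt g (g' z) z := by
    intro z
    have : HasDerivAt (fun z => ∑ i, (c i : ℂ) * f i z) (∑ i, (c i : ℂ) * f' i z) z :=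
      HasDerivAt.fun_sum fun i _ => (hd i z).const_mul _
    exact this.add_const _
  have hgp : ∀ z, g (z + 2 * π * Complex.I) = g z := by
    intro z
    simp only [hg, hp]
  have e1 : ∑ i, xv c i • φ i = vre H g := by
    funext x
    rw [combI_apply, Fintype.sum_sum_type, Fintype.sum_sum_type]
    simp [hxv, hφ, vre, hg]
  have e1' : ∑ i, c i • vre H (f i) = vre H g := by
    funext x
    rw [combI_apply]
    simp [vre, hg]
  have e2 : ∑ i, xu c k i • φ i = uim H g := by
    funext x
    rw [combI_apply, Fintype.sum_sum_type, Fintype.sum_sum_type]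
    simp [hxu, hφ, uim, hg]
  have e3 : ∑ i, c i • uim H (f' i) = uim H g' := by
    funext x
    rw [combI_apply]
    simp [uim, hg']
  rw [e1, energy_iso h hH hF hE] at h1
  rw [e2, energy_iso h hH hF hE, energy_uim hH hgd, ← energy_vre hH hgd] at h2
  by_cases hc : c = 0
  · -- the constants
    have hk0 : k ≠ 0 := by
      rintro rfl
      exact hne (by rw [hc]; rfl)
    have e4 : uim H g = fun _ => k := by
      funext x
      simp [uim, hg, hc]
    have e5 : energy (fun _ => H ^ 2) (fun _ => 0) (fun _ => 1) (vre H g) = 0 := by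
      rw [energy_vre hH hgd]
      simp [hg', hc]
    rw [e4, e5] at h2
    have := bdry_const h hk0
    have : 0 < K * bdry G (fun _ => k) := mul_pos hK this
    linarith
  · have h3 := hS c hc
    rw [e3, e1'] at h3
    have h4 := green_le h hH hK hgd hgp
    set D := energy (fun _ => H ^ 2) (fun _ => 0) (fun _ => 1) (vre H g)
    have h5 : 1 / (2 * K) * dsq G (uim H g') < 1 / (2 * K) * (K ^ 2 * bdry G (vre H g)) :=
      mul_lt_mul_of_pos_left h3 (by positivity)
    have h6 : 1 / (2 * K) * (K ^ 2 * bdry G (vre H g)) = K * bdry G (vre H g) / 2 := by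
      field_simp
    rw [h6] at h5
    linarith

end

end Pool.Agent.Helper22.Stek
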