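import Pool.Agent.Helper22.Stek.Hol
import Pool.Agent.Helper22.Stek.Glue

/-! # The inequality of Hersch, Payne and Schiffer on the annulus -/

set_option autoImplicit false
open Real MeasureTheory Set ComplexConjugate

namespace Pool.Agent.Helper22.Stek

lemma sum_mul_sq_le' (c x : Fin 4 → ℝ) : (∑ i, c i * x i) ^ 2 ≤ (∑ i, c i ^ 2) * ∑ i, x i ^ 2 :=
  Finset.sum_mul_sq_le_sq_mul_sq _ _ _

/-- comparison of the square integrals of a function and of an approximation -/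
lemma approx_le {ρ X Y : ℝ → ℝ} (hρ : Continuous ρ) (hX : Continuous X) (hY : Continuous Y)
    {R s e : ℝ} (hs : 0 < s) (hρ0 : ∀ θ ∈ Icc (0:ℝ) (2 * π), 0 ≤ ρ θ)
    (hR : ∀ θ ∈ Icc (0:ℝ) (2 * π), ρ θ ≤ R)
    (he : ∫ θ in (0:ℝ)..(2 * π), (X θ - Y θ) ^ 2 ≤ e) (hR0 : 0 ≤ R) :
    ∫ θ in (0:ℝ)..(2 * π), X θ ^ 2 * ρ θ ≤ (1 + s) * (∫ θ in (0:ℝ)..(2 * π), Y θ ^ 2 * ρ θ) +
      (1 + 1 / s) * R * e := by
  have h1 : ∫ θ in (0:ℝ)..(2 * π), X θ ^ 2 * ρ θ ≤
      ∫ θ in (0:ℝ)..(2 * π), ((1 + s) * (Y θ ^ 2 * ρ θ) + (1 + 1 / s) * R * (X θ - Y θ) ^ 2) := by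
    refine intervalIntegral.integral_mono_on (by positivity)
      (Continuous.intervalIntegrable (by fun_prop) _ _)
      (Continuous.intervalIntegrable (by fun_prop) _ _) fun θ hθ => ?_
    have h2 : X θ ^ 2 ≤ (1 + 1 / s) * (X θ - Y θ) ^ 2 + (1 + s) * Y θ ^ 2 := by
      have h := sq_add_le' hs (X θ - Y θ) (Y θ)
      rwa [sub_add_cancel] at h
    have h3 := mul_le_mul_of_nonneg_right h2 (hρ0 θ hθ)
    have h4 : (1 + 1 / s) * (X θ - Y θ) ^ 2 * ρ θ ≤ (1 + 1 / s) * (X θ - Y θ) ^ 2 * R :=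
      mul_le_mul_of_nonneg_left (hR θ hθ) (by positivity)
    nlinarith
  rw [intervalIntegral.integral_add (Continuous.intervalIntegrable (by fun_prop) _ _)
    (Continuous.intervalIntegrable (by fun_prop) _ _), intervalIntegral.integral_const_mul,
    intervalIntegral.integral_const_mul] at h1
  have h5 := mul_le_mul_of_nonneg_left he (show 0 ≤ (1 + 1 / s) * R by positivity)
  linarith

/-- the error of the Fourier sums for a linear combination -/
lemma err_comb {b p : Fin 4 → ℝ → ℝ} (hb : ∀ i, Continuous (b i)) (hp : ∀ i, Continuous (p i))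
    {e : Fin 4 → ℝ} (he : ∀ i, ∫ θ in (0:ℝ)..(2 * π), (b i θ - p i θ) ^ 2 = e i) (c : Fin 4 → ℝ) :
    ∫ θ in (0:ℝ)..(2 * π), ((∑ i, c i * b i θ) - ∑ i, c i * p i θ) ^ 2 ≤
      (∑ i, c i ^ 2) * ∑ i, e i := by
  have h1 : ∫ θ in (0:ℝ)..(2 * π), ((∑ i, c i * b i θ) - ∑ i, c i * p i θ) ^ 2 ≤
      ∫ θ in (0:ℝ)..(2 * π), (∑ i, c i ^ 2) * ∑ i, (b i θ - p i θ) ^ 2 := by
    refine intervalIntegral.integral_mono_on (by positivity)
      (Continuous.intervalIntegrable (by fun_prop) _ _)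
      (Continuous.intervalIntegrable (by fun_prop) _ _) fun θ _ => ?_
    rw [← Finset.sum_sub_distrib]
    have := sum_mul_sq_le' c fun i => b i θ - p i θ
    refine le_trans (le_of_eq ?_) this
    congr 1
    exact Finset.sum_congr rfl fun i _ => by ring
  refine h1.trans (le_of_eq ?_)
  rw [intervalIntegral.integral_const_mul, intervalIntegral.integral_finsetSum fun i _ =>
    Continuous.intervalIntegrable (by have := hb i; have := hp i; fun_prop) _ _]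
  congr 1
  exact Finset.sum_congr rfl fun i _ => he i

/-- **The inequality of Hersch, Payne and Schiffer** on the annulus, for boundary data with equal
means over both circles -/
theorem hps {E F G : ℝ × ℝ → ℝ} (h : IsMetric E F G) {H K₀ κ : ℝ} (hH : 0 < H) (hK₀ : 0 ≤ K₀)
    (hκ : 0 < κ) (hF : ∀ x : ℝ × ℝ, x.1 ∈ Icc (0:ℝ) 1 → F x = 0)
    (hE : ∀ x : ℝ × ℝ, x.1 ∈ Icc (0:ℝ) 1 → E x = H ^ 2 * G x)
    (b1 b1' b0 b0' : Fin 4 → ℝ → ℝ) (hd1 : ∀ i θ, HasDerivAt (b1 i) (b1' i θ) θ)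
    (hd0 : ∀ i θ, HasDerivAt (b0 i) (b0' i θ) θ) (hc1 : ∀ i, Continuous (b1' i))
    (hc0 : ∀ i, Continuous (b0' i)) (hp1 : ∀ i θ, b1 i (θ + 2 * π) = b1 i θ)
    (hp0 : ∀ i θ, b0 i (θ + 2 * π) = b0 i θ)
    (hm : ∀ i, ∫ θ in (0:ℝ)..(2 * π), b1 i θ = ∫ θ in (0:ℝ)..(2 * π), b0 i θ)
    (hb : ∀ c : Fin 4 → ℝ, κ * ∑ i, c i ^ 2 ≤
      (∫ θ in (0:ℝ)..(2 * π), (∑ i, c i * b0 i θ) ^ 2 * √(G (0, θ))) +
        ∫ θ in (0:ℝ)..(2 * π), (∑ i, c i * b1 i θ) ^ 2 * √(G (1, θ)))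
    (hs : ∀ c : Fin 4 → ℝ,
      (∫ θ in (0:ℝ)..(2 * π), (∑ i, c i * b0' i θ) ^ 2 * (1 / √(G (0, θ)))) +
        (∫ θ in (0:ℝ)..(2 * π), (∑ i, c i * b1' i θ) ^ 2 * (1 / √(G (1, θ)))) ≤
      K₀ ^ 2 * ((∫ θ in (0:ℝ)..(2 * π), (∑ i, c i * b0 i θ) ^ 2 * √(G (0, θ))) +
        ∫ θ in (0:ℝ)..(2 * π), (∑ i, c i * b1 i θ) ^ 2 * √(G (1, θ)))) :
    sigma2 E F G ≤ K₀ := by
  refine le_of_forall_gt_imp_ge_of_dense fun K hK => ?_
  have hKpos : 0 < K := lt_of_le_of_lt hK₀ hK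
  have b1c : ∀ i, Continuous (b1 i) := fun i =>
    continuous_iff_continuousAt.2 fun x => (hd1 i x).continuousAt
  have b0c : ∀ i, Continuous (b0 i) := fun i =>
    continuous_iff_continuousAt.2 fun x => (hd0 i x).continuousAt
  -- the choice of `s`
  obtain ⟨s, hs0, hsK⟩ : ∃ s : ℝ, 0 < s ∧ ((1 + s) * K₀ ^ 2 + s) * (1 + s) ^ 2 < K ^ 2 := by
    have hcont : ContinuousAt (fun s : ℝ => ((1 + s) * K₀ ^ 2 + s) * (1 + s) ^ 2) 0 := by fun_prop
    have h0 : ((1 + (0:ℝ)) * K₀ ^ 2 + 0) * (1 + 0) ^ 2 < K ^ 2 := by nlinarith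
    have h1 := hcont.eventually_lt continuousAt_const h0
    obtain ⟨ε, hε, h2⟩ := Metric.eventually_nhds_iff.1 h1
    refine ⟨ε / 2, by positivity, h2 ?_⟩
    rw [Real.dist_eq, sub_zero, abs_of_pos (by positivity)]
    linarith
  -- the bounds for the densities
  have r0c := side_cont h 0
  have r1c := side_cont h 1
  have p0 : ∀ θ, 0 < √(G (0, θ)) := fun θ => sqrt_pos.2 (h.posG (x := (0, θ)) (by simp))
  have p1 : ∀ θ, 0 < √(G (1, θ)) := fun θ => sqrt_pos.2 (h.posG (x := (1, θ)) (by simp))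
  have i0c : Continuous fun θ => 1 / √(G (0, θ)) := continuous_const.div r0c fun θ => (p0 θ).ne'
  have i1c : Continuous fun θ => 1 / √(G (1, θ)) := continuous_const.div r1c fun θ => (p1 θ).ne'
  obtain ⟨R, hR0, hR⟩ : ∃ R : ℝ, 0 ≤ R ∧ ∀ θ ∈ Icc (0:ℝ) (2 * π), √(G (0, θ)) ≤ R ∧
      √(G (1, θ)) ≤ R ∧ 1 / √(G (0, θ)) ≤ R ∧ 1 / √(G (1, θ)) ≤ R := by
    have hsum : Continuous fun θ => √(G (0, θ)) + √(G (1, θ)) + 1 / √(G (0, θ)) +
        1 / √(G (1, θ)) := by fun_prop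
    obtain ⟨C, hC⟩ := isCompact_Icc.exists_bound_of_continuousOn (s := Icc (0:ℝ) (2 * π))
      hsum.continuousOn
    refine ⟨C, ?_, fun θ hθ => ?_⟩
    · exact (norm_nonneg _).trans (hC 0 ⟨le_refl _, by positivity⟩)
    · have h1 := (le_abs_self _).trans (hC θ hθ)
      have h2 := p0 θ
      have h3 := p1 θ
      have h4 : 0 < 1 / √(G (0, θ)) := by positivity
      have h5 : 0 < 1 / √(G (1, θ)) := by positivity
      refine ⟨by linarith, by linarith, by linarith, by linarith⟩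
  -- the choice of `N`
  have hlim : Filter.Tendsto (fun N => (1 + 1 / s) * R * ((∑ i, err (b0 i) N) +
      (∑ i, err (b1 i) N) + (∑ i, err (b0' i) N) + ∑ i, err (b1' i) N)) Filter.atTop (nhds 0) := by
    have t0 := tendsto_finsetSum Finset.univ fun (i : Fin 4) _ => err_tendsto (b0c i)
    have t1 := tendsto_finsetSum Finset.univ fun (i : Fin 4) _ => err_tendsto (b1c i)
    have t2 := tendsto_finsetSum Finset.univ fun (i : Fin 4) _ => err_tendsto (hc0 i)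
    have t3 := tendsto_finsetSum Finset.univ fun (i : Fin 4) _ => err_tendsto (hc1 i)
    have := (((t0.add t1).add t2).add t3).const_mul ((1 + 1 / s) * R)
    simpa using this
  obtain ⟨N, hN⟩ := (hlim.eventually (gt_mem_nhds (show 0 < κ * (s / (1 + s)) by
    positivity))).exists
  have herr : ∀ f : ℝ → ℝ, Continuous f → 0 ≤ err f N := fun f hf => by
    rw [← int_err hf]
    exact intervalIntegral.integral_nonneg (by positivity) fun θ _ => sq_nonneg _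
  set e0 := ∑ i, err (b0 i) N with he0
  set e1 := ∑ i, err (b1 i) N with he1
  set e2 := ∑ i, err (b0' i) N with he2
  set e3 := ∑ i, err (b1' i) N with he3
  have he0' : 0 ≤ e0 := Finset.sum_nonneg fun i _ => herr _ (b0c i)
  have he1' : 0 ≤ e1 := Finset.sum_nonneg fun i _ => herr _ (b1c i)
  have he2' : 0 ≤ e2 := Finset.sum_nonneg fun i _ => herr _ (hc0 i)
  have he3' : 0 ≤ e3 := Finset.sum_nonneg fun i _ => herr _ (hc1 i)
  -- the holomorphic functions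
  set m : Fin 4 → ℝ := fun i => (∫ θ in (0:ℝ)..(2 * π), b1 i θ) / (2 * π) with hmdef
  refine hps_core h hH hKpos hF hE (fun i => hol H (b1 i) (b0 i) (m i) N)
    (fun i => hol' H (b1 i) (b0 i) N) (fun i z => hol_deriv _ _ _ _ _ z)
    (fun i z => hol_per _ _ _ _ _ z) fun c hc => ?_
  have hcc : 0 < ∑ i, c i ^ 2 := by
    obtain ⟨k, hk⟩ : ∃ k, c k ≠ 0 := by
      by_contra hcon
      push Not at hcon
      exact hc (funext hcon)
    exact Finset.sum_pos' (fun i _ => sq_nonneg _) ⟨k, Finset.mem_univ k, by positivity⟩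
  have fpc : ∀ f : ℝ → ℝ, Continuous fun θ => (fpol f N (ee θ)).re := fun f =>
    Complex.continuous_re.comp (fpol_ee_cont f N)
  set q1 : Fin 4 → ℝ → ℝ := fun i θ => m i + (fpol (b1 i) N (ee θ)).re with hq1
  set q0 : Fin 4 → ℝ → ℝ := fun i θ => m i + (fpol (b0 i) N (ee θ)).re with hq0
  set t1 : Fin 4 → ℝ → ℝ := fun i θ => (fpol (b1' i) N (ee θ)).re with ht1
  set t0 : Fin 4 → ℝ → ℝ := fun i θ => (fpol (b0' i) N (ee θ)).re with ht0
  have q1c : ∀ i, Continuous (q1 i) := fun i => continuous_const.add (fpc _)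
  have q0c : ∀ i, Continuous (q0 i) := fun i => continuous_const.add (fpc _)
  have t1c : ∀ i, Continuous (t1 i) := fun i => fpc _
  have t0c : ∀ i, Continuous (t0 i) := fun i => fpc _
  -- the boundary integral
  have hB : bdry G (∑ i, c i • vre H (hol H (b1 i) (b0 i) (m i) N)) =
      (∫ θ in (0:ℝ)..(2 * π), (∑ i, c i * q0 i θ) ^ 2 * √(G (0, θ))) +
        ∫ θ in (0:ℝ)..(2 * π), (∑ i, c i * q1 i θ) ^ 2 * √(G (1, θ)) := by
    have hcont : Continuous (∑ i, c i • vre H (hol H (b1 i) (b0 i) (m i) N)) :=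
      (combI_smooth (fun i => vre_smooth fun z =>
        (hol_deriv H (b1 i) (b0 i) (m i) N z).differentiableAt) c).continuous
    rw [bdry_eq h hcont]
    simp only [combI_apply, hol_re0, hol_re1 _ _ _ _ hH, hq0, hq1]
  have hD : dsq G (∑ i, c i • uim H (hol' H (b1 i) (b0 i) N)) =
      (∫ θ in (0:ℝ)..(2 * π), (∑ i, c i * t0 i θ) ^ 2 * (1 / √(G (0, θ)))) +
        ∫ θ in (0:ℝ)..(2 * π), (∑ i, c i * t1 i θ) ^ 2 * (1 / √(G (1, θ))) := by
    unfold dsq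
    have a0 : ∀ i θ, uim H (hol' H (b1 i) (b0 i) N) (0, θ) = -t0 i θ := fun i θ =>
      hol_im0 N (hd0 i) (hc0 i) (hp0 i) θ
    have a1 : ∀ i θ, uim H (hol' H (b1 i) (b0 i) N) (1, θ) = -t1 i θ := fun i θ =>
      hol_im1 N hH (hd1 i) (hc1 i) (hp1 i) θ
    simp only [combI_apply, a0, a1, mul_neg, Finset.sum_neg_distrib, neg_sq]
    congr 1
    · exact intervalIntegral.integral_congr fun θ _ => by ring
    · exact intervalIntegral.integral_congr fun θ _ => by ring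
  set B := bdry G (∑ i, c i • vre H (hol H (b1 i) (b0 i) (m i) N)) with hBdef
  set C2 := ∑ i, c i ^ 2 with hC2
  set bb := (∫ θ in (0:ℝ)..(2 * π), (∑ i, c i * b0 i θ) ^ 2 * √(G (0, θ))) +
        ∫ θ in (0:ℝ)..(2 * π), (∑ i, c i * b1 i θ) ^ 2 * √(G (1, θ)) with hbb
  have hbc := hb c
  have hsc := hs c
  rw [← hbb] at hbc hsc
  have hbb0 : 0 < bb := lt_of_lt_of_le (by positivity) hbc
  -- the errors
  have E1 : ∫ θ in (0:ℝ)..(2 * π), ((∑ i, c i * b1 i θ) - ∑ i, c i * q1 i θ) ^ 2 ≤ C2 * e1 :=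
    err_comb b1c q1c (fun i => by
      rw [← int_err (b1c i) N]
      refine intervalIntegral.integral_congr fun θ _ => ?_
      simp only [hq1, hmdef]
      ring) c
  have E0 : ∫ θ in (0:ℝ)..(2 * π), ((∑ i, c i * b0 i θ) - ∑ i, c i * q0 i θ) ^ 2 ≤ C2 * e0 :=
    err_comb b0c q0c (fun i => by
      rw [← int_err (b0c i) N]
      refine intervalIntegral.integral_congr fun θ _ => ?_
      simp only [hq0, hmdef, hm]
      ring) c
  have E3 : ∫ θ in (0:ℝ)..(2 * π), ((∑ i, c i * t1 i θ) - ∑ i, c i * b1' i θ) ^ 2 ≤ C2 * e3 :=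
    err_comb t1c hc1 (fun i => by
      rw [← int_err (hc1 i) N, int_deriv_zero (hd1 i) (hc1 i) (hp1 i)]
      refine intervalIntegral.integral_congr fun θ _ => ?_
      simp only [ht1]
      ring) c
  have E2 : ∫ θ in (0:ℝ)..(2 * π), ((∑ i, c i * t0 i θ) - ∑ i, c i * b0' i θ) ^ 2 ≤ C2 * e2 :=
    err_comb t0c hc0 (fun i => by
      rw [← int_err (hc0 i) N, int_deriv_zero (hd0 i) (hc0 i) (hp0 i)]
      refine intervalIntegral.integral_congr fun θ _ => ?_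
      simp only [ht0]
      ring) c
  have A1 := approx_le (s := s) (R := R) r1c (X := fun θ => ∑ i, c i * b1 i θ)
    (Y := fun θ => ∑ i, c i * q1 i θ) (by fun_prop) (by fun_prop) hs0 (fun θ _ => (p1 θ).le)
    (fun θ hθ => (hR θ hθ).2.1) E1 hR0
  have A0 := approx_le (s := s) (R := R) r0c (X := fun θ => ∑ i, c i * b0 i θ)
    (Y := fun θ => ∑ i, c i * q0 i θ) (by fun_prop) (by fun_prop) hs0 (fun θ _ => (p0 θ).le)
    (fun θ hθ => (hR θ hθ).1) E0 hR0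
  have A3 := approx_le (s := s) (R := R) i1c (X := fun θ => ∑ i, c i * t1 i θ)
    (Y := fun θ => ∑ i, c i * b1' i θ) (by fun_prop) (by fun_prop) hs0
    (fun θ _ => (one_div_pos.2 (p1 θ)).le) (fun θ hθ => (hR θ hθ).2.2.2) E3 hR0
  have A2 := approx_le (s := s) (R := R) i0c (X := fun θ => ∑ i, c i * t0 i θ)
    (Y := fun θ => ∑ i, c i * b0' i θ) (by fun_prop) (by fun_prop) hs0
    (fun θ _ => (one_div_pos.2 (p0 θ)).le) (fun θ hθ => (hR θ hθ).2.2.1) E2 hR0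
  rw [hD]
  -- the final computation
  have hQ : 0 ≤ (1 + 1 / s) * R := by positivity
  set e := (1 + 1 / s) * R * (e0 + e1 + e2 + e3) with hedef
  have he4 : e * C2 ≤ s / (1 + s) * bb := by
    have h1 : e * C2 ≤ κ * (s / (1 + s)) * C2 := mul_le_mul_of_nonneg_right hN.le hcc.le
    have h2 : s / (1 + s) * (κ * C2) ≤ s / (1 + s) * bb :=
      mul_le_mul_of_nonneg_left hbc (by positivity)
    linarith
  have f1 : bb ≤ (1 + s) * B + e * C2 := by
    rw [hB]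
    have h1 : 0 ≤ (1 + 1 / s) * R * (e2 + e3) * C2 := by positivity
    have h2 : e * C2 = (1 + 1 / s) * R * (C2 * e0) + (1 + 1 / s) * R * (C2 * e1) +
        (1 + 1 / s) * R * (e2 + e3) * C2 := by
      rw [hedef]
      ring
    rw [h2, hbb]
    linarith
  have f2 : (∫ θ in (0:ℝ)..(2 * π), (∑ i, c i * t0 i θ) ^ 2 * (1 / √(G (0, θ)))) +
        (∫ θ in (0:ℝ)..(2 * π), (∑ i, c i * t1 i θ) ^ 2 * (1 / √(G (1, θ)))) ≤
      (1 + s) * (K₀ ^ 2 * bb) + e * C2 := by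
    have h1 : 0 ≤ (1 + 1 / s) * R * (e0 + e1) * C2 := by positivity
    have h2 : e * C2 = (1 + 1 / s) * R * (C2 * e2) + (1 + 1 / s) * R * (C2 * e3) +
        (1 + 1 / s) * R * (e0 + e1) * C2 := by
      rw [hedef]
      ring
    have h3 := mul_le_mul_of_nonneg_left hsc (show 0 ≤ 1 + s by positivity)
    rw [h2]
    linarith
  have f3 : s / (1 + s) ≤ s := div_le_self hs0.le (by linarith)
  have f4 : bb ≤ (1 + s) ^ 2 * B := by
    have h1 : bb - s / (1 + s) * bb = bb / (1 + s) := by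
      field_simp
      ring
    have h2 : bb / (1 + s) ≤ (1 + s) * B := by linarith
    rw [div_le_iff₀ (by positivity)] at h2
    linarith
  have hB0 : 0 < B := by
    have : 0 < (1 + s) ^ 2 * B := hbb0.trans_le f4
    exact (mul_pos_iff_of_pos_left (by positivity)).1 this
  calc (∫ θ in (0:ℝ)..(2 * π), (∑ i, c i * t0 i θ) ^ 2 * (1 / √(G (0, θ)))) +
        (∫ θ in (0:ℝ)..(2 * π), (∑ i, c i * t1 i θ) ^ 2 * (1 / √(G (1, θ)))) ≤
      (1 + s) * (K₀ ^ 2 * bb) + e * C2 := f2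
    _ ≤ ((1 + s) * K₀ ^ 2 + s) * bb := by
      have h1 : s / (1 + s) * bb ≤ s * bb := mul_le_mul_of_nonneg_right f3 hbb0.le
      linarith
    _ ≤ ((1 + s) * K₀ ^ 2 + s) * ((1 + s) ^ 2 * B) :=
      mul_le_mul_of_nonneg_left f4 (by positivity)
    _ = ((1 + s) * K₀ ^ 2 + s) * (1 + s) ^ 2 * B := by ring
    _ < K ^ 2 * B := mul_lt_mul_of_pos_right hsK hB0

end Pool.Agent.Helper22.Stek
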