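import Pool.Agent.Helper22.Stek.Lower

/-! # The lower bound for `σ₂` of the flat cylinder -/

set_option autoImplicit false
open Real MeasureTheory Set

namespace Pool.Agent.Helper22.Stek

section Quad

variable {α : Type*} [MeasurableSpace α] {μ : Measure α} {f : Fin 3 → α → ℝ}

lemma int_quad (hint : ∀ i j, Integrable (fun x => f i x * f j x) μ) (c : Fin 3 → ℝ) :
    ∫ x, (∑ i, c i * f i x) ^ 2 ∂μ = ∑ i, ∑ j, c i * c j * ∫ x, f i x * f j x ∂μ := by
  have h : (fun x => (∑ i, c i * f i x) ^ 2) =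
      fun x => ∑ i, ∑ j, c i * c j * (f i x * f j x) := by
    funext x
    rw [sq, Finset.sum_mul_sum]
    exact Finset.sum_congr rfl fun i _ => Finset.sum_congr rfl fun j _ => by ring
  rw [h, integral_finsetSum _
    (fun i _ => integrable_finsetSum _ fun j _ => (hint i j).const_mul _)]
  refine Finset.sum_congr rfl fun i _ => ?_
  rw [integral_finsetSum _ (fun j _ => (hint i j).const_mul _)]
  exact Finset.sum_congr rfl fun j _ => integral_const_mul _ _

lemma cont_quad (hint : ∀ i j, Integrable (fun x => f i x * f j x) μ) :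
    Continuous fun c : Fin 3 → ℝ => ∫ x, (∑ i, c i * f i x) ^ 2 ∂μ := by
  simp_rw [int_quad hint]
  fun_prop

end Quad

section Family

variable {u : Fin 3 → ℝ × ℝ → ℝ} {H : ℝ}

lemma comb_smooth (hu : Adm u) (c : Fin 3 → ℝ) : ContDiff ℝ (⊤ : ℕ∞) (∑ i, c i • u i) := by
  have : (∑ i, c i • u i) = fun x => ∑ i, c i * u i x := by
    funext x
    simp [Finset.sum_apply]
  rw [this]
  exact ContDiff.sum fun i _ => contDiff_const.mul (hu.smooth i).1

lemma comb_apply (c : Fin 3 → ℝ) (x : ℝ × ℝ) : (∑ i, c i • u i) x = ∑ i, c i * u i x := by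
  simp [Finset.sum_apply]

lemma comb_per (hu : Adm u) (c : Fin 3 → ℝ) (r θ : ℝ) :
    (∑ i, c i • u i) (r, θ + 2 * π) = (∑ i, c i • u i) (r, θ) := by
  rw [comb_apply, comb_apply]
  exact Finset.sum_congr rfl fun i _ => by rw [(hu.smooth i).2]

lemma comb_fderiv (hu : Adm u) (c : Fin 3 → ℝ) (x v : ℝ × ℝ) :
    fderiv ℝ (∑ i, c i • u i) x v = ∑ i, c i * fderiv ℝ (u i) x v := by
  have h : HasFDerivAt (∑ i, c i • u i) (∑ i, c i • fderiv ℝ (u i) x) x :=
    HasFDerivAt.sum fun i _ =>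
      (((hu.smooth i).1.differentiable (by simp) x).hasFDerivAt.const_smul (c i))
  rw [h.fderiv]
  simp

lemma intOn {g : ℝ × ℝ → ℝ} (hg : Continuous g) :
    IntegrableOn g (Icc (0:ℝ) 1 ×ˢ Icc (0:ℝ) (2 * π)) :=
  hg.continuousOn.integrableOn_compact (isCompact_Icc.prod isCompact_Icc)

lemma energy_comb (hH : 0 < H) (hu : Adm u) (c : Fin 3 → ℝ) :
    energy (fun _ => H ^ 2) (fun _ => 0) (fun _ => 1) (∑ i, c i • u i) =
      1 / H * (∫ x in Icc (0:ℝ) 1 ×ˢ Icc (0:ℝ) (2 * π), (∑ i, c i * dr (u i) x) ^ 2) +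
        H * ∫ x in Icc (0:ℝ) 1 ×ˢ Icc (0:ℝ) (2 * π), (∑ i, c i * dt (u i) x) ^ 2 := by
  have h1 : ∀ i, Continuous (dr (u i)) := fun i => dr_cont (hu.smooth i).1
  have h2 : ∀ i, Continuous (dt (u i)) := fun i => dt_cont (hu.smooth i).1
  rw [← integral_const_mul, ← integral_const_mul, ← integral_add]
  · unfold energy
    refine setIntegral_congr_fun (measurableSet_Icc.prod measurableSet_Icc) fun x _ => ?_
    have : √(H ^ 2 * 1 - 0 ^ 2) = H := by
      rw [show H ^ 2 * 1 - 0 ^ 2 = H ^ 2 by ring, sqrt_sq hH.le]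
    simp only [this, comb_fderiv hu]
    have e1 : ∑ i, c i * dr (u i) x = ∑ i, c i * fderiv ℝ (u i) x ((1:ℝ), (0:ℝ)) := rfl
    have e2 : ∑ i, c i * dt (u i) x = ∑ i, c i * fderiv ℝ (u i) x ((0:ℝ), (1:ℝ)) := rfl
    rw [e1, e2]
    field_simp
    ring
  · exact intOn (by fun_prop)
  · exact intOn (by fun_prop)

lemma energy_comb_cont (hH : 0 < H) (hu : Adm u) : Continuous fun c : Fin 3 → ℝ =>
    energy (fun _ => H ^ 2) (fun _ => 0) (fun _ => 1) (∑ i, c i • u i) := by
  have h1 : ∀ i, Continuous (dr (u i)) := fun i => dr_cont (hu.smooth i).1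
  have h2 : ∀ i, Continuous (dt (u i)) := fun i => dt_cont (hu.smooth i).1
  have h3 := cont_quad (μ := volume.restrict (Icc (0:ℝ) 1 ×ˢ Icc (0:ℝ) (2 * π)))
    (f := fun i => dr (u i)) fun i j => intOn ((h1 i).mul (h1 j))
  have h4 := cont_quad (μ := volume.restrict (Icc (0:ℝ) 1 ×ˢ Icc (0:ℝ) (2 * π)))
    (f := fun i => dt (u i)) fun i j => intOn ((h2 i).mul (h2 j))
  simp_rw [energy_comb hH hu]
  exact (h3.const_mul _).add (h4.const_mul _)

lemma bdry_comb (hu : Adm u) (c : Fin 3 → ℝ) : bdry (fun _ => 1) (∑ i, c i • u i) =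
    (∫ θ in Icc (0:ℝ) (2 * π), (∑ i, c i * u i (0, θ)) ^ 2) +
      ∫ θ in Icc (0:ℝ) (2 * π), (∑ i, c i * u i (1, θ)) ^ 2 := by
  have h1 : ∀ i, Continuous (u i) := fun i => (hu.smooth i).1.continuous
  rw [← integral_add]
  · unfold bdry
    refine setIntegral_congr_fun measurableSet_Icc fun θ _ => ?_
    simp only [comb_apply, sqrt_one, mul_one]
  · exact (Continuous.continuousOn (by fun_prop)).integrableOn_compact isCompact_Icc
  · exact (Continuous.continuousOn (by fun_prop)).integrableOn_compact isCompact_Icc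

lemma bdry_comb_cont (hu : Adm u) : Continuous fun c : Fin 3 → ℝ =>
    bdry (fun _ => 1) (∑ i, c i • u i) := by
  have h1 : ∀ i, Continuous (u i) := fun i => (hu.smooth i).1.continuous
  have h3 := cont_quad (μ := volume.restrict (Icc (0:ℝ) (2 * π)))
    (f := fun i θ => u i (0, θ)) fun i j =>
      (Continuous.continuousOn (by fun_prop)).integrableOn_compact isCompact_Icc
  have h4 := cont_quad (μ := volume.restrict (Icc (0:ℝ) (2 * π)))
    (f := fun i θ => u i (1, θ)) fun i j =>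
      (Continuous.continuousOn (by fun_prop)).integrableOn_compact isCompact_Icc
  simp_rw [bdry_comb hu]
  exact h3.add h4

lemma bdry_comb_pos (hu : Adm u) {c : Fin 3 → ℝ} (hc : c ≠ 0) :
    0 < bdry (fun _ => 1) (∑ i, c i • u i) := by
  set w := ∑ i, c i • u i with hw
  have hws := comb_smooth hu c
  rw [← hw] at hws
  have hwc := hws.continuous
  have hwp : ∀ r θ, w (r, θ + 2 * π) = w (r, θ) := comb_per hu c
  rw [bdry_flat]
  by_contra hcon
  push Not at hcon
  have key : ∀ θ ∈ Icc (0:ℝ) (2 * π), w (0, θ) ^ 2 + w (1, θ) ^ 2 = 0 := by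
    intro θ hθ
    by_contra h
    have hpos : 0 < w (0, θ) ^ 2 + w (1, θ) ^ 2 := lt_of_le_of_ne (by positivity) (Ne.symm h)
    have := intervalIntegral.integral_pos (f := fun θ => w (0, θ) ^ 2 + w (1, θ) ^ 2)
      (a := 0) (b := 2 * π) (by positivity) (Continuous.continuousOn (by fun_prop))
      (fun x _ => by positivity) ⟨θ, hθ, hpos⟩
    exact absurd this (not_lt.2 hcon)
  refine hc (hu.indep c fun θ => ?_)
  have hper : Function.Periodic (fun θ => (w (0, θ), w (1, θ))) (2 * π) := fun θ => by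
    show (w (0, θ + 2 * π), w (1, θ + 2 * π)) = _
    rw [hwp, hwp]
  obtain ⟨y, hy, hxy⟩ := hper.exists_mem_Ico₀ (by positivity) θ
  have h1 := key y ⟨hy.1, hy.2.le⟩
  have h2 : w (0, θ) = w (0, y) := congrArg Prod.fst hxy
  have h3 : w (1, θ) = w (1, y) := congrArg Prod.snd hxy
  rw [← comb_apply c (0, θ), ← comb_apply c (1, θ), ← hw, h2, h3]
  constructor
  · exact (pow_eq_zero_iff (a := w (0, y)) two_ne_zero).1
      (by nlinarith [sq_nonneg (w (0, y)), sq_nonneg (w (1, y))])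
  · exact (pow_eq_zero_iff (a := w (1, y)) two_ne_zero).1
      (by nlinarith [sq_nonneg (w (0, y)), sq_nonneg (w (1, y))])

lemma quot_hom (hH : 0 < H) (hu : Adm u) (c : Fin 3 → ℝ) (t : ℝ) :
    energy (fun _ => H ^ 2) (fun _ => 0) (fun _ => 1) (∑ i, (t • c) i • u i) =
      t ^ 2 * energy (fun _ => H ^ 2) (fun _ => 0) (fun _ => 1) (∑ i, c i • u i) ∧
    bdry (fun _ => 1) (∑ i, (t • c) i • u i) = t ^ 2 * bdry (fun _ => 1) (∑ i, c i • u i) := by
  rw [energy_comb hH hu, energy_comb hH hu, bdry_comb hu, bdry_comb hu]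
  have e : ∀ a : Fin 3 → ℝ, (∑ i, (t • c) i * a i) ^ 2 = t ^ 2 * (∑ i, c i * a i) ^ 2 := by
    intro a
    rw [← mul_pow, Finset.mul_sum]
    congr 1
    exact Finset.sum_congr rfl fun i _ => by simp; ring
  simp_rw [e, integral_const_mul]
  constructor <;> ring

lemma bddAbove_quot (hH : 0 < H) (hu : Adm u) : BddAbove (range fun c : {c : Fin 3 → ℝ // c ≠ 0} =>
    energy (fun _ => H ^ 2) (fun _ => 0) (fun _ => 1) (∑ i, c.1 i • u i) /
      bdry (fun _ => 1) (∑ i, c.1 i • u i)) := by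
  have hS : IsCompact (Metric.sphere (0 : Fin 3 → ℝ) 1) := isCompact_sphere _ _
  have hne : ∀ c ∈ Metric.sphere (0 : Fin 3 → ℝ) 1, c ≠ 0 := by
    intro c hc h
    rw [mem_sphere_zero_iff_norm, h, norm_zero] at hc
    norm_num at hc
  have hcont : ContinuousOn (fun c : Fin 3 → ℝ =>
      energy (fun _ => H ^ 2) (fun _ => 0) (fun _ => 1) (∑ i, c i • u i) /
        bdry (fun _ => 1) (∑ i, c i • u i)) (Metric.sphere (0 : Fin 3 → ℝ) 1) :=
    (energy_comb_cont hH hu).continuousOn.div (bdry_comb_cont hu).continuousOn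
      fun c hc => (bdry_comb_pos hu (hne c hc)).ne'
  obtain ⟨B, hB⟩ := hS.bddAbove_image hcont
  refine ⟨B, ?_⟩
  rintro _ ⟨c, rfl⟩
  have hn : 0 < ‖c.1‖ := norm_pos_iff.2 c.2
  have hmem : ‖c.1‖⁻¹ • c.1 ∈ Metric.sphere (0 : Fin 3 → ℝ) 1 := by
    rw [mem_sphere_zero_iff_norm, norm_smul, norm_inv, norm_norm, inv_mul_cancel₀ hn.ne']
  have h1 := hB (mem_image_of_mem _ hmem)
  obtain ⟨h2, h3⟩ := quot_hom hH hu c.1 ‖c.1‖⁻¹
  simp only at h1 ⊢
  rw [h2, h3, mul_div_mul_left _ _ (by positivity)] at h1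
  exact h1

/-- **The lower bound** for the flat cylinder of height `H` and circumference `2π` -/
theorem sigma2_flat_ge (hH : 0 < H) :
    tanh (H / 2) ≤ sigma2 (fun _ => H ^ 2) (fun _ => 0) (fun _ => 1) := by
  refine le_csInf ⟨_, test H, adm_test H, rfl⟩ ?_
  rintro s ⟨u, hu, rfl⟩
  have hcu : ∀ i, Continuous (u i) := fun i => (hu.smooth i).1.continuous
  -- a combination whose mean vanishes on both boundary circles
  obtain ⟨c, hc, hc0, hc1⟩ : ∃ c : Fin 3 → ℝ, c ≠ 0 ∧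
      ∑ i, c i * (∫ θ in (0:ℝ)..(2 * π), u i (0, θ)) = 0 ∧
      ∑ i, c i * (∫ θ in (0:ℝ)..(2 * π), u i (1, θ)) = 0 := by
    let A : Matrix (Fin 2) (Fin 3) ℝ := Matrix.of ![fun i => ∫ θ in (0:ℝ)..(2 * π), u i (0, θ),
      fun i => ∫ θ in (0:ℝ)..(2 * π), u i (1, θ)]
    have hk : LinearMap.ker A.mulVecLin ≠ ⊥ :=
      LinearMap.ker_ne_bot_of_finrank_lt (by simp)
    obtain ⟨c, hcA, hc⟩ := Submodule.exists_mem_ne_zero_of_ne_bot hk
    rw [LinearMap.mem_ker, Matrix.mulVecLin_apply] at hcA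
    refine ⟨c, hc, ?_, ?_⟩
    · have := congrFun hcA 0
      simp only [Matrix.mulVec, dotProduct, A, Matrix.of_apply, Matrix.cons_val_zero,
        Pi.zero_apply] at this
      refine Eq.trans (Finset.sum_congr rfl fun i _ => ?_) this
      exact mul_comm _ _
    · have := congrFun hcA 1
      simp only [Matrix.mulVec, dotProduct, A, Matrix.of_apply, Matrix.cons_val_one,
        Matrix.cons_val_zero, Pi.zero_apply] at this
      refine Eq.trans (Finset.sum_congr rfl fun i _ => ?_) this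
      exact mul_comm _ _
  have hmean : ∀ r : ℝ, ∫ θ in (0:ℝ)..(2 * π), (∑ i, c i • u i) (r, θ) =
      ∑ i, c i * ∫ θ in (0:ℝ)..(2 * π), u i (r, θ) := by
    intro r
    simp_rw [comb_apply]
    rw [intervalIntegral.integral_finsetSum fun i _ =>
      Continuous.intervalIntegrable (by have := hcu i; fun_prop) _ _]
    exact Finset.sum_congr rfl fun i _ => intervalIntegral.integral_const_mul _ _
  have h1 := flat_ineq hH (comb_smooth hu c) (comb_per hu c) ((hmean 0).trans hc0)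
    ((hmean 1).trans hc1)
  have h2 := bdry_comb_pos hu hc
  refine ((le_div_iff₀ h2).2 h1).trans ?_
  exact le_ciSup (bddAbove_quot hH hu) ⟨c, hc⟩

end Family

end Pool.Agent.Helper22.Stek
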