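import Pool.Agent.Helper22.Stek.Ent
import Pool.Agent.Helper22.Stek.Lower2

/-! # The two constraints -/

set_option autoImplicit false
open Real MeasureTheory Set

namespace Pool.Agent.Helper22.Stek

lemma bil_diag {V κ : Type*} [AddCommGroup V] [Module ℝ V] [Fintype κ]
    (B : LinearMap.BilinForm ℝ V) (w : κ → V) (hw : ∀ i j, i ≠ j → B (w i) (w j) = 0) (c : κ → ℝ) :
    B (∑ k, c k • w k) (∑ k, c k • w k) = ∑ k, c k ^ 2 * B (w k) (w k) := by
  simp only [map_sum, LinearMap.sum_apply, map_smul, LinearMap.smul_apply, smul_eq_mul]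
  refine Finset.sum_congr rfl fun i _ => ?_
  rw [Finset.sum_eq_single i]
  · ring
  · intro j _ hj
    rw [hw j i hj]
    ring
  · intro h
    exact absurd (Finset.mem_univ i) h

/-- a symmetric form without negative definite subspace of dimension three is nonnegative on the
common kernel of two linear forms -/
lemma inertia {ι : Type*} [Fintype ι] [DecidableEq ι] (M : Matrix ι ι ℝ) (hM : ∀ i j, M i j = M j i) :
    (∃ x : Fin 3 → (ι → ℝ), ∀ c : Fin 3 → ℝ, c ≠ 0 →
      ∑ i, ∑ j, (∑ k, c k * x k i) * (∑ k, c k * x k j) * M i j < 0) ∨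
    ∃ l : Fin 2 → (ι → ℝ) →ₗ[ℝ] ℝ, ∀ x : ι → ℝ, (∀ k, l k x = 0) →
      0 ≤ ∑ i, ∑ j, x i * x j * M i j := by
  set B : LinearMap.BilinForm ℝ (ι → ℝ) := Matrix.toBilin' M with hB
  have hBx : ∀ x y, B x y = ∑ i, ∑ j, x i * y j * M i j := by
    intro x y
    rw [hB, Matrix.toBilin'_apply]
    exact Finset.sum_congr rfl fun i _ => Finset.sum_congr rfl fun j _ => by ring
  have hsymm : LinearMap.IsSymm B := by
    constructor
    intro x y
    rw [RingHom.id_apply, hBx, hBx, Finset.sum_comm]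
    exact Finset.sum_congr rfl fun i _ => Finset.sum_congr rfl fun j _ => by
      rw [hM]
      ring
  obtain ⟨v, hv⟩ := LinearMap.BilinForm.exists_orthogonal_basis hsymm
  have hv' : ∀ i j, i ≠ j → B (v i) (v j) = 0 := fun i j h => hv h
  -- the diagonal form
  have hdiag : ∀ x, B x x = ∑ i, v.repr x i ^ 2 * B (v i) (v i) := by
    intro x
    conv_lhs => rw [← v.sum_repr x]
    exact bil_diag B v hv' _
  set Neg := Finset.univ.filter fun i => B (v i) (v i) < 0 with hNeg
  by_cases hcard : 3 ≤ Neg.card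
  · left
    obtain ⟨T, hT, hTc⟩ := Finset.exists_subset_card_eq hcard
    set e := T.equivFinOfCardEq hTc with he
    refine ⟨fun k => v (e.symm k).1, fun c hc => ?_⟩
    have h1 : ∑ i, ∑ j, (∑ k, c k * (v (e.symm k).1) i) * (∑ k, c k * (v (e.symm k).1) j) * M i j =
        B (∑ k, c k • v (e.symm k).1) (∑ k, c k • v (e.symm k).1) := by
      rw [hBx]
      refine Finset.sum_congr rfl fun i _ => Finset.sum_congr rfl fun j _ => ?_
      simp [Finset.sum_apply]
    rw [h1]
    rw [bil_diag B (fun k => v (e.symm k).1) fun i j hij => hv' _ _ fun h =>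
      hij (e.symm.injective (Subtype.ext h))]
    have hneg : ∀ k, B (v (e.symm k).1) (v (e.symm k).1) < 0 := fun k =>
      (Finset.mem_filter.1 (hT (e.symm k).2)).2
    obtain ⟨k, hk⟩ : ∃ k, c k ≠ 0 := by
      by_contra hcon
      push Not at hcon
      exact hc (funext hcon)
    refine Finset.sum_neg' (fun i _ => ?_) ⟨k, Finset.mem_univ k, ?_⟩
    · exact mul_nonpos_of_nonneg_of_nonpos (sq_nonneg _) (hneg i).le
    · exact mul_neg_of_pos_of_neg (by positivity) (hneg k)
  · right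
    push Not at hcard
    -- two coordinates
    obtain ⟨T, hT, hTc⟩ : ∃ l : List (Fin (Module.finrank ℝ (ι → ℝ))), (∀ i ∈ Neg, i ∈ l) ∧
        l.length ≤ 2 := ⟨Neg.toList, fun i hi => Finset.mem_toList.2 hi, by
          rw [Finset.length_toList]; omega⟩
    refine ⟨fun k => if h : k.1 < T.length then v.coord (T.get ⟨k.1, h⟩) else 0,
      fun x hx => ?_⟩
    rw [← hBx, hdiag]
    refine Finset.sum_nonneg fun i _ => ?_
    by_cases hi : B (v i) (v i) < 0
    · have hiT : i ∈ T := hT i (Finset.mem_filter.2 ⟨Finset.mem_univ _, hi⟩)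
      obtain ⟨n, hn⟩ := List.mem_iff_get.1 hiT
      have h1 := hx ⟨n.1, by omega⟩
      simp only [n.2, dite_true] at h1
      have h2 : v.repr x i = 0 := by
        rw [← hn]
        exact h1
      rw [h2]
      simp
    · exact mul_nonneg (sq_nonneg _) (not_lt.1 hi)

section

variable {ι : Type*} [Fintype ι] {φ : ι → ℝ × ℝ → ℝ}

lemma combI_apply (c : ι → ℝ) (x : ℝ × ℝ) : (∑ i, c i • φ i) x = ∑ i, c i * φ i x := by
  simp [Finset.sum_apply]

lemma combI_smooth (hu : ∀ i, ContDiff ℝ (⊤ : ℕ∞) (φ i)) (c : ι → ℝ) :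
    ContDiff ℝ (⊤ : ℕ∞) (∑ i, c i • φ i) := by
  have : (∑ i, c i • φ i) = fun x => ∑ i, c i * φ i x := by
    funext x
    simp [Finset.sum_apply]
  rw [this]
  exact ContDiff.sum fun i _ => contDiff_const.mul (hu i)

lemma combI_fderiv (hu : ∀ i, ContDiff ℝ (⊤ : ℕ∞) (φ i)) (c : ι → ℝ) (x v : ℝ × ℝ) :
    fderiv ℝ (∑ i, c i • φ i) x v = ∑ i, c i * fderiv ℝ (φ i) x v := by
  have h : HasFDerivAt (∑ i, c i • φ i) (∑ i, c i • fderiv ℝ (φ i) x) x :=
    HasFDerivAt.sum fun i _ =>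
      (((hu i).differentiable (by simp) x).hasFDerivAt.const_smul (c i))
  rw [h.fderiv]
  simp

/-- the coefficients of the energy -/
noncomputable def eM (H : ℝ) (φ : ι → ℝ × ℝ → ℝ) (i j : ι) : ℝ :=
  ∫ x in Icc (0:ℝ) 1 ×ˢ Icc (0:ℝ) (2 * π),
    (1 / H * (dr (φ i) x * dr (φ j) x) + H * (dt (φ i) x * dt (φ j) x))

/-- the coefficients of the boundary integral -/
noncomputable def bM (G : ℝ × ℝ → ℝ) (φ : ι → ℝ × ℝ → ℝ) (i j : ι) : ℝ :=
  ∫ θ in Icc (0:ℝ) (2 * π),
    (φ i (0, θ) * φ j (0, θ) * √(G (0, θ)) + φ i (1, θ) * φ j (1, θ) * √(G (1, θ)))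

lemma sum_sq_expand (a b : ι → ℝ) : (∑ i, a i * b i) ^ 2 = ∑ i, ∑ j, a i * a j * (b i * b j) := by
  rw [sq, Finset.sum_mul_sum]
  exact Finset.sum_congr rfl fun i _ => Finset.sum_congr rfl fun j _ => by ring

lemma energy_matrix {H : ℝ} (hH : 0 < H) (hu : ∀ i, ContDiff ℝ (⊤ : ℕ∞) (φ i)) (c : ι → ℝ) :
    energy (fun _ => H ^ 2) (fun _ => 0) (fun _ => 1) (∑ i, c i • φ i) =
      ∑ i, ∑ j, c i * c j * eM H φ i j := by
  have h1 : ∀ i, Continuous (dr (φ i)) := fun i => dr_cont (hu i)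
  have h2 : ∀ i, Continuous (dt (φ i)) := fun i => dt_cont (hu i)
  have e : ∀ i j, c i * c j * eM H φ i j = ∫ x in Icc (0:ℝ) 1 ×ˢ Icc (0:ℝ) (2 * π),
      c i * c j * (1 / H * (dr (φ i) x * dr (φ j) x) + H * (dt (φ i) x * dt (φ j) x)) := by
    intro i j
    rw [integral_const_mul]
    rfl
  simp_rw [e]
  have hint : ∀ i j, IntegrableOn (fun x => c i * c j * (1 / H * (dr (φ i) x * dr (φ j) x) +
      H * (dt (φ i) x * dt (φ j) x))) (Icc (0:ℝ) 1 ×ˢ Icc (0:ℝ) (2 * π)) := fun i j => by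
    have ai := h1 i
    have aj := h1 j
    have bi := h2 i
    have bj := h2 j
    exact intOn (by fun_prop)
  have e2 : ∀ i, ∑ j, ∫ x in Icc (0:ℝ) 1 ×ˢ Icc (0:ℝ) (2 * π),
      c i * c j * (1 / H * (dr (φ i) x * dr (φ j) x) + H * (dt (φ i) x * dt (φ j) x)) =
      ∫ x in Icc (0:ℝ) 1 ×ˢ Icc (0:ℝ) (2 * π), ∑ j,
      c i * c j * (1 / H * (dr (φ i) x * dr (φ j) x) + H * (dt (φ i) x * dt (φ j) x)) := fun i =>
    (integral_finsetSum _ fun j _ => hint i j).symm
  simp_rw [e2]
  rw [← integral_finsetSum _ fun i _ => integrable_finsetSum _ fun j _ => hint i j]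
  unfold energy
  refine setIntegral_congr_fun (measurableSet_Icc.prod measurableSet_Icc) fun x _ => ?_
  have : √(H ^ 2 * 1 - 0 ^ 2) = H := by
    rw [show H ^ 2 * 1 - 0 ^ 2 = H ^ 2 by ring, sqrt_sq hH.le]
  simp only [this, combI_fderiv hu]
  have e3 : ∑ i, ∑ j, c i * c j * (1 / H * (dr (φ i) x * dr (φ j) x) +
      H * (dt (φ i) x * dt (φ j) x)) = 1 / H * (∑ i, c i * dr (φ i) x) ^ 2 +
        H * (∑ i, c i * dt (φ i) x) ^ 2 := by
    rw [sum_sq_expand, sum_sq_expand, Finset.mul_sum, Finset.mul_sum, ← Finset.sum_add_distrib]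
    refine Finset.sum_congr rfl fun i _ => ?_
    rw [Finset.mul_sum, Finset.mul_sum, ← Finset.sum_add_distrib]
    exact Finset.sum_congr rfl fun j _ => by ring
  rw [e3]
  have e4 : ∑ i, c i * dr (φ i) x = ∑ i, c i * fderiv ℝ (φ i) x ((1:ℝ), (0:ℝ)) := rfl
  have e5 : ∑ i, c i * dt (φ i) x = ∑ i, c i * fderiv ℝ (φ i) x ((0:ℝ), (1:ℝ)) := rfl
  rw [e4, e5]
  field_simp
  ring

lemma bdry_matrix {G : ℝ × ℝ → ℝ} (hG : Continuous G) (hu : ∀ i, ContDiff ℝ (⊤ : ℕ∞) (φ i))
    (c : ι → ℝ) : bdry G (∑ i, c i • φ i) = ∑ i, ∑ j, c i * c j * bM G φ i j := by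
  have h1 : ∀ i, Continuous (φ i) := fun i => (hu i).continuous
  have e : ∀ i j, c i * c j * bM G φ i j = ∫ θ in Icc (0:ℝ) (2 * π),
      c i * c j * (φ i (0, θ) * φ j (0, θ) * √(G (0, θ)) +
        φ i (1, θ) * φ j (1, θ) * √(G (1, θ))) := by
    intro i j
    rw [integral_const_mul]
    rfl
  simp_rw [e]
  have hint : ∀ i j, IntegrableOn (fun θ => c i * c j * (φ i (0, θ) * φ j (0, θ) * √(G (0, θ)) +
        φ i (1, θ) * φ j (1, θ) * √(G (1, θ)))) (Icc (0:ℝ) (2 * π)) := fun i j => by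
    have ai := h1 i
    have aj := h1 j
    exact (Continuous.continuousOn (by fun_prop)).integrableOn_compact isCompact_Icc
  have e2 : ∀ i, ∑ j, ∫ θ in Icc (0:ℝ) (2 * π), c i * c j * (φ i (0, θ) * φ j (0, θ) * √(G (0, θ)) +
        φ i (1, θ) * φ j (1, θ) * √(G (1, θ))) =
      ∫ θ in Icc (0:ℝ) (2 * π), ∑ j, c i * c j * (φ i (0, θ) * φ j (0, θ) * √(G (0, θ)) +
        φ i (1, θ) * φ j (1, θ) * √(G (1, θ))) := fun i =>
    (integral_finsetSum _ fun j _ => hint i j).symm
  simp_rw [e2]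
  rw [← integral_finsetSum _ fun i _ => integrable_finsetSum _ fun j _ => hint i j]
  unfold bdry
  refine setIntegral_congr_fun measurableSet_Icc fun θ _ => ?_
  simp only [combI_apply]
  rw [sum_sq_expand, sum_sq_expand, Finset.sum_mul, Finset.sum_mul, ← Finset.sum_add_distrib]
  refine Finset.sum_congr rfl fun i _ => ?_
  rw [Finset.sum_mul, Finset.sum_mul, ← Finset.sum_add_distrib]
  exact Finset.sum_congr rfl fun j _ => by ring

/-- **The two constraints**: if `K < σ₂` then `energy ≥ K bdry` on the common kernel of two linear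
forms, in every finite dimensional space of test functions -/
theorem two_constraints [DecidableEq ι] {E F G : ℝ × ℝ → ℝ} (h : IsMetric E F G) {H K : ℝ}
    (hH : 0 < H) (hF : ∀ x : ℝ × ℝ, x.1 ∈ Icc (0:ℝ) 1 → F x = 0)
    (hE : ∀ x : ℝ × ℝ, x.1 ∈ Icc (0:ℝ) 1 → E x = H ^ 2 * G x)
    (hu : ∀ i, ContDiff ℝ (⊤ : ℕ∞) (φ i)) (hp : ∀ i r θ, φ i (r, θ + 2 * π) = φ i (r, θ))
    (hK0 : 0 ≤ K) (hK : K < sigma2 E F G) :
    ∃ l : Fin 2 → (ι → ℝ) →ₗ[ℝ] ℝ, ∀ x : ι → ℝ, (∀ k, l k x = 0) →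
      K * bdry G (∑ i, x i • φ i) ≤ energy E F G (∑ i, x i • φ i) := by
  have hGc := h.smoothG.continuous
  have hq : ∀ x : ι → ℝ, energy E F G (∑ i, x i • φ i) - K * bdry G (∑ i, x i • φ i) =
      ∑ i, ∑ j, x i * x j * (eM H φ i j - K * bM G φ i j) := by
    intro x
    rw [energy_iso h hH hF hE, energy_matrix hH hu, bdry_matrix hGc hu, Finset.mul_sum,
      ← Finset.sum_sub_distrib]
    refine Finset.sum_congr rfl fun i _ => ?_
    rw [Finset.mul_sum, ← Finset.sum_sub_distrib]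
    exact Finset.sum_congr rfl fun j _ => by ring
  rcases inertia (Matrix.of fun i j => eM H φ i j - K * bM G φ i j) (by
    intro i j
    simp only [Matrix.of_apply]
    congr 1
    · unfold eM
      congr 1
      funext x
      ring
    · unfold bM
      congr 2
      funext x
      ring) with ⟨x, hx⟩ | ⟨l, hl⟩
  · exfalso
    simp only [Matrix.of_apply] at hx
    set u : Fin 3 → ℝ × ℝ → ℝ := fun k => ∑ i, x k i • φ i with hudef
    have hcomb : ∀ c : Fin 3 → ℝ, ∑ k, c k • u k = ∑ i, (∑ k, c k * x k i) • φ i := by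
      intro c
      simp only [hudef, Finset.smul_sum, Finset.sum_smul]
      rw [Finset.sum_comm]
      exact Finset.sum_congr rfl fun i _ => Finset.sum_congr rfl fun k _ => by rw [smul_smul]
    have hneg : ∀ c : Fin 3 → ℝ, c ≠ 0 →
        energy E F G (∑ k, c k • u k) - K * bdry G (∑ k, c k • u k) < 0 := by
      intro c hc
      rw [hcomb, hq]
      exact hx c hc
    have hadm : Adm u := by
      constructor
      · intro k
        refine ⟨combI_smooth hu _, fun r θ => ?_⟩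
        simp only [hudef, combI_apply, hp]
      · intro c hc
        by_contra hne
        have h1 := hneg c hne
        have h2 : bdry G (∑ k, c k • u k) = 0 := by
          unfold bdry
          have : ∀ θ : ℝ, (∑ k, c k • u k) (0, θ) ^ 2 * √(G (0, θ)) +
              (∑ k, c k • u k) (1, θ) ^ 2 * √(G (1, θ)) = 0 := by
            intro θ
            obtain ⟨h3, h4⟩ := hc θ
            rw [combI_apply, combI_apply, h3, h4]
            ring
          simp_rw [this]
          simp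
        rw [h2, mul_zero, sub_zero] at h1
        exact absurd (energy_nonneg h _) (not_le.2 h1)
    have h3 : maxQuot E F G u ≤ K := by
      have : Nonempty {c : Fin 3 → ℝ // c ≠ 0} := ⟨⟨fun _ => 1, fun h => by
        have := congrFun h 0
        norm_num at this⟩⟩
      refine ciSup_le fun c => ?_
      have h4 := hneg c.1 c.2
      rcases (bdry_nonneg (G := G) (∑ k, c.1 k • u k)).eq_or_lt with h5 | h5
      · rw [← h5, div_zero]
        exact hK0
      · rw [div_le_iff₀ h5]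
        linarith
    exact absurd ((sigma2_le h hadm).trans h3) (not_le.2 hK)
  · refine ⟨l, fun x hx => ?_⟩
    have h1 := hl x hx
    simp only [Matrix.of_apply] at h1
    rw [← hq] at h1
    linarith

end

end Pool.Agent.Helper22.Stek
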