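import Pool.Agent.Helper22.Stek.SideMin

/-! # The reflection which exchanges the boundary circles -/

set_option autoImplicit false
open Real MeasureTheory Set ComplexConjugate

namespace Pool.Agent.Helper22.Stek

/-- the reflection -/
def refl (w : ℝ × ℝ → ℝ) (x : ℝ × ℝ) : ℝ := w (1 - x.1, x.2)

lemma refl_smooth {w : ℝ × ℝ → ℝ} (hw : ContDiff ℝ (⊤ : ℕ∞) w) : ContDiff ℝ (⊤ : ℕ∞) (refl w) :=
  hw.comp ((contDiff_const.sub contDiff_fst).prodMk contDiff_snd)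

lemma refl_dr {w : ℝ × ℝ → ℝ} (hw : ContDiff ℝ (⊤ : ℕ∞) w) (r θ : ℝ) :
    dr (refl w) (r, θ) = -dr w (1 - r, θ) := by
  have h1 := hasDerivAt_dr (refl_smooth hw) r θ
  have h2 : HasDerivAt (fun r => w (1 - r, θ)) (dr w (1 - r, θ) * (-1)) r :=
    (hasDerivAt_dr hw (1 - r) θ).comp r ((hasDerivAt_id r).const_sub 1)
  have h3 := h1.unique h2
  rw [h3]
  ring

lemma refl_dt {w : ℝ × ℝ → ℝ} (hw : ContDiff ℝ (⊤ : ℕ∞) w) (r θ : ℝ) :
    dt (refl w) (r, θ) = dt w (1 - r, θ) :=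
  (hasDerivAt_dt (refl_smooth hw) r θ).unique (hasDerivAt_dt hw (1 - r) θ)

lemma refl_energy {H : ℝ} (hH : 0 < H) {w : ℝ × ℝ → ℝ} (hw : ContDiff ℝ (⊤ : ℕ∞) w) :
    energy (fun _ => H ^ 2) (fun _ => 0) (fun _ => 1) (refl w) =
      energy (fun _ => H ^ 2) (fun _ => 0) (fun _ => 1) w := by
  rw [energy_flat hH (refl_smooth hw), energy_flat hH hw]
  congr 1
  simp_rw [refl_dr hw, refl_dt hw, neg_sq]
  have := intervalIntegral.integral_comp_sub_left (a := (0:ℝ)) (b := 1)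
    (fun r => ∫ θ in (0:ℝ)..(2 * π), (dr w (r, θ) ^ 2 + H ^ 2 * dt w (r, θ) ^ 2)) 1
  rw [sub_self, sub_zero] at this
  exact this

lemma refl_bdry (G w : ℝ × ℝ → ℝ) : bdry G (refl w) = bdry (refl G) w := by
  unfold bdry refl
  refine setIntegral_congr_fun measurableSet_Icc fun θ _ => ?_
  simp only [sub_zero, sub_self]
  ring

lemma refl_side (G : ℝ × ℝ → ℝ) : side (refl G) 0 = side G 1 ∧ side (refl G) 1 = side G 0 := by
  unfold side refl
  simp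

lemma refl_metric {E F G : ℝ × ℝ → ℝ} (h : IsMetric E F G) :
    IsMetric (refl E) (refl F) (refl G) where
  smoothE := refl_smooth h.smoothE
  smoothF := refl_smooth h.smoothF
  smoothG := refl_smooth h.smoothG
  per r θ := h.per (1 - r) θ
  pos x hx := h.pos (1 - x.1, x.2) (by
    show 1 - x.1 ∈ Icc (0:ℝ) 1
    exact ⟨by linarith [hx.2], by linarith [hx.1]⟩)

lemma refl_adm {u : Fin 3 → ℝ × ℝ → ℝ} (hu : Adm u) : Adm fun i => refl (u i) where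
  smooth i := ⟨refl_smooth (hu.smooth i).1, fun r θ => (hu.smooth i).2 (1 - r) θ⟩
  indep c hc := hu.indep c fun θ => by
    obtain ⟨h1, h2⟩ := hc θ
    simp only [refl, sub_zero, sub_self] at h1 h2
    exact ⟨h2, h1⟩

/-- `σ₂` does not increase under the reflection, for isothermal metrics -/
lemma refl_sigma2 {E F G : ℝ × ℝ → ℝ} (h : IsMetric E F G) {H : ℝ} (hH : 0 < H)
    (hF : ∀ x : ℝ × ℝ, x.1 ∈ Icc (0:ℝ) 1 → F x = 0)
    (hE : ∀ x : ℝ × ℝ, x.1 ∈ Icc (0:ℝ) 1 → E x = H ^ 2 * G x) :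
    sigma2 E F G ≤ sigma2 (refl E) (refl F) (refl G) := by
  have hr : ∀ x : ℝ × ℝ, x.1 ∈ Icc (0:ℝ) 1 → ((1 - x.1, x.2) : ℝ × ℝ).1 ∈ Icc (0:ℝ) 1 :=
    fun x hx => by
      show 1 - x.1 ∈ Icc (0:ℝ) 1
      exact ⟨by linarith [hx.2], by linarith [hx.1]⟩
  refine le_csInf ⟨_, test 1, adm_test 1, rfl⟩ ?_
  rintro s ⟨u, hu, rfl⟩
  refine (sigma2_le h (refl_adm hu)).trans (le_of_eq ?_)
  unfold maxQuot
  refine iSup_congr fun c => ?_
  have e : (∑ i, c.1 i • fun x => refl (u i) x) = refl (∑ i, c.1 i • u i) := by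
    funext x
    rw [combI_apply]
    unfold refl
    rw [combI_apply]
  have e' : (∑ i, c.1 i • (fun i => refl (u i)) i) = refl (∑ i, c.1 i • u i) := e
  rw [e', refl_bdry, energy_iso h hH hF hE,
    energy_iso (refl_metric h) hH (fun x hx => hF _ (hr x hx)) (fun x hx => hE _ (hr x hx)),
    refl_energy hH (comb_smooth hu c.1)]

/-- the upper bound for long cylinders, with the two boundary circles exchanged -/
theorem long_bound' {E F G : ℝ × ℝ → ℝ} (h : IsMetric E F G) {H : ℝ} (hH : 0 < H)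
    (hF : ∀ x : ℝ × ℝ, x.1 ∈ Icc (0:ℝ) 1 → F x = 0)
    (hE : ∀ x : ℝ × ℝ, x.1 ∈ Icc (0:ℝ) 1 → E x = H ^ 2 * G x) {Λ : ℝ}
    (hΛ : 2 * π < Λ * side G 0)
    (hlong : 1 / (Λ * side G 1) + 1 / (Λ * side G 0) + 2 / (Λ * side G 0 - 2 * π) ≤
      H / (2 * π)) : sigma2 E F G ≤ Λ := by
  have hr : ∀ x : ℝ × ℝ, x.1 ∈ Icc (0:ℝ) 1 → ((1 - x.1, x.2) : ℝ × ℝ).1 ∈ Icc (0:ℝ) 1 :=
    fun x hx => by
      show 1 - x.1 ∈ Icc (0:ℝ) 1
      exact ⟨by linarith [hx.2], by linarith [hx.1]⟩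
  refine (refl_sigma2 h hH hF hE).trans ?_
  obtain ⟨s0, s1⟩ := refl_side G
  exact long_bound (refl_metric h) hH (fun x hx => hF _ (hr x hx)) (fun x hx => hE _ (hr x hx))
    (by rw [s1]; exact hΛ) (by rw [s0, s1]; exact hlong)

end Pool.Agent.Helper22.Stek
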