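import Pool.Agent.Helper22.Stek.Sides

/-! # `σ₂` times the length of the shorter boundary circle is at most `2 π` -/

set_option autoImplicit false
open Real MeasureTheory Set ComplexConjugate

namespace Pool.Agent.Helper22.Stek

/-- the boundary data on one circle: three functions of the arc length and a constant -/
noncomputable def eA (ρ : ℝ → ℝ) (m : ℝ) : Fin 4 → ℝ → ℝ := ![dA ρ 0, dA ρ 1, dA ρ 2, fun _ => m]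
noncomputable def eA' (ρ : ℝ → ℝ) : Fin 4 → ℝ → ℝ := ![dA' ρ 0, dA' ρ 1, dA' ρ 2, fun _ => 0]

/-- the boundary data on the other circle -/
noncomputable def eB (ρ : ℝ → ℝ) (m n : ℝ) : Fin 4 → ℝ → ℝ :=
  ![dA ρ 0, fun _ => m, fun _ => n, dA ρ 1]
noncomputable def eB' (ρ : ℝ → ℝ) : Fin 4 → ℝ → ℝ :=
  ![dA' ρ 0, fun _ => 0, fun _ => 0, dA' ρ 1]

section

variable {ρ : ℝ → ℝ}

lemma eA_sum (m : ℝ) (c : Fin 4 → ℝ) (θ : ℝ) : ∑ i, c i * eA ρ m i θ =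
    ∑ i, (![c 0 + c 3 * m, c 1, c 2, 0] : Fin 4 → ℝ) i * dA ρ i θ := by
  rw [Fin.sum_univ_four, Fin.sum_univ_four]
  show c 0 * dA ρ 0 θ + c 1 * dA ρ 1 θ + c 2 * dA ρ 2 θ + c 3 * m =
      (c 0 + c 3 * m) * dA ρ 0 θ + c 1 * dA ρ 1 θ + c 2 * dA ρ 2 θ + 0 * dA ρ 3 θ
  have : dA ρ 0 θ = 1 := rfl
  rw [this]
  ring

lemma eB_sum (m n : ℝ) (c : Fin 4 → ℝ) (θ : ℝ) : ∑ i, c i * eB ρ m n i θ =
    ∑ i, (![c 0 + c 1 * m + c 2 * n, c 3, 0, 0] : Fin 4 → ℝ) i * dA ρ i θ := by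
  rw [Fin.sum_univ_four, Fin.sum_univ_four]
  show c 0 * dA ρ 0 θ + c 1 * m + c 2 * n + c 3 * dA ρ 1 θ =
      (c 0 + c 1 * m + c 2 * n) * dA ρ 0 θ + c 3 * dA ρ 1 θ + 0 * dA ρ 2 θ + 0 * dA ρ 3 θ
  have : dA ρ 0 θ = 1 := rfl
  rw [this]
  ring

lemma eA'_sum (c : Fin 4 → ℝ) (θ : ℝ) : ∑ i, c i * eA' ρ i θ =
    ∑ i, (![c 0, c 1, c 2, 0] : Fin 4 → ℝ) i * dA' ρ i θ := by
  rw [Fin.sum_univ_four, Fin.sum_univ_four]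
  show c 0 * dA' ρ 0 θ + c 1 * dA' ρ 1 θ + c 2 * dA' ρ 2 θ + c 3 * 0 =
      c 0 * dA' ρ 0 θ + c 1 * dA' ρ 1 θ + c 2 * dA' ρ 2 θ + 0 * dA' ρ 3 θ
  ring

lemma eB'_sum (c : Fin 4 → ℝ) (θ : ℝ) : ∑ i, c i * eB' ρ i θ =
    ∑ i, (![c 0, c 3, 0, 0] : Fin 4 → ℝ) i * dA' ρ i θ := by
  rw [Fin.sum_univ_four, Fin.sum_univ_four]
  show c 0 * dA' ρ 0 θ + c 1 * 0 + c 2 * 0 + c 3 * dA' ρ 1 θ =
      c 0 * dA' ρ 0 θ + c 3 * dA' ρ 1 θ + 0 * dA' ρ 2 θ + 0 * dA' ρ 3 θ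
  ring

lemma eA_sq (hρ : Continuous ρ) (hl : 0 < ∫ t in (0:ℝ)..(2 * π), ρ t) (m : ℝ) (c : Fin 4 → ℝ) :
    ∫ θ in (0:ℝ)..(2 * π), (∑ i, c i * eA ρ m i θ) ^ 2 * ρ θ =
      (∫ t in (0:ℝ)..(2 * π), ρ t) * ((c 0 + c 3 * m) ^ 2 + 1 / 2 * (c 1 ^ 2 + c 2 ^ 2)) := by
  simp_rw [eA_sum]
  rw [dA_sq hρ hl]
  simp

lemma eB_sq (hρ : Continuous ρ) (hl : 0 < ∫ t in (0:ℝ)..(2 * π), ρ t) (m n : ℝ) (c : Fin 4 → ℝ) :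
    ∫ θ in (0:ℝ)..(2 * π), (∑ i, c i * eB ρ m n i θ) ^ 2 * ρ θ =
      (∫ t in (0:ℝ)..(2 * π), ρ t) * ((c 0 + c 1 * m + c 2 * n) ^ 2 + 1 / 2 * c 3 ^ 2) := by
  simp_rw [eB_sum]
  rw [dA_sq hρ hl]
  simp

lemma eA'_sq (hρ : Continuous ρ) (hpos : ∀ θ, 0 < ρ θ) (hl : 0 < ∫ t in (0:ℝ)..(2 * π), ρ t)
    (c : Fin 4 → ℝ) : ∫ θ in (0:ℝ)..(2 * π), (∑ i, c i * eA' ρ i θ) ^ 2 * (1 / ρ θ) =
      (2 * π / (∫ t in (0:ℝ)..(2 * π), ρ t)) ^ 2 * ((∫ t in (0:ℝ)..(2 * π), ρ t) *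
        (1 / 2 * (c 1 ^ 2 + c 2 ^ 2))) := by
  simp_rw [eA'_sum]
  rw [dA'_sq hρ hpos hl]
  simp

lemma eB'_sq (hρ : Continuous ρ) (hpos : ∀ θ, 0 < ρ θ) (hl : 0 < ∫ t in (0:ℝ)..(2 * π), ρ t)
    (c : Fin 4 → ℝ) : ∫ θ in (0:ℝ)..(2 * π), (∑ i, c i * eB' ρ i θ) ^ 2 * (1 / ρ θ) =
      (2 * π / (∫ t in (0:ℝ)..(2 * π), ρ t)) ^ 2 * ((∫ t in (0:ℝ)..(2 * π), ρ t) *
        (1 / 2 * c 3 ^ 2)) := by
  simp_rw [eB'_sum]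
  rw [dA'_sq hρ hpos hl]
  simp

lemma eA_deriv (hρ : Continuous ρ) (m : ℝ) (i : Fin 4) (θ : ℝ) :
    HasDerivAt (eA ρ m i) (eA' ρ i θ) θ := by
  fin_cases i
  · exact dA_deriv hρ 0 θ
  · exact dA_deriv hρ 1 θ
  · exact dA_deriv hρ 2 θ
  · exact hasDerivAt_const _ _

lemma eB_deriv (hρ : Continuous ρ) (m n : ℝ) (i : Fin 4) (θ : ℝ) :
    HasDerivAt (eB ρ m n i) (eB' ρ i θ) θ := by
  fin_cases i
  · exact dA_deriv hρ 0 θ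
  · exact hasDerivAt_const _ _
  · exact hasDerivAt_const _ _
  · exact dA_deriv hρ 1 θ

lemma eA'_cont (hρ : Continuous ρ) (i : Fin 4) : Continuous (eA' ρ i) := by
  fin_cases i
  · exact dA'_cont hρ 0
  · exact dA'_cont hρ 1
  · exact dA'_cont hρ 2
  · exact continuous_const

lemma eB'_cont (hρ : Continuous ρ) (i : Fin 4) : Continuous (eB' ρ i) := by
  fin_cases i
  · exact dA'_cont hρ 0
  · exact continuous_const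
  · exact continuous_const
  · exact dA'_cont hρ 1

lemma eA_per (hρ : Continuous ρ) (hp : ∀ θ, ρ (θ + 2 * π) = ρ θ)
    (hl : 0 < ∫ t in (0:ℝ)..(2 * π), ρ t) (m : ℝ) (i : Fin 4) (θ : ℝ) :
    eA ρ m i (θ + 2 * π) = eA ρ m i θ := by
  fin_cases i
  · exact dA_per hρ hp hl 0 θ
  · exact dA_per hρ hp hl 1 θ
  · exact dA_per hρ hp hl 2 θ
  · rfl

lemma eB_per (hρ : Continuous ρ) (hp : ∀ θ, ρ (θ + 2 * π) = ρ θ)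
    (hl : 0 < ∫ t in (0:ℝ)..(2 * π), ρ t) (m n : ℝ) (i : Fin 4) (θ : ℝ) :
    eB ρ m n i (θ + 2 * π) = eB ρ m n i θ := by
  fin_cases i
  · exact dA_per hρ hp hl 0 θ
  · rfl
  · rfl
  · exact dA_per hρ hp hl 1 θ

end

lemma real1 {μ l0 l1 m X Y c0 c1 c2 c3 κ : ℝ} (hμ : 0 < μ) (h0 : μ ≤ l0) (h1 : μ ≤ l1)
    (hκ : κ = μ / (8 * (1 + m ^ 2))) (hX : X = c0 + c3 * m) :
    κ * (c0 ^ 2 + c1 ^ 2 + c2 ^ 2 + c3 ^ 2) ≤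
      l0 * (Y ^ 2 + 1 / 2 * c3 ^ 2) + l1 * (X ^ 2 + 1 / 2 * (c1 ^ 2 + c2 ^ 2)) := by
  have k0 : 0 < κ := by rw [hκ]; positivity
  have k1 : κ * (1 + m ^ 2) = μ / 8 := by
    rw [hκ]
    field_simp
  have k2 : 0 ≤ κ * m ^ 2 := by positivity
  have k3 : κ ≤ μ / 8 := by linarith
  have k4 : κ * m ^ 2 ≤ μ / 8 := by linarith
  have k5 : c0 ^ 2 ≤ 2 * X ^ 2 + 2 * (c3 ^ 2 * m ^ 2) := by
    rw [hX]
    nlinarith [sq_nonneg (c0 + 2 * (c3 * m))]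
  have k6 := mul_le_mul_of_nonneg_left k5 k0.le
  have k7 : κ * c1 ^ 2 ≤ μ / 8 * c1 ^ 2 := mul_le_mul_of_nonneg_right k3 (sq_nonneg _)
  have k8 : κ * c2 ^ 2 ≤ μ / 8 * c2 ^ 2 := mul_le_mul_of_nonneg_right k3 (sq_nonneg _)
  have k9 : κ * c3 ^ 2 ≤ μ / 8 * c3 ^ 2 := mul_le_mul_of_nonneg_right k3 (sq_nonneg _)
  have k10 : κ * m ^ 2 * c3 ^ 2 ≤ μ / 8 * c3 ^ 2 := mul_le_mul_of_nonneg_right k4 (sq_nonneg _)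
  have k11 : κ * X ^ 2 ≤ μ / 8 * X ^ 2 := mul_le_mul_of_nonneg_right k3 (sq_nonneg _)
  have j1 : μ * X ^ 2 ≤ l1 * X ^ 2 := mul_le_mul_of_nonneg_right h1 (sq_nonneg _)
  have j2 : μ * c1 ^ 2 ≤ l1 * c1 ^ 2 := mul_le_mul_of_nonneg_right h1 (sq_nonneg _)
  have j3 : μ * c2 ^ 2 ≤ l1 * c2 ^ 2 := mul_le_mul_of_nonneg_right h1 (sq_nonneg _)
  have j4 : μ * c3 ^ 2 ≤ l0 * c3 ^ 2 := mul_le_mul_of_nonneg_right h0 (sq_nonneg _)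
  have j5 : 0 ≤ l0 * Y ^ 2 := mul_nonneg (by linarith) (sq_nonneg _)
  have j6 : 0 ≤ μ * X ^ 2 := by positivity
  have j7 : 0 ≤ μ * c1 ^ 2 := by positivity
  have j8 : 0 ≤ μ * c2 ^ 2 := by positivity
  have j9 : 0 ≤ μ * c3 ^ 2 := by positivity
  linarith

lemma real2 {μ l0 l1 X Y c1 c2 c3 : ℝ} (hμ : 0 < μ) (h0 : μ ≤ l0) (h1 : μ ≤ l1) :
    (2 * π / l0) ^ 2 * (l0 * (1 / 2 * c3 ^ 2)) +
        (2 * π / l1) ^ 2 * (l1 * (1 / 2 * (c1 ^ 2 + c2 ^ 2))) ≤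
      (2 * π / μ) ^ 2 * (l0 * (Y ^ 2 + 1 / 2 * c3 ^ 2) +
        l1 * (X ^ 2 + 1 / 2 * (c1 ^ 2 + c2 ^ 2))) := by
  have hl0 : 0 < l0 := hμ.trans_le h0
  have hl1 : 0 < l1 := hμ.trans_le h1
  have hpi := pi_pos
  have t1 : (2 * π / l1) ^ 2 ≤ (2 * π / μ) ^ 2 :=
    pow_le_pow_left₀ (by positivity) (div_le_div_of_nonneg_left (by positivity) hμ h1) 2
  have t0 : (2 * π / l0) ^ 2 ≤ (2 * π / μ) ^ 2 :=
    pow_le_pow_left₀ (by positivity) (div_le_div_of_nonneg_left (by positivity) hμ h0) 2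
  have u1 := mul_le_mul_of_nonneg_right t1
    (show 0 ≤ l1 * (1 / 2 * (c1 ^ 2 + c2 ^ 2)) by positivity)
  have u0 := mul_le_mul_of_nonneg_right t0 (show 0 ≤ l0 * (1 / 2 * c3 ^ 2) by positivity)
  have v1 : 0 ≤ (2 * π / μ) ^ 2 * (l1 * X ^ 2) := by positivity
  have v0 : 0 ≤ (2 * π / μ) ^ 2 * (l0 * Y ^ 2) := by positivity
  linarith

lemma mean_eq (ρ σ : ℝ → ℝ) (i : Fin 4) :
    ∫ θ in (0:ℝ)..(2 * π), eA ρ ((∫ θ in (0:ℝ)..(2 * π), dA σ 1 θ) / (2 * π)) i θ =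
      ∫ θ in (0:ℝ)..(2 * π), eB σ ((∫ θ in (0:ℝ)..(2 * π), dA ρ 1 θ) / (2 * π))
        ((∫ θ in (0:ℝ)..(2 * π), dA ρ 2 θ) / (2 * π)) i θ := by
  have hconst : ∀ t : ℝ, ∫ _ in (0:ℝ)..(2 * π), t = 2 * π * t := fun t => by simp
  have hpi := pi_pos
  fin_cases i
  · rfl
  · show ∫ θ in (0:ℝ)..(2 * π), dA ρ 1 θ =
      ∫ θ in (0:ℝ)..(2 * π), (∫ θ in (0:ℝ)..(2 * π), dA ρ 1 θ) / (2 * π)
    rw [hconst]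
    field_simp
  · show ∫ θ in (0:ℝ)..(2 * π), dA ρ 2 θ =
      ∫ θ in (0:ℝ)..(2 * π), (∫ θ in (0:ℝ)..(2 * π), dA ρ 2 θ) / (2 * π)
    rw [hconst]
    field_simp
  · show ∫ θ in (0:ℝ)..(2 * π), (∫ θ in (0:ℝ)..(2 * π), dA σ 1 θ) / (2 * π) =
      ∫ θ in (0:ℝ)..(2 * π), dA σ 1 θ
    rw [hconst]
    field_simp

/-- **`σ₂` times the length of the shorter boundary circle is at most `2 π`** -/
theorem side_min {E F G : ℝ × ℝ → ℝ} (h : IsMetric E F G) {H : ℝ} (hH : 0 < H)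
    (hF : ∀ x : ℝ × ℝ, x.1 ∈ Icc (0:ℝ) 1 → F x = 0)
    (hE : ∀ x : ℝ × ℝ, x.1 ∈ Icc (0:ℝ) 1 → E x = H ^ 2 * G x) :
    sigma2 E F G * min (side G 0) (side G 1) ≤ 2 * π := by
  have hl0 : 0 < side G 0 := side_pos h (by simp)
  have hl1 : 0 < side G 1 := side_pos h (by simp)
  have hpi := pi_pos
  have hμ0 : 0 < min (side G 0) (side G 1) := lt_min hl0 hl1
  have r0p : ∀ θ, 0 < √(G (0, θ)) := fun θ => sqrt_pos.2 (h.posG (x := (0, θ)) (by simp))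
  have r1p : ∀ θ, 0 < √(G (1, θ)) := fun θ => sqrt_pos.2 (h.posG (x := (1, θ)) (by simp))
  have c0 := side_cont h 0
  have c1 := side_cont h 1
  have per0 := rho_per h 0
  have per1 := rho_per h 1
  rw [← le_div_iff₀ hμ0]
  obtain ⟨ρ0, e0⟩ : ∃ ρ0 : ℝ → ℝ, ∀ θ, √(G (0, θ)) = ρ0 θ := ⟨_, fun _ => rfl⟩
  obtain ⟨ρ1, e1⟩ : ∃ ρ1 : ℝ → ℝ, ∀ θ, √(G (1, θ)) = ρ1 θ := ⟨_, fun _ => rfl⟩
  have s0 : side G 0 = ∫ θ in (0:ℝ)..(2 * π), ρ0 θ := by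
    unfold side
    simp_rw [e0]
  have s1 : side G 1 = ∫ θ in (0:ℝ)..(2 * π), ρ1 θ := by
    unfold side
    simp_rw [e1]
  simp_rw [e0] at c0 r0p per0
  simp_rw [e1] at c1 r1p per1
  rw [s0] at hl0
  rw [s1] at hl1
  refine hps h hH (K₀ := 2 * π / min (side G 0) (side G 1))
    (κ := min (side G 0) (side G 1) /
      (8 * (1 + ((∫ θ in (0:ℝ)..(2 * π), dA ρ0 1 θ) / (2 * π)) ^ 2)))
    (by positivity) (by positivity) hF hE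
    (eA ρ1 ((∫ θ in (0:ℝ)..(2 * π), dA ρ0 1 θ) / (2 * π))) (eA' ρ1)
    (eB ρ0 ((∫ θ in (0:ℝ)..(2 * π), dA ρ1 1 θ) / (2 * π))
      ((∫ θ in (0:ℝ)..(2 * π), dA ρ1 2 θ) / (2 * π)))
    (eB' ρ0) (eA_deriv c1 _) (eB_deriv c0 _ _) (eA'_cont c1) (eB'_cont c0)
    (eA_per c1 per1 hl1 _) (eB_per c0 per0 hl0 _ _) (mean_eq ρ1 ρ0) (fun c => ?_) (fun c => ?_)
  · simp_rw [e0, e1]
    rw [eA_sq c1 hl1, eB_sq c0 hl0, Fin.sum_univ_four, s0, s1]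
    rw [s0, s1] at hμ0
    exact real1 hμ0 (min_le_left _ _) (min_le_right _ _) rfl rfl
  · simp_rw [e0, e1]
    rw [eA_sq c1 hl1, eB_sq c0 hl0, eA'_sq c1 r1p hl1, eB'_sq c0 r0p hl0, s0, s1]
    rw [s0, s1] at hμ0
    exact real2 hμ0 (min_le_left _ _) (min_le_right _ _)

end Pool.Agent.Helper22.Stek
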