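import Pool.Agent.Helper22.Stek.Arc

/-! # `σ₂` is at most `4 π` over the length of each boundary circle, and at most `2 π` over the
length of the shorter one -/

set_option autoImplicit false
open Real MeasureTheory Set ComplexConjugate

namespace Pool.Agent.Helper22.Stek

/-- the boundary data `1, cos s, sin s, cos 2 s` -/
noncomputable def dA (ρ : ℝ → ℝ) : Fin 4 → ℝ → ℝ :=
  ![fun _ => 1, fun θ => cos (arc ρ θ), fun θ => sin (arc ρ θ), fun θ => cos (2 * arc ρ θ)]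

/-- their derivatives -/
noncomputable def dA' (ρ : ℝ → ℝ) : Fin 4 → ℝ → ℝ :=
  ![fun _ => 0, fun θ => -sin (arc ρ θ) * (2 * π / (∫ t in (0:ℝ)..(2 * π), ρ t) * ρ θ),
    fun θ => cos (arc ρ θ) * (2 * π / (∫ t in (0:ℝ)..(2 * π), ρ t) * ρ θ),
    fun θ => -sin (2 * arc ρ θ) * (2 * (2 * π / (∫ t in (0:ℝ)..(2 * π), ρ t) * ρ θ))]

section

variable {ρ : ℝ → ℝ}

lemma dA_deriv (hρ : Continuous ρ) (i : Fin 4) (θ : ℝ) :
    HasDerivAt (dA ρ i) (dA' ρ i θ) θ := by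
  have h := arc_deriv hρ θ
  fin_cases i
  · exact hasDerivAt_const _ _
  · exact h.cos
  · exact h.sin
  · exact (h.const_mul 2).cos

lemma dA'_cont (hρ : Continuous ρ) (i : Fin 4) : Continuous (dA' ρ i) := by
  have h := arc_cont hρ
  fin_cases i
  · exact continuous_const
  · show Continuous fun θ => -sin (arc ρ θ) * (2 * π / (∫ t in (0:ℝ)..(2 * π), ρ t) * ρ θ)
    fun_prop
  · show Continuous fun θ => cos (arc ρ θ) * (2 * π / (∫ t in (0:ℝ)..(2 * π), ρ t) * ρ θ)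
    fun_prop
  · show Continuous fun θ => -sin (2 * arc ρ θ) *
      (2 * (2 * π / (∫ t in (0:ℝ)..(2 * π), ρ t) * ρ θ))
    fun_prop

lemma dA_per (hρ : Continuous ρ) (hp : ∀ θ, ρ (θ + 2 * π) = ρ θ)
    (hl : 0 < ∫ t in (0:ℝ)..(2 * π), ρ t) (i : Fin 4) (θ : ℝ) :
    dA ρ i (θ + 2 * π) = dA ρ i θ := by
  have h := arc_per hρ hp hl θ
  fin_cases i
  · rfl
  · show cos (arc ρ (θ + 2 * π)) = cos (arc ρ θ)
    rw [h, cos_add_two_pi]
  · show sin (arc ρ (θ + 2 * π)) = sin (arc ρ θ)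
    rw [h, sin_add_two_pi]
  · show cos (2 * arc ρ (θ + 2 * π)) = cos (2 * arc ρ θ)
    rw [h, mul_add, show 2 * (2 * π) = 2 * π + 2 * π by ring, ← add_assoc, cos_add_two_pi,
      cos_add_two_pi]

lemma dA_sum (c : Fin 4 → ℝ) (θ : ℝ) : ∑ i, c i * dA ρ i θ = c 0 +
    ((c 1 - Complex.I * c 2) * ee (arc ρ θ) + c 3 * ee (arc ρ θ) ^ 2).re := by
  rw [Fin.sum_univ_four]
  simp only [Complex.add_re, Complex.mul_re, Complex.sub_re, Complex.sub_im, Complex.ofReal_re,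
    Complex.ofReal_im, Complex.I_re, Complex.I_im, Complex.mul_im, ee_re, ee_im, ee2_re, ee2_im]
  show c 0 * 1 + c 1 * cos (arc ρ θ) + c 2 * sin (arc ρ θ) + c 3 * cos (2 * arc ρ θ) = _
  ring

lemma dA'_sum (c : Fin 4 → ℝ) (θ : ℝ) : ∑ i, c i * dA' ρ i θ = (0 +
    ((c 2 + Complex.I * c 1) * ee (arc ρ θ) + (2 * Complex.I * c 3) * ee (arc ρ θ) ^ 2).re) *
      (2 * π / (∫ t in (0:ℝ)..(2 * π), ρ t) * ρ θ) := by
  rw [Fin.sum_univ_four]
  simp only [Complex.add_re, Complex.mul_re, Complex.add_im, Complex.ofReal_re,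
    Complex.ofReal_im, Complex.I_re, Complex.I_im, Complex.mul_im, ee_re, ee_im, ee2_re, ee2_im,
    Complex.re_ofNat, Complex.im_ofNat]
  show c 0 * 0 + c 1 * (-sin (arc ρ θ) * (2 * π / (∫ t in (0:ℝ)..(2 * π), ρ t) * ρ θ)) +
    c 2 * (cos (arc ρ θ) * (2 * π / (∫ t in (0:ℝ)..(2 * π), ρ t) * ρ θ)) +
    c 3 * (-sin (2 * arc ρ θ) * (2 * (2 * π / (∫ t in (0:ℝ)..(2 * π), ρ t) * ρ θ))) = _
  ring

lemma normSq_u (x y : ℝ) : Complex.normSq (x - Complex.I * y) = x ^ 2 + y ^ 2 := by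
  rw [Complex.normSq_apply]
  simp
  ring

lemma normSq_u' (x y : ℝ) : Complex.normSq (x + Complex.I * y) = x ^ 2 + y ^ 2 := by
  rw [Complex.normSq_apply]
  simp
  ring

lemma normSq_v' (x : ℝ) : Complex.normSq (2 * Complex.I * x) = 4 * x ^ 2 := by
  rw [Complex.normSq_apply]
  simp
  ring

/-- the square integral of the data, for an arbitrary constant `k` in place of the first one -/
lemma dA_sq (hρ : Continuous ρ) (hl : 0 < ∫ t in (0:ℝ)..(2 * π), ρ t) (c : Fin 4 → ℝ) :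
    ∫ θ in (0:ℝ)..(2 * π), (∑ i, c i * dA ρ i θ) ^ 2 * ρ θ =
      (∫ t in (0:ℝ)..(2 * π), ρ t) * (c 0 ^ 2 + 1 / 2 * (c 1 ^ 2 + c 2 ^ 2 + c 3 ^ 2)) := by
  simp_rw [dA_sum]
  rw [arc_val hρ hl, normSq_u, Complex.normSq_ofReal]
  ring

lemma dA'_sq (hρ : Continuous ρ) (hpos : ∀ θ, 0 < ρ θ) (hl : 0 < ∫ t in (0:ℝ)..(2 * π), ρ t)
    (c : Fin 4 → ℝ) :
    ∫ θ in (0:ℝ)..(2 * π), (∑ i, c i * dA' ρ i θ) ^ 2 * (1 / ρ θ) =
      (2 * π / (∫ t in (0:ℝ)..(2 * π), ρ t)) ^ 2 * ((∫ t in (0:ℝ)..(2 * π), ρ t) *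
        (1 / 2 * (c 1 ^ 2 + c 2 ^ 2 + 4 * c 3 ^ 2))) := by
  simp_rw [dA'_sum]
  have h := arc_val hρ hl 0 (c 2 + Complex.I * c 1) (2 * Complex.I * c 3)
  rw [normSq_u', normSq_v'] at h
  have e : ∀ θ, ((0 + ((c 2 + Complex.I * c 1) * ee (arc ρ θ) +
      (2 * Complex.I * c 3) * ee (arc ρ θ) ^ 2).re) *
      (2 * π / (∫ t in (0:ℝ)..(2 * π), ρ t) * ρ θ)) ^ 2 * (1 / ρ θ) =
      (2 * π / (∫ t in (0:ℝ)..(2 * π), ρ t)) ^ 2 * ((0 + ((c 2 + Complex.I * c 1) *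
        ee (arc ρ θ) + (2 * Complex.I * c 3) * ee (arc ρ θ) ^ 2).re) ^ 2 * ρ θ) := by
    intro θ
    have := (hpos θ).ne'
    field_simp
  simp_rw [e]
  rw [intervalIntegral.integral_const_mul, h]
  ring

end

section

variable {E F G : ℝ × ℝ → ℝ}

lemma rho_per (h : IsMetric E F G) (s θ : ℝ) : √(G (s, θ + 2 * π)) = √(G (s, θ)) := by
  rw [(h.per s θ).2.2]

/-- **`σ₂` times the length of the boundary circle `r = 1` is at most `4 π`** -/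
theorem side_one (h : IsMetric E F G) {H : ℝ} (hH : 0 < H)
    (hF : ∀ x : ℝ × ℝ, x.1 ∈ Icc (0:ℝ) 1 → F x = 0)
    (hE : ∀ x : ℝ × ℝ, x.1 ∈ Icc (0:ℝ) 1 → E x = H ^ 2 * G x) :
    sigma2 E F G * side G 1 ≤ 4 * π := by
  have hl : 0 < side G 1 := side_pos h (by simp)
  have hpi := pi_pos
  have rc := side_cont h 1
  have rp : ∀ θ, 0 < √(G (1, θ)) := fun θ => sqrt_pos.2 (h.posG (x := (1, θ)) (by simp))
  have rper := rho_per h 1
  rw [← le_div_iff₀ hl]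
  set ρ : ℝ → ℝ := fun θ => √(G (1, θ)) with hρ
  have hl' : 0 < ∫ t in (0:ℝ)..(2 * π), ρ t := hl
  have hls : side G 1 = ∫ t in (0:ℝ)..(2 * π), ρ t := rfl
  rw [hls]
  set L1 := ∫ t in (0:ℝ)..(2 * π), ρ t with hL1
  refine hps h hH (K₀ := 4 * π / L1) (κ := L1 / 2) (by positivity) (by positivity) hF hE (dA ρ)
    (dA' ρ) (fun i _ => (∫ θ in (0:ℝ)..(2 * π), dA ρ i θ) / (2 * π)) (fun _ _ => 0)
    (dA_deriv rc) (fun i θ => hasDerivAt_const _ _) (dA'_cont rc) (fun i => continuous_const)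
    (dA_per rc rper hl') (fun i θ => rfl) (fun i => ?_) (fun c => ?_) (fun c => ?_)
  · simp
  · have h1 := dA_sq rc hl' c
    rw [Fin.sum_univ_four]
    have h2 : 0 ≤ ∫ θ in (0:ℝ)..(2 * π), (∑ i, c i *
        ((∫ θ in (0:ℝ)..(2 * π), dA ρ i θ) / (2 * π))) ^ 2 * √(G (0, θ)) :=
      intervalIntegral.integral_nonneg (by positivity) fun θ _ => by positivity
    have h3 : ∫ θ in (0:ℝ)..(2 * π), (∑ i, c i * dA ρ i θ) ^ 2 * √(G (1, θ)) = _ := h1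
    rw [h3]
    have : 0 ≤ L1 / 2 * c 0 ^ 2 := by positivity
    nlinarith
  · have h1 := dA_sq rc hl' c
    have h4 := dA'_sq rc rp hl' c
    have h2 : 0 ≤ ∫ θ in (0:ℝ)..(2 * π), (∑ i, c i *
        ((∫ θ in (0:ℝ)..(2 * π), dA ρ i θ) / (2 * π))) ^ 2 * √(G (0, θ)) :=
      intervalIntegral.integral_nonneg (by positivity) fun θ _ => by positivity
    have h3 : ∫ θ in (0:ℝ)..(2 * π), (∑ i, c i * dA ρ i θ) ^ 2 * √(G (1, θ)) = _ := h1
    have h5 : ∫ θ in (0:ℝ)..(2 * π), (∑ i, c i * dA' ρ i θ) ^ 2 * (1 / √(G (1, θ))) = _ := h4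
    rw [h3, h5]
    simp only [mul_zero, Finset.sum_const_zero, ne_eq, OfNat.ofNat_ne_zero, not_false_eq_true,
      zero_pow, zero_mul, intervalIntegral.integral_zero, zero_add]
    rw [← hL1]
    have e1 : (4 * π / L1) ^ 2 = 4 * (2 * π / L1) ^ 2 := by ring
    rw [e1]
    have h6 : 0 ≤ (2 * π / L1) ^ 2 := by positivity
    have h7 : L1 * (1 / 2 * (c 1 ^ 2 + c 2 ^ 2 + 4 * c 3 ^ 2)) ≤
        4 * ((∫ θ in (0:ℝ)..(2 * π), (∑ i, c i *
        ((∫ θ in (0:ℝ)..(2 * π), dA ρ i θ) / (2 * π))) ^ 2 * √(G (0, θ))) +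
          L1 * (c 0 ^ 2 + 1 / 2 * (c 1 ^ 2 + c 2 ^ 2 + c 3 ^ 2))) := by
      have : 0 ≤ L1 * c 0 ^ 2 := by positivity
      have : 0 ≤ L1 * c 1 ^ 2 := by positivity
      have : 0 ≤ L1 * c 2 ^ 2 := by positivity
      nlinarith
    have := mul_le_mul_of_nonneg_left h7 h6
    linarith

/-- **`σ₂` times the length of the boundary circle `r = 0` is at most `4 π`** -/
theorem side_zero (h : IsMetric E F G) {H : ℝ} (hH : 0 < H)
    (hF : ∀ x : ℝ × ℝ, x.1 ∈ Icc (0:ℝ) 1 → F x = 0)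
    (hE : ∀ x : ℝ × ℝ, x.1 ∈ Icc (0:ℝ) 1 → E x = H ^ 2 * G x) :
    sigma2 E F G * side G 0 ≤ 4 * π := by
  have hl : 0 < side G 0 := side_pos h (by simp)
  have hpi := pi_pos
  have rc := side_cont h 0
  have rp : ∀ θ, 0 < √(G (0, θ)) := fun θ => sqrt_pos.2 (h.posG (x := (0, θ)) (by simp))
  have rper := rho_per h 0
  rw [← le_div_iff₀ hl]
  set ρ : ℝ → ℝ := fun θ => √(G (0, θ)) with hρ
  have hl' : 0 < ∫ t in (0:ℝ)..(2 * π), ρ t := hl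
  have hls : side G 0 = ∫ t in (0:ℝ)..(2 * π), ρ t := rfl
  rw [hls]
  set L1 := ∫ t in (0:ℝ)..(2 * π), ρ t with hL1
  refine hps h hH (K₀ := 4 * π / L1) (κ := L1 / 2) (by positivity) (by positivity) hF hE
    (fun i _ => (∫ θ in (0:ℝ)..(2 * π), dA ρ i θ) / (2 * π)) (fun _ _ => 0) (dA ρ) (dA' ρ)
    (fun i θ => hasDerivAt_const _ _) (dA_deriv rc) (fun i => continuous_const) (dA'_cont rc)
    (fun i θ => rfl) (dA_per rc rper hl') (fun i => ?_) (fun c => ?_) (fun c => ?_)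
  · simp
  · have h1 := dA_sq rc hl' c
    rw [Fin.sum_univ_four]
    have h2 : 0 ≤ ∫ θ in (0:ℝ)..(2 * π), (∑ i, c i *
        ((∫ θ in (0:ℝ)..(2 * π), dA ρ i θ) / (2 * π))) ^ 2 * √(G (1, θ)) :=
      intervalIntegral.integral_nonneg (by positivity) fun θ _ => by positivity
    have h3 : ∫ θ in (0:ℝ)..(2 * π), (∑ i, c i * dA ρ i θ) ^ 2 * √(G (0, θ)) = _ := h1
    rw [h3]
    have : 0 ≤ L1 / 2 * c 0 ^ 2 := by positivity
    nlinarith
  · have h1 := dA_sq rc hl' c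
    have h4 := dA'_sq rc rp hl' c
    have h2 : 0 ≤ ∫ θ in (0:ℝ)..(2 * π), (∑ i, c i *
        ((∫ θ in (0:ℝ)..(2 * π), dA ρ i θ) / (2 * π))) ^ 2 * √(G (1, θ)) :=
      intervalIntegral.integral_nonneg (by positivity) fun θ _ => by positivity
    have h3 : ∫ θ in (0:ℝ)..(2 * π), (∑ i, c i * dA ρ i θ) ^ 2 * √(G (0, θ)) = _ := h1
    have h5 : ∫ θ in (0:ℝ)..(2 * π), (∑ i, c i * dA' ρ i θ) ^ 2 * (1 / √(G (0, θ))) = _ := h4
    rw [h3, h5]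
    simp only [mul_zero, Finset.sum_const_zero, ne_eq, OfNat.ofNat_ne_zero, not_false_eq_true,
      zero_pow, zero_mul, intervalIntegral.integral_zero, add_zero]
    rw [← hL1]
    have e1 : (4 * π / L1) ^ 2 = 4 * (2 * π / L1) ^ 2 := by ring
    rw [e1]
    have h6 : 0 ≤ (2 * π / L1) ^ 2 := by positivity
    have h7 : L1 * (1 / 2 * (c 1 ^ 2 + c 2 ^ 2 + 4 * c 3 ^ 2)) ≤
        4 * (L1 * (c 0 ^ 2 + 1 / 2 * (c 1 ^ 2 + c 2 ^ 2 + c 3 ^ 2)) +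
          (∫ θ in (0:ℝ)..(2 * π), (∑ i, c i *
        ((∫ θ in (0:ℝ)..(2 * π), dA ρ i θ) / (2 * π))) ^ 2 * √(G (1, θ)))) := by
      have : 0 ≤ L1 * c 0 ^ 2 := by positivity
      have : 0 ≤ L1 * c 1 ^ 2 := by positivity
      have : 0 ≤ L1 * c 2 ^ 2 := by positivity
      nlinarith
    have := mul_le_mul_of_nonneg_left h7 h6
    linarith

end

end Pool.Agent.Helper22.Stek
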