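import Pool.Agent.Helper22.Stek.Glue2
import Pool.Agent.Helper22.Stek.SideMin
import Pool.Agent.Helper22.Stek.Sides
import Pool.Agent.Helper22.Stek.Half
import Pool.Agent.Helper22.Stek.Refl

/-! # Restrictions on maximal metrics -/

set_option autoImplicit false
open Real MeasureTheory Set

namespace Pool.Agent.Helper22.Stek

/-- the metric maximises `σ₂ L` among all smooth metrics on the annulus -/
def IsMaximal (E F G : ℝ × ℝ → ℝ) : Prop :=
  ∀ E' F' G' : ℝ × ℝ → ℝ, IsMetric E' F' G' → sigma2 E' F' G' * len G' ≤ sigma2 E F G * len G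

variable {E F G : ℝ × ℝ → ℝ} {H : ℝ}

lemma IsMaximal.ge (hM : IsMaximal E F G) : 16 * π / 3 ≤ sigma2 E F G * len G := by
  by_contra hcon
  push Not at hcon
  obtain ⟨E', F', G', h1, h2⟩ := notMaximal_of_lt' hcon
  linarith [hM E' F' G' h1]

lemma arith_a {x : ℝ} (hx : 5 / 8 ≤ x) (hx' : x ≤ 3 / 4) :
    3 / (8 * x * (1 - x)) + 2 / (8 / 3 * x - 1) ≤ 23 / 5 := by
  have h1 : 3 / (8 * x * (1 - x)) ≤ 8 / 5 + 16 / 5 * (x - 5 / 8) := by
    rw [div_le_iff₀ (mul_pos (by linarith) (by linarith))]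
    nlinarith [mul_nonneg (sub_nonneg.2 hx) (sub_nonneg.2 hx'),
      mul_nonneg (mul_nonneg (sub_nonneg.2 hx) (sub_nonneg.2 hx')) (sub_nonneg.2 hx)]
  have h2 : 2 / (8 / 3 * x - 1) ≤ 3 - 8 * (x - 5 / 8) := by
    rw [div_le_iff₀ (by linarith)]
    nlinarith [mul_nonneg (sub_nonneg.2 hx) (sub_nonneg.2 hx')]
  linarith

lemma arith_b {x H : ℝ} (hx : 5 / 8 ≤ x) (hx' : x ≤ 3 / 4) (hH : 23 / 5 < H) :
    ∃ s : ℝ, 0 < s ∧ s < 1 ∧ 1 < 8 / 3 * s * x ∧
      3 / (8 * s * (x * (1 - x))) + 2 / (8 / 3 * s * x - 1) ≤ H := by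
  have hH0 : 0 < H := by linarith
  obtain ⟨h, hh0, hh1, hh⟩ : ∃ h : ℝ, 0 < h ∧ h < 1 ∧ h * H = 23 / 5 :=
    ⟨23 / 5 / H, by positivity, (div_lt_one hH0).2 hH, div_mul_cancel₀ _ hH0.ne'⟩
  have ha := arith_a hx hx'
  have hpos : 0 < 8 / 3 * x - 1 := by linarith
  have hpos' : 0 < x * (1 - x) := mul_pos (by linarith) (by linarith)
  have hs : h ≤ 1 - 2 / 5 * (1 - h) := by linarith
  have hk : (8 / 3 * x - 1) * h ≤ 8 / 3 * (1 - 2 / 5 * (1 - h)) * x - 1 := by nlinarith
  have hk0 : 0 < (8 / 3 * x - 1) * h := by positivity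
  refine ⟨1 - 2 / 5 * (1 - h), by linarith, by linarith, by linarith, ?_⟩
  have e1 : 3 / (8 * (1 - 2 / 5 * (1 - h)) * (x * (1 - x))) ≤ 3 / (8 * x * (1 - x)) / h := by
    rw [div_div]
    refine div_le_div_of_nonneg_left (by norm_num) (mul_pos (by linarith [hpos']) hh0) ?_
    nlinarith
  have e2 : 2 / (8 / 3 * (1 - 2 / 5 * (1 - h)) * x - 1) ≤ 2 / (8 / 3 * x - 1) / h := by
    rw [div_div]
    exact div_le_div_of_nonneg_left (by norm_num) hk0 hk
  have e3 : (3 / (8 * x * (1 - x)) + 2 / (8 / 3 * x - 1)) / h ≤ H := by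
    rw [div_le_iff₀ hh0]
    linarith
  rw [add_div] at e3
  linarith

/-- the bound for `H`, if the longer boundary circle has length `x L` -/
lemma arith_c {L l0 l1 H : ℝ} (h0 : 0 < l0) (h1 : 0 < l1) (hL : L = l0 + l1) (hx : 5 / 8 * L ≤ l1)
    (hx' : l1 ≤ 3 / 4 * L) (hH : 23 / 5 < H) :
    ∃ Λ : ℝ, Λ * L < 16 * π / 3 ∧ 2 * π < Λ * l1 ∧
      1 / (Λ * l0) + 1 / (Λ * l1) + 2 / (Λ * l1 - 2 * π) ≤ H / (2 * π) := by
  have hp := pi_pos
  have hL0 : 0 < L := by linarith
  have e0 : l0 = (1 - l1 / L) * L := by field_simp; linarith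
  have e1 : l1 = l1 / L * L := by field_simp
  obtain ⟨s, hs0, hs1, hs2, hs3⟩ := arith_b (x := l1 / L) (by rw [le_div_iff₀ hL0]; linarith)
    (by rw [div_le_iff₀ hL0]; linarith) hH
  set x := l1 / L with hx
  have hx0 : 0 < x := by positivity
  have hx1 : 0 < 1 - x := by
    have : 0 < (1 - x) * L := by rw [← e0]; exact h0
    exact (pos_iff_pos_of_mul_pos this).2 hL0
  refine ⟨16 * π / 3 * s / L, ?_, ?_, ?_⟩
  · rw [div_mul_cancel₀ _ hL0.ne']
    nlinarith
  · rw [e1]
    have : 16 * π / 3 * s / L * (x * L) = 2 * π * (8 / 3 * s * x) := by field_simp; ring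
    rw [this]
    nlinarith
  · have a1 : 16 * π / 3 * s / L * l1 = 2 * π * (8 / 3 * s * x) := by
      rw [e1]; field_simp; ring
    have a0 : 16 * π / 3 * s / L * l0 = 2 * π * (8 / 3 * s * (1 - x)) := by
      rw [e0]; field_simp; ring
    rw [a1, a0]
    have b1 : 1 / (2 * π * (8 / 3 * s * (1 - x))) + 1 / (2 * π * (8 / 3 * s * x)) =
        3 / (8 * s * (x * (1 - x))) / (2 * π) := by
      field_simp
      ring
    have hy : 0 < 8 / 3 * s * x - 1 := by linarith
    have b2 : 2 / (2 * π * (8 / 3 * s * x) - 2 * π) = 2 / (8 / 3 * s * x - 1) / (2 * π) := by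
      rw [show 2 * π * (8 / 3 * s * x) - 2 * π = 2 * π * (8 / 3 * s * x - 1) by ring]
      field_simp
    rw [b1, b2, ← add_div]
    exact div_le_div_of_nonneg_right hs3 (by positivity)

/-- the lengths of the boundary circles of a maximal metric -/
lemma IsMaximal.sides (hM : IsMaximal E F G) (h : IsIsothermal H E F G) :
    5 / 8 * len G ≤ max (side G 0) (side G 1) ∧ max (side G 0) (side G 1) ≤ 3 / 4 * len G := by
  have h1 := side_one h.metric h.pos h.cross h.conf
  have h0 := side_zero h.metric h.pos h.cross h.conf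
  have hm := side_min h.metric h.pos h.cross h.conf
  have hg := hM.ge
  have hL := len_pos h.metric
  have hL' := len_eq h.metric
  have hp := pi_pos
  have hs : 0 < sigma2 E F G := by
    by_contra hcon
    push Not at hcon
    have := mul_nonpos_of_nonpos_of_nonneg hcon hL.le
    nlinarith
  have hmax : sigma2 E F G * max (side G 0) (side G 1) ≤ 4 * π := by
    rcases max_choice (side G 0) (side G 1) with e | e <;> rw [e] <;> assumption
  have hsum : max (side G 0) (side G 1) + min (side G 0) (side G 1) = len G := by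
    rw [max_add_min, hL']
  constructor
  · by_contra hcon
    push Not at hcon
    have h5 : 3 / 8 * len G < min (side G 0) (side G 1) := by linarith
    have := mul_lt_mul_of_pos_left h5 hs
    linarith
  · by_contra hcon
    push Not at hcon
    have := mul_lt_mul_of_pos_left hcon hs
    linarith

/-- the conformal modulus of a maximal metric is at most `23 / 5` -/
lemma IsMaximal.modulus (hM : IsMaximal E F G) (h : IsIsothermal H E F G) : H ≤ 23 / 5 := by
  by_contra hcon
  push Not at hcon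
  have h0 : 0 < side G 0 := side_pos h.metric (by simp)
  have h1 : 0 < side G 1 := side_pos h.metric (by simp)
  have hL' := len_eq h.metric
  have hL := len_pos h.metric
  obtain ⟨hs1, hs2⟩ := hM.sides h
  have hg := hM.ge
  rcases max_choice (side G 0) (side G 1) with e | e
  · rw [e] at hs1 hs2
    obtain ⟨Λ, a, b, c⟩ := arith_c h1 h0 (by rw [hL', add_comm]) hs1 hs2 hcon
    have := long_bound' h.metric h.pos h.cross h.conf b c
    have := mul_le_mul_of_nonneg_right this hL.le
    linarith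
  · rw [e] at hs1 hs2
    obtain ⟨Λ, a, b, c⟩ := arith_c h0 h1 hL' hs1 hs2 hcon
    have := long_bound h.metric h.pos h.cross h.conf b c
    have := mul_le_mul_of_nonneg_right this hL.le
    linarith

/-- the moments of a maximal metric -/
lemma IsMaximal.moments (hM : IsMaximal E F G) (h : IsIsothermal H E F G) :
    1 - 3 / 4 * tanh (H / 2) ≤ ‖moment G 1‖ ^ 2 + ‖moment G 2 - moment G 1 ^ 2‖ := by
  by_contra hcon
  push Not at hcon
  have h1 : sigma2 E F G * len G * (1 - ‖moment G 1‖ ^ 2 - ‖moment G 2 - moment G 1 ^ 2‖) ≤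
      4 * π * tanh (H / 2) := upper h.metric h.pos h.cross h.conf
  have hg := hM.ge
  have hp := pi_pos
  have ht : 0 < tanh (H / 2) := by
    rw [tanh_eq_sinh_div_cosh]
    exact div_pos (sinh_pos_iff.2 (by linarith [h.pos])) (cosh_pos _)
  set d := 1 - ‖moment G 1‖ ^ 2 - ‖moment G 2 - moment G 1 ^ 2‖ with hd
  have h2 : 3 / 4 * tanh (H / 2) < d := by rw [hd]; linarith
  have h3 : 16 * π / 3 * d ≤ sigma2 E F G * len G * d :=
    mul_le_mul_of_nonneg_right hg (by linarith)
  nlinarith

/-- no isometry exchanges the boundary circles -/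
lemma IsMaximal.no_exchange (hM : IsMaximal E F G) (h : IsIsothermal H E F G) {ε α : ℝ}
    (hε : ε = 1 ∨ ε = -1) : ∃ r ∈ Icc (0:ℝ) 1, ∃ θ : ℝ, G (1 - r, ε * θ + α) ≠ G (r, θ) := by
  by_contra hcon
  push Not at hcon
  have h1 := hcon 1 (by simp)
  rw [sub_self] at h1
  have hper : Function.Periodic (fun θ => √(G (0, θ))) (2 * π) := fun θ => rho_per h.metric 0 θ
  have hs : side G 1 = side G 0 := by
    unfold side
    have e1 : (∫ θ in (0:ℝ)..(2 * π), √(G (1, θ))) = ∫ θ in (0:ℝ)..(2 * π), √(G (0, ε * θ + α)) :=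
      intervalIntegral.integral_congr fun θ _ => by simp only [h1]
    rw [e1]
    rcases hε with rfl | rfl
    · simp only [one_mul]
      rw [intervalIntegral.integral_comp_add_right (fun θ => √(G (0, θ))) α]
      have := hper.intervalIntegral_add_eq 0 (0 + α)
      rw [zero_add] at this
      rw [this]
      congr 1
      ring
    · have e2 : (∫ θ in (0:ℝ)..(2 * π), √(G (0, -1 * θ + α))) =
          ∫ θ in (0:ℝ)..(2 * π), √(G (0, α - θ)) :=
        intervalIntegral.integral_congr fun θ _ => by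
          have e3 : -1 * θ + α = α - θ := by ring
          simp only [e3]
      rw [e2, intervalIntegral.integral_comp_sub_left (fun θ => √(G (0, θ))) α]
      have := hper.intervalIntegral_add_eq (α - 2 * π) 0
      rw [zero_add] at this
      rw [← this]
      congr 1
      ring
  obtain ⟨hs1, -⟩ := hM.sides h
  have hL' := len_eq h.metric
  have hL := len_pos h.metric
  rw [hs, max_self] at hs1
  linarith

/-- no rotation by an angle other than `π` is an isometry -/
lemma IsMaximal.no_rotation (hM : IsMaximal E F G) (h : IsIsothermal H E F G) {α : ℝ}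
    (hα : sin α ≠ 0) : ∃ r ∈ Icc (0:ℝ) 1, ∃ θ : ℝ, G (r, θ + α) ≠ G (r, θ) := by
  by_contra hcon
  push Not at hcon
  have hd : ∀ θ, dens G (θ + α) = dens G θ := fun θ => by
    unfold dens
    rw [hcon 0 (by simp), hcon 1 (by simp)]
  have m1 := moment_eq_zero h.metric hα hd 1 (Or.inl rfl)
  have m2 := moment_eq_zero h.metric hα hd 2 (Or.inr rfl)
  have h1 := hM.moments h
  rw [m1, m2] at h1
  have h2 := tanh_lt_one' (H / 2)
  simp at h1
  linarith

/-- if the rotation by `π` is an isometry, then the modulus is at most `2` -/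
lemma IsMaximal.half_turn (hM : IsMaximal E F G) (h : IsIsothermal H E F G)
    (hG : ∀ r ∈ Icc (0:ℝ) 1, ∀ θ : ℝ, G (r, θ + π) = G (r, θ)) : H ≤ 2 := by
  by_contra hcon
  push Not at hcon
  have hp := pi_pos
  have h0 : 0 < side G 0 := side_pos h.metric (by simp)
  have h1 : 0 < side G 1 := side_pos h.metric (by simp)
  have hL' := len_eq h.metric
  have hL := len_pos h.metric
  obtain ⟨hs1, hs2⟩ := hM.sides h
  have hg := hM.ge
  have hprod : 3 / 16 * len G ^ 2 ≤ side G 0 * side G 1 := by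
    rcases max_choice (side G 0) (side G 1) with e | e
    · rw [e] at hs1 hs2
      have : side G 1 = len G - side G 0 := by linarith
      rw [this]
      nlinarith [mul_nonneg (sub_nonneg.2 hs1) (sub_nonneg.2 hs2)]
    · rw [e] at hs1 hs2
      have : side G 0 = len G - side G 1 := by linarith
      rw [this]
      nlinarith [mul_nonneg (sub_nonneg.2 hs1) (sub_nonneg.2 hs2)]
  -- the bound is `(16 π / 3) * s / L`
  obtain ⟨s, hs0, hs, hsH, hst⟩ : ∃ s : ℝ, 0 < s ∧ s < 1 ∧ 2 ≤ H * s ∧ 3 / 4 ≤ s :=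
    ⟨max (2 / H) (3 / 4), lt_of_lt_of_le (by norm_num) (le_max_right _ _),
      max_lt ((div_lt_one (by linarith)).2 hcon) (by norm_num), by
        have := mul_le_mul_of_nonneg_left (le_max_left (2 / H) (3 / 4)) h.pos.le
        rwa [mul_div_cancel₀ _ h.pos.ne'] at this, le_max_right _ _⟩
  have hb : sigma2 E F G ≤ 16 * π / 3 * s / len G := by
    refine half_bound h.metric h.pos h.cross h.conf (fun θ => hG 0 (by simp) θ)
      (fun θ => hG 1 (by simp) θ) (by positivity) ?_ ?_
    · rw [div_mul_cancel₀ _ hL.ne']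
      have := tanh_lt_one' (H / 2)
      nlinarith
    · have e : 2 * π / H * (1 / side G 0 + 1 / side G 1) =
          2 * π * len G / (H * (side G 0 * side G 1)) := by
        rw [hL']
        have := h.pos
        field_simp
        ring
      rw [e, div_le_div_iff₀ (mul_pos h.pos (mul_pos h0 h1)) hL]
      have e3 : 3 / 16 * len G ^ 2 * (H * s) ≤ side G 0 * side G 1 * (H * s) :=
        mul_le_mul_of_nonneg_right hprod (by positivity)
      have e4 : 3 / 16 * len G ^ 2 * 2 ≤ 3 / 16 * len G ^ 2 * (H * s) :=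
        mul_le_mul_of_nonneg_left hsH (by positivity)
      nlinarith [mul_le_mul_of_nonneg_left (e4.trans e3) (by positivity : (0:ℝ) ≤ 16 * π / 3)]
  have hc := mul_le_mul_of_nonneg_right hb hL.le
  rw [div_mul_cancel₀ _ hL.ne'] at hc
  nlinarith

end Pool.Agent.Helper22.Stek
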