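import Pool.Agent.Helper22.Stek.Hersch

/-! # Poisson type integrals and Möbius transformations -/

set_option autoImplicit false
open Real MeasureTheory Set ComplexConjugate

namespace Pool.Agent.Helper22.Stek

/-- the mean value property on the unit circle -/
lemma mvp {g : ℂ → ℂ} (hc : ContinuousOn g (Metric.closedBall 0 1))
    (hd : ∀ z ∈ Metric.ball (0:ℂ) 1, DifferentiableAt ℂ g z) :
    ∫ θ in (0:ℝ)..(2 * π), g (ee θ) = 2 * π * g 0 := by
  have h := circleAverage_of_differentiable_on_off_countable (f := g) (c := 0) (R := 1)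
    countable_empty (by simpa using hc) (by simpa using hd)
  rw [circleAverage_def] at h
  have h2 : ((2 * π : ℝ) : ℂ) * (((2 * π)⁻¹ : ℝ) • ∫ θ in (0:ℝ)..(2 * π), g (circleMap 0 1 θ)) =
      ((2 * π : ℝ) : ℂ) * g 0 := by rw [h]
  rw [Complex.real_smul, ← mul_assoc, ← Complex.ofReal_mul, mul_inv_cancel₀ (by positivity),
    Complex.ofReal_one, one_mul] at h2
  have h3 : ∫ θ in (0:ℝ)..(2 * π), g (ee θ) = ((2 * π : ℝ) : ℂ) * g 0 := h2
  rw [h3]
  push_cast
  ring

lemma one_sub_ne {b z : ℂ} (hb : ‖b‖ < 1) (hz : ‖z‖ ≤ 1) : 1 - b * z ≠ 0 := by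
  intro h
  have h1 : ‖b * z‖ = 1 := by
    have : b * z = 1 := (sub_eq_zero.1 h).symm
    rw [this, norm_one]
  rw [norm_mul] at h1
  nlinarith [norm_nonneg b, norm_nonneg z]

lemma normSq_one_sub_ne {b : ℂ} (hb : ‖b‖ < 1) (θ : ℝ) : Complex.normSq (1 - b * ee θ) ≠ 0 := by
  intro h
  exact one_sub_ne hb (ee_norm θ).le (Complex.normSq_eq_zero.1 h)

lemma cont_inv_q {b : ℂ} (hb : ‖b‖ < 1) :
    Continuous fun θ => 1 / Complex.normSq (1 - b * ee θ) := by
  have := ee_cont
  exact Continuous.div continuous_const (Complex.continuous_normSq.comp (by fun_prop))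
    (normSq_one_sub_ne hb)

lemma normSq_lt_one {b : ℂ} (hb : ‖b‖ < 1) : Complex.normSq b < 1 := by
  rw [Complex.normSq_eq_norm_sq]
  nlinarith [norm_nonneg b]

/-- the real part of `(1 + b e) / (1 - b e)` -/
lemma herglotz_re (b : ℂ) (θ : ℝ) :
    ((1 + b * ee θ) / (1 - b * ee θ)).re = (1 - Complex.normSq b) *
      (1 / Complex.normSq (1 - b * ee θ)) := by
  have h1 : Complex.normSq (b * ee θ) = Complex.normSq b := by
    rw [Complex.normSq_mul, ee_normSq, mul_one]
  rw [Complex.div_re, ← h1]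
  set z := b * ee θ
  rw [Complex.normSq_apply z]
  simp
  ring

lemma herglotz_normSq {b : ℂ} (hb : ‖b‖ < 1) (θ : ℝ) :
    Complex.normSq ((1 + b * ee θ) / (1 - b * ee θ)) = 2 * (1 + Complex.normSq b) *
      (1 / Complex.normSq (1 - b * ee θ)) - 1 := by
  have h1 : Complex.normSq (b * ee θ) = Complex.normSq b := by
    rw [Complex.normSq_mul, ee_normSq, mul_one]
  have h2 := normSq_one_sub_ne hb θ
  rw [Complex.normSq_div, ← h1]
  set z := b * ee θ
  field_simp
  rw [Complex.normSq_apply z, Complex.normSq_apply (1 + z), Complex.normSq_apply (1 - z)]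
  simp
  ring

/-- **the Poisson integral** -/
lemma poisson1 {b : ℂ} (hb : ‖b‖ < 1) :
    ∫ θ in (0:ℝ)..(2 * π), 1 / Complex.normSq (1 - b * ee θ) =
      2 * π / (1 - Complex.normSq b) := by
  have hns := normSq_lt_one hb
  have h := mvp (g := fun z => (1 + b * z) / (1 - b * z))
    (ContinuousOn.div (by fun_prop) (by fun_prop) fun z hz =>
      one_sub_ne hb (by simpa using hz))
    (fun z hz => DifferentiableAt.div (by fun_prop) (by fun_prop)
      (one_sub_ne hb (by simpa using (Metric.mem_ball.1 hz).le)))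
  have hee := ee_cont
  have hcont : Continuous fun θ => (1 + b * ee θ) / (1 - b * ee θ) :=
    Continuous.div (by fun_prop) (by fun_prop) fun θ => one_sub_ne hb (ee_norm θ).le
  have h2 : ∫ θ in (0:ℝ)..(2 * π), ((1 + b * ee θ) / (1 - b * ee θ)).re = 2 * π := by
    have h3 := Complex.reCLM.intervalIntegral_comp_comm
      (hcont.intervalIntegrable (μ := volume) 0 (2 * π))
    change ∫ θ in (0:ℝ)..(2 * π), ((1 + b * ee θ) / (1 - b * ee θ)).re =
      (∫ θ in (0:ℝ)..(2 * π), (1 + b * ee θ) / (1 - b * ee θ)).re at h3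
    rw [h3, h]
    simp
  simp_rw [herglotz_re b] at h2
  rw [intervalIntegral.integral_const_mul] at h2
  rw [eq_div_iff (by linarith)]
  linarith

lemma int_comb {q : ℝ → ℝ} (hq : Continuous q) (A B : ℝ) :
    ∫ θ in (0:ℝ)..(2 * π), (A * q θ ^ 2 - (B * q θ - 1)) =
      A * (∫ θ in (0:ℝ)..(2 * π), q θ ^ 2) - (B * (∫ θ in (0:ℝ)..(2 * π), q θ) - 2 * π) := by
  have h1 : IntervalIntegrable (fun θ => A * q θ ^ 2) volume 0 (2 * π) :=
    Continuous.intervalIntegrable (by fun_prop) _ _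
  have h2 : IntervalIntegrable (fun θ => B * q θ - 1) volume 0 (2 * π) :=
    Continuous.intervalIntegrable (by fun_prop) _ _
  have h3 : IntervalIntegrable (fun θ => B * q θ) volume 0 (2 * π) :=
    Continuous.intervalIntegrable (by fun_prop) _ _
  have h4 : IntervalIntegrable (fun _ : ℝ => (1:ℝ)) volume 0 (2 * π) :=
    Continuous.intervalIntegrable (by fun_prop) _ _
  rw [intervalIntegral.integral_sub h1 h2, intervalIntegral.integral_sub h3 h4,
    intervalIntegral.integral_const_mul, intervalIntegral.integral_const_mul]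
  simp

lemma re_sq (w : ℂ) : (w ^ 2).re = 2 * w.re ^ 2 - Complex.normSq w := by
  rw [sq, Complex.mul_re, Complex.normSq_apply]
  ring

lemma herglotz_sq {b : ℂ} (hb : ‖b‖ < 1) :
    ∫ θ in (0:ℝ)..(2 * π), (((1 + b * ee θ) / (1 - b * ee θ)) ^ 2).re = 2 * π := by
  have hc1 : ContinuousOn (fun z => (1 + b * z) / (1 - b * z)) (Metric.closedBall 0 1) :=
    ContinuousOn.div (by fun_prop) (by fun_prop) fun z hz => one_sub_ne hb (by simpa using hz)
  have hd1 : ∀ z ∈ Metric.ball (0:ℂ) 1,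
      DifferentiableAt ℂ (fun z => (1 + b * z) / (1 - b * z)) z :=
    fun z hz => DifferentiableAt.div (by fun_prop) (by fun_prop)
      (one_sub_ne hb (by simpa using (Metric.mem_ball.1 hz).le))
  have h := mvp (g := fun z => ((1 + b * z) / (1 - b * z)) ^ 2)
    (hc1.fun_pow 2) (fun z hz => (hd1 z hz).fun_pow 2)
  have hee := ee_cont
  have hcont : Continuous fun θ => (1 + b * ee θ) / (1 - b * ee θ) :=
    Continuous.div (by fun_prop) (by fun_prop) fun θ => one_sub_ne hb (ee_norm θ).le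
  have h3 := Complex.reCLM.intervalIntegral_comp_comm
      ((hcont.pow 2).intervalIntegrable (μ := volume) 0 (2 * π))
  change ∫ θ in (0:ℝ)..(2 * π), (((1 + b * ee θ) / (1 - b * ee θ)) ^ 2).re =
      (∫ θ in (0:ℝ)..(2 * π), ((1 + b * ee θ) / (1 - b * ee θ)) ^ 2).re at h3
  rw [h3, h]
  simp

/-- the square of the Poisson kernel -/
lemma poisson2 {b : ℂ} (hb : ‖b‖ < 1) :
    ∫ θ in (0:ℝ)..(2 * π), (1 / Complex.normSq (1 - b * ee θ)) ^ 2 =
      2 * π * (1 + Complex.normSq b) / (1 - Complex.normSq b) ^ 3 := by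
  have hns := normSq_lt_one hb
  have h2 := herglotz_sq hb
  have h4 : ∀ θ, (((1 + b * ee θ) / (1 - b * ee θ)) ^ 2).re =
      2 * (1 - Complex.normSq b) ^ 2 * (1 / Complex.normSq (1 - b * ee θ)) ^ 2 -
        (2 * (1 + Complex.normSq b) * (1 / Complex.normSq (1 - b * ee θ)) - 1) := by
    intro θ
    rw [re_sq, herglotz_re b, herglotz_normSq hb]
    ring
  rw [intervalIntegral.integral_congr (fun θ _ => h4 θ), int_comb (cont_inv_q hb), poisson1 hb] at h2
  generalize Complex.normSq b = s at h2 hns ⊢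
  generalize (∫ θ in (0:ℝ)..(2 * π), (1 / Complex.normSq (1 - b * ee θ)) ^ 2) = I at h2 ⊢
  have hs : 1 - s ≠ 0 := by linarith
  have h5 : (1 - s) * (2 * π / (1 - s)) = 2 * π := mul_div_cancel₀ _ hs
  rw [eq_div_iff (pow_ne_zero 3 hs)]
  linear_combination (1 / 2) * (1 - s) * h2 + (1 + s) * h5

lemma mob_normSq (a z : ℂ) : Complex.normSq (1 - conj a * z) - Complex.normSq (z - a) =
    (1 - Complex.normSq a) * (1 - Complex.normSq z) := by
  rw [Complex.normSq_apply, Complex.normSq_apply, Complex.normSq_apply, Complex.normSq_apply]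
  simp
  ring

lemma conj_norm_lt {a : ℂ} (ha : ‖a‖ < 1) : ‖conj a‖ < 1 := by rwa [Complex.norm_conj]

lemma mob_norm_le {a z : ℂ} (ha : ‖a‖ < 1) (hz : ‖z‖ ≤ 1) : ‖mob a z‖ ≤ 1 := by
  have h1 := one_sub_ne (conj_norm_lt ha) hz
  have h2 := mob_normSq a z
  have h3 := normSq_lt_one ha
  have h4 : Complex.normSq z ≤ 1 := by
    rw [Complex.normSq_eq_norm_sq]
    exact pow_le_one₀ (norm_nonneg _) hz
  have h5 : ‖z - a‖ ^ 2 ≤ ‖1 - conj a * z‖ ^ 2 := by
    rw [← Complex.normSq_eq_norm_sq, ← Complex.normSq_eq_norm_sq]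
    nlinarith [mul_nonneg (sub_nonneg.2 h3.le) (sub_nonneg.2 h4)]
  unfold mob
  rw [norm_div, div_le_one (norm_pos_iff.2 h1)]
  exact (pow_le_pow_iff_left₀ (norm_nonneg _) (norm_nonneg _) two_ne_zero).1 h5

lemma mob_norm_ee {a : ℂ} (ha : ‖a‖ < 1) (θ : ℝ) : Complex.normSq (mob a (ee θ)) = 1 := by
  have h1 := one_sub_ne (conj_norm_lt ha) (ee_norm θ).le
  have h2 := mob_normSq a (ee θ)
  rw [ee_normSq, sub_self, mul_zero] at h2
  unfold mob
  rw [Complex.normSq_div, div_eq_one_iff_eq]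
  · linarith
  · intro h
    exact h1 (Complex.normSq_eq_zero.1 h)

end Pool.Agent.Helper22.Stek
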