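import Pool.Agent.Helper22.Stek.Defs

/-! # Upper bound for `σ₂` by the moments of the boundary -/

set_option autoImplicit false
open Real MeasureTheory Set

namespace Pool.Agent.Helper22.Stek

section General

variable {E F G : ℝ × ℝ → ℝ}

lemma IsMetric.posG (h : IsMetric E F G) {x : ℝ × ℝ} (hx : x.1 ∈ Icc (0:ℝ) 1) : 0 < G x := by
  obtain ⟨h1, h2⟩ := h.pos x hx
  by_contra h3
  push Not at h3
  nlinarith [sq_nonneg (F x), mul_nonpos_of_nonneg_of_nonpos h1.le h3]

lemma dens_pos (h : IsMetric E F G) (θ : ℝ) : 0 < dens G θ := by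
  have h1 := h.posG (x := (0, θ)) (by simp)
  have h2 := h.posG (x := (1, θ)) (by simp)
  exact add_pos (sqrt_pos.2 h1) (sqrt_pos.2 h2)

lemma dens_cont (h : IsMetric E F G) : Continuous (dens G) := by
  have hc := h.smoothG.continuous
  unfold dens
  fun_prop

lemma dens_per (h : IsMetric E F G) (θ : ℝ) : dens G (θ + 2 * π) = dens G θ := by
  unfold dens
  rw [(h.per 0 θ).2.2, (h.per 1 θ).2.2]

lemma len_pos (h : IsMetric E F G) : 0 < len G := by
  unfold len
  rw [integral_Icc_eq_integral_Ioc, ← intervalIntegral.integral_of_le (by positivity)]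
  exact intervalIntegral.intervalIntegral_pos_of_pos ((dens_cont h).intervalIntegrable _ _)
    (dens_pos h) (by positivity)

lemma bdry_nonneg (w : ℝ × ℝ → ℝ) : 0 ≤ bdry G w := by
  unfold bdry
  refine setIntegral_nonneg measurableSet_Icc fun θ _ => ?_
  positivity

lemma energy_nonneg (h : IsMetric E F G) (w : ℝ × ℝ → ℝ) : 0 ≤ energy E F G w := by
  unfold energy
  refine setIntegral_nonneg (measurableSet_Icc.prod measurableSet_Icc) fun x hx => ?_
  have hx1 : x.1 ∈ Icc (0:ℝ) 1 := hx.1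
  obtain ⟨h1, h2⟩ := h.pos x hx1
  refine div_nonneg ?_ (sqrt_nonneg _)
  have h3 : 0 < G x := h.posG hx1
  set a := fderiv ℝ w x ((1:ℝ), (0:ℝ))
  set b := fderiv ℝ w x ((0:ℝ), (1:ℝ))
  have h4 : 0 ≤ E x * (G x * a ^ 2 - 2 * F x * a * b + E x * b ^ 2) := by
    nlinarith [sq_nonneg (E x * b - F x * a), mul_nonneg h2.le (sq_nonneg a)]
  exact nonneg_of_mul_nonneg_right h4 h1

lemma maxQuot_nonneg (h : IsMetric E F G) (u : Fin 3 → ℝ × ℝ → ℝ) : 0 ≤ maxQuot E F G u :=
  Real.iSup_nonneg fun _ => div_nonneg (energy_nonneg h _) (bdry_nonneg _)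

lemma sigma2_le (h : IsMetric E F G) {u : Fin 3 → ℝ × ℝ → ℝ} (hu : Adm u) :
    sigma2 E F G ≤ maxQuot E F G u := by
  refine csInf_le ⟨0, ?_⟩ ⟨u, hu, rfl⟩
  rintro s ⟨v, _, rfl⟩
  exact maxQuot_nonneg h v

lemma sigma2_nonneg (h : IsMetric E F G) : 0 ≤ sigma2 E F G := by
  refine Real.sInf_nonneg ?_
  rintro s ⟨v, _, rfl⟩
  exact maxQuot_nonneg h v

end General

/-- the test functions `1`, `cosh (H (r - 1/2)) cos θ / cosh (H/2)`, and the same with `sin θ` -/
noncomputable def test (H : ℝ) : Fin 3 → ℝ × ℝ → ℝ :=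
  ![fun _ => 1, fun x => cosh (H * (x.1 - 1 / 2)) / cosh (H / 2) * cos x.2,
    fun x => cosh (H * (x.1 - 1 / 2)) / cosh (H / 2) * sin x.2]

lemma test_comb (H : ℝ) (c : Fin 3 → ℝ) : ∑ i, c i • test H i =
    fun x => c 0 + cosh (H * (x.1 - 1 / 2)) / cosh (H / 2) * (c 1 * cos x.2 + c 2 * sin x.2) := by
  funext x
  rw [Fin.sum_univ_three]
  simp only [test, Pi.add_apply, Pi.smul_apply, smul_eq_mul, Matrix.cons_val_zero,
    Matrix.cons_val_one, Matrix.cons_val_two, Matrix.head_cons, Matrix.tail_cons]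
  simp
  ring

lemma adm_test (H : ℝ) : Adm (test H) where
  smooth i := by
    fin_cases i
    · exact ⟨by simp only [test]; exact contDiff_const, fun r θ => by simp [test]⟩
    · refine ⟨?_, fun r θ => ?_⟩
      · simp only [test]
        show ContDiff ℝ _ (fun x : ℝ × ℝ => cosh (H * (x.1 - 1 / 2)) / cosh (H / 2) * cos x.2)
        have : ContDiff ℝ (⊤ : ℕ∞) (fun x : ℝ × ℝ => cosh (H * (x.1 - 1 / 2))) :=
          Real.contDiff_cosh.comp (by fun_prop)
        exact (this.div_const _).mul (Real.contDiff_cos.comp contDiff_snd)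
      · simp [test]
    · refine ⟨?_, fun r θ => ?_⟩
      · simp only [test]
        show ContDiff ℝ _ (fun x : ℝ × ℝ => cosh (H * (x.1 - 1 / 2)) / cosh (H / 2) * sin x.2)
        have : ContDiff ℝ (⊤ : ℕ∞) (fun x : ℝ × ℝ => cosh (H * (x.1 - 1 / 2))) :=
          Real.contDiff_cosh.comp (by fun_prop)
        exact (this.div_const _).mul (Real.contDiff_sin.comp contDiff_snd)
      · simp [test]
  indep c hc := by
    have key : ∀ θ : ℝ, c 0 + (c 1 * cos θ + c 2 * sin θ) = 0 := by
      intro θ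
      have h1 := (hc θ).2
      have h2 := congrFun (test_comb H c) (1, θ)
      simp only [Finset.sum_apply, Pi.smul_apply, smul_eq_mul] at h2
      rw [h2] at h1
      have h3 : cosh (H * (1 - 1 / 2)) = cosh (H / 2) := by congr 1; ring
      rw [h3, div_self (cosh_pos _).ne', one_mul] at h1
      exact h1
    have h0 := key 0
    have h1 := key π
    have h2 := key (π / 2)
    simp at h0 h1 h2
    funext i
    fin_cases i
    · show c 0 = 0; linarith
    · show c 1 = 0; linarith
    · show c 2 = 0; linarith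

end Pool.Agent.Helper22.Stek
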