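import Pool.Agent.Helper22.Stek.Upper

/-! # The energy and the boundary integral of the test functions -/

set_option autoImplicit false
open Real MeasureTheory Set

namespace Pool.Agent.Helper22.Stek

/-- the functions in the span of the test functions -/
noncomputable def wfun (H : ℝ) (c : Fin 3 → ℝ) (x : ℝ × ℝ) : ℝ :=
  c 0 + cosh (H * (x.1 - 1 / 2)) / cosh (H / 2) * (c 1 * cos x.2 + c 2 * sin x.2)

lemma wfun_hasFDerivAt (H : ℝ) (c : Fin 3 → ℝ) (x : ℝ × ℝ) :
    HasFDerivAt (wfun H c)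
      ((H * sinh (H * (x.1 - 1 / 2)) / cosh (H / 2) * (c 1 * cos x.2 + c 2 * sin x.2)) •
          ContinuousLinearMap.fst ℝ ℝ ℝ +
        (cosh (H * (x.1 - 1 / 2)) / cosh (H / 2) * (-(c 1) * sin x.2 + c 2 * cos x.2)) •
          ContinuousLinearMap.snd ℝ ℝ ℝ) x := by
  have h1 : HasDerivAt (fun r : ℝ => cosh (H * (r - 1 / 2)) / cosh (H / 2))
      (H * sinh (H * (x.1 - 1 / 2)) / cosh (H / 2)) x.1 := by
    have h2 : HasDerivAt (fun r : ℝ => H * (r - 1 / 2)) H x.1 := by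
      have := ((hasDerivAt_id x.1).sub_const (1 / 2)).const_mul H
      rw [mul_one] at this
      exact this
    exact ((h2.cosh).div_const (cosh (H / 2))).congr_deriv (by ring)
  have h2 : HasDerivAt (fun θ : ℝ => c 1 * cos θ + c 2 * sin θ)
      (-(c 1) * sin x.2 + c 2 * cos x.2) x.2 := by
    exact (((hasDerivAt_cos x.2).const_mul (c 1)).add
      ((hasDerivAt_sin x.2).const_mul (c 2))).congr_deriv (by ring)
  have h1' := h1.comp_hasFDerivAt x (hasFDerivAt_fst (𝕜 := ℝ) (E := ℝ) (F := ℝ))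
  have h2' := h2.comp_hasFDerivAt x (hasFDerivAt_snd (𝕜 := ℝ) (E := ℝ) (F := ℝ))
  have h3 := (h1'.mul h2').const_add (c 0)
  have h4 : HasFDerivAt (wfun H c) _ x := h3
  refine h4.congr_fderiv ?_
  ext <;> simp; ring

lemma wfun_fst (H : ℝ) (c : Fin 3 → ℝ) (x : ℝ × ℝ) : fderiv ℝ (wfun H c) x ((1:ℝ), (0:ℝ)) =
    H * sinh (H * (x.1 - 1 / 2)) / cosh (H / 2) * (c 1 * cos x.2 + c 2 * sin x.2) := by
  rw [(wfun_hasFDerivAt H c x).fderiv]
  simp

lemma wfun_snd (H : ℝ) (c : Fin 3 → ℝ) (x : ℝ × ℝ) : fderiv ℝ (wfun H c) x ((0:ℝ), (1:ℝ)) =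
    cosh (H * (x.1 - 1 / 2)) / cosh (H / 2) * (-(c 1) * sin x.2 + c 2 * cos x.2) := by
  rw [(wfun_hasFDerivAt H c x).fderiv]
  simp

lemma int_trig (a b : ℝ) : ∫ θ in Icc (0:ℝ) (2 * π), (a * cos θ + b * sin θ) ^ 2 =
    π * (a ^ 2 + b ^ 2) := by
  rw [integral_Icc_eq_integral_Ioc, ← intervalIntegral.integral_of_le (by positivity)]
  have h : ∀ θ ∈ uIcc (0:ℝ) (2 * π), HasDerivAt
      (fun θ => (a ^ 2 + b ^ 2) / 2 * θ + (a ^ 2 - b ^ 2) / 2 * (sin θ * cos θ) + a * b * sin θ ^ 2)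
      ((a * cos θ + b * sin θ) ^ 2) θ := by
    intro θ _
    have h1 := ((hasDerivAt_id θ).const_mul ((a ^ 2 + b ^ 2) / 2)).add
      (((hasDerivAt_sin θ).mul (hasDerivAt_cos θ)).const_mul ((a ^ 2 - b ^ 2) / 2))
    have h2 := h1.add (((hasDerivAt_sin θ).pow 2).const_mul (a * b))
    refine h2.congr_deriv ?_
    have h3 := sin_sq_add_cos_sq θ
    push_cast
    linear_combination (-(a ^ 2 + b ^ 2) / 2) * h3
  rw [intervalIntegral.integral_eq_sub_of_hasDerivAt h]
  · simp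
    ring
  · exact Continuous.intervalIntegrable (by fun_prop) _ _

lemma int_cosh {H : ℝ} (hH : 0 < H) :
    (∫ r in Icc (0:ℝ) 1, sinh (H * (r - 1 / 2)) ^ 2) + ∫ r in Icc (0:ℝ) 1,
      cosh (H * (r - 1 / 2)) ^ 2 = sinh H / H := by
  have c1 : Continuous fun r : ℝ => sinh (H * (r - 1 / 2)) ^ 2 := by
    exact (Real.continuous_sinh.comp (by fun_prop)).pow 2
  have c2 : Continuous fun r : ℝ => cosh (H * (r - 1 / 2)) ^ 2 := by
    exact (Real.continuous_cosh.comp (by fun_prop)).pow 2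
  rw [integral_Icc_eq_integral_Ioc, integral_Icc_eq_integral_Ioc,
    ← intervalIntegral.integral_of_le (by norm_num), ← intervalIntegral.integral_of_le (by norm_num),
    ← intervalIntegral.integral_add (c1.intervalIntegrable _ _) (c2.intervalIntegrable _ _)]
  have h : ∀ r ∈ uIcc (0:ℝ) 1, HasDerivAt
      (fun r => sinh (H * (r - 1 / 2)) * cosh (H * (r - 1 / 2)) / H)
      (sinh (H * (r - 1 / 2)) ^ 2 + cosh (H * (r - 1 / 2)) ^ 2) r := by
    intro r _
    have h2 : HasDerivAt (fun r : ℝ => H * (r - 1 / 2)) H r := by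
      have := ((hasDerivAt_id r).sub_const (1 / 2)).const_mul H
      rw [mul_one] at this
      exact this
    refine ((h2.sinh.mul h2.cosh).div_const H).congr_deriv ?_
    field_simp
    ring
  rw [intervalIntegral.integral_eq_sub_of_hasDerivAt h ((c1.add c2).intervalIntegrable _ _)]
  have h1 : H * (1 - 1 / 2) = H / 2 := by ring
  have h2 : H * (0 - 1 / 2) = -(H / 2) := by ring
  have h3 : sinh H = 2 * sinh (H / 2) * cosh (H / 2) := by
    rw [← sinh_two_mul]; congr 1; ring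
  rw [h1, h2, sinh_neg, cosh_neg, h3]
  ring

/-- the energy of the test functions for an isothermal metric -/
lemma energy_test {E F G : ℝ × ℝ → ℝ} (h : IsMetric E F G) {H : ℝ} (hH : 0 < H)
    (hF : ∀ x : ℝ × ℝ, x.1 ∈ Icc (0:ℝ) 1 → F x = 0)
    (hE : ∀ x : ℝ × ℝ, x.1 ∈ Icc (0:ℝ) 1 → E x = H ^ 2 * G x) (c : Fin 3 → ℝ) :
    energy E F G (wfun H c) = 2 * π * tanh (H / 2) * (c 1 ^ 2 + c 2 ^ 2) := by
  have e1 : energy E F G (wfun H c) =
      ∫ x in Icc (0:ℝ) 1 ×ˢ Icc (0:ℝ) (2 * π),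
        (H / cosh (H / 2) ^ 2 * sinh (H * (x.1 - 1 / 2)) ^ 2 * (c 1 * cos x.2 + c 2 * sin x.2) ^ 2 +
        H / cosh (H / 2) ^ 2 * cosh (H * (x.1 - 1 / 2)) ^ 2 *
          (c 2 * cos x.2 + (-(c 1)) * sin x.2) ^ 2) := by
    unfold energy
    refine setIntegral_congr_fun (measurableSet_Icc.prod measurableSet_Icc) fun x hx => ?_
    have hx1 : x.1 ∈ Icc (0:ℝ) 1 := hx.1
    have hG := h.posG hx1
    have hc := cosh_pos (H / 2)
    simp only [hF x hx1, hE x hx1, wfun_fst, wfun_snd]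
    have h1 : H ^ 2 * G x * G x - 0 ^ 2 = (H * G x) ^ 2 := by ring
    rw [h1, sqrt_sq (by positivity)]
    field_simp
    ring
  have k1 : IntegrableOn (fun x : ℝ × ℝ => H / cosh (H / 2) ^ 2 * sinh (H * (x.1 - 1 / 2)) ^ 2 *
      (c 1 * cos x.2 + c 2 * sin x.2) ^ 2) (Icc (0:ℝ) 1 ×ˢ Icc (0:ℝ) (2 * π)) := by
    refine ContinuousOn.integrableOn_compact (isCompact_Icc.prod isCompact_Icc) ?_
    have : Continuous (fun x : ℝ × ℝ => sinh (H * (x.1 - 1 / 2))) :=
      Real.continuous_sinh.comp (by fun_prop)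
    exact Continuous.continuousOn (by fun_prop)
  have k2 : IntegrableOn (fun x : ℝ × ℝ => H / cosh (H / 2) ^ 2 * cosh (H * (x.1 - 1 / 2)) ^ 2 *
          (c 2 * cos x.2 + (-(c 1)) * sin x.2) ^ 2) (Icc (0:ℝ) 1 ×ˢ Icc (0:ℝ) (2 * π)) := by
    refine ContinuousOn.integrableOn_compact (isCompact_Icc.prod isCompact_Icc) ?_
    have : Continuous (fun x : ℝ × ℝ => cosh (H * (x.1 - 1 / 2))) :=
      Real.continuous_cosh.comp (by fun_prop)
    exact Continuous.continuousOn (by fun_prop)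
  rw [e1, integral_add k1 k2]
  have p1 : ∫ x in Icc (0:ℝ) 1 ×ˢ Icc (0:ℝ) (2 * π),
      H / cosh (H / 2) ^ 2 * sinh (H * (x.1 - 1 / 2)) ^ 2 * (c 1 * cos x.2 + c 2 * sin x.2) ^ 2 =
      (∫ r in Icc (0:ℝ) 1, H / cosh (H / 2) ^ 2 * sinh (H * (r - 1 / 2)) ^ 2) *
        ∫ θ in Icc (0:ℝ) (2 * π), (c 1 * cos θ + c 2 * sin θ) ^ 2 := by
    rw [Measure.volume_eq_prod]
    exact setIntegral_prod_mul (fun r : ℝ => H / cosh (H / 2) ^ 2 * sinh (H * (r - 1 / 2)) ^ 2)
      (fun θ : ℝ => (c 1 * cos θ + c 2 * sin θ) ^ 2) _ _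
  have p2 : ∫ x in Icc (0:ℝ) 1 ×ˢ Icc (0:ℝ) (2 * π),
      H / cosh (H / 2) ^ 2 * cosh (H * (x.1 - 1 / 2)) ^ 2 *
        (c 2 * cos x.2 + (-(c 1)) * sin x.2) ^ 2 =
      (∫ r in Icc (0:ℝ) 1, H / cosh (H / 2) ^ 2 * cosh (H * (r - 1 / 2)) ^ 2) *
        ∫ θ in Icc (0:ℝ) (2 * π), (c 2 * cos θ + (-(c 1)) * sin θ) ^ 2 := by
    rw [Measure.volume_eq_prod]
    exact setIntegral_prod_mul (fun r : ℝ => H / cosh (H / 2) ^ 2 * cosh (H * (r - 1 / 2)) ^ 2)
      (fun θ : ℝ => (c 2 * cos θ + (-(c 1)) * sin θ) ^ 2) _ _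
  rw [p1, p2, int_trig, int_trig, integral_const_mul, integral_const_mul]
  have h2 := int_cosh hH
  have h3 : sinh H = 2 * sinh (H / 2) * cosh (H / 2) := by
    rw [← sinh_two_mul]; congr 1; ring
  have hc := cosh_pos (H / 2)
  have h4 : H / cosh (H / 2) ^ 2 * (sinh H / H) = 2 * tanh (H / 2) := by
    rw [h3, tanh_eq_sinh_div_cosh]
    field_simp
  linear_combination (H / cosh (H / 2) ^ 2 * π * (c 1 ^ 2 + c 2 ^ 2)) * h2 +
    (π * (c 1 ^ 2 + c 2 ^ 2)) * h4

/-- the boundary integral of the test functions -/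
lemma bdry_test {E F G : ℝ × ℝ → ℝ} (h : IsMetric E F G) (H : ℝ) (c : Fin 3 → ℝ) :
    bdry G (wfun H c) / len G = (c 0 + c 1 * (moment G 1).re + c 2 * (moment G 1).im) ^ 2 +
      ((c 1 ^ 2 + c 2 ^ 2) * (1 - ‖moment G 1‖ ^ 2) +
        (c 1 ^ 2 - c 2 ^ 2) * (moment G 2 - moment G 1 ^ 2).re +
        2 * c 1 * c 2 * (moment G 2 - moment G 1 ^ 2).im) / 2 := by
  have hL := len_pos h
  have hd := dens_cont h
  have e1 : bdry G (wfun H c) = ∫ θ in Icc (0:ℝ) (2 * π),
      ((c 0 ^ 2 + (c 1 ^ 2 + c 2 ^ 2) / 2) * dens G θ + 2 * c 0 * c 1 * (cos θ * dens G θ) +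
        2 * c 0 * c 2 * (sin θ * dens G θ) + (c 1 ^ 2 - c 2 ^ 2) / 2 * (cos (2 * θ) * dens G θ) +
        c 1 * c 2 * (sin (2 * θ) * dens G θ)) := by
    unfold bdry
    refine setIntegral_congr_fun measurableSet_Icc fun θ _ => ?_
    have hc := cosh_pos (H / 2)
    have a0 : wfun H c (0, θ) = c 0 + (c 1 * cos θ + c 2 * sin θ) := by
      unfold wfun
      have : H * (((0:ℝ), θ).1 - 1 / 2) = -(H / 2) := by simp; ring
      rw [this, cosh_neg, div_self hc.ne', one_mul]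
    have a1 : wfun H c (1, θ) = c 0 + (c 1 * cos θ + c 2 * sin θ) := by
      unfold wfun
      have : H * (((1:ℝ), θ).1 - 1 / 2) = H / 2 := by simp; ring
      rw [this, div_self hc.ne', one_mul]
    simp only [a0, a1, dens, cos_two_mul, sin_two_mul]
    have h3 := sin_sq_add_cos_sq θ
    linear_combination ((c 2 ^ 2) * (√(G (0, θ)) + √(G (1, θ)))) * h3
  have i0 : IntegrableOn (fun θ => dens G θ) (Icc (0:ℝ) (2 * π)) :=
    (Continuous.continuousOn (by fun_prop)).integrableOn_compact isCompact_Icc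
  have i1 : IntegrableOn (fun θ => cos θ * dens G θ) (Icc (0:ℝ) (2 * π)) :=
    (Continuous.continuousOn (by fun_prop)).integrableOn_compact isCompact_Icc
  have i2 : IntegrableOn (fun θ => sin θ * dens G θ) (Icc (0:ℝ) (2 * π)) :=
    (Continuous.continuousOn (by fun_prop)).integrableOn_compact isCompact_Icc
  have i3 : IntegrableOn (fun θ => cos (2 * θ) * dens G θ) (Icc (0:ℝ) (2 * π)) :=
    (Continuous.continuousOn (by fun_prop)).integrableOn_compact isCompact_Icc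
  have i4 : IntegrableOn (fun θ => sin (2 * θ) * dens G θ) (Icc (0:ℝ) (2 * π)) :=
    (Continuous.continuousOn (by fun_prop)).integrableOn_compact isCompact_Icc
  have e2 : bdry G (wfun H c) = (c 0 ^ 2 + (c 1 ^ 2 + c 2 ^ 2) / 2) * len G +
      2 * c 0 * c 1 * (len G * (moment G 1).re) + 2 * c 0 * c 2 * (len G * (moment G 1).im) +
      (c 1 ^ 2 - c 2 ^ 2) / 2 * (len G * (moment G 2).re) +
      c 1 * c 2 * (len G * (moment G 2).im) := by
    have m1 : len G * (moment G 1).re = ∫ θ in Icc (0:ℝ) (2 * π), cos θ * dens G θ := by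
      simp only [moment, Nat.cast_one, one_mul]
      field_simp
    have m2 : len G * (moment G 1).im = ∫ θ in Icc (0:ℝ) (2 * π), sin θ * dens G θ := by
      simp only [moment, Nat.cast_one, one_mul]
      field_simp
    have m3 : len G * (moment G 2).re = ∫ θ in Icc (0:ℝ) (2 * π), cos (2 * θ) * dens G θ := by
      simp only [moment, Nat.cast_ofNat]
      field_simp
    have m4 : len G * (moment G 2).im = ∫ θ in Icc (0:ℝ) (2 * π), sin (2 * θ) * dens G θ := by
      simp only [moment, Nat.cast_ofNat]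
      field_simp
    rw [e1, m1, m2, m3, m4, integral_add, integral_add, integral_add, integral_add,
      integral_const_mul, integral_const_mul, integral_const_mul, integral_const_mul,
      integral_const_mul]
    · rfl
    · exact i0.const_mul _
    · exact i1.const_mul _
    · exact (i0.const_mul _).add (i1.const_mul _)
    · exact i2.const_mul _
    · exact ((i0.const_mul _).add (i1.const_mul _)).add (i2.const_mul _)
    · exact i3.const_mul _
    · exact (((i0.const_mul _).add (i1.const_mul _)).add (i2.const_mul _)).add (i3.const_mul _)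
    · exact i4.const_mul _
  have n1 : ‖moment G 1‖ ^ 2 = (moment G 1).re ^ 2 + (moment G 1).im ^ 2 := by
    rw [Complex.sq_norm, Complex.normSq_apply]; ring
  have n2 : (moment G 2 - moment G 1 ^ 2).re =
      (moment G 2).re - ((moment G 1).re ^ 2 - (moment G 1).im ^ 2) := by
    rw [Complex.sub_re, pow_two, Complex.mul_re]; ring
  have n3 : (moment G 2 - moment G 1 ^ 2).im =
      (moment G 2).im - 2 * (moment G 1).re * (moment G 1).im := by
    rw [Complex.sub_im, pow_two, Complex.mul_im]; ring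
  rw [e2, n1, n2, n3]
  field_simp
  ring

end Pool.Agent.Helper22.Stek
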