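import Pool.Agent.Helper22.Stek.Upper2

/-! # The upper bound for `σ₂` -/

set_option autoImplicit false
open Real MeasureTheory Set

namespace Pool.Agent.Helper22.Stek

/-- the deficiency `1 - |m|² - |s - m²|` -/
noncomputable def defect (G : ℝ × ℝ → ℝ) : ℝ :=
  1 - ‖moment G 1‖ ^ 2 - ‖moment G 2 - moment G 1 ^ 2‖

lemma cs_complex (a b : ℝ) (z : ℂ) :
    -((a ^ 2 + b ^ 2) * ‖z‖) ≤ (a ^ 2 - b ^ 2) * z.re + 2 * a * b * z.im := by
  have h1 : ((a ^ 2 - b ^ 2) * z.re + 2 * a * b * z.im) ^ 2 ≤ ((a ^ 2 + b ^ 2) * ‖z‖) ^ 2 := by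
    have h2 : ‖z‖ ^ 2 = z.re ^ 2 + z.im ^ 2 := by
      rw [Complex.sq_norm, Complex.normSq_apply]; ring
    rw [mul_pow, h2]
    nlinarith [sq_nonneg ((a ^ 2 - b ^ 2) * z.im - 2 * a * b * z.re)]
  have h3 := abs_le_of_sq_le_sq' h1 (by positivity)
  exact h3.1

lemma bdry_ge {E F G : ℝ × ℝ → ℝ} (h : IsMetric E F G) (H : ℝ) (c : Fin 3 → ℝ) :
    len G * (defect G / 2 * (c 1 ^ 2 + c 2 ^ 2)) ≤ bdry G (wfun H c) := by
  have hL := len_pos h
  have h1 := bdry_test h H c
  rw [div_eq_iff hL.ne'] at h1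
  rw [h1, mul_comm]
  refine mul_le_mul_of_nonneg_right ?_ hL.le
  have h2 := cs_complex (c 1) (c 2) (moment G 2 - moment G 1 ^ 2)
  unfold defect
  nlinarith [sq_nonneg (c 0 + c 1 * (moment G 1).re + c 2 * (moment G 1).im)]

/-- **The upper bound** -/
theorem upper {E F G : ℝ × ℝ → ℝ} (h : IsMetric E F G) {H : ℝ} (hH : 0 < H)
    (hF : ∀ x : ℝ × ℝ, x.1 ∈ Icc (0:ℝ) 1 → F x = 0)
    (hE : ∀ x : ℝ × ℝ, x.1 ∈ Icc (0:ℝ) 1 → E x = H ^ 2 * G x) :
    sigma2 E F G * len G * defect G ≤ 4 * π * tanh (H / 2) := by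
  have hL := len_pos h
  have ht : 0 < tanh (H / 2) := by
    rw [tanh_eq_sinh_div_cosh]
    exact div_pos (sinh_pos_iff.2 (by positivity)) (cosh_pos _)
  have hs := sigma2_nonneg h
  rcases le_or_gt (defect G) 0 with hd | hd
  · calc sigma2 E F G * len G * defect G ≤ 0 :=
        mul_nonpos_of_nonneg_of_nonpos (mul_nonneg hs hL.le) hd
      _ ≤ _ := by positivity
  have h1 : maxQuot E F G (test H) ≤ 4 * π * tanh (H / 2) / (len G * defect G) := by
    have : Nonempty {c : Fin 3 → ℝ // c ≠ 0} := ⟨⟨fun _ => 1, fun h => by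
      have := congrFun h 0
      norm_num at this⟩⟩
    refine ciSup_le fun c => ?_
    have e : (∑ i, c.1 i • test H i) = wfun H c.1 := test_comb H c.1
    rw [e, energy_test h hH hF hE]
    have h2 := bdry_ge h H c.1
    have h3 : 0 ≤ c.1 1 ^ 2 + c.1 2 ^ 2 := by positivity
    rcases h3.eq_or_lt with h4 | h4
    · rw [← h4, mul_zero, zero_div]
      positivity
    · have h5 : 0 < len G * (defect G / 2 * (c.1 1 ^ 2 + c.1 2 ^ 2)) := by positivity
      rw [div_le_div_iff₀ (lt_of_lt_of_le h5 h2) (by positivity)]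
      calc 2 * π * tanh (H / 2) * (c.1 1 ^ 2 + c.1 2 ^ 2) * (len G * defect G)
          = 4 * π * tanh (H / 2) * (len G * (defect G / 2 * (c.1 1 ^ 2 + c.1 2 ^ 2))) := by ring
        _ ≤ _ := mul_le_mul_of_nonneg_left h2 (by positivity)
  have h2 := (sigma2_le h (adm_test H)).trans h1
  rw [le_div_iff₀ (by positivity)] at h2
  linarith [mul_assoc (sigma2 E F G) (len G) (defect G)]

/-- the moments vanish if the density of the boundary is invariant under a rotation by an angle
which is not a multiple of `π` -/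
lemma moment_eq_zero {E F G : ℝ × ℝ → ℝ} (h : IsMetric E F G) {α : ℝ} (hα : sin α ≠ 0)
    (hinv : ∀ θ, dens G (θ + α) = dens G θ) (k : ℕ) (hk : k = 1 ∨ k = 2) : moment G k = 0 := by
  have hd := dens_cont h
  have hp : ∀ θ, dens G (θ + 2 * π) = dens G θ := dens_per h
  -- the shifted integrals
  have e1 : ∀ f : ℝ → ℝ, Continuous f → Function.Periodic f (2 * π) →
      ∫ θ in Icc (0:ℝ) (2 * π), f θ = ∫ θ in Icc (0:ℝ) (2 * π), f (θ + α) := by
    intro f hf hfp
    rw [integral_Icc_eq_integral_Ioc, integral_Icc_eq_integral_Ioc,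
      ← intervalIntegral.integral_of_le (by positivity),
      ← intervalIntegral.integral_of_le (by positivity),
      intervalIntegral.integral_comp_add_right (fun θ => f θ) α]
    have := hfp.intervalIntegral_add_eq 0 (0 + α)
    rw [zero_add] at this
    rw [this]
    congr 1
    ring
  have hck : Function.Periodic (fun θ => cos (k * θ) * dens G θ) (2 * π) := by
    intro θ
    show cos (k * (θ + 2 * π)) * dens G (θ + 2 * π) = _
    rw [hp, mul_add, Real.cos_add_nat_mul_two_pi (k * θ) k]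
  have hsk : Function.Periodic (fun θ => sin (k * θ) * dens G θ) (2 * π) := by
    intro θ
    show sin (k * (θ + 2 * π)) * dens G (θ + 2 * π) = _
    rw [hp, mul_add, Real.sin_add_nat_mul_two_pi (k * θ) k]
  have i1 : IntegrableOn (fun θ => cos (k * θ) * dens G θ) (Icc (0:ℝ) (2 * π)) :=
    (Continuous.continuousOn (by fun_prop)).integrableOn_compact isCompact_Icc
  have i2 : IntegrableOn (fun θ => sin (k * θ) * dens G θ) (Icc (0:ℝ) (2 * π)) :=
    (Continuous.continuousOn (by fun_prop)).integrableOn_compact isCompact_Icc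
  set C := ∫ θ in Icc (0:ℝ) (2 * π), cos (k * θ) * dens G θ with hC
  set S := ∫ θ in Icc (0:ℝ) (2 * π), sin (k * θ) * dens G θ with hS
  have hC' : C = cos (k * α) * C - sin (k * α) * S := by
    have := e1 (fun θ => cos (k * θ) * dens G θ) (by fun_prop) hck
    rw [← hC] at this
    rw [hC, hS, ← integral_const_mul, ← integral_const_mul, ← integral_sub (i1.const_mul _)
      (i2.const_mul _), ← hC, this]
    refine setIntegral_congr_fun measurableSet_Icc fun θ _ => ?_
    simp only [hinv, mul_add, cos_add]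
    ring
  have hS' : S = sin (k * α) * C + cos (k * α) * S := by
    have := e1 (fun θ => sin (k * θ) * dens G θ) (by fun_prop) hsk
    rw [← hS] at this
    rw [hC, hS, ← integral_const_mul, ← integral_const_mul, ← integral_add (i1.const_mul _)
      (i2.const_mul _), ← hS, this]
    refine setIntegral_congr_fun measurableSet_Icc fun θ _ => ?_
    simp only [hinv, mul_add, sin_add]
    ring
  have hne : cos (k * α) ≠ 1 := by
    have hsq := sin_sq_add_cos_sq α
    have hpos : 0 < sin α ^ 2 := by positivity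
    rcases hk with rfl | rfl
    · intro h1
      rw [Nat.cast_one, one_mul] at h1
      rw [h1] at hsq
      nlinarith
    · intro h1
      rw [Nat.cast_ofNat, cos_two_mul] at h1
      nlinarith
  have hdet : 0 < (1 - cos (k * α)) ^ 2 + sin (k * α) ^ 2 := by
    have : 1 - cos (k * α) ≠ 0 := sub_ne_zero.2 hne.symm
    positivity
  have hC0 : C = 0 := by
    have : ((1 - cos (k * α)) ^ 2 + sin (k * α) ^ 2) * C = 0 := by
      linear_combination (1 - cos (k * α)) * hC' - sin (k * α) * hS'
    exact (mul_eq_zero.1 this).resolve_left hdet.ne'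
  have hS0 : S = 0 := by
    have : ((1 - cos (k * α)) ^ 2 + sin (k * α) ^ 2) * S = 0 := by
      linear_combination sin (k * α) * hC' + (1 - cos (k * α)) * hS'
    exact (mul_eq_zero.1 this).resolve_left hdet.ne'
  apply Complex.ext
  · show C / len G = 0
    rw [hC0, zero_div]
  · show S / len G = 0
    rw [hS0, zero_div]

end Pool.Agent.Helper22.Stek
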