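import Pool.Agent.Helper22.Stek.Four

/-! # The variance of a trigonometric polynomial with respect to the Poisson kernel -/

set_option autoImplicit false
open Real MeasureTheory Set ComplexConjugate

namespace Pool.Agent.Helper22.Stek

/-- the Poisson kernel at the point `a` -/
noncomputable def pk (a θ : ℝ) : ℝ := (1 - a ^ 2) * (1 / Complex.normSq (1 - (a : ℂ) * ee θ))

section

variable {a : ℝ}

lemma norm_a (ha0 : 0 ≤ a) (ha : a < 1) : ‖(a : ℂ)‖ < 1 := by
  rw [Complex.norm_real, Real.norm_of_nonneg ha0]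
  exact ha

lemma pk_cont (ha0 : 0 ≤ a) (ha : a < 1) : Continuous (pk a) :=
  continuous_const.mul (cont_inv_q (norm_a ha0 ha))

lemma pk_pos (ha0 : 0 ≤ a) (ha : a < 1) (θ : ℝ) : 0 < pk a θ := by
  have h1 : 0 < 1 - a ^ 2 := by nlinarith
  have h2 : 0 < Complex.normSq (1 - (a : ℂ) * ee θ) :=
    lt_of_le_of_ne (Complex.normSq_nonneg _) (Ne.symm (normSq_one_sub_ne (norm_a ha0 ha) θ))
  unfold pk
  positivity

lemma int_pk (ha0 : 0 ≤ a) (ha : a < 1) : ∫ θ in (0:ℝ)..(2 * π), pk a θ = 2 * π := by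
  unfold pk
  rw [intervalIntegral.integral_const_mul, poisson1 (norm_a ha0 ha), Complex.normSq_ofReal]
  have h1 : 1 - a ^ 2 ≠ 0 := by nlinarith
  rw [show 1 - a * a = 1 - a ^ 2 by ring]
  field_simp

/-- the coefficients of the polynomial `(F z - F a) / (z - a)` for `F z = Σ c n z ^ (n + 1)` -/
noncomputable def kc (a : ℝ) (c : ℕ → ℂ) (N m : ℕ) : ℂ :=
  ∑ n ∈ Finset.range N, if m ≤ n then c n * (a : ℂ) ^ (n - m) else 0

lemma div_diff (a : ℝ) (c : ℕ → ℂ) (N : ℕ) (z : ℂ) :
    z * pol c N z - a * pol c N a = (z - a) * pol (kc a c N) N z := by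
  unfold pol kc
  simp_rw [Finset.sum_mul]
  rw [Finset.sum_comm, Finset.mul_sum, Finset.mul_sum, Finset.mul_sum, ← Finset.sum_sub_distrib]
  refine Finset.sum_congr rfl fun n hn => ?_
  have h1 : ∑ m ∈ Finset.range N, (if m ≤ n then c n * (a : ℂ) ^ (n - m) else 0) * z ^ m =
      ∑ m ∈ Finset.range (n + 1), c n * (z ^ m * (a : ℂ) ^ (n - m)) := by
    have hsub : Finset.range (n + 1) ⊆ Finset.range N :=
      Finset.range_subset_range.2 (Finset.mem_range.1 hn)
    rw [← Finset.sum_subset hsub]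
    · refine Finset.sum_congr rfl fun m hm => ?_
      rw [if_pos (Nat.lt_succ_iff.1 (Finset.mem_range.1 hm))]
      ring
    · intro m _ hm
      rw [if_neg (fun h => hm (Finset.mem_range.2 (Nat.lt_succ_of_le h))), zero_mul]
  have h2 := geom_sum₂_mul z (a : ℂ) (n + 1)
  simp only [Nat.add_sub_cancel] at h2
  rw [h1, ← Finset.mul_sum]
  linear_combination (-c n) * h2

lemma normSq_ee_sub (a θ : ℝ) : Complex.normSq (ee θ - a) =
    Complex.normSq (1 - (a : ℂ) * ee θ) := by
  have h1 := ee_normSq θ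
  rw [Complex.normSq_apply] at h1 ⊢
  rw [Complex.normSq_apply]
  simp
  linear_combination (1 - a ^ 2) * h1

/-- **The variance** of the real part of a polynomial for the Poisson kernel -/
lemma int_var (ha0 : 0 ≤ a) (ha : a < 1) (c : ℕ → ℂ) (N : ℕ) :
    ∫ θ in (0:ℝ)..(2 * π), (ee θ * pol c N (ee θ) - a * pol c N a).re ^ 2 * pk a θ =
      π * ((1 - a ^ 2) * ∑ m ∈ Finset.range N, Complex.normSq (kc a c N m)) := by
  have hna := norm_a ha0 ha
  set K := pol (kc a c N) N with hK
  have hKd : Differentiable ℂ K := pol_diff _ _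
  have hKc : Continuous fun θ => K (ee θ) := hKd.continuous.comp ee_cont
  have hee := ee_cont
  have hne : ∀ θ, (1 - (a : ℂ) * ee θ) ≠ 0 := fun θ => one_sub_ne hna (ee_norm θ).le
  -- the analytic function
  have hg1 : ContinuousOn (fun z : ℂ => ((1 - a ^ 2 : ℝ) : ℂ) * z * (z - a) * K z ^ 2 /
      (1 - (a : ℂ) * z)) (Metric.closedBall 0 1) :=
    ContinuousOn.div (((continuous_const.mul continuous_id).mul
      (continuous_id.sub continuous_const)).mul (hKd.continuous.pow 2)).continuousOn
      (by fun_prop) fun z hz => one_sub_ne hna (by simpa using hz)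
  have hg2 : ∀ z ∈ Metric.ball (0:ℂ) 1, DifferentiableAt ℂ (fun z : ℂ =>
      ((1 - a ^ 2 : ℝ) : ℂ) * z * (z - a) * K z ^ 2 / (1 - (a : ℂ) * z)) z := by
    intro z hz
    have h1 : DifferentiableAt ℂ (fun z : ℂ => ((1 - a ^ 2 : ℝ) : ℂ) * z * (z - a)) z := by
      fun_prop
    have h2 : DifferentiableAt ℂ (fun z : ℂ => 1 - (a : ℂ) * z) z := by fun_prop
    exact (h1.mul ((hKd z).pow 2)).div h2
      (one_sub_ne hna (by simpa using (Metric.mem_ball.1 hz).le))
  have hg := mvp hg1 hg2
  simp only [mul_zero, zero_mul, zero_div] at hg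
  have hgc : Continuous fun θ => ((1 - a ^ 2 : ℝ) : ℂ) * ee θ * (ee θ - a) * K (ee θ) ^ 2 /
      (1 - (a : ℂ) * ee θ) :=
    Continuous.div (((continuous_const.mul hee).mul (hee.sub continuous_const)).mul
      (hKc.pow 2)) (by fun_prop) hne
  have e : ∀ θ, (ee θ * pol c N (ee θ) - a * pol c N a).re ^ 2 * pk a θ =
      1 / 2 * ((1 - a ^ 2) * Complex.normSq (K (ee θ))) +
        1 / 2 * (((1 - a ^ 2 : ℝ) : ℂ) * ee θ * (ee θ - a) * K (ee θ) ^ 2 /
          (1 - (a : ℂ) * ee θ)).re := by
    intro θ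
    have hq := normSq_one_sub_ne hna θ
    rw [div_diff, re_sq_half, add_mul]
    congr 1
    · rw [Complex.normSq_mul, normSq_ee_sub, pk, hK]
      field_simp
    · have h1 : (((ee θ - a) * K (ee θ)) ^ 2) * ((pk a θ : ℝ) : ℂ) =
          ((1 - a ^ 2 : ℝ) : ℂ) * ee θ * (ee θ - a) * K (ee θ) ^ 2 / (1 - (a : ℂ) * ee θ) := by
        have h2 : ((Complex.normSq (1 - (a : ℂ) * ee θ) : ℝ) : ℂ) =
            (1 - (a : ℂ) * ee θ) * (1 - a * conj (ee θ)) := by
          rw [← Complex.mul_conj]
          simp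
        have h3 : ee θ * (1 - a * conj (ee θ)) = ee θ - a := by
          have := ee_conj θ
          linear_combination (-(a : ℂ)) * this
        have h4 : (1 - a * conj (ee θ)) ≠ 0 := by
          intro h
          rw [h, mul_zero, Complex.ofReal_eq_zero] at h2
          exact hq h2
        have h5 := hne θ
        unfold pk
        rw [Complex.ofReal_mul, Complex.ofReal_div, h2, Complex.ofReal_one, ← h3]
        generalize 1 - (a : ℂ) * conj (ee θ) = q at h4 ⊢
        generalize 1 - (a : ℂ) * ee θ = X at h5 ⊢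
        field_simp
      rw [← h1, Complex.re_mul_ofReal]
      ring
  have c1 : Continuous fun θ => Complex.normSq (K (ee θ)) :=
    Complex.continuous_normSq.comp hKc
  have c2 : Continuous fun θ => (((1 - a ^ 2 : ℝ) : ℂ) * ee θ * (ee θ - a) * K (ee θ) ^ 2 /
      (1 - (a : ℂ) * ee θ)).re := Complex.continuous_re.comp hgc
  rw [intervalIntegral.integral_congr (fun θ _ => e θ), intervalIntegral.integral_add
    (Continuous.intervalIntegrable (by fun_prop) _ _)
    ((c2.const_mul _).intervalIntegrable _ _), intervalIntegral.integral_const_mul,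
    intervalIntegral.integral_const_mul, intervalIntegral.integral_const_mul, int_re' hgc, hg,
    hK, int_normSq_pol]
  simp
  ring

/-- the Cauchy-Schwarz inequality with real weights -/
lemma normSq_sum_le (s : Finset ℕ) (x : ℕ → ℂ) (y : ℕ → ℝ) :
    Complex.normSq (∑ n ∈ s, x n * (y n : ℂ)) ≤
      (∑ n ∈ s, Complex.normSq (x n)) * ∑ n ∈ s, y n ^ 2 := by
  have h1 : ‖∑ n ∈ s, x n * (y n : ℂ)‖ ≤ ∑ n ∈ s, ‖x n‖ * |y n| := by
    refine (norm_sum_le _ _).trans (Finset.sum_le_sum fun n _ => ?_)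
    rw [norm_mul, Complex.norm_real, Real.norm_eq_abs]
  have h2 := Finset.sum_mul_sq_le_sq_mul_sq s (fun n => ‖x n‖) (fun n => |y n|)
  simp only [sq_abs] at h2
  rw [Complex.normSq_eq_norm_sq]
  simp_rw [Complex.normSq_eq_norm_sq]
  refine le_trans ?_ h2
  exact pow_le_pow_left₀ (norm_nonneg _) h1 2

lemma geo_le (ha0 : 0 ≤ a) (ha : a < 1) (m N : ℕ) :
    (1 - a ^ 2) * ∑ n ∈ Finset.range N, (if m ≤ n then a ^ (n - m) else 0) ^ 2 ≤ 1 := by
  have h1 : ∑ n ∈ Finset.range N, (if m ≤ n then a ^ (n - m) else 0) ^ 2 ≤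
      ∑ k ∈ Finset.range N, (a ^ 2) ^ k := by
    induction N generalizing m with
    | zero => simp
    | succ N ih =>
      rcases Nat.eq_zero_or_pos m with hm | hm
      · subst hm
        refine le_of_eq (Finset.sum_congr rfl fun n _ => ?_)
        simp [← pow_mul, mul_comm]
      · obtain ⟨k, rfl⟩ : ∃ k, m = k + 1 := ⟨m - 1, by omega⟩
        rw [Finset.sum_range_succ', Finset.sum_range_succ]
        have h2 := ih k
        have h3 : ∑ n ∈ Finset.range N, (if k + 1 ≤ n + 1 then a ^ (n + 1 - (k + 1)) else 0) ^ 2 =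
            ∑ n ∈ Finset.range N, (if k ≤ n then a ^ (n - k) else 0) ^ 2 := by
          refine Finset.sum_congr rfl fun n _ => ?_
          simp
        rw [h3]
        have h4 : 0 ≤ (a ^ 2) ^ N := by positivity
        simp only [Nat.le_zero, Nat.add_eq_zero_iff, one_ne_zero, and_false, if_false]
        linarith
  have h2 : (1 - a ^ 2) * ∑ k ∈ Finset.range N, (a ^ 2) ^ k = 1 - (a ^ 2) ^ N := by
    have := mul_neg_geom_sum (a ^ 2) N
    linarith
  have h3 : 0 ≤ (a ^ 2) ^ N := by positivity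
  have h4 : 0 ≤ 1 - a ^ 2 := by nlinarith
  have h5 := mul_le_mul_of_nonneg_left h1 h4
  linarith

lemma kc_eq (c : ℕ → ℂ) (N m : ℕ) : kc a c N m = ∑ n ∈ Finset.range N,
    (if m ≤ n then c n else 0) * (((if m ≤ n then a ^ (n - m) else 0 : ℝ)) : ℂ) := by
  unfold kc
  refine Finset.sum_congr rfl fun n _ => ?_
  split_ifs <;> simp

/-- the sharp bound for the variance -/
lemma kc_high (ha0 : 0 ≤ a) (ha : a < 1) (c : ℕ → ℂ) (N : ℕ) :
    (1 - a ^ 2) * ∑ m ∈ Finset.range N, Complex.normSq (kc a c N m) ≤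
      ∑ n ∈ Finset.range N, (n + 1 : ℕ) * Complex.normSq (c n) := by
  rw [Finset.mul_sum]
  have h1 : ∀ m ∈ Finset.range N, (1 - a ^ 2) * Complex.normSq (kc a c N m) ≤
      ∑ n ∈ Finset.range N, if m ≤ n then Complex.normSq (c n) else 0 := by
    intro m _
    rw [kc_eq]
    have h2 := normSq_sum_le (Finset.range N) (fun n => if m ≤ n then c n else 0)
      (fun n => if m ≤ n then a ^ (n - m) else 0)
    have h3 := geo_le ha0 ha m N
    have h4 : 0 ≤ 1 - a ^ 2 := by nlinarith
    have e : ∑ n ∈ Finset.range N, Complex.normSq (if m ≤ n then c n else 0) =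
        ∑ n ∈ Finset.range N, if m ≤ n then Complex.normSq (c n) else 0 := by
      refine Finset.sum_congr rfl fun n _ => ?_
      split_ifs <;> simp
    rw [e] at h2
    have h5 : 0 ≤ ∑ n ∈ Finset.range N, if m ≤ n then Complex.normSq (c n) else 0 :=
      Finset.sum_nonneg fun n _ => by
        split_ifs
        · exact Complex.normSq_nonneg _
        · exact le_refl _
    have h6 := mul_le_mul_of_nonneg_left h2 h4
    have h7 := mul_le_mul_of_nonneg_left h3 h5
    linarith
  refine (Finset.sum_le_sum h1).trans ?_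
  rw [Finset.sum_comm]
  refine Finset.sum_le_sum fun n hn => ?_
  rw [← Finset.sum_filter, Finset.sum_const, nsmul_eq_mul]
  refine mul_le_mul_of_nonneg_right ?_ (Complex.normSq_nonneg _)
  have h2 : (Finset.range N).filter (fun m => m ≤ n) ⊆ Finset.range (n + 1) := by
    intro m hm
    rw [Finset.mem_filter] at hm
    exact Finset.mem_range.2 (Nat.lt_succ_of_le hm.2)
  have h3 := Finset.card_le_card h2
  rw [Finset.card_range] at h3
  exact_mod_cast h3

/-- the bound for the contribution of the low frequencies -/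
lemma kc_low (ha0 : 0 ≤ a) (ha : a < 1) (c : ℕ → ℂ) (N M : ℕ) (hc : ∀ n, M ≤ n → c n = 0) :
    ∑ m ∈ Finset.range N, Complex.normSq (kc a c N m) ≤
      (M : ℝ) ^ 2 * ∑ n ∈ Finset.range N, Complex.normSq (c n) := by
  set S := ∑ n ∈ Finset.range N, Complex.normSq (c n) with hS
  have hS0 : 0 ≤ S := Finset.sum_nonneg fun n _ => Complex.normSq_nonneg _
  have h1 : ∀ m ∈ Finset.range N, Complex.normSq (kc a c N m) ≤
      if m < M then (M : ℝ) * S else 0 := by
    intro m _
    split_ifs with hm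
    · rw [kc_eq]
      have e0 : ∑ n ∈ Finset.range N, (if m ≤ n then c n else 0) *
          (((if m ≤ n then a ^ (n - m) else 0 : ℝ)) : ℂ) =
          ∑ n ∈ Finset.range N, c n * (((if m ≤ n ∧ n < M then a ^ (n - m) else 0 : ℝ)) : ℂ) := by
        refine Finset.sum_congr rfl fun n _ => ?_
        by_cases h2 : m ≤ n
        · by_cases h3 : n < M
          · simp [h2, h3]
          · simp [h2, hc n (not_lt.1 h3)]
        · simp [h2]
      rw [e0]
      refine (normSq_sum_le _ _ _).trans ?_
      rw [← hS, mul_comm]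
      refine mul_le_mul_of_nonneg_right ?_ hS0
      have h2 : ∀ n ∈ Finset.range N, (if m ≤ n ∧ n < M then a ^ (n - m) else 0) ^ 2 ≤
          if n < M then (1:ℝ) else 0 := by
        intro n _
        split_ifs with h3 h4 h5
        · have : a ^ (n - m) ≤ 1 := pow_le_one₀ ha0 ha.le
          have h0 : 0 ≤ a ^ (n - m) := by positivity
          nlinarith
        · exact absurd h3.2 h4
        · norm_num
        · norm_num
      refine (Finset.sum_le_sum h2).trans ?_
      rw [← Finset.sum_filter, Finset.sum_const, nsmul_eq_mul, mul_one]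
      have h3 : (Finset.range N).filter (fun n => n < M) ⊆ Finset.range M := by
        intro n hn
        rw [Finset.mem_filter] at hn
        exact Finset.mem_range.2 hn.2
      have h4 := Finset.card_le_card h3
      rw [Finset.card_range] at h4
      exact_mod_cast h4
    · have e : kc a c N m = 0 := by
        unfold kc
        refine Finset.sum_eq_zero fun n _ => ?_
        split_ifs with h2
        · rw [hc n (le_trans (not_lt.1 hm) h2), zero_mul]
        · rfl
      rw [e, map_zero]
  refine (Finset.sum_le_sum h1).trans ?_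
  rw [← Finset.sum_filter, Finset.sum_const, nsmul_eq_mul]
  have h3 : (Finset.range N).filter (fun n => n < M) ⊆ Finset.range M := by
    intro n hn
    rw [Finset.mem_filter] at hn
    exact Finset.mem_range.2 hn.2
  have h4 := Finset.card_le_card h3
  rw [Finset.card_range] at h4
  have h5 : (((Finset.range N).filter (fun n => n < M)).card : ℝ) ≤ M := by exact_mod_cast h4
  have h6 : 0 ≤ (M : ℝ) * S := by positivity
  have := mul_le_mul_of_nonneg_right h5 h6
  linarith

lemma normSq_add_le {s : ℝ} (hs : 0 < s) (x y : ℂ) :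
    Complex.normSq (x + y) ≤ (1 + 1 / s) * Complex.normSq x + (1 + s) * Complex.normSq y := by
  have h : (1 + 1 / s) * Complex.normSq x + (1 + s) * Complex.normSq y - Complex.normSq (x + y) =
      1 / s * Complex.normSq (x - s * y) := by
    simp only [Complex.normSq_apply]
    simp
    field_simp
    ring
  have h2 : 0 ≤ 1 / s * Complex.normSq (x - s * y) :=
    mul_nonneg (by positivity) (Complex.normSq_nonneg _)
  linarith

/-- **The bound for the variance**: the low frequencies contribute little if `a` is close to `1` -/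
lemma kc_bound (ha0 : 0 ≤ a) (ha : a < 1) (c : ℕ → ℂ) (N M : ℕ) {s : ℝ} (hs : 0 < s) :
    (1 - a ^ 2) * ∑ m ∈ Finset.range N, Complex.normSq (kc a c N m) ≤
      ∑ n ∈ Finset.range N, (if n < M then (1 + 1 / s) * ((1 - a ^ 2) * (M : ℝ) ^ 2) else
        (1 + s) * (n + 1 : ℕ)) * Complex.normSq (c n) := by
  have h0 : 0 ≤ 1 - a ^ 2 := by nlinarith
  set c1 : ℕ → ℂ := fun n => if n < M then c n else 0 with hc1
  set c2 : ℕ → ℂ := fun n => if n < M then 0 else c n with hc2
  have e : ∀ m, kc a c N m = kc a c1 N m + kc a c2 N m := by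
    intro m
    unfold kc
    rw [← Finset.sum_add_distrib]
    refine Finset.sum_congr rfl fun n _ => ?_
    by_cases h1 : m ≤ n <;> by_cases h2 : n < M <;> simp [h1, h2, hc1, hc2]
  have h1 : ∀ m ∈ Finset.range N, Complex.normSq (kc a c N m) ≤
      (1 + 1 / s) * Complex.normSq (kc a c1 N m) + (1 + s) * Complex.normSq (kc a c2 N m) := by
    intro m _
    rw [e]
    exact normSq_add_le hs _ _
  have h2 := mul_le_mul_of_nonneg_left (Finset.sum_le_sum h1) h0
  rw [Finset.sum_add_distrib, ← Finset.mul_sum, ← Finset.mul_sum] at h2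
  have h3 := kc_low ha0 ha c1 N M (fun n hn => by simp [hc1, not_lt.2 hn])
  have h4 := kc_high ha0 ha c2 N
  have h5 : 0 ≤ (1 + 1 / s) * (1 - a ^ 2) := by positivity
  have h6 := mul_le_mul_of_nonneg_left h3 h5
  have h7 := mul_le_mul_of_nonneg_left h4 (show 0 ≤ 1 + s by positivity)
  have e2 : ∑ n ∈ Finset.range N, (if n < M then (1 + 1 / s) * ((1 - a ^ 2) * (M : ℝ) ^ 2) else
        (1 + s) * (n + 1 : ℕ)) * Complex.normSq (c n) =
      (1 + 1 / s) * (1 - a ^ 2) * ((M : ℝ) ^ 2 * ∑ n ∈ Finset.range N, Complex.normSq (c1 n)) +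
        (1 + s) * ∑ n ∈ Finset.range N, (n + 1 : ℕ) * Complex.normSq (c2 n) := by
    rw [Finset.mul_sum, Finset.mul_sum, Finset.mul_sum, ← Finset.sum_add_distrib]
    refine Finset.sum_congr rfl fun n _ => ?_
    by_cases h8 : n < M
    · simp [h8, hc1, hc2]
      ring
    · simp [h8, hc1, hc2]
      ring
  rw [e2]
  nlinarith

end

end Pool.Agent.Helper22.Stek
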